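import Pool.Agent.H77.MF.Rt

/-!
# MF-CF: cubic polynomials over a finite field (row: SX MF CF)

`k` a finite field with `6 ≠ 0`, `p = X³ + b X² + c X + d`, `n` = number of different monic irreducible factors, `r` = number of different roots, `δ = 1` if `disc (1, b, c, d) = 0`, else `0`.
Claim: `1 ≤ n` and `2^(n-1) - 1 = r - δ`.
Proof. No root: `p` is irreducible (degree 3: `Polynomial.Monic.irreducible_iff_roots_eq_zero_of_degree_le_three` or `Polynomial.irreducible_of_degree_le_three_of_not_isRoot`), `n = 1`, and `δ = 0` because `disc = 0` would give a zero of the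
form `(1, b, c, d)` in `P¹(k)` by `disc_root`, which is not `(1 : 0)`, so a root. With a root `x`: `p = (X - x) s`, `s = X² + e X + g` monic quadratic with `b = e - x`, `c = g - x e`, `d = - x g`.
`disc (1, b, c, d) = (e² - 4 g) (x² + e x + g)²` (`ring`). If `s` has no root: `s` is irreducible, `n = 2`, `r = 1`, `s(x) ≠ 0`, and `e² - 4g ≠ 0` (otherwise `-e/2` is a root): `δ = 0`: `1 = 1`.
If `s = (X - y)(X - z)`: `e = -(y+z)`, `g = yz`: `disc = (y-z)² (x-y)² (x-z)²`: all different: `n = 3`, `r = 3`, `δ = 0`: `3 = 3`; exactly two equal: `n = 2`, `r = 2`, `δ = 1`: `1 = 1`; all equal: `n = 1`, `r = 1`, `δ = 1`: `0 = 0`.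
`n`: `UniqueFactorizationMonoid.normalizedFactors` of a product (`normalizedFactors_mul`, `normalizedFactors_irreducible`, `normalize` of monic polynomials: `Polynomial.Monic.normalize_eq_self`), `Multiset.toFinset`.
-/

set_option autoImplicit false

open Polynomial UniqueFactorizationMonoid
open scoped Classical

noncomputable section

namespace H77.MF

private theorem nf_lin {k : Type} [Field k] (x : k) :
    normalizedFactors (X - C x : k[X]) = {X - C x} := by
  rw [normalizedFactors_irreducible (irreducible_X_sub_C x), (monic_X_sub_C x).normalize_eq_self]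

private theorem three {k : Type} [Field k] [Finite k] (x y z b c d : k) (hb : b = -(x + y + z))
    (hc : c = x * y + x * z + y * z) (hd : d = -(x * y * z)) :
    1 ≤ (normalizedFactors (X ^ 3 + C b * X ^ 2 + C c * X + C d : k[X])).toFinset.card ∧
    (2 : ℝ) ^ ((normalizedFactors (X ^ 3 + C b * X ^ 2 + C c * X + C d : k[X])).toFinset.card - 1) - 1 =
      ({x : k | x ^ 3 + b * x ^ 2 + c * x + d = 0}.ncard : ℝ) -
        (if disc ![1, b, c, d] = 0 then 1 else 0) := by
  have hp : (X ^ 3 + C b * X ^ 2 + C c * X + C d : k[X]) = (X - C x) * ((X - C y) * (X - C z)) := by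
    rw [hb, hc, hd]
    simp only [map_neg, map_add, map_mul]
    ring
  have hnf : (normalizedFactors (X ^ 3 + C b * X ^ 2 + C c * X + C d : k[X])).toFinset =
      ({x, y, z} : Finset k).image fun t => X - C t := by
    rw [hp, normalizedFactors_mul (X_sub_C_ne_zero x) (mul_ne_zero (X_sub_C_ne_zero y)
      (X_sub_C_ne_zero z)), normalizedFactors_mul (X_sub_C_ne_zero y) (X_sub_C_ne_zero z),
      nf_lin, nf_lin, nf_lin]
    ext t
    simp
    tauto
  have hinj : Function.Injective fun t : k => (X - C t : k[X]) := by
    intro s t h
    exact C_injective (sub_right_injective h)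
  have hr : {t : k | t ^ 3 + b * t ^ 2 + c * t + d = 0} = (({x, y, z} : Finset k) : Set k) := by
    ext t
    have e : t ^ 3 + b * t ^ 2 + c * t + d = (t - x) * ((t - y) * (t - z)) := by
      rw [hb, hc, hd]
      ring
    simp [e, sub_eq_zero]
  have hdisc : disc ![1, b, c, d] = ((y - z) * (x - y) * (x - z)) ^ 2 := by
    rw [hb, hc, hd]
    simp [disc]
    ring
  rw [hnf, hr, Finset.card_image_of_injective _ hinj, Set.ncard_coe_finset, hdisc]
  by_cases hxy : x = y
  · subst hxy
    by_cases hxz : x = z
    · subst hxz
      simp
    · have : ({x, x, z} : Finset k) = {x, z} := by simp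
      rw [this, Finset.card_pair hxz]
      norm_num
  · by_cases hxz : x = z
    · subst hxz
      have : ({x, y, x} : Finset k) = {y, x} := by
        ext t
        simp
      rw [this, Finset.card_pair (Ne.symm hxy)]
      norm_num
    · by_cases hyz : y = z
      · subst hyz
        have : ({x, y, y} : Finset k) = {x, y} := by simp
        rw [this, Finset.card_pair hxy]
        norm_num
      · have h3 : ({x, y, z} : Finset k).card = 3 := by
          rw [Finset.card_eq_three]
          exact ⟨x, y, z, hxy, hxz, hyz, rfl⟩
        have h0 : ((y - z) * (x - y) * (x - z)) ^ 2 ≠ 0 :=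
          pow_ne_zero _ (mul_ne_zero (mul_ne_zero (sub_ne_zero.2 hyz) (sub_ne_zero.2 hxy))
            (sub_ne_zero.2 hxz))
        rw [h3, if_neg h0]
        norm_num

theorem cubic_count {k : Type} [Field k] [Finite k] (h6 : (6 : k) ≠ 0) (b c d : k) :
    1 ≤ (normalizedFactors (X ^ 3 + C b * X ^ 2 + C c * X + C d : k[X])).toFinset.card ∧
    (2 : ℝ) ^ ((normalizedFactors (X ^ 3 + C b * X ^ 2 + C c * X + C d : k[X])).toFinset.card - 1) - 1 =
      ({x : k | x ^ 3 + b * x ^ 2 + c * x + d = 0}.ncard : ℝ) -
        (if disc ![1, b, c, d] = 0 then 1 else 0) := by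
  have h2 : (2 : k) ≠ 0 := fun h => h6 (by linear_combination 3 * h)
  by_cases hroot : ∃ x : k, x ^ 3 + b * x ^ 2 + c * x + d = 0
  · obtain ⟨x, hx⟩ := hroot
    obtain ⟨e, he⟩ : ∃ e, e = b + x := ⟨_, rfl⟩
    obtain ⟨g, hg⟩ : ∃ g, g = c + x * e := ⟨_, rfl⟩
    have hd : d = -(x * g) := by
      rw [hg, he]
      linear_combination hx
    by_cases hs : ∃ y : k, y ^ 2 + e * y + g = 0
    · obtain ⟨y, hy⟩ := hs
      refine three x y (-e - y) b c d ?_ ?_ ?_
      · rw [he]; ring
      · linear_combination hy - hg
      · rw [hd]
        linear_combination (-x) * hy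
    · push Not at hs
      have hp : (X ^ 3 + C b * X ^ 2 + C c * X + C d : k[X]) =
          (X - C x) * (X ^ 2 + C e * X + C g) := by
        have hb' : b = e - x := by rw [he]; ring
        have hc' : c = g - x * e := by rw [hg]; ring
        rw [hb', hc', hd]
        simp only [map_sub, map_neg, map_mul]
        ring
      have hmon : (X ^ 2 + C e * X + C g : k[X]).Monic := by
        monicity!
      have hdeg : (X ^ 2 + C e * X + C g : k[X]).natDegree = 2 := by
        compute_degree!
      have hirr : Irreducible (X ^ 2 + C e * X + C g : k[X]) := by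
        refine (Monic.irreducible_iff_roots_eq_zero_of_degree_le_three hmon (by rw [hdeg])
          (by rw [hdeg]; norm_num)).2 ?_
        rw [Multiset.eq_zero_iff_forall_notMem]
        intro y hy
        rw [mem_roots hmon.ne_zero] at hy
        apply hs y
        simpa using hy
      have hne : (X - C x : k[X]) ≠ X ^ 2 + C e * X + C g := by
        intro h
        have := congrArg natDegree h
        rw [hdeg, natDegree_X_sub_C] at this
        omega
      have hnf : (normalizedFactors (X ^ 3 + C b * X ^ 2 + C c * X + C d : k[X])).toFinset =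
          {X - C x, X ^ 2 + C e * X + C g} := by
        rw [hp, normalizedFactors_mul (X_sub_C_ne_zero x) hmon.ne_zero, nf_lin,
          normalizedFactors_irreducible hirr, hmon.normalize_eq_self]
        ext t
        simp
      have hr : {t : k | t ^ 3 + b * t ^ 2 + c * t + d = 0} = {x} := by
        ext t
        have e1 : t ^ 3 + b * t ^ 2 + c * t + d = (t - x) * (t ^ 2 + e * t + g) := by
          have hb' : b = e - x := by rw [he]; ring
          have hc' : c = g - x * e := by rw [hg]; ring
          rw [hb', hc', hd]
          ring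
        simp [e1, sub_eq_zero, hs t]
      have hdisc : disc ![1, b, c, d] = (e ^ 2 - 4 * g) * (x ^ 2 + e * x + g) ^ 2 := by
        have hb' : b = e - x := by rw [he]; ring
        have hc' : c = g - x * e := by rw [hg]; ring
        rw [hb', hc', hd]
        simp [disc]
        ring
      have h0 : disc ![1, b, c, d] ≠ 0 := by
        rw [hdisc]
        refine mul_ne_zero ?_ (pow_ne_zero _ (hs x))
        intro h
        apply hs (-e / 2)
        field_simp
        linear_combination (-1 : k) * h
      rw [hnf, hr, Finset.card_pair hne, Set.ncard_singleton, if_neg h0]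
      norm_num
  · push Not at hroot
    have hmon : (X ^ 3 + C b * X ^ 2 + C c * X + C d : k[X]).Monic := by
      monicity!
    have hdeg : (X ^ 3 + C b * X ^ 2 + C c * X + C d : k[X]).natDegree = 3 := by
      compute_degree!
    have hirr : Irreducible (X ^ 3 + C b * X ^ 2 + C c * X + C d : k[X]) := by
      refine (Monic.irreducible_iff_roots_eq_zero_of_degree_le_three hmon (by rw [hdeg]; norm_num)
        (by rw [hdeg])).2 ?_
      rw [Multiset.eq_zero_iff_forall_notMem]
      intro y hy
      rw [mem_roots hmon.ne_zero] at hy
      apply hroot y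
      simpa using hy
    have hr : {t : k | t ^ 3 + b * t ^ 2 + c * t + d = 0} = ∅ := by
      ext t
      simp [hroot t]
    have h0 : disc ![1, b, c, d] ≠ 0 := by
      intro h
      obtain ⟨v, hv, hev⟩ := disc_root h6 h
      by_cases hv1 : v 1 = 0
      · apply hv
        have : v 0 = 0 := by
          simp [ev, hv1] at hev
          exact hev
        funext i
        fin_cases i <;> simp [this, hv1]
      · apply hroot (v 0 / v 1)
        simp [ev] at hev
        field_simp
        linear_combination hev
    rw [normalizedFactors_irreducible hirr, hmon.normalize_eq_self, hr, if_neg h0]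
    simp

end H77.MF
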