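import Pool.Agent.H77.MF.Nm2

/-!
# MF-NM2B: the local criterion for `NM` in a local basis, sufficiency (row: SX MF NM2B)

`hL : Lt Λ`, `(v, w)` a basis of `Λ` at `l`, `f ∈ VL Λ`, `g = gf v w f` (`In l`). Claim: `f ∈ NM l Λ ↔ NML l g`. `A` is the local ring `{v(x) ≤ 1}`, `π` a uniformizer.

`nm_of`: case `g = 0` mod `l`: `Λ' = linv l Λ`; `f ∈ VL Λ'` by `vl_of_all`: at `l' ≠ l` take a basis of `Λ` at `l'` (`bas_ex`), it is one of `Λ'` (`bas_loc`, `mid_loc`), `vl_in`. At `l`: `bas_linv`: `gf (π⁻¹v) (π⁻¹w) f =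
 π⁻¹ g`. `Λ < Λ'`: `π⁻¹ v` is locally in `Λ'`, not in `Λ` (coordinates `(π⁻¹, 0)`). Case `p₀`: complete `p₀` to `q₀` as above. `Λ' = {p | (∀ s ∈ l, s • p ∈ Λ) ∧ ∃ a : 𝓞 K, Lc l Λ (p - a • π⁻¹ • cb v w p₀)}`, a submodule with
 `Λ ≤ Λ' ≤ linv l Λ`. `Bas l Λ' (π⁻¹ cb v w p₀) (cb v w q₀)`: the first vector is locally in `Λ'`: `Lc l (linv l Λ)` by `linv_lc` (`s • ` it is in `linv l Λ`, then in `Λ'` with `a = s`); coordinates of `p ∈ Λ'`: `p - a • .. ∈ Λ` locally, `In l`.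
 `gf (π⁻¹p₀) q₀ g = (π / dt p₀ q₀) · (π⁻³ ev g p₀, π⁻² (q₀·grad g(p₀)), π⁻¹ (p₀ · grad g(q₀)), ev g q₀)`, all integral. Conclude with `vl_of_all`, `gf_gf`. Strict: `π⁻¹ cb v w p₀` is not locally in `Λ`.
-/

set_option autoImplicit false

open scoped NumberField Classical
open IsDedekindDomain H38.ML H63.MA H67.SX

noncomputable section

namespace H77.MF

variable {K : Type} [Field K] [NumberField K] {l : Pl K} {Λ : Submodule (𝓞 K) (Fin 2 → K)}
  {v w : Fin 2 → K} {f : Fin 4 → K}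

private theorem n_nz {π : 𝓞 K} (hπ : l.valuation K (π : K) = WithZero.exp (-1 : ℤ)) : (π : K) ≠ 0 := by
  intro h0
  rw [h0, map_zero] at hπ
  exact WithZero.exp_ne_zero hπ.symm

private theorem n_inv {π : 𝓞 K} (hπ : l.valuation K (π : K) = WithZero.exp (-1 : ℤ)) :
    l.valuation K ((π : K)⁻¹) = WithZero.exp (1 : ℤ) := by
  rw [map_inv₀, hπ, ← WithZero.exp_neg, neg_neg]

private theorem n_smul (s : 𝓞 K) (p : Fin 2 → K) : s • p = (s : K) • p := bs_smul s p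

private theorem key (hL : Lt Λ) (h : Bas l Λ v w) (hf : f ∈ VL Λ)
    {Λ' : Submodule (𝓞 K) (Fin 2 → K)} (h1 : Λ ≤ Λ') (h2 : l.asIdeal • Λ' ≤ Λ)
    {π : 𝓞 K} (hπ : l.valuation K (π : K) = WithZero.exp (-1 : ℤ)) {v' w' : Fin 2 → K}
    (hb : Bas l Λ' v' w') (hg : In l (gf v' w' f)) (hp : Lc l Λ' ((π : K)⁻¹ • v)) :
    f ∈ NM l Λ := by
  refine ⟨hf, Λ', lt_of_le_not_ge h1 fun h3 => ?_, h2, vl_of_all fun l' => ?_⟩
  · have h4 := (bas_lc h _).1 (lc_mono h3 hp) 0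
    have h5 : co v w ((π : K)⁻¹ • v) 0 = (π : K)⁻¹ := by
      show dt ((π : K)⁻¹ • v) w / dt v w = _
      rw [dt_smul_left, mul_div_cancel_right₀ _ h.nz]
    rw [h5, n_inv hπ, ← WithZero.exp_zero, WithZero.exp_le_exp] at h4
    norm_num at h4
  · by_cases hl : l' = l
    · subst hl
      exact ⟨v', w', hb, hg⟩
    · obtain ⟨a, -, b, -, hab⟩ := bas_ex hL l'
      exact ⟨a, b, bas_loc hab (mid_loc h1 h2 hl), vl_in hab hf⟩

private theorem n_self {π : 𝓞 K} (hπ : l.valuation K (π : K) = WithZero.exp (-1 : ℤ)) (p : Fin 2 → K) :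
    π • (π : K)⁻¹ • p = p := by
  rw [n_smul, smul_smul, mul_inv_cancel₀ (n_nz hπ), one_smul]

/-- the first case -/
private theorem n_zero (hL : Lt Λ) (h : Bas l Λ v w) (hf : f ∈ VL Λ) (hN : Cg l 1 (gf v w f) 0) :
    f ∈ NM l Λ := by
  obtain ⟨π, hπ⟩ := unif l
  have h0 := n_nz hπ
  have hb := bas_linv hπ h
  refine key hL h hf (self_le_linv l Λ) (le_linv.1 le_rfl) hπ hb (fun i => ?_) hb.hv
  have e : gf ((π : K)⁻¹ • v) ((π : K)⁻¹ • w) f i = (π : K)⁻¹ * gf v w f i := by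
    have hd := h.nz
    rw [gf, gf, pull_smul_vec, dt_smul_left, dt_smul_right]
    fin_cases i <;> simp <;> field_simp
  rw [e, map_mul, n_inv hπ]
  have h1 := hN i
  rw [Pi.zero_apply, sub_zero] at h1
  calc WithZero.exp (1 : ℤ) * l.valuation K (gf v w f i)
      ≤ WithZero.exp (1 : ℤ) * WithZero.exp (-((1 : ℕ) : ℤ)) := mul_le_mul_right h1 _
    _ = 1 := by
      rw [← WithZero.exp_add]
      simp

/-- the lattice generated by `Λ` and `π⁻¹ P`, locally at `l` -/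
private def big (l : Pl K) (Λ : Submodule (𝓞 K) (Fin 2 → K)) (P : Fin 2 → K) :
    Submodule (𝓞 K) (Fin 2 → K) where
  carrier := {p | (∀ s ∈ l.asIdeal, s • p ∈ Λ) ∧ ∃ a : 𝓞 K, Lc l Λ (p - a • P)}
  add_mem' := by
    rintro p q ⟨h1, a, h2⟩ ⟨h3, b, h4⟩
    refine ⟨fun s hs => ?_, a + b, ?_⟩
    · rw [smul_add]
      exact Λ.add_mem (h1 s hs) (h3 s hs)
    · have e : p + q - (a + b) • P = (p - a • P) + (q - b • P) := by
        rw [add_smul]
        abel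
      rw [e]
      exact lc_add h2 h4
  zero_mem' := ⟨fun s _ => by
    rw [smul_zero]
    exact Λ.zero_mem, 0, by
    rw [zero_smul, sub_zero]
    exact lc_mem Λ.zero_mem⟩
  smul_mem' := by
    rintro c p ⟨h1, a, h2⟩
    refine ⟨fun s hs => ?_, c * a, ?_⟩
    · rw [smul_comm]
      exact Λ.smul_mem c (h1 s hs)
    · rw [mul_smul, ← smul_sub]
      exact lc_smul c h2

private theorem le_big (l : Pl K) (Λ : Submodule (𝓞 K) (Fin 2 → K)) (P : Fin 2 → K) : Λ ≤ big l Λ P :=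
  fun p hp => ⟨fun s _ => Λ.smul_mem s hp, 0, by
    rw [zero_smul, sub_zero]
    exact lc_mem hp⟩

private theorem big_le (l : Pl K) (Λ : Submodule (𝓞 K) (Fin 2 → K)) (P : Fin 2 → K) :
    l.asIdeal • big l Λ P ≤ Λ :=
  Submodule.smul_le.2 fun s hs p hp => hp.1 s hs

private theorem bas_big {P Q : Fin 2 → K} (h : Bas l Λ P Q) {π : 𝓞 K}
    (hπ : l.valuation K (π : K) = WithZero.exp (-1 : ℤ)) :
    Bas l (big l Λ ((π : K)⁻¹ • P)) ((π : K)⁻¹ • P) Q := by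
  have h0 := n_nz hπ
  have hd := h.nz
  have nz : dt ((π : K)⁻¹ • P) Q ≠ 0 := by
    rw [dt_smul_left]
    exact mul_ne_zero (inv_ne_zero h0) hd
  refine bas_of_co ?_ (lc_mono (le_big l Λ _) h.hw) nz fun p hp => ?_
  · obtain ⟨s, hs, h1⟩ := (linv_lc hπ ((π : K)⁻¹ • P)).2 (by
      rw [n_self hπ]
      exact h.hv)
    exact ⟨s, hs, h1, s, by
      rw [sub_self]
      exact lc_mem Λ.zero_mem⟩
  · obtain ⟨-, a, ha⟩ := hp
    have hr := (bas_lc h _).1 ha
    obtain ⟨r, hr0⟩ : ∃ r, r = p - a • (π : K)⁻¹ • P := ⟨_, rfl⟩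
    rw [← hr0] at hr
    have hp : p = r + (a : K) • (π : K)⁻¹ • P := by
      rw [hr0, n_smul a]
      abel
    have e0 : co ((π : K)⁻¹ • P) Q p 0 = (π : K) * co P Q r 0 + a := by
      show dt p Q / dt ((π : K)⁻¹ • P) Q = (π : K) * (dt r Q / dt P Q) + a
      rw [hp, dt_add_left, dt_smul_left, dt_smul_left]
      field_simp
    have e1 : co ((π : K)⁻¹ • P) Q p 1 = co P Q r 1 := by
      show dt ((π : K)⁻¹ • P) p / dt ((π : K)⁻¹ • P) Q = dt P r / dt P Q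
      rw [hp, dt_add_right, dt_smul_left, dt_smul_left, dt_smul_right, dt_smul_right, dt_smul_left,
        dt_self]
      field_simp
      ring
    intro i
    fin_cases i
    · show l.valuation K (co ((π : K)⁻¹ • P) Q p 0) ≤ 1
      rw [e0]
      refine (Valuation.map_add _ _ _).trans (max_le ?_ (val_int l a))
      rw [map_mul]
      exact mul_le_one' (val_int l π) (hr 0)
    · show l.valuation K (co ((π : K)⁻¹ • P) Q p 1) ≤ 1
      rw [e1]
      exact hr 1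

private theorem n_mul {x y : K} {a b : ℤ} (hx : l.valuation K x = WithZero.exp a)
    (hy : l.valuation K y ≤ WithZero.exp b) (hab : a + b ≤ 0) : l.valuation K (x * y) ≤ 1 := by
  rw [map_mul, hx]
  calc WithZero.exp a * l.valuation K y ≤ WithZero.exp a * WithZero.exp b := mul_le_mul_right hy _
    _ = WithZero.exp (a + b) := (WithZero.exp_add _ _).symm
    _ ≤ 1 := by
      rw [← WithZero.exp_zero, WithZero.exp_le_exp]
      exact hab

/-- the second case -/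
private theorem n_prim (hL : Lt Λ) {P Q : Fin 2 → K} (h : Bas l Λ P Q) (hf : f ∈ VL Λ)
    (h0 : l.valuation K (gf P Q f 0) ≤ WithZero.exp (-2 : ℤ))
    (h1 : l.valuation K (gf P Q f 1) ≤ WithZero.exp (-1 : ℤ)) : f ∈ NM l Λ := by
  obtain ⟨π, hπ⟩ := unif l
  have hz := n_nz hπ
  have hd := h.nz
  have hb := bas_big h hπ
  have hG := vl_in h hf
  refine key hL h hf (le_big l Λ _) (big_le l Λ _) hπ hb (fun i => ?_) hb.hv
  have e0 : gf ((π : K)⁻¹ • P) Q f 0 = ((π : K)⁻¹ * (π : K)⁻¹) * gf P Q f 0 := by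
    have e := pull_smul_vec (π : K)⁻¹ 1 f P Q
    rw [one_smul] at e
    rw [gf, gf, e, dt_smul_left]
    simp
    field_simp
  have e1 : gf ((π : K)⁻¹ • P) Q f 1 = (π : K)⁻¹ * gf P Q f 1 := by
    have e := pull_smul_vec (π : K)⁻¹ 1 f P Q
    rw [one_smul] at e
    rw [gf, gf, e, dt_smul_left]
    simp
    field_simp
  have e2 : gf ((π : K)⁻¹ • P) Q f 2 = gf P Q f 2 := by
    have e := pull_smul_vec (π : K)⁻¹ 1 f P Q
    rw [one_smul] at e
    rw [gf, gf, e, dt_smul_left]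
    simp
    field_simp
  have e3 : gf ((π : K)⁻¹ • P) Q f 3 = (π : K) * gf P Q f 3 := by
    have e := pull_smul_vec (π : K)⁻¹ 1 f P Q
    rw [one_smul] at e
    rw [gf, gf, e, dt_smul_left]
    simp
    field_simp
  have hi := n_inv hπ
  fin_cases i
  · show l.valuation K (gf ((π : K)⁻¹ • P) Q f 0) ≤ 1
    rw [e0]
    exact n_mul (a := 2) (by rw [map_mul, hi, ← WithZero.exp_add]; norm_num) h0 (by norm_num)
  · show l.valuation K (gf ((π : K)⁻¹ • P) Q f 1) ≤ 1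
    rw [e1]
    exact n_mul hi h1 (by norm_num)
  · show l.valuation K (gf ((π : K)⁻¹ • P) Q f 2) ≤ 1
    rw [e2]
    exact hG 2
  · show l.valuation K (gf ((π : K)⁻¹ • P) Q f 3) ≤ 1
    rw [e3, map_mul]
    exact mul_le_one' (val_int l π) (hG 3)

theorem nm_of (hL : Lt Λ) (h : Bas l Λ v w) (hf : f ∈ VL Λ) (hN : NML l (gf v w f)) :
    f ∈ NM l Λ := by
  rcases hN with hN | ⟨p, hp, hp1, he, h0, h1⟩
  · exact n_zero hL h hf hN
  · obtain ⟨q, hq, hd⟩ := compl hp hp1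
    have hb := bas_change h hp hq hd
    have e : gf (cb v w p) (cb v w q) f = gf p q (gf v w f) := gf_gf h.nz p q f
    have hi : l.valuation K (dt p q)⁻¹ = 1 := by rw [map_inv₀, hd, inv_one]
    refine n_prim hL hb hf ?_ ?_
    · rw [e, gf, Pi.smul_apply, smul_eq_mul, map_mul, hi, one_mul]
      exact he
    · rw [e, gf, Pi.smul_apply, smul_eq_mul, map_mul, hi, one_mul]
      have h2 : l.valuation K (q 0 * gr0 (gf v w f) p + q 1 * gr1 (gf v w f) p) < WithZero.exp (0 : ℤ) := by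
        rw [WithZero.exp_zero]
        refine lt_of_le_of_lt (Valuation.map_add _ _ _) (max_lt ?_ ?_)
        · rw [map_mul]
          exact (mul_le_of_le_one_left' (hq 0)).trans_lt h0
        · rw [map_mul]
          exact (mul_le_of_le_one_left' (hq 1)).trans_lt h1
      exact val_lt.1 h2

theorem nm_bas (hL : Lt Λ) (h : Bas l Λ v w) (hf : f ∈ VL Λ) :
    f ∈ NM l Λ ↔ NML l (gf v w f) := ⟨nm_to hL h, nm_of hL h hf⟩

theorem nm_iff (hL : Lt Λ) (h : LocEq l Λ (OO K 2)) (hf : f ∈ VL Λ) : f ∈ NM l Λ ↔ NML l f := by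
  have h1 := nm_bas hL (bas_loc (bas_oo l) (loceq_symm h)) hf
  rwa [gf_id] at h1

end H77.MF
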