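import Pool.Agent.H77.MF.Vl

/-!
# MF-NM3: invariance of the local criterion `NML` (row: SX MF NM3)

`q = nm l ≥ 2`. `V₄ = OO K 4`.
* `nml_cg`: `NML l f` depends only on `f` mod `l²` for `In l f`: each condition is an inequality for a polynomial with integral coefficients.
* `nml_gf`: `x, y` `In l`, `v(dt x y) = 1`: `NML l (gf x y f) ↔ NML l f` for `In l f`: `→`: `v` primitive ↦ `cb x y v` primitive (inverse matrix integral); `ev (pull f x y) v = ev f (cb x y v)` (`ev_pull`),
  gradients: `gr0_pull`, `gr1_pull`: the gradient of `pull f x y` at `v` is the matrix applied to the gradient of `f` at `cb x y v`. `←`: apply `→` to the inverse (`gf_gf`, `gf_id`).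
* `card_quot`: `card (𝓞/l^k) = q^k`: `Ideal.absNorm` is multiplicative, `Submodule.cardQuot_apply`, `Ideal.absNorm_apply`.
-/

set_option autoImplicit false

open scoped NumberField Classical
open IsDedekindDomain H38.ML H63.MA H67.SX

noncomputable section

namespace H77.MF

variable {K : Type} [Field K] [NumberField K] {l : Pl K}

private theorem n3_three (l : Pl K) : l.valuation K (3 : K) ≤ 1 := by
  have h := val_int l (3 : 𝓞 K)
  have e : ((3 : 𝓞 K) : K) = 3 := map_ofNat (algebraMap (𝓞 K) K) 3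
  rwa [e] at h

private theorem n3_two (l : Pl K) : l.valuation K (2 : K) ≤ 1 := by
  have h := val_int l (2 : 𝓞 K)
  have e : ((2 : 𝓞 K) : K) = 2 := map_ofNat (algebraMap (𝓞 K) K) 2
  rwa [e] at h

private theorem n3_add {x y : K} {c : WithZero (Multiplicative ℤ)} (hx : l.valuation K x ≤ c)
    (hy : l.valuation K y ≤ c) : l.valuation K (x + y) ≤ c :=
  (Valuation.map_add _ _ _).trans (max_le hx hy)

private theorem n3_mul {x y : K} {c : WithZero (Multiplicative ℤ)} (hx : l.valuation K x ≤ c)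
    (hy : l.valuation K y ≤ 1) : l.valuation K (x * y) ≤ c := by
  rw [map_mul]
  exact (mul_le_of_le_one_right' hy).trans hx

private theorem n3_mul' {x y : K} {c : WithZero (Multiplicative ℤ)} (hx : l.valuation K x ≤ 1)
    (hy : l.valuation K y ≤ c) : l.valuation K (x * y) ≤ c := by
  rw [mul_comm]
  exact n3_mul hy hx

private theorem n3_pow {x : K} (hx : l.valuation K x ≤ 1) (n : ℕ) : l.valuation K (x ^ n) ≤ 1 := by
  rw [map_pow]
  exact pow_le_one' hx n

private theorem n3_ev {e : Fin 4 → K} {v : Fin 2 → K} {c : WithZero (Multiplicative ℤ)}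
    (he : ∀ i, l.valuation K (e i) ≤ c) (hv : In l v) : l.valuation K (ev e v) ≤ c := by
  unfold ev
  refine n3_add (n3_add (n3_add ?_ ?_) ?_) ?_
  · exact n3_mul (he 0) (n3_pow (hv 0) 3)
  · exact n3_mul (n3_mul (he 1) (n3_pow (hv 0) 2)) (hv 1)
  · exact n3_mul (n3_mul (he 2) (hv 0)) (n3_pow (hv 1) 2)
  · exact n3_mul (he 3) (n3_pow (hv 1) 3)

private theorem n3_gr0 {e : Fin 4 → K} {v : Fin 2 → K} {c : WithZero (Multiplicative ℤ)}
    (he : ∀ i, l.valuation K (e i) ≤ c) (hv : In l v) : l.valuation K (gr0 e v) ≤ c := by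
  unfold gr0
  refine n3_add (n3_add ?_ ?_) ?_
  · exact n3_mul (n3_mul' (n3_three l) (he 0)) (n3_pow (hv 0) 2)
  · exact n3_mul (n3_mul (n3_mul' (n3_two l) (he 1)) (hv 0)) (hv 1)
  · exact n3_mul (he 2) (n3_pow (hv 1) 2)

private theorem n3_gr1 {e : Fin 4 → K} {v : Fin 2 → K} {c : WithZero (Multiplicative ℤ)}
    (he : ∀ i, l.valuation K (e i) ≤ c) (hv : In l v) : l.valuation K (gr1 e v) ≤ c := by
  unfold gr1
  refine n3_add (n3_add ?_ ?_) ?_
  · exact n3_mul (he 1) (n3_pow (hv 0) 2)
  · exact n3_mul (n3_mul (n3_mul' (n3_two l) (he 2)) (hv 0)) (hv 1)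
  · exact n3_mul (n3_mul' (n3_three l) (he 3)) (n3_pow (hv 1) 2)

private theorem n3_pull {e : Fin 4 → K} {v w : Fin 2 → K} {c : WithZero (Multiplicative ℤ)}
    (he : ∀ i, l.valuation K (e i) ≤ c) (hv : In l v) (hw : In l w) (i : Fin 4) :
    l.valuation K (pull e v w i) ≤ c := by
  fin_cases i
  · exact n3_ev he hv
  · exact n3_add (n3_mul' (hw 0) (n3_gr0 he hv)) (n3_mul' (hw 1) (n3_gr1 he hv))
  · exact n3_add (n3_mul' (hv 0) (n3_gr0 he hw)) (n3_mul' (hv 1) (n3_gr1 he hw))
  · exact n3_ev he hw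

private theorem n3_le {f g : Fin 4 → K} (h : Cg l 2 g f) (hN : NML l f) : NML l g := by
  rcases hN with h1 | ⟨v, hv, hv0, h1, h2, h3⟩
  · exact Or.inl (cg_trans (cg_le (by norm_num) h) h1)
  · have hc : ∀ i, l.valuation K ((g - f) i) ≤ WithZero.exp (-2 : ℤ) := fun i => by
      have := h i
      rw [Pi.sub_apply]
      exact_mod_cast this
    have hlt : (WithZero.exp (-2 : ℤ)) < (1 : WithZero (Multiplicative ℤ)) := by
      rw [← WithZero.exp_zero, WithZero.exp_lt_exp]
      norm_num
    refine Or.inr ⟨v, hv, hv0, ?_, ?_, ?_⟩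
    · have e : ev g v = ev f v + ev (g - f) v := by
        simp only [ev, Pi.sub_apply]
        ring
      rw [e]
      exact n3_add h1 (n3_ev hc hv)
    · have e : gr0 g v = gr0 f v + gr0 (g - f) v := by
        simp only [gr0, Pi.sub_apply]
        ring
      rw [e]
      exact (Valuation.map_add _ _ _).trans_lt (max_lt h2 ((n3_gr0 hc hv).trans_lt hlt))
    · have e : gr1 g v = gr1 f v + gr1 (g - f) v := by
        simp only [gr1, Pi.sub_apply]
        ring
      rw [e]
      exact (Valuation.map_add _ _ _).trans_lt (max_lt h3 ((n3_gr1 hc hv).trans_lt hlt))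

theorem nml_cg {f g : Fin 4 → K} (hf : In l f) (h : Cg l 2 g f) : NML l g ↔ NML l f :=
  ⟨fun hN => n3_le (cg_symm h) hN, fun hN => n3_le h hN⟩

private theorem n3_inv {x y : Fin 2 → K} (hx : In l x) (hy : In l y) (hd : l.valuation K (dt x y) = 1) :
    ∃ x' y' : Fin 2 → K, In l x' ∧ In l y' ∧ l.valuation K (dt x' y') = 1 ∧
      ∀ f : Fin 4 → K, gf x' y' (gf x y f) = f := by
  have hd0 : dt x y ≠ 0 := by
    intro h0
    rw [h0, map_zero] at hd
    exact zero_ne_one hd
  have hin : ∀ p : Fin 2 → K, In l p → In l (co x y p) := by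
    intro p hp i
    fin_cases i
    · show l.valuation K (dt p y / dt x y) ≤ 1
      rw [map_div₀, hd, div_one]
      exact bs_dt hp hy
    · show l.valuation K (dt x p / dt x y) ≤ 1
      rw [map_div₀, hd, div_one]
      exact bs_dt hx hp
  have i1 : In l (![1, 0] : Fin 2 → K) := by
    intro i
    fin_cases i
    · simp
    · simp
  have i2 : In l (![0, 1] : Fin 2 → K) := by
    intro i
    fin_cases i
    · simp
    · simp
  refine ⟨co x y ![1, 0], co x y ![0, 1], hin _ i1, hin _ i2, ?_, fun f => ?_⟩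
  · have h1 := dt_cb x y (co x y ![1, 0]) (co x y ![0, 1])
    rw [cb_co hd0, cb_co hd0] at h1
    have h2 : dt (![1, 0] : Fin 2 → K) ![0, 1] = 1 := by simp [dt]
    rw [h2] at h1
    have h3 := congrArg (l.valuation K) h1
    rw [map_one, map_mul, hd, one_mul] at h3
    exact h3.symm
  · rw [← gf_gf hd0, cb_co hd0, cb_co hd0, gf_id]

private theorem n3_fwd {x y : Fin 2 → K} (hx : In l x) (hy : In l y) (hd : l.valuation K (dt x y) = 1)
    {f : Fin 4 → K} (hN : NML l (gf x y f)) : NML l f := by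
  have hd0 : dt x y ≠ 0 := by
    intro h0
    rw [h0, map_zero] at hd
    exact zero_ne_one hd
  rcases hN with h1 | ⟨v, hv, hv0, h1, h2, h3⟩
  · left
    obtain ⟨x', y', hx', hy', hd', hinv⟩ := n3_inv hx hy hd
    intro i
    have h4 : ∀ i, l.valuation K (gf x y f i) ≤ WithZero.exp (-((1 : ℕ) : ℤ)) := fun i => by
      have := h1 i
      rwa [Pi.zero_apply, sub_zero] at this
    have h5 := n3_pull h4 hx' hy' i
    rw [Pi.zero_apply, sub_zero]
    have h6 : f i = (dt x' y')⁻¹ * pull (gf x y f) x' y' i := by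
      conv_lhs => rw [← hinv f]
      rfl
    rw [h6, map_mul, map_inv₀, hd', inv_one, one_mul]
    exact h5
  · right
    have hpull : pull f x y = dt x y • gf x y f := by
      unfold gf
      rw [smul_smul, mul_inv_cancel₀ hd0, one_smul]
    have hev : ev f (cb x y v) = dt x y * ev (gf x y f) v := by
      rw [← ev_pull, hpull]
      simp only [ev, Pi.smul_apply, smul_eq_mul]
      ring
    obtain ⟨a, ha⟩ : ∃ a, a = gr0 (gf x y f) v := ⟨_, rfl⟩
    obtain ⟨b, hb⟩ : ∃ b, b = gr1 (gf x y f) v := ⟨_, rfl⟩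
    have hg0 : x 0 * gr0 f (cb x y v) + x 1 * gr1 f (cb x y v) = dt x y * a := by
      rw [← gr0_pull, hpull, ha]
      simp only [gr0, Pi.smul_apply, smul_eq_mul]
      ring
    have hg1 : y 0 * gr0 f (cb x y v) + y 1 * gr1 f (cb x y v) = dt x y * b := by
      rw [← gr1_pull, hpull, hb]
      simp only [gr1, Pi.smul_apply, smul_eq_mul]
      ring
    rw [← ha] at h2
    rw [← hb] at h3
    have e0 : gr0 f (cb x y v) = y 1 * a - x 1 * b := by
      apply mul_left_cancel₀ hd0
      unfold dt at hg0 hg1 ⊢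
      linear_combination y 1 * hg0 - x 1 * hg1
    have e1 : gr1 f (cb x y v) = x 0 * b - y 0 * a := by
      apply mul_left_cancel₀ hd0
      unfold dt at hg0 hg1 ⊢
      linear_combination x 0 * hg1 - y 0 * hg0
    have hml : ∀ s t : K, l.valuation K s ≤ 1 → l.valuation K t < 1 → l.valuation K (s * t) < 1 := by
      intro s t hs ht
      rw [map_mul]
      exact (mul_le_of_le_one_left' hs).trans_lt ht
    refine ⟨cb x y v, fun i => ?_, ?_, ?_, ?_, ?_⟩
    · exact n3_add (n3_mul (hv 0) (hx i)) (n3_mul (hv 1) (hy i))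
    · intro h4
      apply hv0
      have h5 : ∀ i, l.valuation K (cb x y v i) ≤ WithZero.exp (-((1 : ℕ) : ℤ)) := fun i => by
        have := h4 i
        rwa [Pi.zero_apply, sub_zero] at this
      have k0 : v 0 = (dt x y)⁻¹ * (cb x y v 0 * y 1 + -(cb x y v 1 * y 0)) := by
        rw [eq_inv_mul_iff_mul_eq₀ hd0]
        simp only [dt, cb]
        ring
      have k1 : v 1 = (dt x y)⁻¹ * (cb x y v 1 * x 0 + -(cb x y v 0 * x 1)) := by
        rw [eq_inv_mul_iff_mul_eq₀ hd0]
        simp only [dt, cb]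
        ring
      intro i
      rw [Pi.zero_apply, sub_zero]
      fin_cases i
      · show l.valuation K (v 0) ≤ _
        rw [k0, map_mul, map_inv₀, hd, inv_one, one_mul]
        refine n3_add (n3_mul (h5 0) (hy 1)) ?_
        rw [Valuation.map_neg]
        exact n3_mul (h5 1) (hy 0)
      · show l.valuation K (v 1) ≤ _
        rw [k1, map_mul, map_inv₀, hd, inv_one, one_mul]
        refine n3_add (n3_mul (h5 1) (hx 0)) ?_
        rw [Valuation.map_neg]
        exact n3_mul (h5 0) (hx 1)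
    · rw [hev, map_mul, hd, one_mul]
      exact h1
    · rw [e0]
      exact (Valuation.map_sub _ _ _).trans_lt (max_lt (hml _ _ (hy 1) h2) (hml _ _ (hx 1) h3))
    · rw [e1]
      exact (Valuation.map_sub _ _ _).trans_lt (max_lt (hml _ _ (hx 0) h3) (hml _ _ (hy 0) h2))

theorem nml_gf {x y : Fin 2 → K} (hx : In l x) (hy : In l y) (hd : l.valuation K (dt x y) = 1)
    {f : Fin 4 → K} (hf : In l f) : NML l (gf x y f) ↔ NML l f := by
  refine ⟨fun hN => n3_fwd hx hy hd hN, fun hN => ?_⟩
  obtain ⟨x', y', hx', hy', hd', hinv⟩ := n3_inv hx hy hd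
  have h1 : NML l (gf x' y' (gf x y f)) := by
    rw [hinv]
    exact hN
  exact n3_fwd hx' hy' hd' h1

theorem card_quot (l : Pl K) (k : ℕ) : Nat.card (𝓞 K ⧸ l.asIdeal ^ k) = nm l ^ k := by
  have h1 : Ideal.absNorm (l.asIdeal ^ k) = Nat.card (𝓞 K ⧸ l.asIdeal ^ k) := by
    rw [Ideal.absNorm_apply, Submodule.cardQuot_apply]
  rw [← h1, map_pow]
  rfl

end H77.MF
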