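import Pool.Agent.H77.MF.Or2
import Pool.Agent.H77.MF.Nm2b
import Pool.Agent.H77.MF.Nm3

/-!
# MF-OR3: not maximal at `l` iff in `NM l` (row: SX MF OR3)

* `nm_loc`, `→`: `Λ < Λ'`, `l Λ' ≤ Λ`, `f ∈ VL Λ'`; `Λ'` is `Lt` (`mid_lt`), `Λ' ≤ LF w` (`lf_max`). If `LocEq l Λ (LF w)` then `Lc l Λ' p → Lc l Λ p`, and for `l' ≠ l` `mid_loc`, so `Λ = Λ'` (`loc_all`), contradiction.
* `loc_nml`: `M = LF w`, `Λ ≤ M` (`lf_max`), not locally equal at `l`; `(v, v')` a basis of `Λ` at `l`, `g = gf v v' f`; claim `NML l g`. `π` a uniformizer. For `r ∈ M` put `x(r) = co v v' r ∈ K²`, and for `x ∈ K²` let `‖x‖ = max (v(x₀), v(x₁))`.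
  `M` is finitely generated, so `‖x(r)‖` is bounded on `M`; take `p ∈ M` with `‖x(p)‖ = exp(i)` maximal (over a finite set of generators; it is then maximal on `M`, ultrametric). `i ≥ 1`, because some `r ∈ M` is not locally in `Λ` (`bas_lc`, `val_lt`).
  `p₀ = π^i x(p)`: `In l`, not `0` mod `l`; complete it: `q₀`, `v(dt p₀ q₀) = 1` (`compl`). `P = cb v v' p₀`, `Q = cb v v' q₀`, a basis of `Λ` (`bas_change`). For `r ∈ M` write `r = α(r) P + β(r) Q` (`co P Q r = (α, β)`); `v(α), v(β) ≤ exp(i)` (coordinates `x(r)` times an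
  integral matrix). `p = π^(-i) P`. `r - (π^i α(r)) p = β(r) Q` is locally in `M`. Let `exp(j) = max v(β(r))` over the generators of `M`; `0 ≤ j` (`Q` is locally in `Λ ≤ M`: `s Q ∈ M`, `β = s`), `j ≤ i`. For an `r` with `v(β(r)) = exp(j)`: `β(r) Q` locally in `M`, so
  `Q' = π^(-j) Q` is locally in `M` (`lc_val` with the unit `π^(-j)/β(r)`). `(p, Q')` is a basis of `M` at `l` (`bas_of_co`: coordinates `(π^i α, π^j β)`). By `lf_form`: `h = gf p Q' f` is `In l`. With `g' = gf P Q f = (a, b, c, d)` (`In l`, `vl_in`; and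
  `g' = gf p₀ q₀ g`, `gf_gf`): `h = π^(i+j) (π^(-3i) a, π^(-2i-j) b, π^(-i-2j) c, π^(-3j) d)`. So `v(a) ≤ exp(-(2i-j))`, `v(b) ≤ exp(-i)`, `v(c) ≤ exp(-j)`, `v(d) ≤ exp(-(2j-i))`.
  If `i = j`: all `≤ exp(-i) ≤ exp(-1)`: `g' = 0` mod `l`: `NML l g'`. If `j < i`: `v(a) ≤ exp(-2)`, `v(b) ≤ exp(-1)`: `NML l g'` with the vector `(1, 0)`: `ev = a`, `gr0 = 3a`, `gr1 = b`. Then `NML l g` by `nml_gf`.
* `nm_loc`, `←`: `nm_bas` and `loc_nml`. * `lf_iff`: `→` `lf_vl`, `nm_loc`, `loceq_refl`. `←`: `loc_all` and `nm_loc`.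
-/

set_option autoImplicit false

open scoped NumberField Classical
open IsDedekindDomain H38.ML H63.MA H67.SX

noncomputable section

namespace H77.MF

variable {K F : Type} [Field K] [NumberField K] [Field F] [NumberField F] [Algebra K F]

omit [NumberField K] in
private theorem o3_gen {Γ : Type} [LinearOrder Γ] {V : Type} [AddCommGroup V] [Module (𝓞 K) V]
    {M : Submodule (𝓞 K) V} (hM : M.FG) (μ : V → Γ) (hadd : ∀ r s, μ (r + s) ≤ max (μ r) (μ s))
    (hsm : ∀ (a : 𝓞 K) r, μ (a • r) ≤ μ r) : ∃ r₀ ∈ M, ∀ r ∈ M, μ r ≤ μ r₀ := by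
  obtain ⟨G, hG⟩ := hM
  obtain ⟨r₀, hr₀, hmax⟩ := Finset.exists_max_image (insert 0 G) μ ⟨0, Finset.mem_insert_self 0 G⟩
  have hsub : ∀ r ∈ insert (0 : V) G, r ∈ M := by
    intro r hr
    rcases Finset.mem_insert.1 hr with rfl | h
    · exact M.zero_mem
    · rw [← hG]
      exact Submodule.subset_span h
  refine ⟨r₀, hsub r₀ hr₀, fun r hr => ?_⟩
  rw [← hG] at hr
  induction hr using Submodule.span_induction with
  | mem x hx => exact hmax x (Finset.mem_insert_of_mem hx)
  | zero => exact hmax 0 (Finset.mem_insert_self 0 G)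
  | add x y _ _ hx hy => exact (hadd x y).trans (max_le hx hy)
  | smul a x _ hx => exact (hsm a x).trans hx

omit [NumberField K] in
private theorem o3_co_add (v v' r s : Fin 2 → K) (i : Fin 2) :
    co v v' (r + s) i = co v v' r i + co v v' s i := by
  fin_cases i
  · change dt (r + s) v' / dt v v' = dt r v' / dt v v' + dt s v' / dt v v'
    rw [dt_add_left, add_div]
  · change dt v (r + s) / dt v v' = dt v r / dt v v' + dt v s / dt v v'
    rw [dt_add_right, add_div]

private theorem o3_co_smul (v v' r : Fin 2 → K) (a : 𝓞 K) (i : Fin 2) :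
    co v v' (a • r) i = (a : K) * co v v' r i := by
  fin_cases i
  · change dt (a • r) v' / dt v v' = (a : K) * (dt r v' / dt v v')
    rw [bs_left, mul_div_assoc]
  · change dt v (a • r) / dt v v' = (a : K) * (dt v r / dt v v')
    rw [bs_right, mul_div_assoc]

omit [NumberField K] in
private theorem o3_cb_smul (v v' x : Fin 2 → K) (a : K) : cb v v' (a • x) = a • cb v v' x := by
  funext i
  simp [cb]
  ring

private theorem o3_pow {l : Pl K} {π : 𝓞 K} (hπ : l.valuation K (π : K) = WithZero.exp (-1 : ℤ))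
    (n : ℤ) : l.valuation K ((π : K) ^ n) = WithZero.exp (-n) := by
  rw [map_zpow₀, hπ, ← WithZero.exp_zsmul]
  congr 1
  rw [smul_eq_mul, mul_neg, mul_one]

theorem loc_nml (hd : Module.finrank K F = 3) {f : Fin 4 → K} {w : Fin 2 → F} (h : Lv f w)
    {Λ : Submodule (𝓞 K) (Fin 2 → K)} (hL : Lt Λ) (hf : f ∈ VL Λ) {l : Pl K} {v v' : Fin 2 → K}
    (hB : Bas l Λ v v') (hne : ¬ LocEq l Λ (LF w)) : NML l (gf v v' f) := by
  have hΛM : Λ ≤ LF w := lf_max hd h hL hf
  have hM : Lt (LF (K := K) w) := lf_lt hd h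
  obtain ⟨π, hπ⟩ := unif l
  have hπ0 : (π : K) ≠ 0 := by
    intro h0
    rw [h0, map_zero] at hπ
    exact WithZero.exp_ne_zero hπ.symm
  obtain ⟨μ, hμ⟩ : ∃ μ : (Fin 2 → K) → WithZero (Multiplicative ℤ), ∀ r, μ r =
      max (l.valuation K (co v v' r 0)) (l.valuation K (co v v' r 1)) := ⟨fun r => _, fun r => rfl⟩
  -- the maximal norm
  obtain ⟨p, hpM, hpmax⟩ := o3_gen hM.1 μ (by
    intro r s
    rw [hμ, hμ, hμ, o3_co_add, o3_co_add]
    refine max_le ((Valuation.map_add _ _ _).trans ?_) ((Valuation.map_add _ _ _).trans ?_)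
    · exact max_le ((le_max_left _ _).trans (le_max_left _ _)) ((le_max_left _ _).trans (le_max_right _ _))
    · exact max_le ((le_max_right _ _).trans (le_max_left _ _)) ((le_max_right _ _).trans (le_max_right _ _)))
    (by
    intro a r
    rw [hμ, hμ, o3_co_smul, o3_co_smul, map_mul, map_mul]
    exact max_le_max (mul_le_of_le_one_left' (val_int l a)) (mul_le_of_le_one_left' (val_int l a)))
  have hcoord : ∀ r i, l.valuation K (co v v' r i) ≤ μ r := by
    intro r i
    rw [hμ]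
    fin_cases i
    · exact le_max_left _ _
    · exact le_max_right _ _
  have hp1 : 1 < μ p := by
    by_contra hcon
    apply hne
    intro r
    refine ⟨fun hr => lc_mono hΛM hr, fun hr => ?_⟩
    refine lc_of_le (fun x hx => ?_) hr
    rw [bas_lc hB]
    intro i
    exact ((hcoord x i).trans (hpmax x hx)).trans (not_lt.1 hcon)
  obtain ⟨i, hi⟩ : ∃ i : ℤ, μ p = WithZero.exp i :=
    ⟨WithZero.log (μ p), (WithZero.exp_log (ne_of_gt (lt_trans zero_lt_one hp1))).symm⟩
  have hi1 : 1 ≤ i := by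
    rw [hi] at hp1
    have h1 : WithZero.exp (0 : ℤ) < WithZero.exp i := hp1
    rw [WithZero.exp_lt_exp] at h1
    omega
  -- the primitive vector
  obtain ⟨p₀, hp₀⟩ : ∃ p₀ : Fin 2 → K, p₀ = (π : K) ^ i • co v v' p := ⟨_, rfl⟩
  have hp₀i : ∀ k, l.valuation K (p₀ k) = WithZero.exp (-i) * l.valuation K (co v v' p k) := by
    intro k
    rw [hp₀, Pi.smul_apply, smul_eq_mul, map_mul, o3_pow hπ]
  have hp₀in : In l p₀ := by
    intro k
    rw [hp₀i]
    calc WithZero.exp (-i) * l.valuation K (co v v' p k) ≤ WithZero.exp (-i) * WithZero.exp i :=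
          mul_le_mul_right (((hcoord p k).trans hi.le)) _
      _ = 1 := by
          rw [← WithZero.exp_add, neg_add_cancel]
          rfl
  have hp₀n : ¬ Cg l 1 p₀ 0 := by
    intro hc
    have h1 : μ p ≤ WithZero.exp (i - 1) := by
      rw [hμ]
      have h2 : ∀ k, l.valuation K (co v v' p k) ≤ WithZero.exp (i - 1) := by
        intro k
        have h3 := hc k
        rw [Pi.zero_apply, sub_zero, hp₀i] at h3
        calc l.valuation K (co v v' p k) = WithZero.exp i * (WithZero.exp (-i) * l.valuation K (co v v' p k)) := by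
              rw [← mul_assoc, ← WithZero.exp_add, add_neg_cancel]
              simp
          _ ≤ WithZero.exp i * WithZero.exp (-((1 : ℕ) : ℤ)) := mul_le_mul_right h3 _
          _ = WithZero.exp (i - 1) := by
              rw [← WithZero.exp_add]
              congr 1
      exact max_le (h2 0) (h2 1)
    rw [hi, WithZero.exp_le_exp] at h1
    omega
  obtain ⟨q₀, hq₀in, hdt⟩ := compl hp₀in hp₀n
  obtain ⟨P, hP⟩ : ∃ P : Fin 2 → K, P = cb v v' p₀ := ⟨_, rfl⟩
  obtain ⟨Q, hQ⟩ : ∃ Q : Fin 2 → K, Q = cb v v' q₀ := ⟨_, rfl⟩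
  have hPQ : Bas l Λ P Q := by
    rw [hP, hQ]
    exact bas_change hB hp₀in hq₀in hdt
  have hPp : P = (π : K) ^ i • p := by
    rw [hP, hp₀, o3_cb_smul, cb_co hB.nz]
  have hdt0 : dt p₀ q₀ ≠ 0 := by
    intro h0
    rw [h0, map_zero] at hdt
    exact zero_ne_one hdt
  -- coordinates with respect to (P, Q)
  have hcoPQ : ∀ r, co P Q r = ![dt (co v v' r) q₀ / dt p₀ q₀, dt p₀ (co v v' r) / dt p₀ q₀] := by
    intro r
    have h1 : r = cb v v' (co v v' r) := (cb_co hB.nz r).symm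
    have h2 : dt r Q = dt v v' * dt (co v v' r) q₀ := by
      conv_lhs => rw [h1, hQ]
      exact dt_cb _ _ _ _
    have h3 : dt P r = dt v v' * dt p₀ (co v v' r) := by
      conv_lhs => rw [h1, hP]
      exact dt_cb _ _ _ _
    have h4 : dt P Q = dt v v' * dt p₀ q₀ := by
      rw [hP, hQ]
      exact dt_cb _ _ _ _
    unfold co
    rw [h2, h3, h4, mul_div_mul_left _ _ hB.nz, mul_div_mul_left _ _ hB.nz]
    rfl
  have hval_dt : ∀ (x y : Fin 2 → K) (m : WithZero (Multiplicative ℤ)), (∀ k, l.valuation K (x k) ≤ m) →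
      In l y → l.valuation K (dt x y) ≤ m ∧ l.valuation K (dt y x) ≤ m := by
    intro x y m hx hy
    have h1 : ∀ a b, l.valuation K (x a * y b) ≤ m := by
      intro a b
      rw [map_mul]
      calc _ ≤ m * 1 := mul_le_mul' (hx a) (hy b)
        _ = m := mul_one _
    constructor
    · unfold dt
      exact (Valuation.map_sub _ _ _).trans (max_le (h1 0 1) (h1 1 0))
    · unfold dt
      rw [mul_comm (y 0), mul_comm (y 1)]
      exact (Valuation.map_sub _ _ _).trans (max_le (h1 1 0) (h1 0 1))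
  have hαβ : ∀ r ∈ LF (K := K) w, ∀ k, l.valuation K (co P Q r k) ≤ WithZero.exp i := by
    intro r hr k
    have h1 : ∀ k, l.valuation K (co v v' r k) ≤ WithZero.exp i := fun k =>
      (hcoord r k).trans ((hpmax r hr).trans hi.le)
    rw [hcoPQ]
    fin_cases k
    · change l.valuation K (dt (co v v' r) q₀ / dt p₀ q₀) ≤ _
      rw [map_div₀, hdt, div_one]
      exact (hval_dt _ _ _ h1 hq₀in).1
    · change l.valuation K (dt p₀ (co v v' r) / dt p₀ q₀) ≤ _
      rw [map_div₀, hdt, div_one]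
      exact (hval_dt _ _ _ h1 hp₀in).2
  -- the second elementary divisor
  obtain ⟨r₁, hr₁M, hr₁max⟩ := o3_gen hM.1 (fun r => l.valuation K (co P Q r 1)) (by
    intro r s
    change l.valuation K (co P Q (r + s) 1) ≤ _
    rw [o3_co_add]
    exact Valuation.map_add _ _ _) (by
    intro a r
    change l.valuation K (co P Q (a • r) 1) ≤ l.valuation K (co P Q r 1)
    rw [o3_co_smul, map_mul]
    exact mul_le_of_le_one_left' (val_int l a))
  have hβ1 : 1 ≤ l.valuation K (co P Q r₁ 1) := by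
    obtain ⟨s, hs, hsQ⟩ := hPQ.hw
    have h1 := hr₁max (s • Q) (hΛM hsQ)
    have h2 : co P Q (s • Q) 1 = s := by
      rw [o3_co_smul]
      have h3 : co P Q Q 1 = 1 := by
        change dt P Q / dt P Q = 1
        exact div_self hPQ.nz
      rw [h3, mul_one]
    change l.valuation K (co P Q (s • Q) 1) ≤ _ at h1
    rwa [h2, val_notmem.1 hs] at h1
  obtain ⟨j, hj⟩ : ∃ j : ℤ, l.valuation K (co P Q r₁ 1) = WithZero.exp j :=
    ⟨WithZero.log _, (WithZero.exp_log (ne_of_gt (lt_of_lt_of_le zero_lt_one hβ1))).symm⟩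
  have hj0 : 0 ≤ j := by
    rw [hj] at hβ1
    have h1 : WithZero.exp (0 : ℤ) ≤ WithZero.exp j := hβ1
    rwa [WithZero.exp_le_exp] at h1
  have hji : j ≤ i := by
    have h1 := hαβ r₁ hr₁M 1
    rwa [hj, WithZero.exp_le_exp] at h1
  have hβ0 : co P Q r₁ 1 ≠ 0 := by
    intro h0
    rw [h0, map_zero] at hj
    exact WithZero.exp_ne_zero hj.symm
  obtain ⟨Q', hQ'⟩ : ∃ Q' : Fin 2 → K, Q' = (π : K) ^ (-j) • Q := ⟨_, rfl⟩
  have hQ'M : Lc l (LF w) Q' := by
    have h1 : Lc l (LF w) (co P Q r₁ 1 • Q) := by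
      have h2 : co P Q r₁ 1 • Q = r₁ - (co P Q r₁ 0 * (π : K) ^ i) • p := by
        have h3 := cb_co hPQ.nz r₁
        rw [mul_smul, ← hPp]
        funext k
        have h3k : co P Q r₁ 0 * P k + co P Q r₁ 1 * Q k = r₁ k := congrFun h3 k
        simp only [Pi.smul_apply, Pi.sub_apply, smul_eq_mul]
        linear_combination h3k
      rw [h2]
      refine lc_sub (lc_mem hr₁M) (lc_val ?_ (lc_mem hpM))
      rw [map_mul, o3_pow hπ]
      calc _ ≤ WithZero.exp i * WithZero.exp (-i) := mul_le_mul_left (hαβ r₁ hr₁M 0) _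
        _ = 1 := by
          rw [← WithZero.exp_add, add_neg_cancel]
          rfl
    have h4 : Q' = ((π : K) ^ (-j) / co P Q r₁ 1) • (co P Q r₁ 1 • Q) := by
      rw [smul_smul, div_mul_cancel₀ _ hβ0, hQ']
    rw [h4]
    refine lc_val ?_ h1
    rw [map_div₀, o3_pow hπ, hj, neg_neg]
    exact (div_self WithZero.exp_ne_zero).le
  have hpP : p = (π : K) ^ (-i) • P := by
    rw [hPp, smul_smul, ← zpow_add₀ hπ0, neg_add_cancel, zpow_zero, one_smul]
  have hdtpQ' : dt p Q' = (π : K) ^ (-i - j) * dt P Q := by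
    rw [hpP, hQ', dt_smul_left, dt_smul_right, ← mul_assoc, ← zpow_add₀ hπ0]
    congr 1
  have hnz : dt p Q' ≠ 0 := by
    rw [hdtpQ']
    exact mul_ne_zero (zpow_ne_zero _ hπ0) hPQ.nz
  have hBM : Bas l (LF w) p Q' := by
    refine bas_of_co (lc_mem hpM) hQ'M hnz fun r hr => ?_
    have h1 : co p Q' r 0 = (π : K) ^ i * co P Q r 0 := by
      change dt r Q' / dt p Q' = (π : K) ^ i * (dt r Q / dt P Q)
      rw [hdtpQ', hQ', dt_smul_right]
      rw [div_eq_iff (mul_ne_zero (zpow_ne_zero _ hπ0) hPQ.nz)]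
      have h2 : (π : K) ^ i * (dt r Q / dt P Q) * ((π : K) ^ (-i - j) * dt P Q) =
          ((π : K) ^ i * (π : K) ^ (-i - j)) * ((dt r Q / dt P Q) * dt P Q) := by ring
      rw [h2, div_mul_cancel₀ _ hPQ.nz, ← zpow_add₀ hπ0]
      congr 2
      ring
    have h1' : co p Q' r 1 = (π : K) ^ j * co P Q r 1 := by
      change dt p r / dt p Q' = (π : K) ^ j * (dt P r / dt P Q)
      rw [hdtpQ', hpP, dt_smul_left]
      rw [div_eq_iff (mul_ne_zero (zpow_ne_zero _ hπ0) hPQ.nz)]
      have h2 : (π : K) ^ j * (dt P r / dt P Q) * ((π : K) ^ (-i - j) * dt P Q) =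
          ((π : K) ^ j * (π : K) ^ (-i - j)) * ((dt P r / dt P Q) * dt P Q) := by ring
      rw [h2, div_mul_cancel₀ _ hPQ.nz, ← zpow_add₀ hπ0]
      congr 2
      ring
    intro k
    fin_cases k
    · change l.valuation K (co p Q' r 0) ≤ 1
      rw [h1, map_mul, o3_pow hπ]
      calc _ ≤ WithZero.exp (-i) * WithZero.exp i := mul_le_mul_right (hαβ r hr 0) _
        _ = 1 := by
          rw [← WithZero.exp_add, neg_add_cancel]
          rfl
    · change l.valuation K (co p Q' r 1) ≤ 1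
      rw [h1', map_mul, o3_pow hπ]
      calc _ ≤ WithZero.exp (-j) * WithZero.exp j :=
            mul_le_mul_right ((hr₁max r hr).trans hj.le) _
        _ = 1 := by
          rw [← WithZero.exp_add, neg_add_cancel]
          rfl
  have hform := lf_form hd h hBM
  obtain ⟨g, hg⟩ : ∃ g : Fin 4 → K, g = gf P Q f := ⟨_, rfl⟩
  have hgf : gf p Q' f = ![(π : K) ^ (j - 2 * i) * g 0, (π : K) ^ (-i) * g 1, (π : K) ^ (-j) * g 2,
      (π : K) ^ (i - 2 * j) * g 3] := by
    have e1 : gf p Q' f = (dt p Q')⁻¹ • pull f p Q' := rfl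
    have e2 : pull f p Q' = ![((π : K) ^ (-i)) ^ 3 * pull f P Q 0,
        ((π : K) ^ (-i)) ^ 2 * (π : K) ^ (-j) * pull f P Q 1,
        (π : K) ^ (-i) * ((π : K) ^ (-j)) ^ 2 * pull f P Q 2, ((π : K) ^ (-j)) ^ 3 * pull f P Q 3] := by
      conv_lhs => rw [hpP, hQ']
      exact pull_smul_vec _ _ _ _ _
    have e3 : ∀ k, g k = (dt P Q)⁻¹ * pull f P Q k := fun k => by
      rw [hg]
      rfl
    have hz : ∀ n : ℤ, (π : K) ^ n ≠ 0 := fun n => zpow_ne_zero _ hπ0
    rw [e1, e2, hdtpQ', mul_inv, ← zpow_neg]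
    have hk : ∀ (m n : ℤ) (x : K), m = -(-i - j) + n →
        ((π : K) ^ (-(-i - j)) * (dt P Q)⁻¹) * ((π : K) ^ n * x) = (π : K) ^ m * ((dt P Q)⁻¹ * x) := by
      intro m n x hmn
      rw [hmn, zpow_add₀ hπ0]
      ring
    funext k
    fin_cases k
    · change ((π : K) ^ (-(-i - j)) * (dt P Q)⁻¹) * (((π : K) ^ (-i)) ^ 3 * pull f P Q 0) =
        (π : K) ^ (j - 2 * i) * g 0
      rw [e3, ← zpow_natCast, ← zpow_mul]
      exact hk _ _ _ (by push_cast; ring)
    · change ((π : K) ^ (-(-i - j)) * (dt P Q)⁻¹) *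
        (((π : K) ^ (-i)) ^ 2 * (π : K) ^ (-j) * pull f P Q 1) = (π : K) ^ (-i) * g 1
      rw [e3, ← zpow_natCast, ← zpow_mul, ← zpow_add₀ hπ0]
      exact hk _ _ _ (by push_cast; ring)
    · change ((π : K) ^ (-(-i - j)) * (dt P Q)⁻¹) *
        ((π : K) ^ (-i) * ((π : K) ^ (-j)) ^ 2 * pull f P Q 2) = (π : K) ^ (-j) * g 2
      rw [e3, ← zpow_natCast, ← zpow_mul, ← zpow_add₀ hπ0]
      exact hk _ _ _ (by push_cast; ring)
    · change ((π : K) ^ (-(-i - j)) * (dt P Q)⁻¹) * (((π : K) ^ (-j)) ^ 3 * pull f P Q 3) =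
        (π : K) ^ (i - 2 * j) * g 3
      rw [e3, ← zpow_natCast, ← zpow_mul]
      exact hk _ _ _ (by push_cast; ring)
  have hbd : ∀ (m : ℤ) (x : K), l.valuation K ((π : K) ^ m * x) ≤ 1 →
      l.valuation K x ≤ WithZero.exp m := by
    intro m x hx
    rw [map_mul, o3_pow hπ] at hx
    calc l.valuation K x = WithZero.exp m * (WithZero.exp (-m) * l.valuation K x) := by
          rw [← mul_assoc, ← WithZero.exp_add, add_neg_cancel]
          simp
      _ ≤ WithZero.exp m * 1 := mul_le_mul_right hx _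
      _ = WithZero.exp m := mul_one _
  have hg0 : l.valuation K (g 0) ≤ WithZero.exp (j - 2 * i) := hbd _ _ (by
    have h1 := hform 0
    rw [hgf] at h1
    exact h1)
  have hg1 : l.valuation K (g 1) ≤ WithZero.exp (-i) := hbd _ _ (by
    have h1 := hform 1
    rw [hgf] at h1
    exact h1)
  have hg2 : l.valuation K (g 2) ≤ WithZero.exp (-j) := hbd _ _ (by
    have h1 := hform 2
    rw [hgf] at h1
    exact h1)
  have hg3 : l.valuation K (g 3) ≤ WithZero.exp (i - 2 * j) := hbd _ _ (by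
    have h1 := hform 3
    rw [hgf] at h1
    exact h1)
  have hexp1 : ∀ (x : K) (m : ℤ), l.valuation K x ≤ WithZero.exp m → m ≤ -1 →
      l.valuation K x < 1 := by
    intro x m hx hm
    refine lt_of_le_of_lt hx ?_
    have h1 : WithZero.exp m < WithZero.exp (0 : ℤ) := by
      rw [WithZero.exp_lt_exp]
      omega
    exact h1
  have hNg : NML l g := by
    rcases hji.lt_or_eq with hlt | heq
    · right
      refine ⟨![1, 0], ?_, ?_, ?_, ?_, ?_⟩
      · intro k
        fin_cases k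
        · change l.valuation K (1 : K) ≤ 1
          rw [map_one]
        · change l.valuation K (0 : K) ≤ 1
          rw [map_zero]
          exact zero_le_one
      · intro hc
        have h1 := hc 0
        change l.valuation K ((1 : K) - 0) ≤ WithZero.exp (-((1 : ℕ) : ℤ)) at h1
        rw [sub_zero, map_one] at h1
        have h2 : WithZero.exp (0 : ℤ) ≤ WithZero.exp (-((1 : ℕ) : ℤ)) := h1
        rw [WithZero.exp_le_exp] at h2
        norm_num at h2
      · have h1 : ev g ![1, 0] = g 0 := by simp [ev]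
        rw [h1]
        refine hg0.trans ?_
        rw [WithZero.exp_le_exp]
        omega
      · have h1 : gr0 g ![1, 0] = 3 * g 0 := by simp [gr0]
        rw [h1, map_mul]
        refine lt_of_le_of_lt (mul_le_of_le_one_left' ?_) (hexp1 _ _ hg0 (by omega))
        have h3 := val_int l (3 : 𝓞 K)
        have h4 : ((3 : 𝓞 K) : K) = 3 := map_ofNat (algebraMap (𝓞 K) K) 3
        rwa [h4] at h3
      · have h1 : gr1 g ![1, 0] = g 1 := by simp [gr1]
        rw [h1]
        exact hexp1 _ _ hg1 (by omega)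
    · left
      intro k
      rw [Pi.zero_apply, sub_zero]
      fin_cases k
      · refine hg0.trans ?_
        rw [WithZero.exp_le_exp]
        push_cast
        omega
      · refine hg1.trans ?_
        rw [WithZero.exp_le_exp]
        push_cast
        omega
      · refine hg2.trans ?_
        rw [WithZero.exp_le_exp]
        push_cast
        omega
      · refine hg3.trans ?_
        rw [WithZero.exp_le_exp]
        push_cast
        omega
  have hgg : g = gf p₀ q₀ (gf v v' f) := by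
    rw [hg, hP, hQ]
    exact gf_gf hB.nz p₀ q₀ f
  rw [hgg] at hNg
  exact (nml_gf hp₀in hq₀in hdt (vl_in hB hf)).1 hNg

theorem nm_loc (hd : Module.finrank K F = 3) {f : Fin 4 → K} {w : Fin 2 → F} (h : Lv f w)
    {Λ : Submodule (𝓞 K) (Fin 2 → K)} (hL : Lt Λ) (hf : f ∈ VL Λ) (l : Pl K) :
    f ∈ NM l Λ ↔ ¬ LocEq l Λ (LF w) := by
  constructor
  · rintro ⟨-, Λ', hlt, hle, hf'⟩ heq
    have hL' : Lt Λ' := mid_lt hL hlt.le hle
    have hM : Λ' ≤ LF w := lf_max hd h hL' hf'
    have h1 : Λ = Λ' := by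
      refine loc_all fun l' => ?_
      by_cases hl : l' = l
      · subst hl
        exact fun x => ⟨fun hx => lc_mono hlt.le hx, fun hx => (heq x).2 (lc_mono hM hx)⟩
      · exact mid_loc hlt.le hle hl
    exact hlt.ne h1
  · intro hne
    obtain ⟨v, -, v', -, hB⟩ := bas_ex hL l
    exact (nm_bas hL hB hf).2 (loc_nml hd h hL hf hB hne)

theorem lf_iff (hd : Module.finrank K F = 3) {f : Fin 4 → K} {w : Fin 2 → F} (h : Lv f w)
    {Λ : Submodule (𝓞 K) (Fin 2 → K)} (hL : Lt Λ) :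
    Λ = LF w ↔ f ∈ VL Λ ∧ ∀ l : Pl K, f ∉ NM l Λ := by
  constructor
  · intro heq
    have hf : f ∈ VL Λ := by
      rw [heq]
      exact lf_vl hd h
    refine ⟨hf, fun l hN => ?_⟩
    refine (nm_loc hd h hL hf l).1 hN ?_
    rw [heq]
    exact loceq_refl _
  · rintro ⟨hf, hN⟩
    refine loc_all fun l => ?_
    by_contra hcon
    exact hN l ((nm_loc hd h hL hf l).2 hcon)

end H77.MF
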