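import Pool.Agent.H77.MF.Rc
import Pool.Agent.H77.MF.Or3

/-!
# MF-DC: `Lmx f` and the double count (row: SX MF DC)

* `lmx_eq`: `f` has no zero (`lv_ev`). `frf f = some x` with `Lv f x.2` (`dif_pos`, `choose_spec`). By `recov` there is `σ : x.1.F ≃ₐ[K] c.F`, `σ (x.2 i) = w i`; `σ (k + lin x.2 v) = k + lin w v`, integral iff (`isIntegral_algEquiv` / `IsIntegral.map` both ways).
* `lmx_iff`: `recov` gives a frame `x` (`ncard = 3 ≠ 0`, so nonempty), `lmx_eq`, `lf_iff`.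
* `dcount`. Let `B` be the set on the left, `T' = T.filter (OO K 2 ≤ Lmx ·)`. For `(c, v, v') ∈ B` let `u` be the frame of `lv_pull` (`wb c`, `v, v'`), `f = (dt v v')⁻¹ • pull (fb c) v v' ∈ T`, `Lv f u`; `v, v' ∈ LF (wb c)` gives
  `OO K 2 ≤ LF u = Lmx f` (`lf_change` with `x = e₁, e₂`). Map `(c, v, v') ↦ ⟨c, u⟩ ∈ {x : Fr K | Lv f x.2, f ∈ T'}` = `X`. It is a bijection of `B` onto `X = ⋃_(f ∈ T') {x | Lv f x.2}` (disjoint: `lv_uniq` with `k = 0`: the form is determined by the frame).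
  Injective: `u 0 = lin (wb c) v + k`, and `lv_zero` (difference) gives `v` and `v'`. Surjective: `⟨c, u⟩` with `Lv f u`: `u i = k_i + lin (wb c) v_i` (`lv_span`); `dt v v' ≠ 0` (otherwise `u 0, u 1, 1` dependent, `lv_ind`); by
  `lv_pull` and `lv_uniq` the form `(dt)⁻¹ pull (fb c) v v'` is `f`, and `v, v' ∈ LF (wb c)` by `lf_change` from `OO K 2 ≤ Lmx f = LF u`. Every `{x | Lv f x.2}` has 3 elements (`recov`), on which `g x.1` is constant `= (frf f).elim 0 (fun x => g x.1)` (`hg`, `recov`).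
  Finiteness: finite union of finite sets (`Set.finite_of_ncard_ne_zero`). Sums: `finsum_mem_biUnion`/`Finset.sum_biUnion` after transport (`finsum_mem_eq_of_bijOn`).
-/

set_option autoImplicit false

open scoped NumberField Classical
open IsDedekindDomain H38.ML H63.MA H67.SX

noncomputable section

namespace H77.MF

variable {K : IntermediateField ℚ QBar} [NumberField K]

private theorem lf_iso {F F' : Type} [Field F] [Algebra K F] [Field F'] [Algebra K F'] (σ : F ≃ₐ[K] F') {w : Fin 2 → F}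
    {u : Fin 2 → F'} (h : ∀ i, σ (w i) = u i) {v : Fin 2 → K} (hv : v ∈ LF (K := K) w) : v ∈ LF (K := K) u := by
  obtain ⟨k, hk⟩ := hv
  refine ⟨k, ?_⟩
  have h1 : σ (algebraMap K F k + lin w v) = algebraMap K F' k + lin u v := by
    simp only [lin, map_add, map_mul, AlgEquiv.commutes, h]
  rw [← h1]
  exact hk.map σ

theorem lmx_eq {f : Fin 4 → K} {c : Cb K} {w : Fin 2 → c.F} (h : Lv f w) : Lmx f = LF w := by
  have hx : ∃ x : Fr K, Lv f x.2 := ⟨⟨c, w⟩, h⟩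
  have hf : NZ f := fun v hv => lv_ev c.deg h hv
  have h1 : Lmx f = LF (hx.choose).2 := by
    unfold Lmx frf
    rw [dif_pos hx]
  obtain ⟨σ, hσ⟩ := (recov hf).2 hx.choose ⟨c, w⟩ hx.choose_spec h
  rw [h1]
  apply le_antisymm
  · intro v hv
    exact lf_iso σ hσ hv
  · intro v hv
    exact lf_iso σ.symm (fun i => by
      have h2 : σ (hx.choose.2 i) = w i := hσ i
      rw [← h2, AlgEquiv.symm_apply_apply]) hv

theorem lmx_iff {f : Fin 4 → K} (hf : NZ f) {Λ : Submodule (𝓞 K) (Fin 2 → K)} (hL : Lt Λ) :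
    Λ = Lmx f ↔ f ∈ VL Λ ∧ ∀ l : Pl K, f ∉ NM l Λ := by
  have h3 := (recov hf).1
  obtain ⟨x, hx⟩ : {x : (c : Cb K) × (Fin 2 → c.F) | Lv f x.2}.Nonempty := by
    rw [Set.nonempty_iff_ne_empty]
    intro h0
    rw [h0, Set.ncard_empty] at h3
    norm_num at h3
  have hx' : Lv f x.2 := hx
  rw [lmx_eq hx']
  exact lf_iff x.1.deg hx' hL

/-- the frame of a pair of vectors -/
private def frm {wb : (c : Cb K) → Fin 2 → c.F} {fb : Cb K → Fin 4 → K} (hb : ∀ c, Lv (fb c) (wb c))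
    (x : Cb K × (Fin 2 → K) × (Fin 2 → K)) : Fr K :=
  ⟨x.1, if h : dt x.2.1 x.2.2 ≠ 0 then (lv_pull x.1.deg (hb x.1) h).choose else 0⟩

private theorem frm_spec {wb : (c : Cb K) → Fin 2 → c.F} {fb : Cb K → Fin 4 → K} (hb : ∀ c, Lv (fb c) (wb c))
    (c : Cb K) (v v' : Fin 2 → K) (h : dt v v' ≠ 0) :
    ∃ u : Fin 2 → c.F, frm hb ⟨c, v, v'⟩ = ⟨c, u⟩ ∧ Lv ((dt v v')⁻¹ • pull (fb c) v v') u ∧ ∃ k : Fin 2 → K,
      u 0 = lin (wb c) v + algebraMap K c.F (k 0) ∧ u 1 = lin (wb c) v' + algebraMap K c.F (k 1) := by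
  refine ⟨(lv_pull c.deg (hb c) h).choose, ?_, (lv_pull c.deg (hb c) h).choose_spec⟩
  unfold frm
  simp only
  rw [dif_pos h]

private theorem cb_mem {M : Submodule (𝓞 K) (Fin 2 → K)} {v v' : Fin 2 → K} (hv : v ∈ M) (hv' : v' ∈ M)
    {p : Fin 2 → K} (hp : p ∈ OO K 2) : cb v v' p ∈ M := by
  obtain ⟨a, ha⟩ := hp 0
  obtain ⟨b, hb⟩ := hp 1
  have h1 : cb v v' p = a • v + b • v' := by
    funext i
    simp only [cb, Pi.add_apply, Pi.smul_apply]
    rw [Algebra.smul_def, Algebra.smul_def, ← ha, ← hb]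
  rw [h1]
  exact M.add_mem (M.smul_mem a hv) (M.smul_mem b hv')

private theorem e0_mem : (![1, 0] : Fin 2 → K) ∈ OO K 2 := by
  intro i
  fin_cases i
  · exact ⟨1, by simp⟩
  · exact ⟨0, by simp⟩

private theorem e1_mem : (![0, 1] : Fin 2 → K) ∈ OO K 2 := by
  intro i
  fin_cases i
  · exact ⟨0, by simp⟩
  · exact ⟨1, by simp⟩

omit [NumberField K] in
private theorem cb_e0 (v v' : Fin 2 → K) : cb v v' ![1, 0] = v := by
  funext i
  simp [cb]

omit [NumberField K] in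
private theorem cb_e1 (v v' : Fin 2 → K) : cb v v' ![0, 1] = v' := by
  funext i
  simp [cb]

omit [NumberField K] in
private theorem lin_cb {F : Type} [Field F] [Algebra K F] {w u : Fin 2 → F} {v v' : Fin 2 → K} {k₀ k₁ : K}
    (h₀ : u 0 = algebraMap K F k₀ + lin w v) (h₁ : u 1 = algebraMap K F k₁ + lin w v') (x : Fin 2 → K) :
    lin u x = algebraMap K F (x 0 * k₀ + x 1 * k₁) + lin w (cb v v' x) := by
  simp only [lin, cb, map_add, map_mul, h₀, h₁]
  ring

private theorem dt_ne {F : Type} [Field F] [Algebra K F] (hd : Module.finrank K F = 3) {w u : Fin 2 → F} {f : Fin 4 → K}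
    (hf : Lv f u) {v v' : Fin 2 → K} {k₀ k₁ : K}
    (h₀ : u 0 = algebraMap K F k₀ + lin w v) (h₁ : u 1 = algebraMap K F k₁ + lin w v') : dt v v' ≠ 0 := by
  intro h
  have key : ∀ x : Fin 2 → K, cb v v' x = 0 → x = 0 := by
    intro x hx
    have h1 := lin_cb h₀ h₁ x
    rw [hx] at h1
    have h2 : lin w (0 : Fin 2 → K) = 0 := by simp [lin]
    rw [h2, add_zero] at h1
    have h3 : algebraMap K F (-(x 0 * k₀ + x 1 * k₁)) + lin u x = 0 := by
      rw [h1, map_neg]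
      ring
    exact (lv_zero hd hf h3).2
  unfold dt at h
  have h1 := key ![v' 1, -v 1] (by
    funext i
    fin_cases i
    · simp [cb]
      linear_combination h
    · simp [cb]
      ring)
  have h2 := key ![v' 0, -v 0] (by
    funext i
    fin_cases i
    · simp [cb]
      ring
    · simp [cb]
      linear_combination -h)
  have h3 : v 1 = 0 := by
    have := congrFun h1 1
    simpa using this
  have h4 : v 0 = 0 := by
    have := congrFun h2 1
    simpa using this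
  apply hf.non
  refine ⟨k₀, ?_⟩
  rw [h₀]
  simp [lin, h3, h4]

/-- the double count -/
theorem dcount {g : Cb K → ℝ} (hg : ∀ c c' : Cb K, Nonempty (c.F ≃ₐ[K] c'.F) → g c = g c')
    {wb : (c : Cb K) → Fin 2 → c.F} {fb : Cb K → Fin 4 → K} (hb : ∀ c, Lv (fb c) (wb c))
    {T : Finset (Fin 4 → K)} (hT : ∀ f ∈ T, NZ f) :
    {x : Cb K × (Fin 2 → K) × (Fin 2 → K) | x.2.1 ∈ LF (wb x.1) ∧ x.2.2 ∈ LF (wb x.1) ∧
      dt x.2.1 x.2.2 ≠ 0 ∧ (dt x.2.1 x.2.2)⁻¹ • pull (fb x.1) x.2.1 x.2.2 ∈ T}.Finite ∧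
    ∑ᶠ x ∈ {x : Cb K × (Fin 2 → K) × (Fin 2 → K) | x.2.1 ∈ LF (wb x.1) ∧ x.2.2 ∈ LF (wb x.1) ∧
      dt x.2.1 x.2.2 ≠ 0 ∧ (dt x.2.1 x.2.2)⁻¹ • pull (fb x.1) x.2.1 x.2.2 ∈ T}, g x.1 =
      3 * ∑ f ∈ T.filter (fun f => OO K 2 ≤ Lmx f), (frf f).elim 0 (fun x => g x.1) := by
  set T' := T.filter (fun f => OO K 2 ≤ Lmx f) with hT'
  set B := {x : Cb K × (Fin 2 → K) × (Fin 2 → K) | x.2.1 ∈ LF (wb x.1) ∧ x.2.2 ∈ LF (wb x.1) ∧
      dt x.2.1 x.2.2 ≠ 0 ∧ (dt x.2.1 x.2.2)⁻¹ • pull (fb x.1) x.2.1 x.2.2 ∈ T} with hB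
  obtain ⟨S, hS⟩ : ∃ S : (Fin 4 → K) → Set (Fr K), S = fun f => {y | Lv f y.2} := ⟨_, rfl⟩
  have hSm : ∀ f y, y ∈ S f ↔ Lv f y.2 := by
    intro f y
    rw [hS]
    rfl
  have hTz : ∀ f ∈ T', NZ f := fun f hf => hT f (Finset.mem_filter.1 hf).1
  have hS3 : ∀ f ∈ T', (S f).ncard = 3 := by
    intro f hf
    rw [hS]
    exact (recov (hTz f hf)).1
  have hSf : ∀ f ∈ T', (S f).Finite := fun f hf => Set.finite_of_ncard_ne_zero (by rw [hS3 f hf]; norm_num)
  -- the bijection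
  have hbij : Set.BijOn (frm hb) B (⋃ f ∈ (T' : Set (Fin 4 → K)), S f) := by
    refine ⟨?_, ?_, ?_⟩
    · rintro ⟨c, v, v'⟩ ⟨hv, hv', hd, hfT⟩
      simp only at hv hv' hd hfT
      obtain ⟨u, hu, hL, k, h₀, h₁⟩ := frm_spec hb c v v' hd
      rw [hu, Set.mem_iUnion₂]
      refine ⟨_, ?_, (hSm _ _).2 hL⟩
      rw [Finset.mem_coe, hT', Finset.mem_filter]
      refine ⟨hfT, ?_⟩
      rw [lmx_eq hL]
      intro p hp
      exact (lf_change h₀ h₁ p).2 (cb_mem hv hv' hp)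
    · rintro ⟨c, v, v'⟩ ⟨-, -, hd, -⟩ ⟨c', z, z'⟩ ⟨-, -, hd', -⟩ heq
      simp only at hd hd'
      obtain ⟨u, hu, hL, k, h₀, h₁⟩ := frm_spec hb c v v' hd
      obtain ⟨u', hu', hL', k', h₀', h₁'⟩ := frm_spec hb c' z z' hd'
      rw [hu, hu'] at heq
      obtain ⟨hc, hh⟩ := Sigma.mk.inj_iff.1 heq
      subst hc
      have hh' := eq_of_heq hh
      subst hh'
      have e0 := lv_zero c.deg (hb c) (k := k 0 - k' 0) (v := v - z) (by
        rw [h₀] at h₀'
        simp only [lin, map_sub, Pi.sub_apply] at h₀' ⊢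
        linear_combination h₀')
      have e1 := lv_zero c.deg (hb c) (k := k 1 - k' 1) (v := v' - z') (by
        rw [h₁] at h₁'
        simp only [lin, map_sub, Pi.sub_apply] at h₁' ⊢
        linear_combination h₁')
      rw [sub_eq_zero.1 e0.2, sub_eq_zero.1 e1.2]
    · rintro ⟨c, u⟩ hy
      rw [Set.mem_iUnion₂] at hy
      obtain ⟨f, hfT, hfS⟩ := hy
      rw [hSm] at hfS
      have hL : Lv f u := hfS
      rw [Finset.mem_coe, hT', Finset.mem_filter] at hfT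
      obtain ⟨k₀, v, h₀⟩ := lv_span c.deg (hb c) (u 0)
      obtain ⟨k₁, v', h₁⟩ := lv_span c.deg (hb c) (u 1)
      have hd := dt_ne c.deg hL h₀ h₁
      obtain ⟨u', hu', hL', k, h₀', h₁'⟩ := frm_spec hb c v v' hd
      obtain ⟨hff, huu⟩ := lv_uniq c.deg hL hL' (k := ![k 0 - k₀, k 1 - k₁]) (by
        intro i
        fin_cases i
        · simp only [Fin.zero_eta, Fin.isValue, Matrix.cons_val_zero, map_sub]
          rw [h₀', h₀]
          ring
        · simp only [Fin.mk_one, Fin.isValue, Matrix.cons_val_one, Matrix.cons_val_fin_one, map_sub]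
          rw [h₁', h₁]
          ring)
      have hch : ∀ x : Fin 2 → K, x ∈ LF u ↔ cb v v' x ∈ LF (wb c) := by
        intro x
        refine lf_change (k := ![k₀, k₁]) ?_ ?_ x
        · rw [h₀]
          simp [add_comm]
        · rw [h₁]
          simp [add_comm]
      have hle : OO K 2 ≤ LF u := by
        rw [← lmx_eq hL]
        exact hfT.2
      refine ⟨⟨c, v, v'⟩, ⟨?_, ?_, hd, ?_⟩, ?_⟩
      · have := (hch ![1, 0]).1 (hle e0_mem)
        rwa [cb_e0] at this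
      · have := (hch ![0, 1]).1 (hle e1_mem)
        rwa [cb_e1] at this
      · simp only
        rw [hff]
        exact hfT.1
      · rw [hu', huu]
  have hXf : (⋃ f ∈ (T' : Set (Fin 4 → K)), S f).Finite := T'.finite_toSet.biUnion hSf
  refine ⟨hbij.finite_iff_finite.2 hXf, ?_⟩
  have hsum : ∑ᶠ x ∈ B, g x.1 = ∑ᶠ y ∈ ⋃ f ∈ (T' : Set (Fin 4 → K)), S f, g y.1 :=
    finsum_mem_eq_of_bijOn (frm hb) hbij fun x _ => rfl
  have hdisj : (T' : Set (Fin 4 → K)).PairwiseDisjoint S := by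
    intro f _ f' _ hne
    rw [Function.onFun, Set.disjoint_left]
    intro y hy hy'
    rw [hSm] at hy hy'
    apply hne
    exact (lv_uniq y.1.deg hy hy' (k := 0) (fun i => by simp)).1.symm
  rw [hsum, finsum_mem_biUnion hdisj T'.finite_toSet hSf, finsum_mem_coe_finset, Finset.mul_sum]
  refine Finset.sum_congr rfl fun f hf => ?_
  have hx : ∃ x : Fr K, Lv f x.2 := by
    have h3 := hS3 f hf
    obtain ⟨x, hx⟩ : (S f).Nonempty := by
      rw [Set.nonempty_iff_ne_empty]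
      intro h0
      rw [h0, Set.ncard_empty] at h3
      norm_num at h3
    exact ⟨x, (hSm _ _).1 hx⟩
  have hfr : (frf f).elim 0 (fun x => g x.1) = g (hx.choose).1 := by
    unfold frf
    rw [dif_pos hx]
    rfl
  rw [hfr, finsum_mem_eq_finite_toFinset_sum _ (hSf f hf)]
  rw [Finset.sum_congr rfl (g := fun _ => g (hx.choose).1), Finset.sum_const, ← Set.ncard_eq_toFinset_card _ (hSf f hf),
    hS3 f hf, nsmul_eq_mul]
  · norm_num
  · intro y hy
    rw [Set.Finite.mem_toFinset, hSm] at hy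
    obtain ⟨σ, -⟩ := (recov (hTz f hf)).2 y hx.choose hy hx.choose_spec
    exact hg _ _ ⟨σ⟩


end H77.MF
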