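import Pool.Agent.H67.SX.Defs

/-!
# MF (MP_b39724_nt, SX chapter M, arithmetic of binary cubic forms over `𝓞 K`): definitions (complete)

A form is `f = (a, b, c, d) : Fin 4 → K`, `f(x, y) = a x³ + b x² y + c x y² + d y³`. `ev f v` its value, `pull f v w` the coefficients of
`f (X v + Y w)`, `dt v w` the determinant, `disc f` the discriminant, `hA f = b² - 3ac`, `hC f = c² - 3bd`, `hes f` the Hessian,
`cb v w x = x₀ v + x₁ w`.
Lattices: `Λ : Submodule (𝓞 K) (Fin 2 → K)`. `OO K n = 𝓞^n`. `Lt Λ`: finitely generated and of rank 2. `DL Λ` = module generated by the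
determinants. `VL Λ` = `{f | pull f v w` has coefficients in `DL Λ` for all `v, w ∈ Λ}`. `ix Λ = [Λ : 𝓞²]`. `NM l Λ`: the forms `f ∈ VL Λ` for
which there is `Λ < Λ' ≤ l⁻¹ Λ` with `f ∈ VL Λ'`. `Lc l M v`: `v ∈ M` locally at `l`; `LocEq l M M'`: `M = M'` locally at `l`.
`In l f`: all coefficients integral at `l`; `Cg l k f g`: `f ≡ g` modulo `l^k` (locally at `l`). `NML l f`: the local criterion for `f` in
`NM l 𝓞²`: `f = 0` mod `l` or there is a primitive vector `v` with `f(v) = 0` mod `l²` and gradient `0` mod `l`.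
`mu0 l g`, `MU l f`: number of the roots in `P¹(𝓞/l)`, minus 1 if `l ∣ disc`, minus 1.
`Per V J h`: `h` is constant on the classes of `V` mod `J V`; `mean V J h` the mean over these classes.
Frames: `Lv f w` (`w : Fin 2 → F`, `F` cubic over `K`): the multiplication table of Levi and Delone-Faddeev,
`w₀² = -ac - b w₀ + a w₁`, `w₀ w₁ = -ad`, `w₁² = -bd - d w₀ + c w₁`, and `w₀ ∉ K`.
`LF w = {v ∈ K² | v₀ w₀ + v₁ w₁` is integral up to an element of `K}`: the lattice of `F`. `Cb K`: cubic extensions of `K` in `QBar`.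
-/

set_option autoImplicit false

open scoped NumberField Classical
open IsDedekindDomain H38.ML H63.MA H67.SX

noncomputable section

namespace H77.MF

section ring

variable {R : Type} [CommRing R]

/-- the value of the form -/
def ev (f : Fin 4 → R) (v : Fin 2 → R) : R :=
  f 0 * v 0 ^ 3 + f 1 * v 0 ^ 2 * v 1 + f 2 * v 0 * v 1 ^ 2 + f 3 * v 1 ^ 3

/-- the partial derivatives -/
def gr0 (f : Fin 4 → R) (v : Fin 2 → R) : R := 3 * f 0 * v 0 ^ 2 + 2 * f 1 * v 0 * v 1 + f 2 * v 1 ^ 2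

def gr1 (f : Fin 4 → R) (v : Fin 2 → R) : R := f 1 * v 0 ^ 2 + 2 * f 2 * v 0 * v 1 + 3 * f 3 * v 1 ^ 2

/-- the coefficients of `f (X v + Y w)` -/
def pull (f : Fin 4 → R) (v w : Fin 2 → R) : Fin 4 → R :=
  ![ev f v, w 0 * gr0 f v + w 1 * gr1 f v, v 0 * gr0 f w + v 1 * gr1 f w, ev f w]

/-- the determinant -/
def dt (v w : Fin 2 → R) : R := v 0 * w 1 - v 1 * w 0

/-- the discriminant -/
def disc (f : Fin 4 → R) : R :=
  f 1 ^ 2 * f 2 ^ 2 - 4 * f 0 * f 2 ^ 3 - 4 * f 1 ^ 3 * f 3 - 27 * f 0 ^ 2 * f 3 ^ 2 +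
    18 * f 0 * f 1 * f 2 * f 3

def hA (f : Fin 4 → R) : R := f 1 ^ 2 - 3 * f 0 * f 2

def hC (f : Fin 4 → R) : R := f 2 ^ 2 - 3 * f 1 * f 3

/-- the Hessian -/
def hes (f : Fin 4 → R) (v : Fin 2 → R) : R :=
  hA f * v 0 ^ 2 + (f 1 * f 2 - 9 * f 0 * f 3) * v 0 * v 1 + hC f * v 1 ^ 2

/-- `x₀ v + x₁ w` -/
def cb (v w x : Fin 2 → R) : Fin 2 → R := fun i => x 0 * v i + x 1 * w i

end ring

section lat

variable {K : Type} [Field K] [NumberField K]

/-- `𝓞^n` -/
def OO (K : Type) [Field K] [NumberField K] (n : ℕ) : Submodule (𝓞 K) (Fin n → K) where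
  carrier := {v | ∀ i, ∃ a : 𝓞 K, (a : K) = v i}
  add_mem' := by
    intro v w hv hw i
    obtain ⟨a, ha⟩ := hv i
    obtain ⟨b, hb⟩ := hw i
    exact ⟨a + b, by rw [Pi.add_apply, ← ha, ← hb]; rfl⟩
  zero_mem' := fun i => ⟨0, rfl⟩
  smul_mem' := by
    intro r v hv i
    obtain ⟨a, ha⟩ := hv i
    refine ⟨r * a, ?_⟩
    rw [Pi.smul_apply, ← ha, Algebra.smul_def]
    rfl

/-- the module generated by the determinants -/
def DL (Λ : Submodule (𝓞 K) (Fin 2 → K)) : Submodule (𝓞 K) K :=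
  Submodule.span (𝓞 K) {x | ∃ v ∈ Λ, ∃ w ∈ Λ, x = dt v w}

omit [NumberField K] in
theorem pull_add (f g : Fin 4 → K) (v w : Fin 2 → K) :
    pull (f + g) v w = pull f v w + pull g v w := by
  funext i
  fin_cases i <;> simp [pull, ev, gr0, gr1] <;> ring

omit [NumberField K] in
theorem pull_smul (r : K) (f : Fin 4 → K) (v w : Fin 2 → K) :
    pull (r • f) v w = r • pull f v w := by
  funext i
  fin_cases i <;> simp [pull, ev, gr0, gr1] <;> ring

/-- the forms which are integral on `Λ` -/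
def VL (Λ : Submodule (𝓞 K) (Fin 2 → K)) : Submodule (𝓞 K) (Fin 4 → K) where
  carrier := {f | ∀ v ∈ Λ, ∀ w ∈ Λ, ∀ i, pull f v w i ∈ DL Λ}
  add_mem' := by
    intro f g hf hg v hv w hw i
    rw [pull_add, Pi.add_apply]
    exact (DL Λ).add_mem (hf v hv w hw i) (hg v hv w hw i)
  zero_mem' := by
    intro v hv w hw i
    have h : pull (0 : Fin 4 → K) v w = 0 := by
      funext i
      fin_cases i <;> simp [pull, ev, gr0, gr1]
    rw [h]
    exact (DL Λ).zero_mem
  smul_mem' := by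
    intro r f hf v hv w hw i
    have h : pull (r • f) v w i = r • pull f v w i := by
      have h1 : r • f = (algebraMap (𝓞 K) K r) • f := by
        rw [algebraMap_smul]
      rw [h1, pull_smul, Pi.smul_apply, algebraMap_smul]
    rw [h]
    exact (DL Λ).smul_mem r (hf v hv w hw i)

/-- a lattice of rank 2 -/
def Lt (Λ : Submodule (𝓞 K) (Fin 2 → K)) : Prop := Λ.FG ∧ ∃ v ∈ Λ, ∃ w ∈ Λ, dt v w ≠ 0

/-- the index of `𝓞²` in `Λ` -/
def ix (Λ : Submodule (𝓞 K) (Fin 2 → K)) : ℕ :=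
  (OO K 2).toAddSubgroup.relIndex Λ.toAddSubgroup

/-- the forms on `Λ` which are not maximal at `l` -/
def NM (l : Pl K) (Λ : Submodule (𝓞 K) (Fin 2 → K)) : Set (Fin 4 → K) :=
  {f | f ∈ VL Λ ∧ ∃ Λ' : Submodule (𝓞 K) (Fin 2 → K), Λ < Λ' ∧ l.asIdeal • Λ' ≤ Λ ∧ f ∈ VL Λ'}

/-- `v ∈ M` locally at `l` -/
def Lc {V : Type} [AddCommGroup V] [Module (𝓞 K) V] (l : Pl K) (M : Submodule (𝓞 K) V) (v : V) :
    Prop := ∃ s : 𝓞 K, s ∉ l.asIdeal ∧ s • v ∈ M

/-- `M = M'` locally at `l` -/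
def LocEq {V : Type} [AddCommGroup V] [Module (𝓞 K) V] (l : Pl K) (M M' : Submodule (𝓞 K) V) :
    Prop := ∀ v, Lc l M v ↔ Lc l M' v

/-- integral at `l` -/
def In {n : ℕ} (l : Pl K) (f : Fin n → K) : Prop := ∀ i, l.valuation K (f i) ≤ 1

/-- congruent modulo `l ^ k`, locally at `l` -/
def Cg {n : ℕ} (l : Pl K) (k : ℕ) (f g : Fin n → K) : Prop :=
  ∀ i, l.valuation K (f i - g i) ≤ WithZero.exp (-(k : ℤ))

/-- the local criterion: not maximal at `l` -/
def NML (l : Pl K) (f : Fin 4 → K) : Prop :=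
  Cg l 1 f 0 ∨ ∃ v : Fin 2 → K, In l v ∧ ¬ Cg l 1 v 0 ∧
    l.valuation K (ev f v) ≤ WithZero.exp (-2 : ℤ) ∧ l.valuation K (gr0 f v) < 1 ∧
    l.valuation K (gr1 f v) < 1

/-- the number of the roots in `P¹(𝓞/l)`, minus 1 if `l` divides the discriminant, minus 1 -/
def mu0 (l : Pl K) (g : Fin 4 → 𝓞 K) : ℝ :=
  ({x : 𝓞 K ⧸ l.asIdeal | ev (fun i => Ideal.Quotient.mk l.asIdeal (g i)) ![x, 1] = 0}.ncard : ℝ) +
    (if g 0 ∈ l.asIdeal then 1 else 0) - (if disc g ∈ l.asIdeal then 1 else 0) - 1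

/-- the same for forms which are integral at `l` -/
def MU (l : Pl K) (f : Fin 4 → K) : ℝ :=
  if h : ∃ g : Fin 4 → 𝓞 K, Cg l 1 f (fun i => (g i : K)) then mu0 l h.choose else 0

/-- constant on the classes of `V` mod `J V` -/
def Per {n : ℕ} (V : Submodule (𝓞 K) (Fin n → K)) (J : Ideal (𝓞 K)) (h : (Fin n → K) → ℝ) : Prop :=
  ∀ f ∈ V, ∀ g ∈ J • V, h (f + g) = h f

/-- the mean over the classes of `V` mod `J V` -/
def mean {n : ℕ} (V : Submodule (𝓞 K) (Fin n → K)) (J : Ideal (𝓞 K)) (h : (Fin n → K) → ℝ) : ℝ :=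
  (∑ᶠ c : V ⧸ (J • ⊤ : Submodule (𝓞 K) V), h ((Quotient.out c : V) : Fin n → K)) /
    (Nat.card (V ⧸ (J • ⊤ : Submodule (𝓞 K) V)) : ℝ)

/-- `l⁻¹ Λ` -/
def linv (l : Pl K) (Λ : Submodule (𝓞 K) (Fin 2 → K)) : Submodule (𝓞 K) (Fin 2 → K) where
  carrier := {v | ∀ s ∈ l.asIdeal, s • v ∈ Λ}
  add_mem' := fun {v w} hv hw s hs => by
    rw [smul_add]
    exact Λ.add_mem (hv s hs) (hw s hs)
  zero_mem' := fun s _ => by
    rw [smul_zero]
    exact Λ.zero_mem
  smul_mem' := fun r v hv s hs => by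
    rw [smul_comm]
    exact Λ.smul_mem r (hv s hs)

/-- the index of `Λ` in `Λ'` -/
def rix (Λ Λ' : Submodule (𝓞 K) (Fin 2 → K)) : ℕ := Λ.toAddSubgroup.relIndex Λ'.toAddSubgroup

/-- `v, w` generate `Λ` locally at `l` -/
def Gn (l : Pl K) (Λ : Submodule (𝓞 K) (Fin 2 → K)) (v w : Fin 2 → K) : Prop :=
  v ∈ Λ ∧ w ∈ Λ ∧ ∀ p ∈ Λ, Lc l (Submodule.span (𝓞 K) {v, w}) p

/-- the mean of `1` over the maximal forms (a universal number) -/
def M0 (l : Pl K) : ℝ := mean (OO K 4) (l.asIdeal ^ 3) (fun f => if NML l f then 0 else 1)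

/-- the mean of `mu` over the maximal forms (a universal number) -/
def M1 (l : Pl K) : ℝ := mean (OO K 4) (l.asIdeal ^ 3) (fun f => if NML l f then 0 else MU l f)

end lat

section fr

variable {K F : Type} [Field K] [Field F] [Algebra K F]

/-- a frame of `F` with form `f` (Levi, Delone-Faddeev) -/
structure Lv (f : Fin 4 → K) (w : Fin 2 → F) : Prop where
  h00 : w 0 * w 0 = algebraMap K F (-(f 0 * f 2)) - algebraMap K F (f 1) * w 0 +
    algebraMap K F (f 0) * w 1
  h01 : w 0 * w 1 = algebraMap K F (-(f 0 * f 3))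
  h11 : w 1 * w 1 = algebraMap K F (-(f 1 * f 3)) - algebraMap K F (f 3) * w 0 +
    algebraMap K F (f 2) * w 1
  non : w 0 ∉ (algebraMap K F).range

/-- `v₀ w₀ + v₁ w₁` -/
def lin (w : Fin 2 → F) (v : Fin 2 → K) : F :=
  algebraMap K F (v 0) * w 0 + algebraMap K F (v 1) * w 1

end fr

section lf

variable {K F : Type} [Field K] [NumberField K] [Field F] [Algebra K F]

/-- the lattice of `F` in the frame `w` -/
def LF (w : Fin 2 → F) : Submodule (𝓞 K) (Fin 2 → K) where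
  carrier := {v | ∃ k : K, IsIntegral ℤ (algebraMap K F k + lin w v)}
  add_mem' := by
    rintro v v' ⟨k, hk⟩ ⟨k', hk'⟩
    refine ⟨k + k', ?_⟩
    have h : algebraMap K F (k + k') + lin w (v + v') =
        (algebraMap K F k + lin w v) + (algebraMap K F k' + lin w v') := by
      simp only [lin, Pi.add_apply, map_add]
      ring
    rw [h]
    exact hk.add hk'
  zero_mem' := ⟨0, by
    have h : algebraMap K F 0 + lin w (0 : Fin 2 → K) = 0 := by simp [lin]
    rw [h]
    exact isIntegral_zero⟩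
  smul_mem' := by
    rintro r v ⟨k, hk⟩
    refine ⟨(r : K) * k, ?_⟩
    have h : algebraMap K F ((r : K) * k) + lin w (r • v) =
        algebraMap K F (r : K) * (algebraMap K F k + lin w v) := by
      have h1 : ∀ i, (r • v) i = (r : K) * v i := fun i => by
        rw [Pi.smul_apply, Algebra.smul_def]
      simp only [lin, h1, map_mul]
      ring
    rw [h]
    exact (NumberField.RingOfIntegers.isIntegral_coe r).map (algebraMap K F).toIntAlgHom |>.mul hk

end lf

/-- a cubic extension of `K` in `QBar` -/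
structure Cb (K : IntermediateField ℚ QBar) where
  F : IntermediateField K QBar
  deg : Module.finrank K F = 3

variable {K : IntermediateField ℚ QBar} [NumberField K]

instance (c : Cb K) : FiniteDimensional K c.F :=
  Module.finite_of_finrank_pos (by rw [c.deg]; norm_num)

instance (c : Cb K) : NumberField c.F := NumberField.of_module_finite K c.F

/-- the absolute norm of the relative discriminant -/
def Cb.D (c : Cb K) : ℝ := (H38.ML.relDisc K c.F : ℝ)

/-- forget that the field is not Galois -/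
def toCb (c : Cu K) : Cb K := ⟨c.F, c.deg⟩

/-- the form has no zero -/
def NZ (f : Fin 4 → K) : Prop := ∀ v : Fin 2 → K, v ≠ 0 → ev f v ≠ 0

/-- a field with a frame -/
abbrev Fr (K : IntermediateField ℚ QBar) : Type := (c : Cb K) × (Fin 2 → c.F)

/-- one of the three frames with form `f` (if there is one) -/
def frf (f : Fin 4 → K) : Option (Fr K) := if h : ∃ x : Fr K, Lv f x.2 then some h.choose else none

/-- the largest lattice on which `f` is integral -/
def Lmx (f : Fin 4 → K) : Submodule (𝓞 K) (Fin 2 → K) :=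
  match frf f with
  | some x => LF x.2
  | none => ⊥

end H77.MF
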