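import Mathlib

/-!
# MF-DS1: the discriminant of a basis in a tower (row: SX MF DS1)

`K / ℚ` finite with basis `b : Basis ι ℚ K`, `F / K` finite, `t : Fin 3 → F` (any family; `n = 3` is used, general `n` is welcome). `Algebra.discr ℚ (fun (i, j) => b i • t j) = Algebra.discr ℚ b ^ 3 * Algebra.norm ℚ (Algebra.discr K t)`.
Proof. `T = traceMatrix ℚ` of the family `(i, j) ↦ b i • t j`: `T_((i,j),(i',j')) = Tr_{F/ℚ}(b_i b_i' t_j t_j') = Tr_{K/ℚ}(b_i b_i' τ_{jj'})`, `τ = traceMatrix K t` (`Algebra.trace_trace`, linearity over `K`). With `G = traceMatrix ℚ b` and `M(x) = Algebra.leftMulMatrix b x` (`x b_i' = ∑ M(x)_{i'' i'} b_i''`):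
`Tr(b_i b_i' x) = ∑_{i''} G_{i i''} M(x)_{i'' i'}`, so `T` is the product of the block diagonal matrix `G` (3 copies) and the block matrix with the blocks `M(τ_{jj'})`; `det` of the first is `det G ^ 3` (`Matrix.det_kronecker` or `Matrix.det_blockDiagonal`), of the second: Mathlib `Matrix.det_det`
(in `Mathlib/RingTheory/Norm/Transitivity.lean`: `(f M.det).det = (f.mapMatrix M).comp.det` for a ring homomorphism `f : S → Matrix n n R`) with `f = Algebra.leftMulMatrix b`: `det = det (M (det τ)) = Algebra.norm ℚ (det τ)` (`Algebra.norm_eq_matrix_det`). Mind the order of the index pairs (`Matrix.comp`, `Equiv.prodComm`, `Matrix.det_reindex_self`/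
`det_submatrix_equiv_self`).
-/

set_option autoImplicit false

noncomputable section

namespace H77.MF

open scoped Classical in
theorem discr_tow {K F : Type} [Field K] [Field F] [CharZero K] [CharZero F] [Algebra K F] [Algebra ℚ K]
    [Algebra ℚ F] [IsScalarTower ℚ K F] [FiniteDimensional ℚ K] [FiniteDimensional K F]
    {ι : Type} [Fintype ι] (b : Module.Basis ι ℚ K) (t : Fin 3 → F) :
    Algebra.discr ℚ (fun p : ι × Fin 3 => algebraMap K F (b p.1) * t p.2) =
      Algebra.discr ℚ b ^ 3 * Algebra.norm ℚ (Algebra.discr K t) := by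
  obtain ⟨τ, hτ⟩ : ∃ τ, τ = Algebra.traceMatrix K t := ⟨_, rfl⟩
  obtain ⟨G, hG⟩ : ∃ G, G = Algebra.traceMatrix ℚ b := ⟨_, rfl⟩
  obtain ⟨T, hT⟩ : ∃ T, T = Algebra.traceMatrix ℚ (fun p : ι × Fin 3 => algebraMap K F (b p.1) * t p.2) :=
    ⟨_, rfl⟩
  have hent : ∀ (i i' : ι) (j j' : Fin 3), T (i, j) (i', j') =
      ∑ i'', G i i'' * Algebra.leftMulMatrix b (τ j j') i'' i' := by
    intro i i' j j'
    have e1 : T (i, j) (i', j') = Algebra.trace ℚ K (b i * (τ j j' * b i')) := by
      rw [hT, Algebra.traceMatrix_apply, Algebra.traceForm_apply, ← Algebra.trace_trace (S := K)]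
      have e2 : algebraMap K F (b i) * t j * (algebraMap K F (b i') * t j') =
          (b i * b i') • (t j * t j') := by
        rw [Algebra.smul_def, map_mul]
        ring
      have e3 : τ j j' = Algebra.trace K F (t j * t j') := by
        rw [hτ, Algebra.traceMatrix_apply, Algebra.traceForm_apply]
      rw [show (algebraMap K F (b (i, j).1) * t (i, j).2 * (algebraMap K F (b (i', j').1) * t (i', j').2)) =
        algebraMap K F (b i) * t j * (algebraMap K F (b i') * t j') from rfl, e2, map_smul, smul_eq_mul, e3]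
      congr 1
      ring
    have e4 : τ j j' * b i' = ∑ i'', (Algebra.leftMulMatrix b (τ j j') i'' i') • b i'' := by
      conv_lhs => rw [← b.sum_repr (τ j j' * b i')]
      exact Finset.sum_congr rfl fun i'' _ => by rw [Algebra.leftMulMatrix_eq_repr_mul]
    rw [e1, e4, Finset.mul_sum, map_sum]
    refine Finset.sum_congr rfl fun i'' _ => ?_
    rw [mul_smul_comm, map_smul, smul_eq_mul, hG, Algebra.traceMatrix_apply, Algebra.traceForm_apply,
      mul_comm]
  have hprod : T.submatrix (Equiv.prodComm (Fin 3) ι) (Equiv.prodComm (Fin 3) ι) =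
      Matrix.kroneckerMap (fun x1 x2 => x1 * x2) (1 : Matrix (Fin 3) (Fin 3) ℚ) G *
        Matrix.comp (Fin 3) (Fin 3) ι ι ℚ (τ.map (Algebra.leftMulMatrix b)) := by
    ext ⟨j, i⟩ ⟨j', i'⟩
    rw [Matrix.mul_apply, Fintype.sum_prod_type, Finset.sum_eq_single j]
    · rw [Matrix.submatrix_apply]
      change T (i, j) (i', j') = _
      rw [hent]
      refine Finset.sum_congr rfl fun i'' _ => ?_
      rw [Matrix.kronecker_apply, Matrix.one_apply_eq, one_mul]
      rfl
    · intro j1 _ hj1
      refine Finset.sum_eq_zero fun i1 _ => ?_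
      rw [Matrix.kronecker_apply, Matrix.one_apply_ne (Ne.symm hj1), zero_mul, zero_mul]
    · intro h
      exact absurd (Finset.mem_univ j) h
  have hdet : T.det = G.det ^ 3 * Algebra.norm ℚ τ.det := by
    rw [← Matrix.det_submatrix_equiv_self (Equiv.prodComm (Fin 3) ι) T, hprod, Matrix.det_mul,
      Matrix.det_kronecker, Matrix.det_one, one_pow, one_mul, Fintype.card_fin,
      Algebra.norm_eq_matrix_det b]
    congr 1
    exact (Matrix.det_det (M := τ) (Algebra.leftMulMatrix b).toRingHom).symm
  have e0 : Algebra.discr ℚ (fun p : ι × Fin 3 => algebraMap K F (b p.1) * t p.2) = T.det := by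
    rw [hT, Algebra.discr_def]
  rw [e0, Algebra.discr_def, Algebra.discr_def, ← hG, ← hτ, hdet]

end H77.MF
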