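import Mathlib

/-!
# MF-DS2: discriminant and index (row: SX MF DS2)

`F` a number field, `e : ι → 𝓞 F` a family whose image in `F` is a basis over `ℚ`, `R` = the additive subgroup generated by `e`. `discr_ℚ e = [𝓞 F : R]² disc F`.
Proof. `b = RingOfIntegers.basis F` (`integralBasis`), reindex so that both are indexed by `ι` (`card ι = [F:ℚ]`). `e = b P` with an integer matrix `P = b.toMatrix e`; `Algebra.discr_of_matrix_vecMul`/`mulVec` : `discr e = det P ^ 2 discr b` (cast to `ℚ`), `NumberField.coe_discr` (with `Algebra.discr_reindex`).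
`|det P| = [𝓞 F : R]`: `e` is `ℤ`-linearly independent (it is so over `ℚ`), a basis of `R = span_ℤ (range e)` (`Basis.span`), `Submodule.natAbs_det_basis_change` or `AddSubgroup.index_eq_natAbs_det` (file `Mathlib/LinearAlgebra/FreeModule/Finite/CardQuotient.lean`).
-/

set_option autoImplicit false

open scoped NumberField

noncomputable section

namespace H77.MF

open scoped Classical in
theorem discr_index {F : Type} [Field F] [NumberField F] {ι : Type} [Fintype ι] (e : ι → 𝓞 F)
    (he : LinearIndependent ℚ (fun i => (e i : F))) (hc : Fintype.card ι = Module.finrank ℚ F) :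
    Algebra.discr ℚ (fun i => (e i : F)) =
      ((AddSubgroup.closure (Set.range e)).index : ℚ) ^ 2 * (NumberField.discr F : ℚ) := by
  have hcard : Fintype.card (Module.Free.ChooseBasisIndex ℤ (𝓞 F)) = Fintype.card ι := by
    rw [hc, ← NumberField.RingOfIntegers.rank F, Module.finrank_eq_card_chooseBasisIndex]
  obtain ⟨σ⟩ : Nonempty (Module.Free.ChooseBasisIndex ℤ (𝓞 F) ≃ ι) := ⟨Fintype.equivOfCardEq hcard⟩
  obtain ⟨b, hb⟩ : ∃ b : Module.Basis ι ℤ (𝓞 F), b = (NumberField.RingOfIntegers.basis F).reindex σ := ⟨_, rfl⟩
  -- linear independence over the integers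
  have hli : LinearIndependent ℤ e := by
    have h1 : LinearIndependent ℤ (fun i => (e i : F)) := he.restrict_scalars (by
      intro x y h
      simpa using h)
    exact LinearIndependent.of_comp ((Algebra.linearMap (𝓞 F) F).restrictScalars ℤ) h1
  have hspan : AddSubgroup.toIntSubmodule (AddSubgroup.closure (Set.range e)) =
      Submodule.span ℤ (Set.range e) := by
    rw [← Submodule.span_int_eq_addSubgroupClosure]
    rfl
  have hidx : ((AddSubgroup.closure (Set.range e)).index : ℚ) ^ 2 = ((b.toMatrix e).map (Int.cast : ℤ → ℚ)).det ^ 2 := by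
    have h1 := Submodule.natAbs_det_basis_change b (Submodule.span ℤ (Set.range e)) (Module.Basis.span hli)
    have h2 : (AddSubgroup.closure (Set.range e)).index = Nat.card (𝓞 F ⧸ Submodule.span ℤ (Set.range e)) := by
      rw [← hspan]
      rfl
    have h3 : ((Subtype.val : Submodule.span ℤ (Set.range e) → 𝓞 F) ∘ (Module.Basis.span hli)) = e := by
      funext i
      exact congrArg Subtype.val (Module.Basis.span_apply hli i)
    rw [h3] at h1
    rw [h2, ← h1, Module.Basis.det_apply]
    have h4 : ((b.toMatrix e).map (Int.cast : ℤ → ℚ)).det = ((b.toMatrix e).det : ℚ) := by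
      rw [Int.cast_det]
    rw [h4, Nat.cast_natAbs, ← Int.cast_pow, ← Int.cast_pow, sq_abs]
  -- the change of basis
  have hvec : (fun i => (e i : F)) =
      Matrix.vecMul (fun i => (b i : F)) (((b.toMatrix e).map (Int.cast : ℤ → ℚ)).map (algebraMap ℚ F)) := by
    funext j
    have h1 := b.sum_toMatrix_smul_self e j
    have h2 : (e j : F) = ∑ i, ((b.toMatrix e i j : ℤ) : F) * (b i : F) := by
      have h3 := congrArg (algebraMap (𝓞 F) F) h1
      rw [map_sum] at h3
      rw [← NumberField.RingOfIntegers.coe_eq_algebraMap] at h3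
      rw [← h3]
      refine Finset.sum_congr rfl fun i _ => ?_
      rw [zsmul_eq_mul, map_mul, map_intCast]
    rw [h2, Matrix.vecMul, dotProduct]
    refine Finset.sum_congr rfl fun i _ => ?_
    rw [Matrix.map_apply, Matrix.map_apply, mul_comm]
    simp
  have hdis : Algebra.discr ℚ (fun i => (b i : F)) = (NumberField.discr F : ℚ) := by
    rw [NumberField.coe_discr, ← Algebra.discr_reindex ℚ (NumberField.integralBasis F) σ]
    congr 1
    funext i
    rw [hb]
    simp [NumberField.integralBasis_apply]
  rw [hidx, ← hdis, ← Algebra.discr_of_matrix_vecMul, ← hvec]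

end H77.MF
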