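import Pool.Agent.H77.MF.FrA

/-!
# MF-FRC: the three embeddings of a frame, discriminant (row: SX MF FRC)

`τ : Fin 3 → (F →ₐ[K] Ω)` injective, `α_i = τ_i (w 0)`, `β_i = τ_i (w 1)` in `Ω`. `α_i` are different: `τ_i` is determined by `α_i` because `β_i = (α_i² + b α_i + ac)/a` (`h00`, `lv_a`) and `1, w₀, w₁` is a basis
(`lv_span`). They are roots of `T³ + b T² + ac T + a² d` (`lv_cub`), so (three different roots of a monic cubic: subtract the equations and divide by the differences)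
`α₀ + α₁ + α₂ = -b`, `α₀α₁ + α₀α₂ + α₁α₂ = ac`, `α₀α₁α₂ = -a² d` (`vieta`). All four identities of `lv_emb` follow: `b² - 3ac = Σα_i² - Σα_iα_j`; `β_i` = as above; the determinant is
`(α₁-α₀)(β₂-β₀) - (α₂-α₀)(β₁-β₀) = a⁻¹ [(α₁-α₀)(α₂²-α₀²) - (α₂-α₀)(α₁²-α₀²)] = a⁻¹ (α₁-α₀)(α₂-α₀)(α₂-α₁)`; its square is `disc f` (`a² disc f = ∏(α_i-α_j)²`: substitute `b, c, d` by `vieta`: `b = -Σα`,
`c = (Σα_iα_j)/a`, `d = -α₀α₁α₂/a²`; `field_simp; ring`); the last identity: `f(x,y) a⁻¹ V = ∏ (x(α_j-α_i) + y(β_j-β_i))`, divide: `β_j - β_i = (α_j-α_i)(α_i+α_j+b)/a = -(α_j-α_i) α_k / a` (`b = -Σα`), so the right side is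
`V ∏_k (x - y α_k/a)`, and `∏_k (x - yα_k/a) = a⁻¹ (a x³ + b x² y + c x y² + d y³)` by `vieta`. For `hC`: by the symmetry: `β_i` are the roots of `T³ - cT² + bdT - ad²` or directly `field_simp; ring` after the substitution.
`lv_disc`: `Algebra.discr_eq_det_embeddingsMatrixReindex_pow_two` with `Ω = AlgebraicClosure K` (or any algebraically closed field, `char 0`: there are exactly 3 embeddings: `AlgHom.card`), the determinant of `(1, α_i, β_i)` is the determinant above; or by the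
traces: `Tr 1 = 3`, `Tr w₀ = -b`, `Tr w₁ = c`, `Tr w₀² = b² - 2ac`, `Tr w₀w₁ = -3ad`, `Tr w₁² = c² - 2bd`. `disc f ≠ 0`: `Algebra.discr_not_zero_of_basis` (separable) or the product formula with different `α_i`.
-/

set_option autoImplicit false

noncomputable section

namespace H77.MF

variable {K F : Type} [Field K] [CharZero K] [Field F] [Algebra K F]

theorem lv_inj (hd : Module.finrank K F = 3) {Ω : Type} [Field Ω] [Algebra K Ω] {f : Fin 4 → K}
    {w : Fin 2 → F} (h : Lv f w) {σ τ : F →ₐ[K] Ω} (hσ : σ (w 0) = τ (w 0)) : σ = τ := by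
  have ha : algebraMap K Ω (f 0) ≠ 0 := by
    rw [Ne, FaithfulSMul.algebraMap_eq_zero_iff]
    exact lv_a h
  have key : ∀ ρ : F →ₐ[K] Ω, algebraMap K Ω (f 0) * ρ (w 1) =
      ρ (w 0) * ρ (w 0) + algebraMap K Ω (f 0 * f 2) + algebraMap K Ω (f 1) * ρ (w 0) := by
    intro ρ
    have h1 := congrArg ρ h.h00
    simp only [map_mul, map_add, map_sub, map_neg, AlgHom.commutes] at h1 ⊢
    linear_combination -h1
  have h1 : σ (w 1) = τ (w 1) := by
    apply mul_left_cancel₀ ha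
    rw [key, key, hσ]
  ext z
  obtain ⟨k, v, rfl⟩ := lv_span hd h z
  simp only [lin, map_add, map_mul, AlgHom.commutes, hσ, h1]

theorem vieta (hd : Module.finrank K F = 3) {Ω : Type} [Field Ω] [Algebra K Ω] {f : Fin 4 → K}
    {w : Fin 2 → F} (h : Lv f w) {τ : Fin 3 → (F →ₐ[K] Ω)} (hτ : Function.Injective τ) :
    τ 0 (w 0) + τ 1 (w 0) + τ 2 (w 0) = -algebraMap K Ω (f 1) ∧
    τ 0 (w 0) * τ 1 (w 0) + τ 0 (w 0) * τ 2 (w 0) + τ 1 (w 0) * τ 2 (w 0) =
      algebraMap K Ω (f 0 * f 2) ∧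
    τ 0 (w 0) * τ 1 (w 0) * τ 2 (w 0) = -algebraMap K Ω (f 0 ^ 2 * f 3) := by
  have hne : ∀ i j, i ≠ j → τ i (w 0) - τ j (w 0) ≠ 0 := fun i j hij h1 =>
    hij (hτ (lv_inj hd h (sub_eq_zero.1 h1)))
  have hr : ∀ i, τ i (w 0) ^ 3 + algebraMap K Ω (f 1) * τ i (w 0) ^ 2 +
      algebraMap K Ω (f 0 * f 2) * τ i (w 0) + algebraMap K Ω (f 0 ^ 2 * f 3) = 0 := by
    intro i
    have h1 := congrArg (τ i) (lv_cub h).1
    simp only [map_add, map_mul, map_pow, map_zero, AlgHom.commutes] at h1 ⊢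
    exact h1
  have h0 := hr 0
  have h1 := hr 1
  have h2 := hr 2
  have n01 := hne 0 1 (by decide)
  have n02 := hne 0 2 (by decide)
  have n12 := hne 1 2 (by decide)
  generalize τ 0 (w 0) = x at *
  generalize τ 1 (w 0) = y at *
  generalize τ 2 (w 0) = z at *
  generalize algebraMap K Ω (f 1) = b at *
  generalize algebraMap K Ω (f 0 * f 2) = c at *
  generalize algebraMap K Ω (f 0 ^ 2 * f 3) = d at *
  have p1 : x ^ 2 + x * y + y ^ 2 + b * (x + y) + c = 0 := by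
    apply mul_left_cancel₀ n01
    linear_combination h0 - h1
  have p2 : x ^ 2 + x * z + z ^ 2 + b * (x + z) + c = 0 := by
    apply mul_left_cancel₀ n02
    linear_combination h0 - h2
  have p3 : x + y + z + b = 0 := by
    apply mul_left_cancel₀ n12
    linear_combination p1 - p2
  have e1 : x + y + z = -b := by linear_combination p3
  have e2 : x * y + x * z + y * z = c := by linear_combination -p1 + (x + y) * p3
  refine ⟨e1, e2, ?_⟩
  linear_combination h0 - x ^ 2 * p3 + x * e2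

/-- everything in terms of the three roots -/
private theorem emb_vals (hd : Module.finrank K F = 3) {Ω : Type} [Field Ω] [Algebra K Ω] {f : Fin 4 → K}
    {w : Fin 2 → F} (h : Lv f w) {τ : Fin 3 → (F →ₐ[K] Ω)} (hτ : Function.Injective τ) :
    ∃ A x y z : Ω, A ≠ 0 ∧ algebraMap K Ω (f 0) = A ∧ τ 0 (w 0) = x ∧ τ 1 (w 0) = y ∧ τ 2 (w 0) = z ∧
      algebraMap K Ω (f 1) = -(x + y + z) ∧ algebraMap K Ω (f 2) = (x * y + x * z + y * z) / A ∧
      algebraMap K Ω (f 3) = -(x * y * z) / A ^ 2 ∧ τ 0 (w 1) = y * z / A ∧ τ 1 (w 1) = x * z / A ∧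
      τ 2 (w 1) = x * y / A := by
  have ha : algebraMap K Ω (f 0) ≠ 0 := by
    rw [Ne, FaithfulSMul.algebraMap_eq_zero_iff]
    exact lv_a h
  have key : ∀ ρ : F →ₐ[K] Ω, algebraMap K Ω (f 0) * ρ (w 1) =
      ρ (w 0) * ρ (w 0) + algebraMap K Ω (f 0 * f 2) + algebraMap K Ω (f 1) * ρ (w 0) := by
    intro ρ
    have h1 := congrArg ρ h.h00
    simp only [map_mul, map_add, map_sub, map_neg, AlgHom.commutes] at h1 ⊢
    linear_combination -h1
  obtain ⟨v1, v2, v3⟩ := vieta hd h hτ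
  have k0 := key (τ 0)
  have k1 := key (τ 1)
  have k2 := key (τ 2)
  have v2' := v2
  have v3' := v3
  rw [map_mul] at v2'
  rw [map_mul, map_pow] at v3'
  refine ⟨_, _, _, _, ha, rfl, rfl, rfl, rfl, ?_, ?_, ?_, ?_, ?_, ?_⟩
  · linear_combination v1
  · rw [eq_div_iff ha]
    linear_combination -v2'
  · rw [eq_div_iff (pow_ne_zero 2 ha)]
    linear_combination v3'
  · rw [eq_div_iff ha]
    linear_combination k0 - v2 + (τ 0 (w 0)) * v1
  · rw [eq_div_iff ha]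
    linear_combination k1 - v2 + (τ 1 (w 0)) * v1
  · rw [eq_div_iff ha]
    linear_combination k2 - v2 + (τ 2 (w 0)) * v1

theorem lv_emb (hd : Module.finrank K F = 3) {Ω : Type} [Field Ω] [Algebra K Ω] {f : Fin 4 → K}
    {w : Fin 2 → F} (h : Lv f w) {τ : Fin 3 → (F →ₐ[K] Ω)} (hτ : Function.Injective τ) :
    algebraMap K Ω (hA f) = τ 0 (w 0) ^ 2 + τ 1 (w 0) ^ 2 + τ 2 (w 0) ^ 2 - τ 0 (w 0) * τ 1 (w 0) -
        τ 0 (w 0) * τ 2 (w 0) - τ 1 (w 0) * τ 2 (w 0) ∧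
    algebraMap K Ω (hC f) = τ 0 (w 1) ^ 2 + τ 1 (w 1) ^ 2 + τ 2 (w 1) ^ 2 - τ 0 (w 1) * τ 1 (w 1) -
        τ 0 (w 1) * τ 2 (w 1) - τ 1 (w 1) * τ 2 (w 1) ∧
    algebraMap K Ω (disc f) = ((τ 1 (w 0) - τ 0 (w 0)) * (τ 2 (w 1) - τ 0 (w 1)) -
        (τ 2 (w 0) - τ 0 (w 0)) * (τ 1 (w 1) - τ 0 (w 1))) ^ 2 ∧
    ∀ v : Fin 2 → K, algebraMap K Ω (ev f v) *
        ((τ 1 (w 0) - τ 0 (w 0)) * (τ 2 (w 1) - τ 0 (w 1)) -
          (τ 2 (w 0) - τ 0 (w 0)) * (τ 1 (w 1) - τ 0 (w 1))) =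
      (τ 1 (lin w v) - τ 0 (lin w v)) * (τ 2 (lin w v) - τ 0 (lin w v)) *
        (τ 2 (lin w v) - τ 1 (lin w v)) := by
  obtain ⟨A, x, y, z, hA0, e0, a0, a1, a2, e1, e2, e3, b0, b1, b2⟩ := emb_vals hd h hτ
  refine ⟨?_, ?_, ?_, ?_⟩
  · simp only [hA, map_sub, map_mul, map_pow, map_ofNat]
    rw [e0, e1, e2, a0, a1, a2]
    field_simp
    ring
  · simp only [hC, map_sub, map_mul, map_pow, map_ofNat]
    rw [e1, e2, e3, b0, b1, b2]
    field_simp
    ring
  · simp only [disc, map_sub, map_add, map_mul, map_pow, map_ofNat]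
    rw [e0, e1, e2, e3, a0, a1, a2, b0, b1, b2]
    field_simp
    ring
  · intro v
    simp only [ev, lin, map_add, map_mul, map_pow, AlgHom.commutes]
    rw [e0, e1, e2, e3, a0, a1, a2, b0, b1, b2]
    field_simp
    ring

theorem lv_disc (hd : Module.finrank K F = 3) {f : Fin 4 → K} {w : Fin 2 → F} (h : Lv f w) :
    Algebra.discr K ![1, w 0, w 1] = disc f ∧ disc f ≠ 0 := by
  have hf : FiniteDimensional K F := FiniteDimensional.of_finrank_pos (by rw [hd]; norm_num)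
  have hcard : Fintype.card (F →ₐ[K] AlgebraicClosure K) = 3 := by
    rw [AlgHom.card K F (AlgebraicClosure K), hd]
  let e : Fin 3 ≃ (F →ₐ[K] AlgebraicClosure K) := (Fintype.equivFinOfCardEq hcard).symm
  have h1 := Algebra.discr_eq_det_embeddingsMatrixReindex_pow_two K (AlgebraicClosure K) ![1, w 0, w 1] e
  have h2 := (lv_emb hd h e.injective).2.2.1
  have h3 : Algebra.discr K ![1, w 0, w 1] = disc f := by
    apply (algebraMap K (AlgebraicClosure K)).injective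
    rw [h1, h2]
    congr 1
    rw [Matrix.det_fin_three]
    simp only [Algebra.embeddingsMatrixReindex, Algebra.embeddingsMatrix_apply, Matrix.reindex_apply,
      Matrix.submatrix_apply, Equiv.refl_symm, Equiv.refl_apply, Equiv.symm_symm, Matrix.cons_val_zero,
      Matrix.cons_val_one, Matrix.cons_val, map_one]
    ring
  refine ⟨h3, ?_⟩
  rw [← h3]
  have hc : Fintype.card (Fin 3) = Module.finrank K F := by rw [hd, Fintype.card_fin]
  have h4 := Algebra.discr_not_zero_of_basis K (basisOfLinearIndependentOfCardEqFinrank (lv_ind hd h) hc)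
  rw [coe_basisOfLinearIndependentOfCardEqFinrank] at h4
  exact h4

end H77.MF
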