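import Pool.Agent.H77.MF.Idn

/-!
# MF-FRA: frames of a cubic field (row: SX MF FRA)

`F / K` a field extension of degree 3, `char K = 0`. `Lv f w` with `f = (a, b, c, d)`: `w₀² = -ac - b w₀ + a w₁`, `w₀ w₁ = -ad`, `w₁² = -bd - d w₀ + c w₁`, `w₀ ∉ K`.

* `lv_a`: `a = f 0 ≠ 0`: otherwise `w₀² = - b w₀` and `w₀ ∈ {0, -b} ⊂ K`.
* `quad`: if `z ∈ F` satisfies `z² + r z + s = 0` with `r, s ∈ K` then `z ∈ K`: `[K(z) : K]` is at most 2 and divides 3 (`minpoly.natDegree_le..`, `minpoly.degree_dvd`/`IntermediateField.finrank_..`,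
  `Module.finrank_mul_finrank`), so it is 1.
* `lv_ind`: `1, w₀, w₀²` are independent by `quad` and `w₀ ∉ K` (a relation with nonzero coefficient of `w₀²` contradicts `quad`; otherwise `w₀ ∈ K`), and `w₀² = -ac - b w₀ + a w₁`, `a ≠ 0`.
* `lv_cub`: `w₀³ + b w₀² + ac w₀ + a² d = 0` (multiply `h00` by `w₀`, use `h01`), `w₁³ - c w₁² + bd w₁ - a d² = 0`.
* `lv_span`: every element of `F` is `algebraMap k + lin w v` (basis).
* `lv_ex`: `1, t₀, t₁` is a basis (dimension 3); `t₀t₁ = q₀ + q₁t₀ + q₂t₁`; put `w₀ = t₀ - q₂`, `w₁ = t₁ - q₁`: `w₀w₁ = m := q₀ + q₁q₂ ∈ K`. `w₀² = P₀ + P₁w₀ + P₂w₁`, `w₁² = R₀ + R₁w₀ + R₂w₁`. From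
  `w₀²w₁ = m w₀`: `P₀w₁ + P₁m + P₂(R₀ + R₁w₀ + R₂w₁) = m w₀`: `P₂R₁ = m`, `P₀ + P₂R₂ = 0` (coefficients of `w₀`, `w₁`). From `w₀w₁² = m w₁`: `R₀w₀ + R₁(P₀ + P₁w₀ + P₂w₁) + R₂m = m w₁`: `R₀ + R₁P₁ = 0`.
  `f = (P₂, -P₁, R₂, -R₁)`: `-ad = P₂R₁ = m`, `-ac = -P₂R₂ = P₀`, `-bd = -P₁R₁ = R₀`. `w₀ ∉ K` because `t₀ ∉ K`.
* `lv_uniq`: `u₀u₁ = w₀w₁ + k₁w₀ + k₀w₁ + k₀k₁ ∈ K`, so `k₀ = k₁ = 0` (`lv_ind`), `u = w`; then compare the coefficients in `h00`, `h11`.
* `lv_det`: if `lin w v ^ 2 = κ + lin w y` then `dt v y = ev f v`: `(v₀w₀ + v₁w₁)² = const + (-b v₀² - d v₁²) w₀ + (a v₀² + c v₁²) w₁`, so `y = (-b v₀² - d v₁², a v₀² + c v₁²)`.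
* `lv_ev`: if `ev f v = 0`, `v ≠ 0`, then with `y` as above `dt v y = 0`, so `y = r v`, and `z = lin w v` satisfies `z² = κ + r z`, `z ∈ K` by `quad`, contradiction to `lv_ind`.
* `form_ext`: two forms over an infinite field with the same values are equal: take `(x, 1)`, polynomials in `x` (or the values at `(1,0), (0,1), (1,1), (1,-1), (2,1)`: linear algebra, `char 0`).
* `lv_pull`: `t = (lin w v, lin w v')` is independent mod `K` (`dt v v' ≠ 0`); by `lv_ex` there is `Lv g u`, `u = t + k`. For `x ∈ K²`: `lin u x = lin w (cb v v' x) + const`; if `(lin u x)² = κ + lin u y` then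
  `(lin w (cb v v' x))² = κ' + lin w (cb v v' (y + r x))` for some `κ', r ∈ K`, so `ev f (cb v v' x) = dt (cb v v' x) (cb v v' (y + r x)) = dt v v' dt x y = dt v v' ev g x`; `ev_pull`, `form_ext`.
-/

set_option autoImplicit false
set_option linter.unusedSectionVars false

noncomputable section

namespace H77.MF

variable {K F : Type} [Field K] [CharZero K] [Field F] [Algebra K F]

private theorem fra_eq (t : Fin 2 → F) (g : Fin 3 → K) :
    ∑ i, g i • (![1, t 0, t 1] : Fin 3 → F) i = algebraMap K F (g 0) + lin t ![g 1, g 2] := by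
  rw [Fin.sum_univ_three]
  simp only [lin, Matrix.cons_val_zero, Matrix.cons_val_one, Matrix.cons_val, Algebra.smul_def,
    mul_one]
  rw [add_assoc]

private theorem fra_span (hd : Module.finrank K F = 3) {t : Fin 2 → F}
    (ht : LinearIndependent K ![1, t 0, t 1]) (z : F) :
    ∃ (k : K) (v : Fin 2 → K), z = algebraMap K F k + lin t v := by
  have h1 := ht.span_eq_top_of_card_eq_finrank (by rw [Fintype.card_fin, hd])
  have h2 : z ∈ Submodule.span K (Set.range ![1, t 0, t 1]) := by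
    rw [h1]
    exact Submodule.mem_top
  obtain ⟨g, hg⟩ := (Submodule.mem_span_range_iff_exists_fun K).1 h2
  rw [fra_eq] at hg
  exact ⟨g 0, _, hg.symm⟩

private theorem fra_zero {t : Fin 2 → F} (ht : LinearIndependent K ![1, t 0, t 1]) {k : K}
    {v : Fin 2 → K} (h0 : algebraMap K F k + lin t v = 0) : k = 0 ∧ v = 0 := by
  have h1 := Fintype.linearIndependent_iff.1 ht ![k, v 0, v 1] (by
    rw [fra_eq]
    have h2 : ![(![k, v 0, v 1] : Fin 3 → K) 1, (![k, v 0, v 1] : Fin 3 → K) 2] = v := by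
      funext i
      fin_cases i <;> rfl
    rw [h2]
    exact h0)
  refine ⟨h1 0, ?_⟩
  funext i
  fin_cases i
  · exact h1 1
  · exact h1 2

private theorem fra_ind {t : Fin 2 → F}
    (h : ∀ (k : K) (v : Fin 2 → K), algebraMap K F k + lin t v = 0 → k = 0 ∧ v = 0) :
    LinearIndependent K ![1, t 0, t 1] := by
  rw [Fintype.linearIndependent_iff]
  intro g hg
  rw [fra_eq] at hg
  obtain ⟨h1, h2⟩ := h _ _ hg
  intro i
  fin_cases i
  · exact h1
  · exact congrFun h2 0
  · exact congrFun h2 1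

theorem quad (hd : Module.finrank K F = 3) {z : F} {r s : K}
    (h : z ^ 2 + algebraMap K F r * z + algebraMap K F s = 0) : z ∈ (algebraMap K F).range := by
  have hf : FiniteDimensional K F := FiniteDimensional.of_finrank_pos (by rw [hd]; norm_num)
  have hi : IsIntegral K z := Algebra.IsIntegral.isIntegral z
  let p : Polynomial K := Polynomial.X ^ 2 + Polynomial.C r * Polynomial.X + Polynomial.C s
  have hp : p.natDegree = 2 := by
    change (Polynomial.X ^ 2 + Polynomial.C r * Polynomial.X + Polynomial.C s).natDegree = 2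
    compute_degree!
  have hp0 : p ≠ 0 := by
    intro h0
    rw [h0, Polynomial.natDegree_zero] at hp
    exact absurd hp (by norm_num)
  have h1 : Polynomial.aeval z p = 0 := by
    simp only [p, map_add, map_pow, map_mul, Polynomial.aeval_X, Polynomial.aeval_C]
    exact h
  have h2 := Polynomial.natDegree_le_of_dvd (minpoly.dvd K z h1) hp0
  rw [hp] at h2
  have h3 := minpoly.degree_dvd hi
  rw [hd] at h3
  have h4 : (minpoly K z).natDegree = 1 := by
    rcases (Nat.dvd_prime Nat.prime_three).1 h3 with h4 | h4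
    · exact h4
    · omega
  exact minpoly.natDegree_eq_one_iff.1 h4

theorem lv_a {f : Fin 4 → K} {w : Fin 2 → F} (h : Lv f w) : f 0 ≠ 0 := by
  intro h0
  have h1 := h.h00
  rw [h0, zero_mul, neg_zero, map_zero, zero_mul, add_zero, zero_sub] at h1
  have h2 : w 0 * (w 0 + algebraMap K F (f 1)) = 0 := by linear_combination h1
  rcases mul_eq_zero.1 h2 with h3 | h3
  · exact h.non ⟨0, by rw [map_zero, h3]⟩
  · exact h.non ⟨-f 1, by rw [map_neg]; linear_combination -h3⟩

theorem lv_ind {f : Fin 4 → K} {w : Fin 2 → F} (hd : Module.finrank K F = 3) (h : Lv f w) :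
    LinearIndependent K ![1, w 0, w 1] := by
  apply fra_ind
  intro k v h0
  unfold lin at h0
  have h1 : v 1 = 0 := by
    by_contra h1
    have h1' : algebraMap K F (v 1) ≠ 0 := by
      rw [Ne, FaithfulSMul.algebraMap_eq_zero_iff]
      exact h1
    have h2 : w 1 = -(algebraMap K F (k / v 1)) - algebraMap K F (v 0 / v 1) * w 0 := by
      rw [map_div₀, map_div₀]
      field_simp
      linear_combination h0
    have h3 := h.h00
    rw [h2] at h3
    refine h.non (quad hd (r := f 1 + f 0 * (v 0 / v 1)) (s := f 0 * f 2 + f 0 * (k / v 1)) ?_)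
    rw [map_neg, map_mul] at h3
    rw [map_add, map_add, map_mul, map_mul, map_mul]
    linear_combination h3
  have h2 : v 0 = 0 := by
    by_contra h2
    have h2' : algebraMap K F (v 0) ≠ 0 := by
      rw [Ne, FaithfulSMul.algebraMap_eq_zero_iff]
      exact h2
    refine h.non ⟨-(k / v 0), ?_⟩
    rw [h1, map_zero, zero_mul, add_zero] at h0
    rw [map_neg, map_div₀]
    field_simp
    linear_combination -h0
  have h3 : k = 0 := by
    rw [h1, h2, map_zero, zero_mul, zero_mul, add_zero, add_zero,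
      FaithfulSMul.algebraMap_eq_zero_iff] at h0
    exact h0
  refine ⟨h3, ?_⟩
  funext i
  fin_cases i
  · exact h2
  · exact h1

theorem lv_cub {f : Fin 4 → K} {w : Fin 2 → F} (h : Lv f w) :
    w 0 ^ 3 + algebraMap K F (f 1) * w 0 ^ 2 + algebraMap K F (f 0 * f 2) * w 0 +
      algebraMap K F (f 0 ^ 2 * f 3) = 0 ∧
    w 1 ^ 3 - algebraMap K F (f 2) * w 1 ^ 2 + algebraMap K F (f 1 * f 3) * w 1 -
      algebraMap K F (f 0 * f 3 ^ 2) = 0 := by
  have h00 := h.h00
  have h01 := h.h01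
  have h11 := h.h11
  simp only [map_neg, map_mul] at h00 h01 h11
  simp only [map_mul, map_pow]
  constructor
  · linear_combination (w 0) * h00 + algebraMap K F (f 0) * h01
  · linear_combination (w 1) * h11 - algebraMap K F (f 3) * h01

theorem lv_span {f : Fin 4 → K} {w : Fin 2 → F} (hd : Module.finrank K F = 3) (h : Lv f w)
    (z : F) : ∃ (k : K) (v : Fin 2 → K), z = algebraMap K F k + lin w v :=
  fra_span hd (lv_ind hd h) z

theorem lv_zero {f : Fin 4 → K} {w : Fin 2 → F} (hd : Module.finrank K F = 3) (h : Lv f w)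
    {k : K} {v : Fin 2 → K} (h0 : algebraMap K F k + lin w v = 0) : k = 0 ∧ v = 0 :=
  fra_zero (lv_ind hd h) h0

/-- every pair `t` which is independent modulo `K` has a normalised translate -/
theorem lv_ex (hd : Module.finrank K F = 3) {t : Fin 2 → F}
    (ht : LinearIndependent K ![1, t 0, t 1]) :
    ∃ (f : Fin 4 → K) (w : Fin 2 → F), Lv f w ∧ ∃ k : Fin 2 → K, ∀ i,
      w i = t i + algebraMap K F (k i) := by
  obtain ⟨q0, q, hq⟩ := fra_span hd ht (t 0 * t 1)
  obtain ⟨w, hw⟩ : ∃ w : Fin 2 → F, w = ![t 0 - algebraMap K F (q 1), t 1 - algebraMap K F (q 0)] :=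
    ⟨_, rfl⟩
  have hw0 : w 0 = t 0 - algebraMap K F (q 1) := by rw [hw]; rfl
  have hw1 : w 1 = t 1 - algebraMap K F (q 0) := by rw [hw]; rfl
  have hz : ∀ (k : K) (v : Fin 2 → K), algebraMap K F k + lin w v = 0 → k = 0 ∧ v = 0 := by
    intro k v h0
    have h1 : algebraMap K F (k - v 0 * q 1 - v 1 * q 0) + lin t v = 0 := by
      rw [← h0]
      simp only [lin, hw0, hw1, map_sub, map_mul]
      ring
    obtain ⟨h2, h3⟩ := fra_zero ht h1
    rw [h3] at h2
    simp only [Pi.zero_apply, zero_mul, sub_zero] at h2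
    exact ⟨h2, h3⟩
  have hs : ∀ z : F, ∃ (k : K) (v : Fin 2 → K), z = algebraMap K F k + lin w v := by
    intro z
    obtain ⟨k, v, h1⟩ := fra_span hd ht z
    refine ⟨k + v 0 * q 1 + v 1 * q 0, v, ?_⟩
    rw [h1]
    simp only [lin, hw0, hw1, map_add, map_mul]
    ring
  have hm : w 0 * w 1 = algebraMap K F (q0 + q 0 * q 1) := by
    have h1 : t 0 * t 1 = algebraMap K F q0 + (algebraMap K F (q 0) * t 0 +
      algebraMap K F (q 1) * t 1) := hq
    rw [hw0, hw1, map_add, map_mul]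
    linear_combination h1
  obtain ⟨P0, P, hP⟩ := hs (w 0 * w 0)
  obtain ⟨R0, R, hR⟩ := hs (w 1 * w 1)
  unfold lin at hP hR
  have e1 : algebraMap K F (P 0 * (q0 + q 0 * q 1) + P 1 * R0) +
      lin w ![P 1 * R 0 - (q0 + q 0 * q 1), P0 + P 1 * R 1] = 0 := by
    simp only [lin, Matrix.cons_val_zero, Matrix.cons_val_one, map_add, map_sub, map_mul] at hm ⊢
    linear_combination -(algebraMap K F (P 1)) * hR - (w 1) * hP + (w 0 - algebraMap K F (P 0)) * hm
  have e2 : algebraMap K F (R 0 * P0 + R 1 * (q0 + q 0 * q 1)) +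
      lin w ![R0 + R 0 * P 0, R 0 * P 1 - (q0 + q 0 * q 1)] = 0 := by
    simp only [lin, Matrix.cons_val_zero, Matrix.cons_val_one, map_add, map_sub, map_mul] at hm ⊢
    linear_combination -(algebraMap K F (R 0)) * hP - (w 0) * hR + (w 1 - algebraMap K F (R 1)) * hm
  obtain ⟨_, e3⟩ := hz _ _ e1
  obtain ⟨_, e4⟩ := hz _ _ e2
  have e5 : P 1 * R 0 - (q0 + q 0 * q 1) = 0 := congrFun e3 0
  have e6 : P0 + P 1 * R 1 = 0 := congrFun e3 1
  have e7 : R0 + R 0 * P 0 = 0 := congrFun e4 0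
  refine ⟨![P 1, -P 0, R 1, -R 0], w, ?_, ![-q 1, -q 0], ?_⟩
  · refine ⟨?_, ?_, ?_, ?_⟩
    · change w 0 * w 0 = algebraMap K F (-(P 1 * R 1)) - algebraMap K F (-P 0) * w 0 +
        algebraMap K F (P 1) * w 1
      have e8 : -(P 1 * R 1) = P0 := by linear_combination -e6
      rw [e8, hP, map_neg]
      ring
    · change w 0 * w 1 = algebraMap K F (-(P 1 * -R 0))
      have e8 : -(P 1 * -R 0) = q0 + q 0 * q 1 := by linear_combination e5
      rw [e8, hm]
    · change w 1 * w 1 = algebraMap K F (-(-P 0 * -R 0)) - algebraMap K F (-R 0) * w 0 +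
        algebraMap K F (R 1) * w 1
      have e8 : -(-P 0 * -R 0) = R0 := by linear_combination -e7
      rw [e8, hR, map_neg]
      ring
    · rintro ⟨k, hk⟩
      have h1 : algebraMap K F (-k) + lin w (![1, 0] : Fin 2 → K) = 0 := by
        simp only [lin, Matrix.cons_val_zero, Matrix.cons_val_one, map_neg, map_one, map_zero, hk]
        ring
      have h2 := congrFun (hz _ _ h1).2 0
      exact one_ne_zero h2
  · intro i
    fin_cases i
    · change w 0 = t 0 + algebraMap K F (-q 1)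
      rw [hw0, map_neg, sub_eq_add_neg]
    · change w 1 = t 1 + algebraMap K F (-q 0)
      rw [hw1, map_neg, sub_eq_add_neg]

theorem lv_uniq (hd : Module.finrank K F = 3) {f g : Fin 4 → K} {w u : Fin 2 → F} (h : Lv f w)
    (h' : Lv g u) {k : Fin 2 → K} (hk : ∀ i, u i = w i + algebraMap K F (k i)) :
    g = f ∧ u = w := by
  have h01 := h.h01
  have h01' := h'.h01
  rw [hk 0, hk 1] at h01'
  have e1 : algebraMap K F (g 0 * g 3 - f 0 * f 3 + k 0 * k 1) + lin w ![k 1, k 0] = 0 := by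
    simp only [lin, Matrix.cons_val_zero, Matrix.cons_val_one, map_add, map_sub, map_mul,
      map_neg] at h01 h01' ⊢
    linear_combination h01' - h01
  have e2 := (lv_zero hd h e1).2
  have e3 : k 1 = 0 := congrFun e2 0
  have e4 : k 0 = 0 := congrFun e2 1
  have hu : u = w := by
    funext i
    fin_cases i
    · change u 0 = w 0
      rw [hk 0, e4, map_zero, add_zero]
    · change u 1 = w 1
      rw [hk 1, e3, map_zero, add_zero]
  refine ⟨?_, hu⟩
  subst hu
  have h00 := h.h00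
  have h00' := h'.h00
  have h11 := h.h11
  have h11' := h'.h11
  have e5 : algebraMap K F (f 0 * f 2 - g 0 * g 2) + lin u ![f 1 - g 1, g 0 - f 0] = 0 := by
    simp only [lin, Matrix.cons_val_zero, Matrix.cons_val_one, map_sub, map_mul,
      map_neg] at h00 h00' ⊢
    linear_combination h00 - h00'
  have e6 : algebraMap K F (f 1 * f 3 - g 1 * g 3) + lin u ![f 3 - g 3, g 2 - f 2] = 0 := by
    simp only [lin, Matrix.cons_val_zero, Matrix.cons_val_one, map_sub, map_mul,
      map_neg] at h11 h11' ⊢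
    linear_combination h11 - h11'
  have e7 := (lv_zero hd h e5).2
  have e8 := (lv_zero hd h e6).2
  have a1 : f 1 - g 1 = 0 := congrFun e7 0
  have a0 : g 0 - f 0 = 0 := congrFun e7 1
  have a3 : f 3 - g 3 = 0 := congrFun e8 0
  have a2 : g 2 - f 2 = 0 := congrFun e8 1
  funext i
  fin_cases i
  · exact sub_eq_zero.1 a0
  · exact (sub_eq_zero.1 a1).symm
  · exact sub_eq_zero.1 a2
  · exact (sub_eq_zero.1 a3).symm

theorem lv_det (hd : Module.finrank K F = 3) {f : Fin 4 → K} {w : Fin 2 → F} (h : Lv f w)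
    {v y : Fin 2 → K} {κ : K} (hy : lin w v ^ 2 = algebraMap K F κ + lin w y) :
    dt v y = ev f v := by
  have h00 := h.h00
  have h01 := h.h01
  have h11 := h.h11
  have e1 : algebraMap K F (κ + f 0 * f 2 * v 0 ^ 2 + 2 * v 0 * v 1 * (f 0 * f 3) +
      f 1 * f 3 * v 1 ^ 2) +
      lin w ![y 0 + f 1 * v 0 ^ 2 + f 3 * v 1 ^ 2, y 1 - f 0 * v 0 ^ 2 - f 2 * v 1 ^ 2] = 0 := by
    simp only [lin, Matrix.cons_val_zero, Matrix.cons_val_one, map_add, map_sub, map_mul, map_pow,
      map_neg, map_ofNat] at h00 h01 h11 hy ⊢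
    linear_combination -hy + algebraMap K F (v 0) ^ 2 * h00 + 2 * algebraMap K F (v 0) *
      algebraMap K F (v 1) * h01 + algebraMap K F (v 1) ^ 2 * h11
  have e2 := (lv_zero hd h e1).2
  have e3 : y 0 + f 1 * v 0 ^ 2 + f 3 * v 1 ^ 2 = 0 := congrFun e2 0
  have e4 : y 1 - f 0 * v 0 ^ 2 - f 2 * v 1 ^ 2 = 0 := congrFun e2 1
  unfold dt ev
  linear_combination v 0 * e4 - v 1 * e3

theorem lv_ev (hd : Module.finrank K F = 3) {f : Fin 4 → K} {w : Fin 2 → F} (h : Lv f w)
    {v : Fin 2 → K} (hv : v ≠ 0) : ev f v ≠ 0 := by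
  intro h0
  obtain ⟨κ, y, hy⟩ := lv_span hd h (lin w v ^ 2)
  have h1 := lv_det hd h hy
  rw [h0] at h1
  have h2 : ∃ r : K, y = r • v := by
    by_cases hv0 : v 0 = 0
    · have hv1 : v 1 ≠ 0 := by
        intro h3
        apply hv
        funext i
        fin_cases i
        · exact hv0
        · exact h3
      refine ⟨y 1 / v 1, ?_⟩
      unfold dt at h1
      rw [hv0, zero_mul, zero_sub, neg_eq_zero] at h1
      have h3 : y 0 = 0 := (mul_eq_zero.1 h1).resolve_left hv1
      funext i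
      fin_cases i
      · change y 0 = y 1 / v 1 * v 0
        rw [h3, hv0, mul_zero]
      · change y 1 = y 1 / v 1 * v 1
        rw [div_mul_cancel₀ _ hv1]
    · refine ⟨y 0 / v 0, ?_⟩
      unfold dt at h1
      funext i
      fin_cases i
      · change y 0 = y 0 / v 0 * v 0
        rw [div_mul_cancel₀ _ hv0]
      · change y 1 = y 0 / v 0 * v 1
        field_simp
        linear_combination h1
  obtain ⟨r, hr⟩ := h2
  have h3 : lin w y = algebraMap K F r * lin w v := by
    rw [hr]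
    simp only [lin, Pi.smul_apply, smul_eq_mul, map_mul]
    ring
  rw [h3] at hy
  obtain ⟨k, hk⟩ := quad hd (z := lin w v) (r := -r) (s := -κ) (by
    rw [map_neg, map_neg]
    linear_combination hy)
  have h4 : algebraMap K F (-k) + lin w v = 0 := by
    rw [map_neg, hk]
    ring
  exact hv (lv_zero hd h h4).2

theorem form_ext {f g : Fin 4 → K} (h : ∀ x : Fin 2 → K, ev f x = ev g x) : f = g := by
  have h0 := h ![1, 0]
  have h3 := h ![0, 1]
  have h1 := h ![1, 1]
  have h2 := h ![1, -1]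
  simp only [ev, Matrix.cons_val_zero, Matrix.cons_val_one] at h0 h1 h2 h3
  have a0 : f 0 = g 0 := by linear_combination h0
  have a3 : f 3 = g 3 := by linear_combination h3
  have a2' : 2 * f 2 = 2 * g 2 := by linear_combination h1 + h2 - 2 * a0
  have a2 : f 2 = g 2 := mul_left_cancel₀ two_ne_zero a2'
  have a1 : f 1 = g 1 := by linear_combination h1 - a0 - a3 - a2
  funext i
  fin_cases i
  · exact a0
  · exact a1
  · exact a2
  · exact a3

theorem lv_pull (hd : Module.finrank K F = 3) {f : Fin 4 → K} {w : Fin 2 → F} (h : Lv f w)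
    {v v' : Fin 2 → K} (hv : dt v v' ≠ 0) :
    ∃ u : Fin 2 → F, Lv ((dt v v')⁻¹ • pull f v v') u ∧ ∃ k : Fin 2 → K,
      u 0 = lin w v + algebraMap K F (k 0) ∧ u 1 = lin w v' + algebraMap K F (k 1) := by
  have hcb : ∀ x : Fin 2 → K, lin ![lin w v, lin w v'] x = lin w (cb v v' x) := by
    intro x
    simp only [lin, cb, Matrix.cons_val_zero, Matrix.cons_val_one, map_add, map_mul]
    ring
  have ht : LinearIndependent K ![1, (![lin w v, lin w v'] : Fin 2 → F) 0,
      (![lin w v, lin w v'] : Fin 2 → F) 1] := by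
    apply fra_ind
    intro k x h0
    rw [hcb] at h0
    obtain ⟨h1, h2⟩ := lv_zero hd h h0
    refine ⟨h1, ?_⟩
    have h3 : x 0 * v 0 + x 1 * v' 0 = 0 := congrFun h2 0
    have h4 : x 0 * v 1 + x 1 * v' 1 = 0 := congrFun h2 1
    have h5 : dt v v' * x 0 = 0 := by
      unfold dt
      linear_combination v' 1 * h3 - v' 0 * h4
    have h6 : dt v v' * x 1 = 0 := by
      unfold dt
      linear_combination v 0 * h4 - v 1 * h3
    funext i
    fin_cases i
    · exact (mul_eq_zero.1 h5).resolve_left hv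
    · exact (mul_eq_zero.1 h6).resolve_left hv
  obtain ⟨g, u, hgu, k, hk⟩ := lv_ex hd ht
  have hk0 : u 0 = lin w v + algebraMap K F (k 0) := hk 0
  have hk1 : u 1 = lin w v' + algebraMap K F (k 1) := hk 1
  have hu : ∀ x : Fin 2 → K, lin u x = lin w (cb v v' x) + algebraMap K F (x 0 * k 0 + x 1 * k 1) := by
    intro x
    rw [← hcb]
    have h1 : lin u x = algebraMap K F (x 0) * u 0 + algebraMap K F (x 1) * u 1 := rfl
    rw [h1, hk0, hk1]
    simp only [map_add, map_mul]
    have h2 : lin ![lin w v, lin w v'] x = algebraMap K F (x 0) * lin w v +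
      algebraMap K F (x 1) * lin w v' := rfl
    rw [h2]
    ring
  have hev : ∀ x : Fin 2 → K, ev f (cb v v' x) = dt v v' * ev g x := by
    intro x
    obtain ⟨κ, y, hy⟩ := lv_span hd hgu (lin u x ^ 2)
    have h1 := lv_det hd hgu hy
    obtain ⟨e, he⟩ : ∃ e : K, e = x 0 * k 0 + x 1 * k 1 := ⟨_, rfl⟩
    obtain ⟨e', he'⟩ : ∃ e' : K, e' = y 0 * k 0 + y 1 * k 1 := ⟨_, rfl⟩
    rw [hu x, hu y, ← he, ← he'] at hy
    have h2 : lin w (cb v v' x) ^ 2 = algebraMap K F (κ + e' - e ^ 2) +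
        lin w (cb v v' (y + (-(2 * e)) • x)) := by
      have h3 : lin w (cb v v' (y + (-(2 * e)) • x)) = lin w (cb v v' y) -
          2 * algebraMap K F e * lin w (cb v v' x) := by
        simp only [lin, cb, Pi.add_apply, Pi.smul_apply, smul_eq_mul, map_add, map_mul, map_neg,
          map_ofNat]
        ring
      rw [h3, map_sub, map_add, map_pow]
      linear_combination hy
    have h3 := lv_det hd h h2
    rw [← h3, dt_cb, dt_add_right, dt_smul_right, dt_self, mul_zero, add_zero, h1]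
  have hg : (dt v v')⁻¹ • pull f v v' = g := by
    apply form_ext
    intro x
    have h1 : ev ((dt v v')⁻¹ • pull f v v') x = (dt v v')⁻¹ * ev (pull f v v') x := by
      simp only [ev, Pi.smul_apply, smul_eq_mul]
      ring
    rw [h1, ev_pull, hev, inv_mul_cancel_left₀ hv]
  refine ⟨u, ?_, k, hk0, hk1⟩
  rw [hg]
  exact hgu

end H77.MF
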