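import Pool.Agent.H77.MF.Vl
import Pool.Agent.H77.MF.FrA

/-!
# MF-OR1: integrality at `l` in a cubic field (row: SX MF OR1)

`Il l z`: `s z` is integral for some `s ∈ 𝓞 K` outside `l`. Proofs. `il_add`, `il_mul`: products `s s'`. `il_int`: `s = 1`. `il_K`: `→`: `s x` integral in `F`, so in `K` (`isIntegral_algebraMap_iff`), `s x = a ∈ 𝓞 K`, `v(x) = v(a) ≤ 1`.
`←`: `val_frac`. `il_cub`: `z³ + p z² + q z + r = 0` with `v(p), v(q), v(r) ≤ 1`: choose one `s ∉ l` with `s p, s q, s r ∈ 𝓞 K` (`val_frac`, product); `(s z)³ + (s p)(s z)² + s (s q)(s z) + s² (s r) = 0`: `s z` is integral over `𝓞 K`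
(monic polynomial), hence over `ℤ`.
`lv_il`: `In l f → Il l (w i)`: `lv_cub`. `lf_lc`: `→`: `s • v ∈ LF w`: `k' + lin w (s • v)` integral; `k = k'/s`: `s (k + lin w v) = k' + lin w (s • v)` (`s ≠ 0`). `←`: `s (k + lin w v)` integral: `s • v ∈ LF w` with `s k`.
`lf_change`: `lin u x = lin w (cb v v' x) + const`: `u₀x₀ + u₁x₁ = x₀ lin w v + x₁ lin w v' + (x₀k₀ + x₁k₁)`.
`lf_den`: there is `N ≠ 0` in `𝓞 K` with `N • p ∈ LF w` for all `p ∈ OO K 2`: `N w_i` integral (`F` algebraic over `ℚ`: common denominator, e.g. `N ∈ ℤ`).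
`lf_lt`: rank: `N e₁, N e₂ ∈ LF w`. Finitely generated: the map `𝓞 F → K²`, `z ↦` the coordinates of `z` (`z = k + lin w v`, `lv_span`, unique by `lv_zero`) is `𝓞 K`-linear, its range is `LF w` (`z` integral iff in `𝓞 F`), and `𝓞 F` is a finite `𝓞 K`-module
(`Module.Finite (𝓞 K) (𝓞 F)`: instance for number fields; the algebra structure `𝓞 K → 𝓞 F` and the scalar towers are instances). So `LF w` is the image of a finitely generated module (`Submodule.FG.map`).
-/

set_option autoImplicit false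

open scoped NumberField Classical
open IsDedekindDomain H38.ML H63.MA H67.SX

noncomputable section

namespace H77.MF

variable {K F : Type} [Field K] [NumberField K] [Field F] [NumberField F] [Algebra K F] {l : Pl K}

/-- integral at `l` -/
def Il (l : Pl K) (z : F) : Prop := ∃ s : 𝓞 K, s ∉ l.asIdeal ∧ IsIntegral ℤ (algebraMap K F s * z)

private theorem or_isI (s : 𝓞 K) : IsIntegral ℤ (algebraMap K F (s : K)) :=
  (NumberField.RingOfIntegers.isIntegral_coe s).map (algebraMap K F).toIntAlgHom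

private theorem or_mulmem {s s' : 𝓞 K} (hs : s ∉ l.asIdeal) (hs' : s' ∉ l.asIdeal) : s * s' ∉ l.asIdeal :=
  fun h => (l.isPrime.mem_or_mem h).elim hs hs'

private theorem or_ne {s : 𝓞 K} (hs : s ∉ l.asIdeal) : (s : K) ≠ 0 := by
  intro h
  apply hs
  have h1 : s = 0 := by exact_mod_cast h
  rw [h1]
  exact l.asIdeal.zero_mem

private theorem or_coe_mul (s s' : 𝓞 K) : ((s * s' : 𝓞 K) : K) = (s : K) * (s' : K) := map_mul (algebraMap (𝓞 K) K) s s'

private theorem or_coe_one : ((1 : 𝓞 K) : K) = 1 := map_one (algebraMap (𝓞 K) K)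

private theorem or_lin_smul (w : Fin 2 → F) (s : 𝓞 K) (v : Fin 2 → K) :
    lin w (s • v) = algebraMap K F (s : K) * lin w v := by
  have h1 : ∀ i, (s • v) i = (s : K) * v i := fun i => by
    rw [Pi.smul_apply, Algebra.smul_def]
  simp only [lin, h1, map_mul]
  ring

theorem il_add {z z' : F} (h : Il l z) (h' : Il l z') : Il l (z + z') := by
  obtain ⟨s, hs, hz⟩ := h
  obtain ⟨s', hs', hz'⟩ := h'
  refine ⟨s * s', or_mulmem hs hs', ?_⟩
  have h1 : algebraMap K F ((s * s' : 𝓞 K) : K) * (z + z') = algebraMap K F (s' : K) * (algebraMap K F (s : K) * z) +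
      algebraMap K F (s : K) * (algebraMap K F (s' : K) * z') := by
    rw [or_coe_mul, map_mul]
    ring
  rw [h1]
  exact ((or_isI s').mul hz).add ((or_isI s).mul hz')

theorem il_sub {z z' : F} (h : Il l z) (h' : Il l z') : Il l (z - z') := by
  obtain ⟨s, hs, hz⟩ := h
  obtain ⟨s', hs', hz'⟩ := h'
  refine ⟨s * s', or_mulmem hs hs', ?_⟩
  have h1 : algebraMap K F ((s * s' : 𝓞 K) : K) * (z - z') = algebraMap K F (s' : K) * (algebraMap K F (s : K) * z) -
      algebraMap K F (s : K) * (algebraMap K F (s' : K) * z') := by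
    rw [or_coe_mul, map_mul]
    ring
  rw [h1]
  exact ((or_isI s').mul hz).sub ((or_isI s).mul hz')

theorem il_mul {z z' : F} (h : Il l z) (h' : Il l z') : Il l (z * z') := by
  obtain ⟨s, hs, hz⟩ := h
  obtain ⟨s', hs', hz'⟩ := h'
  refine ⟨s * s', or_mulmem hs hs', ?_⟩
  have h1 : algebraMap K F ((s * s' : 𝓞 K) : K) * (z * z') = (algebraMap K F (s : K) * z) *
      (algebraMap K F (s' : K) * z') := by
    rw [or_coe_mul, map_mul]
    ring
  rw [h1]
  exact hz.mul hz'

theorem il_int {z : F} (h : IsIntegral ℤ z) : Il l z := by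
  refine ⟨1, fun h1 => l.isPrime.ne_top ((Ideal.eq_top_iff_one _).2 h1), ?_⟩
  rw [or_coe_one, map_one, one_mul]
  exact h

theorem il_K {x : K} : Il l (algebraMap K F x) ↔ l.valuation K x ≤ 1 := by
  constructor
  · rintro ⟨s, hs, h⟩
    rw [← map_mul, isIntegral_algebraMap_iff (algebraMap K F).injective] at h
    exact val_frac.2 ⟨s, ⟨(s : K) * x, h⟩, hs, rfl⟩
  · intro h
    obtain ⟨s, a, hs, ha⟩ := val_frac.1 h
    refine ⟨s, hs, ?_⟩
    rw [← map_mul, ha]
    exact or_isI a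

private theorem or_cubic {y : F} {a b c : F} (ha : IsIntegral ℤ a) (hb : IsIntegral ℤ b) (hc : IsIntegral ℤ c)
    (h : y ^ 3 + a * y ^ 2 + b * y + c = 0) : IsIntegral ℤ y := by
  apply isIntegral_trans (R := ℤ) (A := integralClosure ℤ F) y
  refine ⟨Polynomial.X ^ 3 + Polynomial.C (⟨a, ha⟩ : integralClosure ℤ F) * Polynomial.X ^ 2 +
    Polynomial.C (⟨b, hb⟩ : integralClosure ℤ F) * Polynomial.X + Polynomial.C (⟨c, hc⟩ : integralClosure ℤ F), ?_, ?_⟩
  · monicity!
  · simp only [Polynomial.eval₂_add, Polynomial.eval₂_mul, Polynomial.eval₂_pow, Polynomial.eval₂_X, Polynomial.eval₂_C]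
    exact h

theorem il_cub {z : F} {p q r : K} (hp : l.valuation K p ≤ 1) (hq : l.valuation K q ≤ 1)
    (hr : l.valuation K r ≤ 1) (h : z ^ 3 + algebraMap K F p * z ^ 2 + algebraMap K F q * z +
      algebraMap K F r = 0) : Il l z := by
  obtain ⟨s₁, a, hs₁, ha⟩ := val_frac.1 hp
  obtain ⟨s₂, b, hs₂, hb⟩ := val_frac.1 hq
  obtain ⟨s₃, c, hs₃, hc⟩ := val_frac.1 hr
  refine ⟨s₁ * s₂ * s₃, or_mulmem (or_mulmem hs₁ hs₂) hs₃, ?_⟩
  have ea : algebraMap K F (s₁ : K) * algebraMap K F p = algebraMap K F (a : K) := by rw [← map_mul, ha]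
  have eb : algebraMap K F (s₂ : K) * algebraMap K F q = algebraMap K F (b : K) := by rw [← map_mul, hb]
  have ec : algebraMap K F (s₃ : K) * algebraMap K F r = algebraMap K F (c : K) := by rw [← map_mul, hc]
  have i1 := or_isI (F := F) s₁
  have i2 := or_isI (F := F) s₂
  have i3 := or_isI (F := F) s₃
  have ia := or_isI (F := F) a
  have ib := or_isI (F := F) b
  have ic := or_isI (F := F) c
  rw [or_coe_mul, or_coe_mul, map_mul, map_mul]
  refine or_cubic (a := algebraMap K F (s₂ : K) * algebraMap K F (s₃ : K) * algebraMap K F (a : K))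
    (b := algebraMap K F (s₁ : K) ^ 2 * algebraMap K F (s₂ : K) * algebraMap K F (s₃ : K) ^ 2 * algebraMap K F (b : K))
    (c := algebraMap K F (s₁ : K) ^ 3 * algebraMap K F (s₂ : K) ^ 3 * algebraMap K F (s₃ : K) ^ 2 * algebraMap K F (c : K))
    ((i2.mul i3).mul ia) ((((i1.pow 2).mul i2).mul (i3.pow 2)).mul ib)
    ((((i1.pow 3).mul (i2.pow 3)).mul (i3.pow 2)).mul ic) ?_
  rw [← ea, ← eb, ← ec]
  linear_combination (algebraMap K F (s₁ : K) * algebraMap K F (s₂ : K) * algebraMap K F (s₃ : K)) ^ 3 * h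

theorem lv_il {f : Fin 4 → K} {w : Fin 2 → F} (h : Lv f w) (hf : In l f) (i : Fin 2) :
    Il l (w i) := by
  obtain ⟨h1, h2⟩ := lv_cub h
  have v2 : ∀ {x y : K}, l.valuation K x ≤ 1 → l.valuation K y ≤ 1 → l.valuation K (x * y) ≤ 1 := by
    intro x y hx hy
    rw [map_mul]
    exact mul_le_one' hx hy
  have vn : ∀ {x : K}, l.valuation K x ≤ 1 → l.valuation K (-x) ≤ 1 := by
    intro x hx
    rw [Valuation.map_neg]
    exact hx
  fin_cases i
  · exact il_cub (hf 1) (v2 (hf 0) (hf 2)) (by rw [pow_two]; exact v2 (v2 (hf 0) (hf 0)) (hf 3)) h1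
  · show Il l (w 1)
    refine il_cub (p := -f 2) (q := f 1 * f 3) (r := -(f 0 * f 3 ^ 2)) (vn (hf 2)) (v2 (hf 1) (hf 3))
      (vn (by rw [pow_two]; exact v2 (hf 0) (v2 (hf 3) (hf 3)))) ?_
    rw [map_neg, map_neg]
    linear_combination h2

theorem lf_lc {w : Fin 2 → F} {v : Fin 2 → K} :
    Lc l (LF (K := K) w) v ↔ ∃ k : K, Il l (algebraMap K F k + lin w v) := by
  constructor
  · rintro ⟨s, hs, k', hk'⟩
    have hs0 := or_ne hs
    refine ⟨k' / s, s, hs, ?_⟩
    have h1 : algebraMap K F (s : K) * (algebraMap K F (k' / s) + lin w v) =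
        algebraMap K F k' + lin w (s • v) := by
      rw [or_lin_smul, mul_add, ← map_mul, mul_div_cancel₀ _ hs0]
    rw [h1]
    exact hk'
  · rintro ⟨k, s, hs, h⟩
    refine ⟨s, hs, (s : K) * k, ?_⟩
    rw [or_lin_smul, map_mul, ← mul_add]
    exact h

theorem lf_change {w u : Fin 2 → F} {v v' k : Fin 2 → K}
    (h₀ : u 0 = lin w v + algebraMap K F (k 0)) (h₁ : u 1 = lin w v' + algebraMap K F (k 1))
    (x : Fin 2 → K) : x ∈ LF u ↔ cb v v' x ∈ LF w := by
  have h1 : lin u x = lin w (cb v v' x) + algebraMap K F (x 0 * k 0 + x 1 * k 1) := by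
    have h2 : lin u x = algebraMap K F (x 0) * u 0 + algebraMap K F (x 1) * u 1 := rfl
    rw [h2, h₀, h₁]
    simp only [lin, cb, map_add, map_mul]
    ring
  constructor
  · rintro ⟨κ, hκ⟩
    refine ⟨κ + (x 0 * k 0 + x 1 * k 1), ?_⟩
    rw [h1] at hκ
    have h2 : algebraMap K F (κ + (x 0 * k 0 + x 1 * k 1)) + lin w (cb v v' x) =
        algebraMap K F κ + (lin w (cb v v' x) + algebraMap K F (x 0 * k 0 + x 1 * k 1)) := by
      rw [map_add]
      ring
    rw [h2]
    exact hκ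
  · rintro ⟨κ, hκ⟩
    refine ⟨κ - (x 0 * k 0 + x 1 * k 1), ?_⟩
    rw [h1]
    have h2 : algebraMap K F (κ - (x 0 * k 0 + x 1 * k 1)) + (lin w (cb v v' x) +
        algebraMap K F (x 0 * k 0 + x 1 * k 1)) = algebraMap K F κ + lin w (cb v v' x) := by
      rw [map_sub]
      ring
    rw [h2]
    exact hκ

theorem lf_lt (hd : Module.finrank K F = 3) {f : Fin 4 → K} {w : Fin 2 → F} (h : Lv f w) :
    Lt (LF (K := K) w) := by
  constructor
  · let T : (K × (Fin 2 → K)) →ₗ[K] F :=
      { toFun := fun x => algebraMap K F x.1 + lin w x.2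
        map_add' := fun x y => by
          simp only [lin, Prod.fst_add, Prod.snd_add, Pi.add_apply, map_add]
          ring
        map_smul' := fun r x => by
          simp only [lin, Prod.smul_fst, Prod.smul_snd, Pi.smul_apply, smul_eq_mul, map_mul, RingHom.id_apply]
          rw [Algebra.smul_def]
          ring }
    have hT : ∀ x, T x = algebraMap K F x.1 + lin w x.2 := fun x => rfl
    have hbij : Function.Bijective T := by
      constructor
      · rw [injective_iff_map_eq_zero]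
        intro x hx
        obtain ⟨h1, h2⟩ := lv_zero hd h (k := x.1) (v := x.2) hx
        exact Prod.ext h1 h2
      · intro z
        obtain ⟨k, v, hz⟩ := lv_span hd h z
        exact ⟨(k, v), hz.symm⟩
    let E := LinearEquiv.ofBijective T hbij
    let π : F →ₗ[K] (Fin 2 → K) := (LinearMap.snd K K (Fin 2 → K)).comp E.symm.toLinearMap
    have hπ : ∀ (k : K) (v : Fin 2 → K), π (algebraMap K F k + lin w v) = v := by
      intro k v
      have h1 : E (k, v) = algebraMap K F k + lin w v := rfl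
      rw [← h1]
      show (E.symm (E (k, v))).2 = v
      rw [LinearEquiv.symm_apply_apply]
    let ψ : 𝓞 F →ₗ[𝓞 K] (Fin 2 → K) := (π.restrictScalars (𝓞 K)).comp
      (IsScalarTower.toAlgHom (𝓞 K) (𝓞 F) F).toLinearMap
    have hψ : ∀ z : 𝓞 F, ψ z = π (z : F) := fun z => rfl
    have hr : LinearMap.range ψ = LF (K := K) w := by
      ext v
      constructor
      · rintro ⟨z, rfl⟩
        obtain ⟨k, v, hz⟩ := lv_span hd h (z : F)
        rw [hψ, hz, hπ]
        exact ⟨k, by rw [← hz]; exact z.isIntegral_coe⟩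
      · rintro ⟨k, hk⟩
        refine ⟨⟨algebraMap K F k + lin w v, hk⟩, ?_⟩
        rw [hψ]
        exact hπ k v
    rw [← hr, LinearMap.range_eq_map]
    exact Module.Finite.fg_top.map ψ
  · obtain ⟨N, hN, hNi⟩ := exists_integral_multiples ℤ ℚ (L := F) {w 0, w 1}
    have hNK : (N : K) ≠ 0 := by exact_mod_cast hN
    have h0 : lin w ![(N : K), 0] = N • w 0 := by
      simp [lin]
    have h1 : lin w ![0, (N : K)] = N • w 1 := by
      simp [lin]
    refine ⟨![(N : K), 0], ⟨0, ?_⟩, ![0, (N : K)], ⟨0, ?_⟩, ?_⟩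
    · rw [h0, map_zero, zero_add]
      exact hNi _ (by simp)
    · rw [h1, map_zero, zero_add]
      exact hNi _ (by simp)
    · simp [dt, hNK]

end H77.MF
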