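import Pool.Agent.H77.MF.Ds1
import Pool.Agent.H77.MF.Ds2
import Pool.Agent.H77.MF.FrC
import Pool.Agent.H77.MF.Or1

/-!
# MF-DS3: `D(F) ix(LF w)² = |N disc f|` (row: SX MF DS3)

`OO K 2 ≤ LF w`: there are `k_0, k_1 ∈ K` with `t_i = w_i + k_i ∈ 𝓞 F` (`e₁, e₂ ∈ LF w`: `lin w e₁ = w 0`). `T = ![1, t_0, t_1]` (in `𝓞 F`). `b = RingOfIntegers.basis K : Basis _ ℤ (𝓞 K)`, `integralBasis K` its image, a `ℚ`-basis of `K`. Family `e (i, j) = b_i T_j ∈ 𝓞 F`, a `ℚ`-basis of `F`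
(`lv_ind`: `1, w₀, w₁` is a `K`-basis, so `1, t₀, t₁` too; `Basis.smulTower`), `card = [K:ℚ] · 3 = [F:ℚ]`.
* `discr_K (1, t_0, t_1) = discr_K (1, w_0, w_1) = disc f` (`lv_disc`; `(1, t) = (1, w) P` with a unipotent matrix `P`: `Algebra.discr_of_matrix_vecMul`, `det P = 1`).
* `discr_tow`: `discr_ℚ e = (disc K)³ N_{K/ℚ}(disc f)`; `discr_index`: `= [𝓞 F : R]² disc F`, `R` = the subgroup generated by the `e (i, j)` `= 𝓞 K + 𝓞 K t_0 + 𝓞 K t_1`.
* `[𝓞 F : R] = ix (LF w)`: the additive map `𝓞 F → LF w / 𝓞²`, `z = k + lin w v ↦ v` (`lv_span`, `lv_zero`) is surjective (definition of `LF`), kernel: `v ∈ 𝓞²` iff `z ∈ R`: `z - v₀t_0 - v₁t_1 ∈ K` is integral, so in `𝓞 K`. (`AddSubgroup.index` of a kernel = card of the range; `relIndex` = index in `LF w`.)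
* Mathlib `NumberField.natAbs_discr_eq_absNorm_differentIdeal_mul_natAbs_discr_pow K (𝓞 K) F (𝓞 F)`: `|disc F| = absNorm(𝔇) · |disc K| ^ 3`.
So `absNorm(𝔇) |disc K|³ ix² = |disc K|³ |N disc f|`, `disc K ≠ 0`. `disc_ix`: `c.D = relDisc K c.F` is this `absNorm` (`dif_pos`, the instances agree by proof irrelevance).
-/

set_option autoImplicit false

open scoped NumberField Classical
open IsDedekindDomain H38.ML H63.MA H67.SX

noncomputable section

namespace H77.MF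

section ds3

variable {K F : Type} [Field K] [NumberField K] [Field F] [NumberField F] [Algebra K F]

/-- the coordinates -/
private theorem ds3_co (hd : Module.finrank K F = 3) {f : Fin 4 → K} {w : Fin 2 → F} (h : Lv f w) :
    ∃ φ : 𝓞 F →+ (Fin 2 → K), ∀ (z : 𝓞 F) (k : K) (v : Fin 2 → K),
      (z : F) = algebraMap K F k + lin w v → φ z = v := by
  have hex : ∀ z : 𝓞 F, ∃ v : Fin 2 → K, ∃ k : K, (z : F) = algebraMap K F k + lin w v := by
    intro z
    obtain ⟨k, v, hz⟩ := lv_span hd h (z : F)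
    exact ⟨v, k, hz⟩
  choose φ hφ using hex
  have huniq : ∀ (z : 𝓞 F) (k : K) (v : Fin 2 → K), (z : F) = algebraMap K F k + lin w v →
      φ z = v := by
    intro z k v hz
    obtain ⟨k', hk'⟩ := hφ z
    have h0 : algebraMap K F (k' - k) + lin w (φ z - v) = 0 := by
      rw [hk'] at hz
      simp only [lin, Pi.sub_apply, map_sub] at hz ⊢
      linear_combination hz
    exact sub_eq_zero.1 (lv_zero hd h h0).2
  refine ⟨AddMonoidHom.mk' φ fun z z' => ?_, huniq⟩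
  obtain ⟨k, hk⟩ := hφ z
  obtain ⟨k', hk'⟩ := hφ z'
  refine huniq (z + z') (k + k') _ ?_
  have e0 : ((z + z' : 𝓞 F) : F) = (z : F) + (z' : F) := rfl
  rw [e0, hk, hk']
  simp only [lin, Pi.add_apply, map_add]
  ring

private theorem ds3_range {w : Fin 2 → F} {φ : 𝓞 F →+ (Fin 2 → K)}
    (hφ : ∀ (z : 𝓞 F) (k : K) (v : Fin 2 → K), (z : F) = algebraMap K F k + lin w v → φ z = v)
    (hs : ∀ z : F, ∃ (k : K) (v : Fin 2 → K), z = algebraMap K F k + lin w v) :
    φ.range = (LF (K := K) w).toAddSubgroup := by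
  ext v
  rw [AddMonoidHom.mem_range, Submodule.mem_toAddSubgroup]
  constructor
  · rintro ⟨z, rfl⟩
    obtain ⟨k, v, hz⟩ := hs (z : F)
    rw [hφ z k v hz]
    exact ⟨k, by rw [← hz]; exact z.2⟩
  · rintro ⟨k, hk⟩
    exact ⟨⟨_, hk⟩, hφ _ k v rfl⟩

/-- the lattice generated by the family -/
private theorem ds3_clos {ι : Type} [Fintype ι] (b : Module.Basis ι ℤ (𝓞 K)) (T : Fin 3 → 𝓞 F)
    (a : 𝓞 K) (j : Fin 3) : algebraMap (𝓞 K) (𝓞 F) a * T j ∈
      AddSubgroup.closure (Set.range fun p : ι × Fin 3 => algebraMap (𝓞 K) (𝓞 F) (b p.1) * T p.2) := by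
  have h1 : algebraMap (𝓞 K) (𝓞 F) a * T j =
      ∑ i, (b.repr a i) • (algebraMap (𝓞 K) (𝓞 F) (b i) * T j) := by
    conv_lhs => rw [← b.sum_repr a]
    rw [map_sum, Finset.sum_mul]
    refine Finset.sum_congr rfl fun i _ => ?_
    rw [zsmul_eq_mul, zsmul_eq_mul, map_mul, map_intCast, mul_assoc]
  rw [h1]
  refine AddSubgroup.sum_mem _ fun i _ => AddSubgroup.zsmul_mem _ ?_ _
  exact AddSubgroup.subset_closure ⟨(i, j), rfl⟩

private theorem ds3_comap (hd : Module.finrank K F = 3) {f : Fin 4 → K} {w : Fin 2 → F}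
    (h : Lv f w) {ι : Type} [Fintype ι] (b : Module.Basis ι ℤ (𝓞 K)) (T : Fin 3 → 𝓞 F)
    (k0 k1 : K) (hT0 : T 0 = 1) (hT1 : (T 1 : F) = algebraMap K F k0 + w 0)
    (hT2 : (T 2 : F) = algebraMap K F k1 + w 1) {φ : 𝓞 F →+ (Fin 2 → K)}
    (hφ : ∀ (z : 𝓞 F) (k : K) (v : Fin 2 → K), (z : F) = algebraMap K F k + lin w v → φ z = v) :
    AddSubgroup.closure (Set.range fun p : ι × Fin 3 => algebraMap (𝓞 K) (𝓞 F) (b p.1) * T p.2) =
      (OO K 2).toAddSubgroup.comap φ := by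
  have hmap : ∀ a : 𝓞 K, ((algebraMap (𝓞 K) (𝓞 F) a : 𝓞 F) : F) = algebraMap K F (a : K) := by
    intro a; rfl
  apply le_antisymm
  · rw [AddSubgroup.closure_le]
    rintro _ ⟨⟨i, j⟩, rfl⟩
    rw [SetLike.mem_coe, AddSubgroup.mem_comap, Submodule.mem_toAddSubgroup]
    fin_cases j
    · show φ (algebraMap (𝓞 K) (𝓞 F) (b i) * T 0) ∈ OO K 2
      rw [hφ (algebraMap (𝓞 K) (𝓞 F) (b i) * T 0) (b i : K) 0 (by
        rw [hT0, mul_one, hmap]; simp [lin])]
      exact (OO K 2).zero_mem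
    · show φ (algebraMap (𝓞 K) (𝓞 F) (b i) * T 1) ∈ OO K 2
      rw [hφ (algebraMap (𝓞 K) (𝓞 F) (b i) * T 1) ((b i : K) * k0) ![(b i : K), 0] (by
        have e0 : ((algebraMap (𝓞 K) (𝓞 F) (b i) * T 1 : 𝓞 F) : F) =
          algebraMap K F (b i : K) * (T 1 : F) := rfl
        rw [e0, hT1]; simp [lin]; ring)]
      intro l
      fin_cases l
      · exact ⟨b i, rfl⟩
      · exact ⟨0, rfl⟩
    · show φ (algebraMap (𝓞 K) (𝓞 F) (b i) * T 2) ∈ OO K 2
      rw [hφ (algebraMap (𝓞 K) (𝓞 F) (b i) * T 2) ((b i : K) * k1) ![0, (b i : K)] (by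
        have e0 : ((algebraMap (𝓞 K) (𝓞 F) (b i) * T 2 : 𝓞 F) : F) =
          algebraMap K F (b i : K) * (T 2 : F) := rfl
        rw [e0, hT2]; simp [lin]; ring)]
      intro l
      fin_cases l
      · exact ⟨0, rfl⟩
      · exact ⟨b i, rfl⟩
  · intro z hz
    rw [AddSubgroup.mem_comap, Submodule.mem_toAddSubgroup] at hz
    obtain ⟨k, v, hzv⟩ := lv_span hd h (z : F)
    rw [hφ z k v hzv] at hz
    obtain ⟨a0, ha0⟩ := hz 0
    obtain ⟨a1, ha1⟩ := hz 1
    -- the rest is in `K`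
    have h1 : ((z - algebraMap (𝓞 K) (𝓞 F) a0 * T 1 - algebraMap (𝓞 K) (𝓞 F) a1 * T 2 : 𝓞 F) : F) =
        algebraMap K F (k - v 0 * k0 - v 1 * k1) := by
      have e0 : ((z - algebraMap (𝓞 K) (𝓞 F) a0 * T 1 - algebraMap (𝓞 K) (𝓞 F) a1 * T 2 : 𝓞 F) : F) =
        (z : F) - algebraMap K F (a0 : K) * (T 1 : F) - algebraMap K F (a1 : K) * (T 2 : F) := rfl
      rw [e0, hzv, hT1, hT2, ha0, ha1]
      simp only [lin, map_sub, map_mul]
      ring
    have h2 : IsIntegral ℤ (k - v 0 * k0 - v 1 * k1) := by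
      have h3 : IsIntegral ℤ (algebraMap K F (k - v 0 * k0 - v 1 * k1)) := by
        rw [← h1]
        exact (z - algebraMap (𝓞 K) (𝓞 F) a0 * T 1 - algebraMap (𝓞 K) (𝓞 F) a1 * T 2 : 𝓞 F).2
      exact (isIntegral_algebraMap_iff (algebraMap K F).injective).1 h3
    obtain ⟨a, ha⟩ : ∃ a : 𝓞 K, (a : K) = k - v 0 * k0 - v 1 * k1 := ⟨⟨_, h2⟩, rfl⟩
    have h4 : z = algebraMap (𝓞 K) (𝓞 F) a * T 0 + algebraMap (𝓞 K) (𝓞 F) a0 * T 1 +
        algebraMap (𝓞 K) (𝓞 F) a1 * T 2 := by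
      have h5 : z - algebraMap (𝓞 K) (𝓞 F) a0 * T 1 - algebraMap (𝓞 K) (𝓞 F) a1 * T 2 =
          algebraMap (𝓞 K) (𝓞 F) a := by
        apply NumberField.RingOfIntegers.ext
        rw [h1, hmap, ha]
      rw [hT0, mul_one, ← h5]
      ring
    rw [h4]
    exact AddSubgroup.add_mem _ (AddSubgroup.add_mem _ (ds3_clos b T a 0) (ds3_clos b T a0 1))
      (ds3_clos b T a1 2)

/-- the unipotent change of basis -/
private theorem ds3_disc (hd : Module.finrank K F = 3) {f : Fin 4 → K} {w : Fin 2 → F}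
    (h : Lv f w) (k0 k1 : K) (t : Fin 3 → F) (h0 : t 0 = 1) (h1 : t 1 = algebraMap K F k0 + w 0)
    (h2 : t 2 = algebraMap K F k1 + w 1) : Algebra.discr K t = disc f ∧ LinearIndependent K t := by
  have ht : t = Matrix.vecMul ![1, w 0, w 1]
      ((!![1, k0, k1; 0, 1, 0; 0, 0, 1] : Matrix (Fin 3) (Fin 3) K).map (algebraMap K F)) := by
    funext j
    fin_cases j
    · simp [h0, Matrix.vecMul, dotProduct, Fin.sum_univ_three]
    · simp [h1, Matrix.vecMul, dotProduct, Fin.sum_univ_three]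
    · simp [h2, Matrix.vecMul, dotProduct, Fin.sum_univ_three]
  have hdet : (!![1, k0, k1; 0, 1, 0; 0, 0, 1] : Matrix (Fin 3) (Fin 3) K).det = 1 := by
    simp [Matrix.det_fin_three]
  have hdisc : Algebra.discr K t = disc f := by
    rw [ht, Algebra.discr_of_matrix_vecMul, hdet, one_pow, one_mul]
    exact (lv_disc hd h).1
  refine ⟨hdisc, ?_⟩
  have hf : FiniteDimensional K F := FiniteDimensional.of_finrank_pos (by rw [hd]; norm_num)
  by_contra hcon
  have h3 := Algebra.discr_zero_of_not_linearIndependent K hcon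
  rw [hdisc] at h3
  exact (lv_disc hd h).2 h3

end ds3

/-- the discriminant does not depend on the decidability of equality -/
private theorem ds3_dec {ι A B : Type} [Fintype ι] [CommRing A] [CommRing B] [Algebra A B]
    (d d' : DecidableEq ι) (b : ι → B) :
    @Algebra.discr ι d A B _ _ _ _ b = @Algebra.discr ι d' A B _ _ _ _ b := by
  rw [Subsingleton.elim d d']

theorem disc_ix0 {K F : Type} [Field K] [NumberField K] [Field F] [NumberField F] [Algebra K F]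
    (hd : Module.finrank K F = 3) {f : Fin 4 → K} {w : Fin 2 → F} (h : Lv f w)
    (hO : OO K 2 ≤ LF w) :
    (Ideal.absNorm (differentIdeal (𝓞 K) (𝓞 F)) : ℝ) * (ix (LF (K := K) w) : ℝ) ^ 2 =
      |((Algebra.norm ℚ (disc f) : ℚ) : ℝ)| := by
  obtain ⟨k0, hk0⟩ := hO (show ![1, 0] ∈ OO K 2 from fun l => by
    fin_cases l
    · exact ⟨1, rfl⟩
    · exact ⟨0, rfl⟩)
  obtain ⟨k1, hk1⟩ := hO (show ![0, 1] ∈ OO K 2 from fun l => by
    fin_cases l
    · exact ⟨0, rfl⟩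
    · exact ⟨1, rfl⟩)
  have e0 : algebraMap K F k0 + lin w (![1, 0] : Fin 2 → K) = algebraMap K F k0 + w 0 := by simp [lin]
  have e1 : algebraMap K F k1 + lin w (![0, 1] : Fin 2 → K) = algebraMap K F k1 + w 1 := by simp [lin]
  rw [e0] at hk0
  rw [e1] at hk1
  obtain ⟨T, hT⟩ : ∃ T : Fin 3 → 𝓞 F, T = ![1, ⟨_, hk0⟩, ⟨_, hk1⟩] := ⟨_, rfl⟩
  have hT0 : T 0 = 1 := by rw [hT]; rfl
  have hT1 : (T 1 : F) = algebraMap K F k0 + w 0 := by rw [hT]; rfl
  have hT2 : (T 2 : F) = algebraMap K F k1 + w 1 := by rw [hT]; rfl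
  obtain ⟨φ, hφ⟩ := ds3_co hd h
  have hφr := ds3_range hφ (lv_span hd h)
  obtain ⟨hdt, hli⟩ := ds3_disc hd h k0 k1 (fun j => (T j : F)) (by rw [hT0]; rfl) hT1 hT2
  have hidx : (AddSubgroup.closure (Set.range fun p : Module.Free.ChooseBasisIndex ℤ (𝓞 K) × Fin 3 =>
      algebraMap (𝓞 K) (𝓞 F) (NumberField.RingOfIntegers.basis K p.1) * T p.2)).index =
      ix (LF (K := K) w) := by
    rw [ds3_comap hd h (NumberField.RingOfIntegers.basis K) T k0 k1 hT0 hT1 hT2 hφ,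
      AddSubgroup.index_comap, hφr]
    rfl
  have hF : FiniteDimensional K F := FiniteDimensional.of_finrank_pos (by rw [hd]; norm_num)
  have hfam : (fun p : Module.Free.ChooseBasisIndex ℤ (𝓞 K) × Fin 3 =>
      ((algebraMap (𝓞 K) (𝓞 F) (NumberField.RingOfIntegers.basis K p.1) * T p.2 : 𝓞 F) : F)) =
      fun p => algebraMap K F (NumberField.integralBasis K p.1) * (T p.2 : F) := by
    funext p
    rw [NumberField.integralBasis_apply]
    rfl
  have hind : LinearIndependent ℚ (fun p : Module.Free.ChooseBasisIndex ℤ (𝓞 K) × Fin 3 =>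
      ((algebraMap (𝓞 K) (𝓞 F) (NumberField.RingOfIntegers.basis K p.1) * T p.2 : 𝓞 F) : F)) := by
    have h1 := linearIndependent_smul (NumberField.integralBasis K).linearIndependent hli
    rw [hfam]
    simpa only [Algebra.smul_def] using h1
  have hcard : Fintype.card (Module.Free.ChooseBasisIndex ℤ (𝓞 K) × Fin 3) =
      Module.finrank ℚ F := by
    rw [Fintype.card_prod, Fintype.card_fin,
      ← Module.finrank_eq_card_basis (NumberField.integralBasis K), ← hd,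
      Module.finrank_mul_finrank]
  have h1 := discr_index (fun p : Module.Free.ChooseBasisIndex ℤ (𝓞 K) × Fin 3 =>
      algebraMap (𝓞 K) (𝓞 F) (NumberField.RingOfIntegers.basis K p.1) * T p.2) hind hcard
  rw [hidx, hfam] at h1
  have h2 := discr_tow (F := F) (NumberField.integralBasis K) (fun j => (T j : F))
  rw [hdt, ← NumberField.coe_discr] at h2
  have h3 : (NumberField.discr K : ℚ) ^ 3 * Algebra.norm ℚ (disc f) =
      ((ix (LF (K := K) w) : ℕ) : ℚ) ^ 2 * (NumberField.discr F : ℚ) := by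
    refine h2.symm.trans (Eq.trans ?_ h1)
    exact ds3_dec _ _ _
  have h4 := NumberField.natAbs_discr_eq_absNorm_differentIdeal_mul_natAbs_discr_pow K (𝓞 K) F (𝓞 F)
  rw [hd] at h4
  have h5 : |(NumberField.discr F : ℝ)| =
      (Ideal.absNorm (differentIdeal (𝓞 K) (𝓞 F)) : ℝ) * |(NumberField.discr K : ℝ)| ^ 3 := by
    have : (((NumberField.discr F).natAbs : ℕ) : ℝ) = (Ideal.absNorm (differentIdeal (𝓞 K) (𝓞 F)) : ℝ) *
        (((NumberField.discr K).natAbs : ℕ) : ℝ) ^ 3 := by exact_mod_cast h4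
    rwa [Nat.cast_natAbs, Nat.cast_natAbs, Int.cast_abs, Int.cast_abs] at this
  have h6 : (NumberField.discr K : ℝ) ^ 3 * ((Algebra.norm ℚ (disc f) : ℚ) : ℝ) =
      ((ix (LF (K := K) w) : ℕ) : ℝ) ^ 2 * (NumberField.discr F : ℝ) := by exact_mod_cast h3
  have h7 : (0 : ℝ) < |(NumberField.discr K : ℝ)| ^ 3 := by
    have : (NumberField.discr K : ℝ) ≠ 0 := by exact_mod_cast NumberField.discr_ne_zero K
    positivity
  have h8 := congrArg abs h6
  rw [abs_mul, abs_mul, abs_pow, abs_pow, h5, abs_of_nonneg (Nat.cast_nonneg _ : (0 : ℝ) ≤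
    ((ix (LF (K := K) w) : ℕ) : ℝ))] at h8
  apply mul_left_cancel₀ h7.ne'
  rw [h8]
  ring

variable {K : IntermediateField ℚ QBar} [NumberField K]

/-- (F8) -/
theorem disc_ix (c : Cb K) {f : Fin 4 → K} {w : Fin 2 → c.F} (h : Lv f w) (hO : OO K 2 ≤ LF w) :
    c.D * (ix (LF (K := K) w) : ℝ) ^ 2 = |((Algebra.norm ℚ (disc f) : ℚ) : ℝ)| := by
  have h1 := disc_ix0 c.deg h hO
  have h2 : c.D = (Ideal.absNorm (differentIdeal (𝓞 K) (𝓞 c.F)) : ℝ) := by
    unfold Cb.D H38.ML.relDisc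
    rw [dif_pos (inferInstance : NumberField c.F)]
  rw [h2]
  exact h1

end H77.MF
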