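import Pool.Agent.H77.MF.Defs

/-!
# MF-IDN: identities between the covariants (complete)
-/

set_option autoImplicit false

noncomputable section

namespace H77.MF

variable {R : Type} [CommRing R]

theorem ev_pull (f : Fin 4 → R) (v w x : Fin 2 → R) : ev (pull f v w) x = ev f (cb v w x) := by
  simp [pull, ev, gr0, gr1, cb]
  ring

theorem gr0_pull (f : Fin 4 → R) (v w x : Fin 2 → R) :
    gr0 (pull f v w) x = v 0 * gr0 f (cb v w x) + v 1 * gr1 f (cb v w x) := by
  simp [pull, ev, gr0, gr1, cb]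
  ring

theorem gr1_pull (f : Fin 4 → R) (v w x : Fin 2 → R) :
    gr1 (pull f v w) x = w 0 * gr0 f (cb v w x) + w 1 * gr1 f (cb v w x) := by
  simp [pull, ev, gr0, gr1, cb]
  ring

theorem pull_pull (f : Fin 4 → R) (v w x y : Fin 2 → R) :
    pull (pull f v w) x y = pull f (cb v w x) (cb v w y) := by
  funext i
  fin_cases i <;> simp [pull, ev, gr0, gr1, cb] <;> ring

theorem dt_cb (v w x y : Fin 2 → R) : dt (cb v w x) (cb v w y) = dt v w * dt x y := by
  simp [dt, cb]
  ring

theorem disc_pull (f : Fin 4 → R) (v w : Fin 2 → R) : disc (pull f v w) = dt v w ^ 6 * disc f := by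
  simp [pull, ev, gr0, gr1, dt, disc]
  ring

theorem disc_smul (r : R) (f : Fin 4 → R) : disc (r • f) = r ^ 4 * disc f := by
  simp [disc]
  ring

theorem hes_pull (f : Fin 4 → R) (v w x : Fin 2 → R) :
    hes (pull f v w) x = dt v w ^ 2 * hes f (cb v w x) := by
  simp [pull, ev, gr0, gr1, dt, hes, hA, hC, cb]
  ring

theorem hA_pull (f : Fin 4 → R) (v w : Fin 2 → R) : hA (pull f v w) = dt v w ^ 2 * hes f v := by
  simp [pull, ev, gr0, gr1, dt, hes, hA, hC]
  ring

theorem hC_pull (f : Fin 4 → R) (v w : Fin 2 → R) : hC (pull f v w) = dt v w ^ 2 * hes f w := by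
  simp [pull, ev, gr0, gr1, dt, hes, hA, hC]
  ring

theorem disc_hes (f : Fin 4 → R) :
    3 * disc f = 4 * hA f * hC f - (f 1 * f 2 - 9 * f 0 * f 3) ^ 2 := by
  simp [disc, hA, hC]
  ring

theorem euler (f : Fin 4 → R) (v : Fin 2 → R) : v 0 * gr0 f v + v 1 * gr1 f v = 3 * ev f v := by
  simp [ev, gr0, gr1]
  ring

theorem pull_smul_form (r : R) (f : Fin 4 → R) (v w : Fin 2 → R) :
    pull (r • f) v w = r • pull f v w := by
  funext i
  fin_cases i <;> simp [pull, ev, gr0, gr1] <;> ring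

theorem pull_smul_vec (r s : R) (f : Fin 4 → R) (v w : Fin 2 → R) :
    pull f (r • v) (s • w) = ![r ^ 3 * pull f v w 0, r ^ 2 * s * pull f v w 1,
      r * s ^ 2 * pull f v w 2, s ^ 3 * pull f v w 3] := by
  funext i
  fin_cases i <;> simp [pull, ev, gr0, gr1] <;> ring

theorem pull_id (f : Fin 4 → R) : pull f ![1, 0] ![0, 1] = f := by
  funext i
  fin_cases i <;> simp [pull, ev, gr0, gr1]

/-- expansion of the value -/
theorem ev_add (f : Fin 4 → R) (v w : Fin 2 → R) :
    ev f (v + w) = ev f v + (w 0 * gr0 f v + w 1 * gr1 f v) + (v 0 * gr0 f w + v 1 * gr1 f w) +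
      ev f w := by
  simp [ev, gr0, gr1]
  ring

theorem dt_add_left (u v w : Fin 2 → R) : dt (u + v) w = dt u w + dt v w := by
  simp [dt]
  ring

theorem dt_add_right (u v w : Fin 2 → R) : dt u (v + w) = dt u v + dt u w := by
  simp [dt]
  ring

theorem dt_smul_left (r : R) (v w : Fin 2 → R) : dt (r • v) w = r * dt v w := by
  simp [dt]
  ring

theorem dt_smul_right (r : R) (v w : Fin 2 → R) : dt v (r • w) = r * dt v w := by
  simp [dt]
  ring

theorem dt_self (v : Fin 2 → R) : dt v v = 0 := by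
  simp [dt]
  ring

/-- Cramer's rule -/
theorem cramer (v w p : Fin 2 → R) (i : Fin 2) : dt v w * p i = dt p w * v i + dt v p * w i := by
  fin_cases i <;> simp [dt] <;> ring

end H77.MF
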