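import Pool.Agent.H77.MF.Rt

/-!
# MF-KD: the primes over `l` by the theorem of Kummer and Dedekind (row: SX MF KD)

`F / K` number fields, `θ ∈ 𝓞 F` with `s • z ∈ 𝓞 K[θ]` for all `z ∈ 𝓞 F`, some `s ∉ l`. Then the number of the primes of `F` over `l` is the number of the different normalized factors of the minimal polynomial of `θ` mod `l`.
Proof. `hx : (conductor (𝓞 K) θ).comap (algebraMap ..) ⊔ l = ⊤`: `s` is in the conductor (`mem_conductor_iff`: `∀ b, s * b ∈ adjoin`), `s ∉ l`, `l` maximal. `θ` is integral. Mathlib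
`KummerDedekind.normalizedFactorsMapEquivNormalizedFactorsMinPolyMk` : `{J | J ∈ normalizedFactors (l.map (algebraMap (𝓞 K) (𝓞 F)))} ≃ {d | d ∈ normalizedFactors ((minpoly (𝓞 K) θ).map (mk l))}`
(instances: `IsDomain`, `IsIntegrallyClosed (𝓞 K)`, `IsDedekindDomain (𝓞 F)`, torsion free; the local instance `Ideal.Quotient.field`: compare with the instance of `H77/MF/Mu1`, all are definitionally equal through `Ideal.Quotient.field`; the statement here uses
`[Field k]` through a surjection `ρ : 𝓞 K →+* k` with kernel `l`, so that no instance is fixed: take `k` and transport by `RingHom.quotientKerEquivOfSurjective` / `Ideal.quotEquivOfEq`; normalized factors are transported by the induced isomorphism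
of polynomial rings, or, simpler, count monic irreducible divisors: `d ∈ normalizedFactors p ↔ d irreducible, monic, d ∣ p` for `p ≠ 0`).
Left side: `J ∈ normalizedFactors (l 𝓞F)` iff `J` is a prime `≠ 0` with `J ∣ l 𝓞 F`, iff `J` lies over `l` (`Ideal.map_le_iff_le_comap`, `l` maximal): bijection with `{P : Pl F | Over P l}` (`Over` = `comap` equal to `l.asIdeal`).
-/

set_option autoImplicit false

open scoped NumberField Classical
open IsDedekindDomain H38.ML H63.MA Polynomial UniqueFactorizationMonoid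

noncomputable section

namespace H77.MF

private theorem kd_right {R k : Type} [CommRing R] (I : Ideal R) [hI : I.IsMaximal] [Field k] (ρ : R →+* k)
    (hρ : Function.Surjective ρ) (hk : RingHom.ker ρ = I) (p : R[X]) (hp : p.Monic) :
    letI : Field (R ⧸ I) := Ideal.Quotient.field I
    Nat.card {d : (R ⧸ I)[X] | d ∈ normalizedFactors (p.map (Ideal.Quotient.mk I))} =
      (normalizedFactors (p.map ρ)).toFinset.card := by
  letI : Field (R ⧸ I) := Ideal.Quotient.field I
  obtain ⟨e, he⟩ : ∃ e : (R ⧸ I) ≃+* k, ∀ x, e (Ideal.Quotient.mk I x) = ρ x := by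
    refine ⟨(Ideal.quotEquivOfEq hk.symm).trans (RingHom.quotientKerEquivOfSurjective hρ), fun x => rfl⟩
  have hcomp : (e : (R ⧸ I) →+* k).comp (Ideal.Quotient.mk I) = ρ := RingHom.ext he
  have h1 : (p.map (Ideal.Quotient.mk I)) ≠ 0 := (hp.map _).ne_zero
  have h2 : (p.map ρ) ≠ 0 := (hp.map _).ne_zero
  have hmap : p.map ρ = (p.map (Ideal.Quotient.mk I)).map (e : (R ⧸ I) →+* k) := by
    rw [Polynomial.map_map, hcomp]
  let E : (R ⧸ I)[X] ≃+* k[X] := Polynomial.mapEquiv e
  have hE : ∀ q : (R ⧸ I)[X], E q = q.map (e : (R ⧸ I) →+* k) := fun q => rfl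
  have h3 : ∀ d : (R ⧸ I)[X], d ∈ normalizedFactors (p.map (Ideal.Quotient.mk I)) ↔
      E d ∈ normalizedFactors (p.map ρ) := by
    intro d
    rw [Polynomial.mem_normalizedFactors_iff h1, Polynomial.mem_normalizedFactors_iff h2]
    refine and_congr (MulEquiv.irreducible_iff E).symm (and_congr ?_ ?_)
    · rw [hE]
      exact (Polynomial.monic_map_iff).symm
    · rw [hmap, ← hE]
      exact (map_dvd_iff E).symm
  have h4 : Nat.card {d : (R ⧸ I)[X] | d ∈ normalizedFactors (p.map (Ideal.Quotient.mk I))} =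
      Nat.card {d : k[X] // d ∈ (normalizedFactors (p.map ρ)).toFinset} := by
    refine Nat.card_congr (E.toEquiv.subtypeEquiv fun d => ?_)
    rw [Multiset.mem_toFinset]
    exact h3 d
  rw [h4, Nat.card_eq_fintype_card, Fintype.card_coe]

theorem kd {K F : Type} [Field K] [NumberField K] [Field F] [NumberField F] [Algebra K F]
    (l : Pl K) {k : Type} [Field k] (ρ : 𝓞 K →+* k) (hρ : Function.Surjective ρ)
    (hk : RingHom.ker ρ = l.asIdeal) (θ : 𝓞 F)
    (hc : ∃ s : 𝓞 K, s ∉ l.asIdeal ∧ ∀ z : 𝓞 F, s • z ∈ Algebra.adjoin (𝓞 K) {θ}) :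
    {P : Pl F | Over P l}.ncard =
      (normalizedFactors ((minpoly (𝓞 K) θ).map ρ)).toFinset.card := by
  have hI : l.asIdeal.IsMaximal := l.isMaximal
  obtain ⟨s, hs, hsz⟩ := hc
  have hx : (conductor (𝓞 K) θ).comap (algebraMap (𝓞 K) (𝓞 F)) ⊔ l.asIdeal = ⊤ := by
    have hs1 : s ∈ (conductor (𝓞 K) θ).comap (algebraMap (𝓞 K) (𝓞 F)) := by
      rw [Ideal.mem_comap, mem_conductor_iff]
      intro b
      rw [← Algebra.smul_def]
      exact hsz b
    refine hI.1.2 _ (lt_of_le_of_ne le_sup_right ?_)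
    intro heq
    apply hs
    rw [heq]
    exact Ideal.mem_sup_left hs1
  have hx' : IsIntegral (𝓞 K) θ := Algebra.IsIntegral.isIntegral θ
  letI : Field (𝓞 K ⧸ l.asIdeal) := Ideal.Quotient.field l.asIdeal
  have e := KummerDedekind.normalizedFactorsMapEquivNormalizedFactorsMinPolyMk hI l.ne_bot hx hx'
  have h1 := kd_right l.asIdeal ρ hρ hk (minpoly (𝓞 K) θ) (minpoly.monic hx')
  rw [← h1, ← Nat.card_congr e]
  have hinj : Function.Injective (fun P : Pl F => P.asIdeal) := fun P Q h => HeightOneSpectrum.ext h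
  rw [← Set.ncard_image_of_injective _ hinj, ← Nat.card_coe_set_eq]
  have hinjm : Function.Injective (algebraMap (𝓞 K) (𝓞 F)) := FaithfulSMul.algebraMap_injective _ _
  have hne : l.asIdeal.map (algebraMap (𝓞 K) (𝓞 F)) ≠ ⊥ := by
    rw [Ne, Ideal.map_eq_bot_iff_of_injective hinjm]
    exact l.ne_bot
  congr 1
  congr 1
  ext J
  simp only [Set.mem_image, Set.mem_ofPred_eq]
  constructor
  · rintro ⟨P, hP, rfl⟩
    have hP1 : P.asIdeal.comap (algebraMap (𝓞 K) (𝓞 F)) = l.asIdeal := hP
    have hdvd : P.asIdeal ∣ l.asIdeal.map (algebraMap (𝓞 K) (𝓞 F)) := by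
      rw [Ideal.dvd_iff_le, Ideal.map_le_iff_le_comap, hP1]
    obtain ⟨J, hJ, hJ'⟩ := exists_mem_normalizedFactors_of_dvd hne P.irreducible hdvd
    rw [associated_iff_eq] at hJ'
    rw [hJ']
    exact hJ
  · intro hJ
    have hp : Prime J := prime_of_normalized_factor J hJ
    have hd := dvd_of_mem_normalizedFactors hJ
    have hJp : J.IsPrime := Ideal.isPrime_of_prime hp
    refine ⟨⟨J, hJp, hp.ne_zero⟩, ?_, rfl⟩
    have hle : l.asIdeal ≤ J.comap (algebraMap (𝓞 K) (𝓞 F)) := by
      rw [← Ideal.map_le_iff_le_comap, ← Ideal.dvd_iff_le]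
      exact hd
    have hpr : (J.comap (algebraMap (𝓞 K) (𝓞 F))).IsPrime := Ideal.IsPrime.comap _
    exact (hI.eq_of_le hpr.ne_top hle).symm

end H77.MF
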