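import Pool.Agent.H77.MF.Rt

/-!
# MF-KR1: a cubic form with discriminant 0 over a finite field has a multiple root (row: SX MF KR1)

`k` finite (any characteristic). `disc f = 0` implies: there is `v ≠ 0` with `f(v) = 0` and gradient `0`.
Step 1: there is `v ≠ 0` with `ev f v = 0`: `f 0 = 0`: `(1, 0)`. `f 0 ≠ 0`: the polynomial `p = f₀X³ + f₁X² + f₂X + f₃` has degree 3; if it had no root in `k` it would be irreducible (`Polynomial.irreducible_of_degree_le_three_of_not_isRoot`/`Monic.irreducible_iff_roots..`), hence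
separable (`k` finite, so perfect: `PerfectField.separable_of_irreducible` / `Irreducible.separable`), with three different roots `x₁, x₂, x₃` in `AlgebraicClosure k`; but `disc f = f₀⁴ ((x₁-x₂)(x₁-x₃)(x₂-x₃))²` (Mathlib `Cubic.disc_eq_prod_three_roots`, `Cubic.disc_ne_zero_iff_roots_nodup`,
`Cubic.toPoly ⟨f₀,f₁,f₂,f₃⟩`; `Cubic.disc` is the same polynomial as `disc f`). So a root `x`, `v = (x, 1)`.
Step 2: complete `v` to `v'` with `dt v v' ≠ 0`, `g = pull f v v'`: `g 0 = 0`, `disc g = dt⁶ disc f = 0`, i.e. `g₁² (g₂² - 4 g₁ g₃) = 0`. `g₁ = 0`: `x = (1, 0)`: `ev g x = g₀ = 0`, `gr0 = 3g₀ = 0`, `gr1 = g₁ = 0`. `g₁ ≠ 0`, `g₂² = 4g₁g₃`: if `2 ≠ 0`: `x = (-g₂, 2g₁)`: `ev g x = g₁(4g₁g₃ - g₂²) = 0`,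
`gr0 = 2g₁x₀x₁ + g₂x₁² = x₁(2g₁x₀ + g₂x₁) = 0`, `gr1 = g₁x₀² + 2g₂x₀x₁ + 3g₃x₁² = 3g₁(4g₁g₃ - g₂²) = 0`. If `2 = 0`: `g₂ = 0`; every element of `k` is a square (`FiniteField.isSquare_of_char_two`): `g₁ = s²`, `g₃ = t²`, `s ≠ 0`: `x = (t, s)`: `ev = x₁(g₁x₀² + g₃x₁²) = s · 2 s²t² = 0`,
`gr0 = 2(..) = 0`, `gr1 = g₁x₀² + 3g₃x₁² = s²t² + 3 s²t² = 4 s² t² = 0`.
Step 3: transport: `y = cb v v' x ≠ 0`: `ev_pull`, `gr0_pull`, `gr1_pull`: the gradient of `pull f v v'` at `x` is the matrix `(v; v')` (determinant `≠ 0`) applied to the gradient of `f` at `y`, so the latter is `0`.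
-/

set_option autoImplicit false

open scoped Classical

noncomputable section

namespace H77.MF

private theorem mr_zero {k : Type} [Field k] [Finite k] {f : Fin 4 → k} (h : disc f = 0) :
    ∃ v : Fin 2 → k, v ≠ 0 ∧ ev f v = 0 := by
  by_cases h0 : f 0 = 0
  · refine ⟨![1, 0], fun h1 => ?_, by simp [ev, h0]⟩
    have := congrFun h1 0
    simp at this
  · obtain ⟨P, hP⟩ : ∃ P : Cubic k, P = ⟨f 0, f 1, f 2, f 3⟩ := ⟨_, rfl⟩
    have ha : P.a ≠ 0 := by
      rw [hP]
      exact h0
    have hev : ∀ x, P.toPoly.eval x = ev f ![x, 1] := by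
      intro x
      rw [hP]
      simp [Cubic.toPoly, ev]
    by_cases hr : ∃ x, P.toPoly.eval x = 0
    · obtain ⟨x, hx⟩ := hr
      refine ⟨![x, 1], fun h1 => ?_, by rw [← hev, hx]⟩
      have := congrFun h1 1
      simp at this
    · exfalso
      push Not at hr
      have hdeg : P.toPoly.natDegree = 3 := Cubic.natDegree_of_a_ne_zero ha
      have hirr : Irreducible P.toPoly :=
        Polynomial.irreducible_of_degree_le_three_of_not_isRoot (by rw [hdeg]; decide)
          fun x hx => hr x hx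
      have hsep : P.toPoly.Separable := PerfectField.separable_of_irreducible hirr
      have hnd : (Cubic.map (algebraMap k (AlgebraicClosure k)) P).roots.Nodup := by
        rw [Cubic.map_roots]
        exact Polynomial.nodup_roots hsep.map
      have hd := (Cubic.discr_ne_zero_iff_roots_nodup ha
        (IsAlgClosed.splits (P.toPoly.map (algebraMap k (AlgebraicClosure k))))).2 hnd
      apply hd
      rw [← h, hP]
      simp [Cubic.discr, disc]

private theorem mr_std {k : Type} [Field k] [Finite k] {g : Fin 4 → k} (h0 : g 0 = 0)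
    (h : disc g = 0) : ∃ v : Fin 2 → k, v ≠ 0 ∧ ev g v = 0 ∧ gr0 g v = 0 ∧ gr1 g v = 0 := by
  by_cases h1 : g 1 = 0
  · refine ⟨![1, 0], fun h2 => ?_, by simp [ev, h0], by simp [gr0, h0], by simp [gr1, h1]⟩
    have := congrFun h2 0
    simp at this
  · have h2 : g 2 ^ 2 = 4 * g 1 * g 3 := by
      have e : g 1 ^ 2 * (g 2 ^ 2 - 4 * g 1 * g 3) = 0 := by
        rw [disc, h0] at h
        linear_combination h
      exact sub_eq_zero.1 ((mul_eq_zero.1 e).resolve_left (pow_ne_zero 2 h1))
    by_cases h3 : (2 : k) = 0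
    · have hc : ringChar k = 2 := by
        have hd : ringChar k ∣ 2 := (ringChar.spec k 2).1 (by exact_mod_cast h3)
        rcases (Nat.dvd_prime Nat.prime_two).1 hd with h4 | h4
        · exact absurd h4 CharP.ringChar_ne_one
        · exact h4
      obtain ⟨s, hs⟩ := FiniteField.isSquare_of_char_two hc (g 1)
      obtain ⟨t, ht⟩ := FiniteField.isSquare_of_char_two hc (g 3)
      have hs0 : s ≠ 0 := by
        rintro rfl
        apply h1
        rw [hs, mul_zero]
      have hg2 : g 2 = 0 := by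
        have e : g 2 ^ 2 = 0 := by
          rw [h2]
          linear_combination (2 * g 1 * g 3) * h3
        exact pow_eq_zero_iff two_ne_zero |>.1 e
      refine ⟨![t, s], fun h4 => ?_, ?_, ?_, ?_⟩
      · have := congrFun h4 1
        simp at this
        exact hs0 this
      · simp only [ev, Matrix.cons_val_zero, Matrix.cons_val_one]
        rw [h0, hg2, hs, ht]
        linear_combination (s ^ 3 * t ^ 2) * h3
      · simp only [gr0, Matrix.cons_val_zero, Matrix.cons_val_one]
        rw [h0, hg2, hs]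
        linear_combination (s * s * t * s) * h3
      · simp only [gr1, Matrix.cons_val_zero, Matrix.cons_val_one]
        rw [hg2, hs, ht]
        linear_combination (2 * s ^ 2 * t ^ 2) * h3
    · refine ⟨![-g 2, 2 * g 1], fun h4 => ?_, ?_, ?_, ?_⟩
      · have := congrFun h4 1
        simp [h3, h1] at this
      · simp only [ev, Matrix.cons_val_zero, Matrix.cons_val_one]
        rw [h0]
        linear_combination (-2 * g 1 ^ 2) * h2
      · simp only [gr0, Matrix.cons_val_zero, Matrix.cons_val_one]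
        rw [h0]
        ring
      · simp only [gr1, Matrix.cons_val_zero, Matrix.cons_val_one]
        linear_combination (-3 * g 1) * h2

theorem mult_root {k : Type} [Field k] [Finite k] {f : Fin 4 → k} (h : disc f = 0) :
    ∃ v : Fin 2 → k, v ≠ 0 ∧ ev f v = 0 ∧ gr0 f v = 0 ∧ gr1 f v = 0 := by
  obtain ⟨v, hv, hev⟩ := mr_zero h
  obtain ⟨w, hw⟩ : ∃ w : Fin 2 → k, dt v w ≠ 0 := by
    by_cases h0 : v 0 = 0
    · refine ⟨![1, 0], ?_⟩
      have h1 : v 1 ≠ 0 := by
        intro h1
        apply hv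
        funext i
        fin_cases i
        · exact h0
        · exact h1
      simp [dt, h1]
    · exact ⟨![0, 1], by simp [dt, h0]⟩
  have hg0 : pull f v w 0 = 0 := by
    rw [← hev]
    rfl
  have hgd : disc (pull f v w) = 0 := by rw [disc_pull, h, mul_zero]
  obtain ⟨x, hx, e1, e2, e3⟩ := mr_std hg0 hgd
  rw [ev_pull] at e1
  rw [gr0_pull] at e2
  rw [gr1_pull] at e3
  refine ⟨cb v w x, ?_, e1, ?_, ?_⟩
  · intro h0
    apply hx
    have c0 : x 0 * v 0 + x 1 * w 0 = 0 := congrFun h0 0
    have c1 : x 0 * v 1 + x 1 * w 1 = 0 := congrFun h0 1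
    have d0 : dt v w * x 0 = 0 := by
      simp only [dt]
      linear_combination w 1 * c0 - w 0 * c1
    have d1 : dt v w * x 1 = 0 := by
      simp only [dt]
      linear_combination v 0 * c1 - v 1 * c0
    funext i
    fin_cases i
    · exact (mul_eq_zero.1 d0).resolve_left hw
    · exact (mul_eq_zero.1 d1).resolve_left hw
  · have d0 : dt v w * gr0 f (cb v w x) = 0 := by
      simp only [dt]
      linear_combination w 1 * e2 - v 1 * e3
    exact (mul_eq_zero.1 d0).resolve_left hw
  · have d0 : dt v w * gr1 f (cb v w x) = 0 := by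
      simp only [dt]
      linear_combination v 0 * e3 - w 0 * e2
    exact (mul_eq_zero.1 d0).resolve_left hw

end H77.MF
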