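import Pool.Agent.H77.MF.Idn

/-!
# MF-RT: the number of roots in `P¹(k)` of a cubic form over a finite field (row: SX MF RT)

`k` a finite field with `q` elements, `rt g` = number of the roots of `g` in `P¹(k)`: affine roots `(x : 1)` and `(1 : 0)` if `g 0 = 0`.
* `zc`: `#{v ∈ k² | g(v) = 0} = 1 + (q - 1) rt g`: split `k²`: `v = 0`; `v 1 ≠ 0`: `v = v 1 • (x, 1)`, `g(v) = (v 1)³ g(x, 1)`: bijection `(x, u) ↦ (u x, u)` with `kˣ × {roots}`; `v 1 = 0`, `v 0 ≠ 0`:
  `g(v) = g 0 (v 0)³`.
* `rt_gl`: `rt (r • pull g x y) = rt g` for `r ≠ 0`, `dt x y ≠ 0`: `ev_pull`, `v ↦ cb x y v` is a bijection of `k²`; then `zc` and `q - 1 > 0`.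
* `rt_le`: `g ≠ 0 → rt g ≤ 3`: `g 0 ≠ 0`: the polynomial `g 0 X³ + ..` of degree 3 has at most 3 roots. `g 0 = 0`: polynomial of degree at most 2, not zero: at most 2 roots (`Polynomial.card_roots'`).
* `rt_pos`: if `g` has a zero `v ≠ 0` then `1 ≤ rt g`.
* `disc_root`: if `6 ≠ 0` and `disc g = 0` then `g` has a zero `v ≠ 0`: `g 0 = 0`: `(1, 0)`. `g 0 ≠ 0`, `v = (9 g₀g₃ - g₁g₂, 2(g₁² - 3g₀g₂))` if this is not `0`: `ev g v` is a multiple of `disc g`
  (`ring`/`linear_combination`: find the cofactor; e.g. `g₀² ev g v = (..) disc g`). If it is `0`: `g₁² = 3g₀g₂`, `g₁g₂ = 9g₀g₃`: `v = (-g₁, 3g₀)`: `ev g v = 2g₀g₁³ - 9g₀²g₁g₂ + 27g₀³g₃ = 0`.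
* `nonroot`: otherwise all `q²` vectors are zeros: `q² = 1 + (q-1) rt g ≤ 1 + 3(q-1)`, `q + 1 ≤ 3`.
-/

set_option autoImplicit false

open scoped Classical

noncomputable section

namespace H77.MF

section field

variable {k : Type} [Field k]

/-- the number of the roots in `P¹(k)` -/
def rt (g : Fin 4 → k) : ℕ := {x : k | ev g ![x, 1] = 0}.ncard + (if g 0 = 0 then 1 else 0)

private theorem ev_smul' (g : Fin 4 → k) (r : k) (v : Fin 2 → k) :
    ev g (r • v) = r ^ 3 * ev g v := by
  simp [ev]
  ring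

private theorem line_card [Finite k] (g : Fin 4 → k) {b : k} (hb : b ≠ 0) :
    {a : k | ev g ![a, b] = 0}.ncard = {x : k | ev g ![x, 1] = 0}.ncard := by
  have h : {a : k | ev g ![a, b] = 0} = (fun x => b * x) '' {x : k | ev g ![x, 1] = 0} := by
    ext a
    simp only [Set.mem_ofPred_eq, Set.mem_image]
    constructor
    · intro ha
      refine ⟨b⁻¹ * a, ?_, by field_simp⟩
      have h1 : ![a, b] = b • ![b⁻¹ * a, 1] := by
        funext i
        fin_cases i <;> simp
        field_simp
      rw [h1, ev_smul'] at ha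
      rcases mul_eq_zero.1 ha with h | h
      · exact absurd (pow_eq_zero_iff (by norm_num) |>.1 h) hb
      · exact h
    · rintro ⟨x, hx, rfl⟩
      have h1 : ![b * x, b] = b • ![x, 1] := by
        funext i
        fin_cases i <;> simp
      rw [h1, ev_smul', hx, mul_zero]
  rw [h, Set.ncard_image_of_injective]
  exact mul_right_injective₀ hb

private theorem line0_card [Finite k] (g : Fin 4 → k) :
    {a : k | ev g ![a, 0] = 0}.ncard = if g 0 = 0 then Nat.card k else 1 := by
  split_ifs with h
  · have h1 : {a : k | ev g ![a, 0] = 0} = Set.univ := by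
      ext a
      simp [ev, h]
    rw [h1, Set.ncard_univ]
  · have h1 : {a : k | ev g ![a, 0] = 0} = {0} := by
      ext a
      simp [ev, h]
    rw [h1, Set.ncard_singleton]

theorem zc [Finite k] (g : Fin 4 → k) :
    {v : Fin 2 → k | ev g v = 0}.ncard = 1 + (Nat.card k - 1) * rt g := by
  have := Fintype.ofFinite k
  have e : {v : Fin 2 → k | ev g v = 0}.ncard = ∑ b : k, {a : k | ev g ![a, b] = 0}.ncard := by
    have h1 : ∀ b : k, {a : k | ev g ![a, b] = 0}.ncard =
        ∑ a : k, if ev g ![a, b] = 0 then 1 else 0 := by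
      intro b
      rw [Set.ncard_eq_toFinset_card', Set.toFinset_ofPred, Finset.card_filter]
    simp only [h1]
    rw [Set.ncard_eq_toFinset_card', Set.toFinset_ofPred, Finset.card_filter]
    rw [← Fintype.sum_prod_type_right (f := fun p : k × k =>
      if ev g ![p.1, p.2] = 0 then 1 else 0)]
    refine Fintype.sum_equiv (finTwoArrowEquiv k) _ _ fun v => ?_
    have h2 : ![v 0, v 1] = v := by
      funext i
      fin_cases i <;> rfl
    simp [finTwoArrowEquiv, h2]
  rw [e, ← Finset.add_sum_erase _ _ (Finset.mem_univ (0 : k)), line0_card]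
  rw [Finset.sum_congr rfl fun b hb => line_card g (Finset.ne_of_mem_erase hb)]
  rw [Finset.sum_const, Finset.card_erase_of_mem (Finset.mem_univ _), Finset.card_univ,
    ← Nat.card_eq_fintype_card, smul_eq_mul, rt]
  have hq : 0 < Nat.card k := Nat.card_pos
  obtain ⟨q, hq'⟩ : ∃ q, Nat.card k = q + 1 := ⟨Nat.card k - 1, by omega⟩
  rw [hq']
  split_ifs with h
  · simp
    ring
  · simp

theorem rt_gl [Finite k] (g : Fin 4 → k) {r : k} (hr : r ≠ 0) {x y : Fin 2 → k}
    (hd : dt x y ≠ 0) : rt (r • pull g x y) = rt g := by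
  have hq : 1 < Nat.card k := Finite.one_lt_card
  have h1 : {v : Fin 2 → k | ev (r • pull g x y) v = 0}.ncard =
      {v : Fin 2 → k | ev g v = 0}.ncard := by
    have hinj : Function.Injective (cb x y) := by
      intro v w h
      have h0 : x 0 * v 0 + y 0 * v 1 = x 0 * w 0 + y 0 * w 1 := by
        have := congrFun h 0
        simp only [cb] at this
        linear_combination this
      have h1 : x 1 * v 0 + y 1 * v 1 = x 1 * w 0 + y 1 * w 1 := by
        have := congrFun h 1
        simp only [cb] at this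
        linear_combination this
      have e0 : dt x y * (v 0 - w 0) = 0 := by
        simp only [dt]
        linear_combination y 1 * h0 - y 0 * h1
      have e1 : dt x y * (v 1 - w 1) = 0 := by
        simp only [dt]
        linear_combination x 0 * h1 - x 1 * h0
      funext i
      fin_cases i
      · exact sub_eq_zero.1 ((mul_eq_zero.1 e0).resolve_left hd)
      · exact sub_eq_zero.1 ((mul_eq_zero.1 e1).resolve_left hd)
    have hsurj : Function.Surjective (cb x y) := Finite.surjective_of_injective hinj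
    have h2 : {v : Fin 2 → k | ev g v = 0} =
        cb x y '' {v : Fin 2 → k | ev (r • pull g x y) v = 0} := by
      have h3 : ∀ v, ev (r • pull g x y) v = r * ev g (cb x y v) := by
        intro v
        rw [← ev_pull]
        simp [ev]
        ring
      ext v
      simp only [Set.mem_ofPred_eq, Set.mem_image, h3]
      constructor
      · intro hv
        obtain ⟨w, rfl⟩ := hsurj v
        exact ⟨w, by rw [hv, mul_zero], rfl⟩
      · rintro ⟨w, hw, rfl⟩
        exact (mul_eq_zero.1 hw).resolve_left hr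
    rw [h2, Set.ncard_image_of_injective _ hinj]
  rw [zc, zc] at h1
  have h2 : (Nat.card k - 1) * rt (r • pull g x y) = (Nat.card k - 1) * rt g := by omega
  exact Nat.eq_of_mul_eq_mul_left (by omega) h2

theorem rt_le {g : Fin 4 → k} (hg : g ≠ 0) : rt g ≤ 3 := by
  classical
  have key : ∀ (P : Polynomial k) (d : ℕ), P ≠ 0 → P.natDegree ≤ d →
      (∀ x, P.eval x = ev g ![x, 1]) → {x : k | ev g ![x, 1] = 0}.ncard ≤ d := by
    intro P d hP hd he
    have h1 : {x : k | ev g ![x, 1] = 0} = (P.roots.toFinset : Set k) := by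
      ext x
      simp [← he, hP]
    rw [h1, Set.ncard_coe_finset]
    exact (Multiset.toFinset_card_le _).trans ((Polynomial.card_roots' P).trans hd)
  by_cases h0 : g 0 = 0
  · have h1 : {x : k | ev g ![x, 1] = 0}.ncard ≤ 2 := by
      refine key (Polynomial.C (g 1) * Polynomial.X ^ 2 + Polynomial.C (g 2) * Polynomial.X +
        Polynomial.C (g 3)) 2 ?_ ?_ ?_
      · intro h
        apply hg
        have c0 := congrArg (fun P => Polynomial.coeff P 0) h
        have c1 := congrArg (fun P => Polynomial.coeff P 1) h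
        have c2 := congrArg (fun P => Polynomial.coeff P 2) h
        simp [Polynomial.coeff_C, Polynomial.coeff_X] at c0 c1 c2
        funext i
        fin_cases i <;> simp [h0, c0, c1, c2]
      · compute_degree
      · intro x
        simp [ev, h0]
    rw [rt, if_pos h0]
    omega
  · have h1 : {x : k | ev g ![x, 1] = 0}.ncard ≤ 3 := by
      refine key (Polynomial.C (g 0) * Polynomial.X ^ 3 + Polynomial.C (g 1) * Polynomial.X ^ 2 +
        Polynomial.C (g 2) * Polynomial.X + Polynomial.C (g 3)) 3 ?_ ?_ ?_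
      · intro h
        apply h0
        have c3 := congrArg (fun P => Polynomial.coeff P 3) h
        simpa [Polynomial.coeff_C, Polynomial.coeff_X] using c3
      · compute_degree
      · intro x
        simp [ev]
    rw [rt, if_neg h0]
    omega

theorem rt_pos [Finite k] {g : Fin 4 → k} {v : Fin 2 → k} (hv : v ≠ 0) (h : ev g v = 0) :
    1 ≤ rt g := by
  by_contra hc
  have h0 : rt g = 0 := by omega
  have h1 := zc g
  rw [h0, mul_zero, add_zero] at h1
  obtain ⟨w, hw⟩ := Set.ncard_eq_one.1 h1
  have h2 : v = w := by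
    have : v ∈ {v : Fin 2 → k | ev g v = 0} := h
    rw [hw] at this
    exact this
  have h3 : (0 : Fin 2 → k) = w := by
    have : (0 : Fin 2 → k) ∈ {v : Fin 2 → k | ev g v = 0} := by simp [ev]
    rw [hw] at this
    exact this
  exact hv (h2.trans h3.symm)

theorem disc_root (h6 : (6 : k) ≠ 0) {g : Fin 4 → k} (h : disc g = 0) :
    ∃ v : Fin 2 → k, v ≠ 0 ∧ ev g v = 0 := by
  have h2 : (2 : k) ≠ 0 := fun h => h6 (by linear_combination 3 * h)
  have h3 : (3 : k) ≠ 0 := fun h => h6 (by linear_combination 2 * h)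
  by_cases h0 : g 0 = 0
  · refine ⟨![1, 0], fun h => ?_, by simp [ev, h0]⟩
    have := congrFun h 0
    simp at this
  · by_cases hv : ![9 * g 0 * g 3 - g 1 * g 2, 2 * (g 1 ^ 2 - 3 * g 0 * g 2)] = 0
    · have e0 : 9 * g 0 * g 3 - g 1 * g 2 = 0 := by simpa using congrFun hv 0
      have e1 : 2 * (g 1 ^ 2 - 3 * g 0 * g 2) = 0 := by simpa using congrFun hv 1
      have e2 := (mul_eq_zero.1 e1).resolve_left h2
      refine ⟨![-g 1, 3 * g 0], fun h => ?_, ?_⟩
      · have := congrFun h 1
        simp [h3, h0] at this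
      · simp only [ev, Matrix.cons_val_zero, Matrix.cons_val_one]
        linear_combination 3 * g 0 ^ 2 * e0 + (2 * g 0 * g 1) * e2
    · refine ⟨_, hv, ?_⟩
      have e : ev g ![9 * g 0 * g 3 - g 1 * g 2, 2 * (g 1 ^ 2 - 3 * g 0 * g 2)] =
          -(27 * g 0 ^ 2 * g 3 - 9 * g 0 * g 1 * g 2 + 2 * g 1 ^ 3) * disc g := by
        simp only [ev, disc, Matrix.cons_val_zero, Matrix.cons_val_one]
        ring
      rw [e, h, mul_zero]

/-- if the field has at least 4 elements, a form which is not zero has a non-zero value -/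
theorem nonroot [Finite k] (h4 : 4 ≤ Nat.card k) {g : Fin 4 → k} (hg : g ≠ 0) :
    ∃ v : Fin 2 → k, ev g v ≠ 0 := by
  by_contra hc
  push Not at hc
  have h1 := zc g
  have h2 : {v : Fin 2 → k | ev g v = 0} = Set.univ := by
    ext v
    simp [hc v]
  rw [h2, Set.ncard_univ, Nat.card_fun, Nat.card_eq_fintype_card (α := Fin 2), Fintype.card_fin] at h1
  have h3 := rt_le hg
  have h5 : (Nat.card k - 1) * rt g ≤ (Nat.card k - 1) * 3 := Nat.mul_le_mul_left _ h3
  obtain ⟨q, hq⟩ : ∃ q, Nat.card k = q + 4 := ⟨Nat.card k - 4, by omega⟩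
  rw [hq] at h1 h5
  have : q + 4 - 1 = q + 3 := by omega
  rw [this] at h1 h5
  nlinarith

end field

end H77.MF
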