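import Pool.Agent.H77.MF.Vl
import Pool.Agent.H77.MF.Rt

/-!
# MF-MU1: the function `MU` (row: SX MF MU1)

* `mu0_eq`: `mu0 l g = rt ḡ - [disc ḡ = 0] - 1`, `ḡ` = `g` mod `l` (`map` of `disc` under the ring homomorphism; `Ideal.Quotient.eq_zero_iff_mem`). `𝓞 K ⧸ l` is a finite field
  (`Ideal.Quotient.field`; make it a local instance or state for `[Field]` through `IsMaximal`).
* `MU_eq`: if `Cg l 1 f g`, `g ∈ 𝓞⁴` then `MU l f = mu0 l g` (`choose` gives `g'` with `g' = g` mod `l`, `val_pow_mem`). `MU_cg`: `cg_trans`. `MU_gf`: approximate `x, y, f` by integral ones mod `l` (`approx`): `gf x y f` is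
  congruent to `(dt x' y')⁻¹ pull f' x' y'`, with `t dt x' y' = 1` mod `l`, `t ∈ 𝓞 K`: congruent to `t • pull f' x' y'`; `rt_gl`, `disc_pull`, `disc_smul`. `MU_smul`: the same for a scalar `r` of value 1.
* `MU_bd`: `ḡ ≠ 0` (otherwise `Cg l 1 f 0`, first alternative of `NML`), `rt_le`.
-/

set_option autoImplicit false

open scoped NumberField Classical
open IsDedekindDomain H38.ML H63.MA H67.SX

noncomputable section

namespace H77.MF

section oo

variable {K : Type} [Field K] [NumberField K] {l : Pl K}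

instance (l : Pl K) : Field (𝓞 K ⧸ l.asIdeal) :=
  letI : l.asIdeal.IsMaximal := l.isMaximal
  Ideal.Quotient.field l.asIdeal

/-- reduction -/
def red (l : Pl K) (g : Fin 4 → 𝓞 K) : Fin 4 → 𝓞 K ⧸ l.asIdeal :=
  fun i => Ideal.Quotient.mk l.asIdeal (g i)

private theorem disc_map {R R' : Type} [CommRing R] [CommRing R'] (φ : R →+* R') (f : Fin 4 → R) :
    disc (fun i => φ (f i)) = φ (disc f) := by
  have h4 : φ 4 = 4 := map_ofNat φ 4
  have h27 : φ 27 = 27 := map_ofNat φ 27
  have h18 : φ 18 = 18 := map_ofNat φ 18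
  simp [disc, h4, h27, h18]

private theorem dt_map {R R' : Type} [CommRing R] [CommRing R'] (φ : R →+* R')
    (v w : Fin 2 → R) : dt (fun i => φ (v i)) (fun i => φ (w i)) = φ (dt v w) := by
  simp [dt]

private theorem pull_map2 {R R' : Type} [CommRing R] [CommRing R'] (φ : R →+* R') (f : Fin 4 → R)
    (v w : Fin 2 → R) (i : Fin 4) :
    pull (fun i => φ (f i)) (fun i => φ (v i)) (fun i => φ (w i)) i = φ (pull f v w i) := by
  have h2 : φ 2 = 2 := map_ofNat φ 2
  have h3 : φ 3 = 3 := map_ofNat φ 3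
  fin_cases i <;> simp [pull, ev, gr0, gr1, h2, h3]

theorem mu0_eq (l : Pl K) (g : Fin 4 → 𝓞 K) :
    mu0 l g = (rt (red l g) : ℝ) - (if disc (red l g) = 0 then 1 else 0) - 1 := by
  have h1 : (red l g 0 = 0) ↔ g 0 ∈ l.asIdeal := Ideal.Quotient.eq_zero_iff_mem
  have h2 : (disc (red l g) = 0) ↔ disc g ∈ l.asIdeal := by
    rw [← Ideal.Quotient.eq_zero_iff_mem, ← disc_map]
    rfl
  unfold mu0 rt
  push_cast
  simp only [h1, h2]
  rfl

private theorem red_congr {g g' : Fin 4 → 𝓞 K}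
    (h : Cg l 1 (fun i => (g i : K)) (fun i => (g' i : K))) : red l g = red l g' := by
  funext i
  refine Ideal.Quotient.eq.2 ?_
  have h1 := h i
  have h2 : ((g i - g' i : 𝓞 K) : K) = (g i : K) - (g' i : K) := rfl
  rw [← pow_one l.asIdeal, val_pow_mem, h2]
  exact h1

theorem MU_eq {f : Fin 4 → K} {g : Fin 4 → 𝓞 K} (h : Cg l 1 f (fun i => (g i : K))) :
    MU l f = mu0 l g := by
  have h0 : ∃ g : Fin 4 → 𝓞 K, Cg l 1 f (fun i => (g i : K)) := ⟨g, h⟩
  have h1 : MU l f = mu0 l h0.choose := dif_pos h0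
  have h2 := red_congr (cg_trans (cg_symm h0.choose_spec) h)
  rw [h1, mu0_eq, mu0_eq, h2]

theorem MU_cg {f g : Fin 4 → K} (hf : In l f) (h : Cg l 1 g f) : MU l g = MU l f := by
  obtain ⟨f', hf'⟩ := approx hf 1
  rw [MU_eq hf', MU_eq (cg_trans h hf')]

private theorem exp_one_lt {x : K} (h : l.valuation K x ≤ WithZero.exp (-((1 : ℕ) : ℤ))) :
    l.valuation K x < 1 := by
  have h1 : l.valuation K x < WithZero.exp 0 := val_lt.2 (by simpa using h)
  rwa [WithZero.exp_zero] at h1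

private theorem exp_one_le {x : K} (h : l.valuation K x < 1) :
    l.valuation K x ≤ WithZero.exp (-((1 : ℕ) : ℤ)) := by
  rw [← WithZero.exp_zero] at h
  simpa using val_lt.1 h

/-- the maximal ideal of the valuation ring -/
private def mx (l : Pl K) : Ideal (l.valuation K).integer where
  carrier := {z | l.valuation K (z : K) < 1}
  add_mem' := fun {a b} ha hb => by
    change l.valuation K ((a : K) + b) < 1
    exact (Valuation.map_add _ _ _).trans_lt (max_lt ha hb)
  zero_mem' := by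
    change l.valuation K ((0 : (l.valuation K).integer) : K) < 1
    rw [ZeroMemClass.coe_zero, map_zero]
    exact zero_lt_one
  smul_mem' := fun c a ha => by
    change l.valuation K ((c : K) * a) < 1
    rw [map_mul]
    exact (mul_le_of_le_one_left' c.2).trans_lt ha

private theorem cg_pull {f f' : Fin 4 → K} {x x' y y' : Fin 2 → K} (hf : In l f) (hf' : In l f')
    (hx : In l x) (hx' : In l x') (hy : In l y) (hy' : In l y') (h1 : Cg l 1 f f')
    (h2 : Cg l 1 x x') (h3 : Cg l 1 y y') :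
    Cg l 1 (pull f x y) (pull f' x' y') ∧
      l.valuation K (dt x y - dt x' y') ≤ WithZero.exp (-((1 : ℕ) : ℤ)) := by
  have e : ∀ {a b : K} (ha : l.valuation K a ≤ 1) (hb : l.valuation K b ≤ 1),
      l.valuation K (a - b) ≤ WithZero.exp (-((1 : ℕ) : ℤ)) →
      Ideal.Quotient.mk (mx l) ⟨a, ha⟩ = Ideal.Quotient.mk (mx l) ⟨b, hb⟩ := by
    intro a b ha hb h
    refine Ideal.Quotient.eq.2 ?_
    exact exp_one_lt h
  have e' : ∀ {z w : (l.valuation K).integer}, Ideal.Quotient.mk (mx l) z = Ideal.Quotient.mk (mx l) w →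
      l.valuation K ((z : K) - w) ≤ WithZero.exp (-((1 : ℕ) : ℤ)) := by
    intro z w h
    exact exp_one_le (Ideal.Quotient.eq.1 h)
  have hF : (fun i => Ideal.Quotient.mk (mx l) ⟨f i, hf i⟩) =
      fun i => Ideal.Quotient.mk (mx l) ⟨f' i, hf' i⟩ := funext fun i => e _ _ (h1 i)
  have hX : (fun i => Ideal.Quotient.mk (mx l) ⟨x i, hx i⟩) =
      fun i => Ideal.Quotient.mk (mx l) ⟨x' i, hx' i⟩ := funext fun i => e _ _ (h2 i)
  have hY : (fun i => Ideal.Quotient.mk (mx l) ⟨y i, hy i⟩) =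
      fun i => Ideal.Quotient.mk (mx l) ⟨y' i, hy' i⟩ := funext fun i => e _ _ (h3 i)
  constructor
  · intro i
    have k1 := pull_map2 (Ideal.Quotient.mk (mx l)) (fun i => ⟨f i, hf i⟩) (fun i => ⟨x i, hx i⟩)
      (fun i => ⟨y i, hy i⟩) i
    have k2 := pull_map2 (Ideal.Quotient.mk (mx l)) (fun i => ⟨f' i, hf' i⟩) (fun i => ⟨x' i, hx' i⟩)
      (fun i => ⟨y' i, hy' i⟩) i
    rw [hF, hX, hY, k2] at k1
    have k3 := e' k1
    have k4 := pull_map2 ((l.valuation K).integer.subtype) (fun i => ⟨f i, hf i⟩) (fun i => ⟨x i, hx i⟩)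
      (fun i => ⟨y i, hy i⟩) i
    have k5 := pull_map2 ((l.valuation K).integer.subtype) (fun i => ⟨f' i, hf' i⟩)
      (fun i => ⟨x' i, hx' i⟩) (fun i => ⟨y' i, hy' i⟩) i
    rw [Valuation.map_sub_swap]
    have k6 : pull f x y i = ((l.valuation K).integer.subtype) (pull (fun i => ⟨f i, hf i⟩)
        (fun i => ⟨x i, hx i⟩) (fun i => ⟨y i, hy i⟩) i) := k4
    have k7 : pull f' x' y' i = ((l.valuation K).integer.subtype) (pull (fun i => ⟨f' i, hf' i⟩)
        (fun i => ⟨x' i, hx' i⟩) (fun i => ⟨y' i, hy' i⟩) i) := k5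
    rw [k6, k7]
    exact k3
  · have k1 := dt_map (Ideal.Quotient.mk (mx l)) (fun i => ⟨x i, hx i⟩) (fun i => ⟨y i, hy i⟩)
    have k2 := dt_map (Ideal.Quotient.mk (mx l)) (fun i => ⟨x' i, hx' i⟩) (fun i => ⟨y' i, hy' i⟩)
    rw [hX, hY, k2] at k1
    have k3 := e' k1
    have k6 : dt x y = ((l.valuation K).integer.subtype) (dt
        (fun i => ⟨x i, hx i⟩) (fun i => ⟨y i, hy i⟩)) :=
      dt_map ((l.valuation K).integer.subtype) (fun i => ⟨x i, hx i⟩) (fun i => ⟨y i, hy i⟩)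
    have k7 : dt x' y' = ((l.valuation K).integer.subtype) (dt
        (fun i => ⟨x' i, hx' i⟩) (fun i => ⟨y' i, hy' i⟩)) :=
      dt_map ((l.valuation K).integer.subtype) (fun i => ⟨x' i, hx' i⟩) (fun i => ⟨y' i, hy' i⟩)
    rw [Valuation.map_sub_swap, k6, k7]
    exact k3

private theorem in_coe {n : ℕ} (g : Fin n → 𝓞 K) : In l (fun i => (g i : K)) := fun i => val_int l (g i)

private theorem fin_quot (l : Pl K) : Finite (𝓞 K ⧸ l.asIdeal) := Ideal.finiteQuotientOfFreeOfNeBot _ l.ne_bot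

theorem MU_gf {f : Fin 4 → K} (hf : In l f) {x y : Fin 2 → K} (hx : In l x) (hy : In l y)
    (hd : l.valuation K (dt x y) = 1) : MU l (gf x y f) = MU l f := by
  have hfin := fin_quot l
  obtain ⟨f', hf'⟩ := approx hf 1
  obtain ⟨x', hx'⟩ := approx hx 1
  obtain ⟨y', hy'⟩ := approx hy 1
  have hg := in_gf hx hy hd hf
  obtain ⟨h, hh⟩ := approx hg 1
  rw [MU_eq hf', MU_eq hh, mu0_eq, mu0_eq]
  obtain ⟨c1, c2⟩ := cg_pull hf (in_coe f') hx (in_coe x') hy (in_coe y') hf' hx' hy'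
  have hd0 : dt x y ≠ 0 := by
    intro h0
    rw [h0, map_zero] at hd
    exact zero_ne_one hd
  have hgf : ∀ i, dt x y * gf x y f i = pull f x y i := by
    intro i
    rw [gf, Pi.smul_apply, smul_eq_mul, mul_inv_cancel_left₀ hd0]
  have p1 : ((dt x' y' : 𝓞 K) : K) = dt (fun i => (x' i : K)) (fun i => (y' i : K)) :=
    (dt_map (algebraMap (𝓞 K) K) x' y').symm
  have p2 : ∀ i, ((pull f' x' y' i : 𝓞 K) : K) =
      pull (fun i => (f' i : K)) (fun i => (x' i : K)) (fun i => (y' i : K)) i := fun i =>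
    (pull_map2 (algebraMap (𝓞 K) K) f' x' y' i).symm
  have key : ∀ i, dt x' y' * h i - pull f' x' y' i ∈ l.asIdeal := by
    intro i
    rw [← pow_one l.asIdeal, val_pow_mem]
    have e1 : ((dt x' y' * h i - pull f' x' y' i : 𝓞 K) : K) =
        ((dt x' y' : 𝓞 K) : K) * (h i : K) - ((pull f' x' y' i : 𝓞 K) : K) := rfl
    have e2 : ((dt x' y' : 𝓞 K) : K) * (h i : K) - ((pull f' x' y' i : 𝓞 K) : K) =
        -((dt x y - dt (fun i => (x' i : K)) (fun i => (y' i : K))) * (h i : K)) +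
        (-(dt x y * (gf x y f i - h i)) + (pull f x y i -
          pull (fun i => (f' i : K)) (fun i => (x' i : K)) (fun i => (y' i : K)) i)) := by
      rw [p1, p2, ← hgf i]
      ring
    rw [e1, e2]
    refine (Valuation.map_add _ _ _).trans (max_le ?_ ((Valuation.map_add _ _ _).trans (max_le ?_ (c1 i))))
    · rw [Valuation.map_neg, map_mul]
      exact (mul_le_mul' c2 (val_int l _)).trans_eq (mul_one _)
    · rw [Valuation.map_neg, map_mul, hd, one_mul]
      exact hh i
  have hdt : dt x' y' ∉ l.asIdeal := by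
    rw [val_mem, not_lt, p1, ← hd]
    by_contra hcon
    have h1 := not_le.1 hcon
    have h2 : dt x y = (dt x y - dt (fun i => (x' i : K)) (fun i => (y' i : K))) +
        dt (fun i => (x' i : K)) (fun i => (y' i : K)) := by ring
    have h3 : l.valuation K (dt x y) < l.valuation K (dt x y) := by
      conv_lhs => rw [h2]
      refine (Valuation.map_add _ _ _).trans_lt (max_lt ?_ h1)
      rw [hd]
      exact exp_one_lt c2
    exact lt_irrefl _ h3
  obtain ⟨D, hD⟩ : ∃ D : 𝓞 K ⧸ l.asIdeal, D = dt (fun i => Ideal.Quotient.mk l.asIdeal (x' i))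
    (fun i => Ideal.Quotient.mk l.asIdeal (y' i)) := ⟨_, rfl⟩
  have hDm : D = Ideal.Quotient.mk l.asIdeal (dt x' y') := by
    rw [hD]
    exact dt_map (Ideal.Quotient.mk l.asIdeal) x' y'
  have hD0 : D ≠ 0 := by
    rw [hDm]
    exact fun h0 => hdt (Ideal.Quotient.eq_zero_iff_mem.1 h0)
  have hred : red l h = D⁻¹ • pull (red l f') (fun i => Ideal.Quotient.mk l.asIdeal (x' i))
      (fun i => Ideal.Quotient.mk l.asIdeal (y' i)) := by
    funext i
    rw [Pi.smul_apply, smul_eq_mul, eq_inv_mul_iff_mul_eq₀ hD0, hDm]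
    have h1 := Ideal.Quotient.eq.2 (key i)
    rw [map_mul] at h1
    refine h1.trans ?_
    exact (pull_map2 (Ideal.Quotient.mk l.asIdeal) f' x' y' i).symm
  have hrt : rt (red l h) = rt (red l f') := by
    rw [hred]
    exact rt_gl _ (inv_ne_zero hD0) (by rw [← hD]; exact hD0)
  have hdisc : disc (red l h) = 0 ↔ disc (red l f') = 0 := by
    rw [hred, disc_smul, disc_pull, ← hD]
    constructor
    · intro h0
      rcases mul_eq_zero.1 h0 with h1 | h1
      · exact absurd h1 (pow_ne_zero _ (inv_ne_zero hD0))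
      · rcases mul_eq_zero.1 h1 with h2 | h2
        · exact absurd h2 (pow_ne_zero _ hD0)
        · exact h2
    · intro h0
      rw [h0, mul_zero, mul_zero]
  rw [hrt]
  simp only [hdisc]

theorem MU_smul {f : Fin 4 → K} (hf : In l f) {r : K} (hr : l.valuation K r = 1) :
    MU l (r • f) = MU l f := by
  have hfin := fin_quot l
  obtain ⟨f', hf'⟩ := approx hf 1
  obtain ⟨s', hs'⟩ := approx (l := l) (f := fun _ : Fin 1 => r) (fun _ => hr.le) 1
  obtain ⟨s, hs⟩ : ∃ s : 𝓞 K, s = s' 0 := ⟨_, rfl⟩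
  have hrs : l.valuation K (r - (s : K)) ≤ WithZero.exp (-((1 : ℕ) : ℤ)) := by
    rw [hs]
    exact hs' 0
  have hsl : s ∉ l.asIdeal := by
    rw [val_mem, not_lt]
    by_contra hcon
    have h1 := not_le.1 hcon
    have h2 : r = (r - (s : K)) + s := by ring
    have h3 : l.valuation K r < 1 := by
      rw [h2]
      exact (Valuation.map_add _ _ _).trans_lt (max_lt (exp_one_lt hrs) h1)
    rw [hr] at h3
    exact lt_irrefl _ h3
  have h1 : Cg l 1 (r • f) (fun i => ((s • f') i : 𝓞 K)) := by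
    intro i
    have e0 : (((s • f') i : 𝓞 K) : K) = (s : K) * (f' i : K) := rfl
    have e : (r • f) i - (((s • f') i : 𝓞 K) : K) = (r - s) * f i + s * (f i - f' i) := by
      rw [e0, Pi.smul_apply, smul_eq_mul]
      ring
    rw [e]
    refine (Valuation.map_add _ _ _).trans (max_le ?_ ?_)
    · rw [map_mul]
      exact (mul_le_mul' hrs (hf i)).trans_eq (mul_one _)
    · rw [map_mul]
      exact (mul_le_mul' (val_int l s) (hf' i)).trans_eq (one_mul _)
  rw [MU_eq hf', MU_eq h1, mu0_eq, mu0_eq]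
  obtain ⟨c, hc⟩ : ∃ c : 𝓞 K ⧸ l.asIdeal, c = Ideal.Quotient.mk l.asIdeal s := ⟨_, rfl⟩
  have hc0 : c ≠ 0 := by
    rw [hc]
    exact fun h0 => hsl (Ideal.Quotient.eq_zero_iff_mem.1 h0)
  have hred : red l (s • f') = c • pull (red l f') ![1, 0] ![0, 1] := by
    rw [pull_id, hc]
    funext i
    exact map_mul _ _ _
  have hdt : dt (![1, 0] : Fin 2 → 𝓞 K ⧸ l.asIdeal) ![0, 1] = 1 := by simp [dt]
  have hrt : rt (red l (s • f')) = rt (red l f') := by
    rw [hred]
    exact rt_gl _ hc0 (by rw [hdt]; exact one_ne_zero)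
  have hdisc : disc (red l (s • f')) = 0 ↔ disc (red l f') = 0 := by
    rw [hred, disc_smul, pull_id]
    constructor
    · intro h0
      rcases mul_eq_zero.1 h0 with h1 | h1
      · exact absurd h1 (pow_ne_zero _ hc0)
      · exact h1
    · intro h0
      rw [h0, mul_zero]
  rw [hrt]
  simp only [hdisc]

theorem MU_bd {f : Fin 4 → K} (hf : In l f) (h : ¬ NML l f) : |MU l f| ≤ 2 := by
  obtain ⟨f', hf'⟩ := approx hf 1
  have h0 : ¬ Cg l 1 f 0 := fun h1 => h (Or.inl h1)
  have h1 : red l f' ≠ 0 := by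
    intro h2
    apply h0
    intro i
    have h3 : f' i ∈ l.asIdeal := Ideal.Quotient.eq_zero_iff_mem.1 (congrFun h2 i)
    rw [← pow_one l.asIdeal, val_pow_mem] at h3
    have e : f i - (0 : Fin 4 → K) i = (f i - f' i) + (f' i : K) := by
      rw [Pi.zero_apply]
      ring
    rw [e]
    exact (Valuation.map_add _ _ _).trans (max_le (hf' i) h3)
  have h2 : (rt (red l f') : ℝ) ≤ 3 := by exact_mod_cast rt_le h1
  have h3 : (0 : ℝ) ≤ rt (red l f') := Nat.cast_nonneg _
  rw [MU_eq hf', mu0_eq, abs_le]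
  split_ifs <;> constructor <;> linarith

end oo

end H77.MF
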