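import Pool.Agent.H77.MF.Nm1

/-!
# MF-NM2: the local criterion for `NM` in a local basis, necessity (row: SX MF NM2)

`hL : Lt Λ`, `(v, w)` a basis of `Λ` at `l`, `f ∈ VL Λ`, `g = gf v w f` (`In l`). Claim: `f ∈ NM l Λ ↔ NML l g`. `A` is the local ring `{v(x) ≤ 1}`, `π` a uniformizer.

`nm_to`: let `Λ < Λ'`, `l Λ' ≤ Λ`, `f ∈ VL Λ'` (`Λ'` is `Lt` by `mid_lt`; `l' ≠ l`: `LocEq`, `mid_loc`; so `Λ' ≠ Λ` locally at `l`, by `loc_all`). Coordinates `x(p) = co v w p` for `p ∈ Λ'`
(locally): `π x(p)` is `In l` (`π p ∈ Λ` locally: `linv_lc`, `bas_lc`). There is `p ∈ Λ'` with `x(p)` not `In l` (otherwise `Λ' ≤ Λ` locally everywhere). Put `p₀ = π x(p)`: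
`In l p₀`, not `0` mod `l`.
 Case 1: for some `p, q ∈ Λ'`: `v(dt (π x(p)) (π x(q))) = 1`. Then `Λ'` is locally `π⁻¹ Λ`: `g/π = ` (unit change of) the form of `Λ'` is integral: precisely with `x = π x(p)`, `y = π x(q)`, `(cb v w x, cb v w y)` is a basis
 of `Λ` (`bas_change`), `gf p q f`, `p = π⁻¹ cb v w x`, `q = π⁻¹ cb v w y`, equals `π⁻¹ gf x y g` (`gf_gf`, `pull_smul_vec`: `π² π⁻³`). `(p, q)` is a basis of `Λ'` (`bas_of_co`: for `r ∈ Λ'` the coordinates
 `co p q r`: `π x(r)` is `In l`, `dt x y` a unit), so `π⁻¹ gf x y g` is `In l` (`vl_in`), so `gf x y g = 0` mod `l`, and `g = gf (inverse) (gf x y g) = 0` mod `l` (`in_gf`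
 applied to `π⁻¹ gf x y g`). First alternative of `NML`.
 Case 2: otherwise `v(dt (π x(p)) (π x(q))) < 1`, `≤ exp(-1)`, for all `p, q ∈ Λ'`, so `DL Λ'` has values at most `exp(1) v(dt v w)` (as `dt p q = dt v w · π⁻² dt (πx(p)) (πx(q))`), for its generators and
 then for all elements. Take `p` as above, `p₀ = π x(p)`, and `q₀ ∈ {(1,0), (0,1)}` with `v(dt p₀ q₀) = 1` (one of the coordinates of `p₀` is a unit). `q = cb v w q₀ ∈ Λ ≤ Λ'` locally. Look at
 `pull f p q i ∈ DL Λ'` (locally; multiply `q` by `s ∉ l`): `f` in coordinates: `pull f p q = dt v w · pull g (π⁻¹ p₀) q₀`, so `v(pull g (π⁻¹p₀) q₀ i) ≤ exp(1)`: `i = 0`: `ev g p₀ · π⁻³`: `v(ev g p₀) ≤ exp(-2)`.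
 `i = 1`: `π⁻² (q₀ · grad g(p₀))`: `v(q₀₀ gr0 g p₀ + q₀₁ gr1 g p₀) ≤ exp(-1)`. Together with `euler` (`p₀ · grad = 3 ev g p₀`) and `v(dt p₀ q₀) = 1` (Cramer) both partial derivatives are `< 1`.
`compl`: one coordinate `p i` has value 1 (`val_lt` with `n = 0`), take the other unit vector.
-/

set_option autoImplicit false

open scoped NumberField Classical
open IsDedekindDomain H38.ML H63.MA H67.SX

noncomputable section

namespace H77.MF

variable {K : Type} [Field K] [NumberField K] {l : Pl K} {Λ : Submodule (𝓞 K) (Fin 2 → K)}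
  {v w : Fin 2 → K} {f : Fin 4 → K}

/-- a primitive vector can be completed -/
theorem compl {p : Fin 2 → K} (hp : In l p) (h : ¬ Cg l 1 p 0) :
    ∃ q : Fin 2 → K, In l q ∧ l.valuation K (dt p q) = 1 := by
  have h1 : ∃ i, l.valuation K (p i) = 1 := by
    by_contra hn
    push Not at hn
    apply h
    intro i
    have h2 : l.valuation K (p i) < WithZero.exp (0 : ℤ) := by
      rw [WithZero.exp_zero]
      exact lt_of_le_of_ne (hp i) (hn i)
    rw [val_lt] at h2
    show l.valuation K (p i - 0) ≤ _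
    rw [sub_zero]
    exact h2
  obtain ⟨i, hi⟩ := h1
  fin_cases i
  · refine ⟨![0, 1], ?_, ?_⟩
    · intro j
      fin_cases j <;> simp
    · have h2 : dt p ![0, 1] = p 0 := by simp [dt]
      rw [h2]
      exact hi
  · refine ⟨![1, 0], ?_, ?_⟩
    · intro j
      fin_cases j <;> simp
    · have h2 : dt p ![1, 0] = -p 1 := by simp [dt]
      rw [h2, Valuation.map_neg]
      exact hi

private theorem bas_of_val {Λ' : Submodule (𝓞 K) (Fin 2 → K)} {v' w' p q : Fin 2 → K}
    (h' : Bas l Λ' v' w') (hp : Lc l Λ' p) (hq : Lc l Λ' q) (nz : dt p q ≠ 0)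
    (hv : l.valuation K (dt v' w') ≤ l.valuation K (dt p q)) : Bas l Λ' p q := by
  have h1 : ∀ r s, Lc l Λ' r → Lc l Λ' s → l.valuation K (dt r s) ≤ l.valuation K (dt p q) := by
    intro r s hr hs
    refine le_trans ?_ hv
    rw [← cb_co h'.nz r, ← cb_co h'.nz s, dt_cb, map_mul]
    exact mul_le_of_le_one_right' (bs_dt ((bas_lc h' r).1 hr) ((bas_lc h' s).1 hs))
  exact ⟨hp, hq, nz, fun r hr => h1 r q (lc_mem hr) hq, fun r hr => h1 p r hp (lc_mem hr)⟩

private theorem bas_swap {Λ' : Submodule (𝓞 K) (Fin 2 → K)} {v' w' : Fin 2 → K}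
    (h' : Bas l Λ' v' w') : Bas l Λ' w' v' ∧
      l.valuation K (dt w' v') = l.valuation K (dt v' w') := by
  have h1 : dt w' v' = -dt v' w' := by
    simp only [dt]
    ring
  have h2 : l.valuation K (dt w' v') = l.valuation K (dt v' w') := by
    rw [h1, Valuation.map_neg]
  exact ⟨bas_of_val h' h'.hw h'.hv (by rw [h1]; exact neg_ne_zero.2 h'.nz) h2.ge, h2⟩

private theorem co_smul' (s : 𝓞 K) (v w p : Fin 2 → K) : co v w (s • p) = (s : K) • co v w p := by
  funext i
  fin_cases i
  · show dt (s • p) w / dt v w = (s : K) * (dt p w / dt v w)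
    rw [bs_left, mul_div_assoc]
  · show dt v (s • p) / dt v w = (s : K) * (dt v p / dt v w)
    rw [bs_right, mul_div_assoc]

/-- the second alternative -/
private theorem nm_core {Λ' : Submodule (𝓞 K) (Fin 2 → K)} {v' w' : Fin 2 → K} {π : 𝓞 K}
    (hπ : l.valuation K (π : K) = WithZero.exp (-1 : ℤ)) (h : Bas l Λ v w) (h' : Bas l Λ' v' w')
    (hle : Λ ≤ Λ') (hf' : f ∈ VL Λ') (hI : In l ((π : K) • co v w v'))
    (hP : ¬ Cg l 1 ((π : K) • co v w v') 0)
    (hD : l.valuation K (dt v' w') ≤ l.valuation K (dt v w) * WithZero.exp (1 : ℤ)) :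
    NML l (gf v w f) := by
  obtain ⟨q, hq, hPq⟩ := compl hI hP
  set x := co v w v' with hx
  set g := gf v w f with hg
  have hv' : cb v w x = v' := cb_co h.nz v'
  have hπq : l.valuation K (dt x q) = WithZero.exp (1 : ℤ) := by
    rw [dt_smul_left, map_mul, hπ] at hPq
    calc l.valuation K (dt x q) = (WithZero.exp (1 : ℤ) * WithZero.exp (-1 : ℤ)) *
          l.valuation K (dt x q) := by
          rw [← WithZero.exp_add]
          norm_num
      _ = WithZero.exp (1 : ℤ) * (WithZero.exp (-1 : ℤ) * l.valuation K (dt x q)) := mul_assoc _ _ _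
      _ = WithZero.exp (1 : ℤ) := by rw [hPq, mul_one]
  have hxq0 : dt x q ≠ 0 := by
    intro h0
    rw [h0, map_zero] at hπq
    exact WithZero.exp_ne_zero hπq.symm
  have hdt : dt v' (cb v w q) = dt v w * dt x q := by
    conv_lhs => rw [← hv']
    rw [dt_cb]
  have hB : Bas l Λ' v' (cb v w q) := by
    refine bas_of_val h' h'.hv (lc_mono hle ?_) ?_ ?_
    · rw [bas_lc h, co_cb h.nz]
      exact hq
    · rw [hdt]
      exact mul_ne_zero h.nz hxq0
    · rw [hdt, map_mul, hπq]
      exact hD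
  have hG := vl_in hB hf'
  have hG' : gf v' (cb v w q) f = gf x q g := by
    conv_lhs => rw [← hv']
    rw [gf_gf h.nz]
  rw [hG'] at hG
  have hG0 : l.valuation K (ev g x) ≤ WithZero.exp (1 : ℤ) := by
    have h1 : ev g x = dt x q * gf x q g 0 := by
      show ev g x = dt x q * ((dt x q)⁻¹ * ev g x)
      rw [mul_inv_cancel_left₀ hxq0]
    rw [h1, map_mul, hπq]
    exact mul_le_of_le_one_right' (hG 0)
  have hG1 : l.valuation K (q 0 * gr0 g x + q 1 * gr1 g x) ≤ WithZero.exp (1 : ℤ) := by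
    have h1 : q 0 * gr0 g x + q 1 * gr1 g x = dt x q * gf x q g 1 := by
      show q 0 * gr0 g x + q 1 * gr1 g x = dt x q * ((dt x q)⁻¹ * (q 0 * gr0 g x + q 1 * gr1 g x))
      rw [mul_inv_cancel_left₀ hxq0]
    rw [h1, map_mul, hπq]
    exact mul_le_of_le_one_right' (hG 1)
  set P := (π : K) • x with hPdef
  have e0 : l.valuation K (ev g P) ≤ WithZero.exp (-2 : ℤ) := by
    have h1 : ev g P = (π : K) ^ 3 * ev g x := by
      simp only [ev, hPdef, Pi.smul_apply, smul_eq_mul]
      ring
    rw [h1, map_mul, map_pow, hπ]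
    refine (mul_le_mul_right hG0 _).trans (le_of_eq ?_)
    rw [← WithZero.exp_nsmul, ← WithZero.exp_add]
    norm_num
  have e1 : l.valuation K (q 0 * gr0 g P + q 1 * gr1 g P) ≤ WithZero.exp (-1 : ℤ) := by
    have h1 : q 0 * gr0 g P + q 1 * gr1 g P = (π : K) ^ 2 * (q 0 * gr0 g x + q 1 * gr1 g x) := by
      simp only [gr0, gr1, hPdef, Pi.smul_apply, smul_eq_mul]
      ring
    rw [h1, map_mul, map_pow, hπ]
    refine (mul_le_mul_right hG1 _).trans (le_of_eq ?_)
    rw [← WithZero.exp_nsmul, ← WithZero.exp_add]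
    norm_num
  have hlt1 : WithZero.exp (-1 : ℤ) < (1 : WithZero (Multiplicative ℤ)) := by
    rw [← WithZero.exp_zero]
    exact WithZero.exp_lt_exp.2 (by norm_num)
  have hlt2 : WithZero.exp (-2 : ℤ) < (1 : WithZero (Multiplicative ℤ)) := by
    rw [← WithZero.exp_zero]
    exact WithZero.exp_lt_exp.2 (by norm_num)
  have e1' : l.valuation K (q 0 * gr0 g P + q 1 * gr1 g P) < 1 := e1.trans_lt hlt1
  have e2 : l.valuation K (P 0 * gr0 g P + P 1 * gr1 g P) < 1 := by
    rw [euler]
    have h3 : l.valuation K (3 : K) ≤ 1 := by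
      have h4 : ((3 : 𝓞 K) : K) = 3 := map_ofNat (algebraMap (𝓞 K) K) 3
      have h5 := val_int l (3 : 𝓞 K)
      rwa [h4] at h5
    rw [map_mul]
    exact (mul_le_of_le_one_left' h3).trans_lt (e0.trans_lt hlt2)
  have key : ∀ a b A B : K, l.valuation K a ≤ 1 → l.valuation K b ≤ 1 → l.valuation K A < 1 →
      l.valuation K B < 1 → l.valuation K (a * A - b * B) < 1 := by
    intro a b A B ha hb hA hB
    refine (Valuation.map_sub _ _ _).trans_lt (max_lt ?_ ?_)
    · rw [map_mul]
      exact (mul_le_of_le_one_left' ha).trans_lt hA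
    · rw [map_mul]
      exact (mul_le_of_le_one_left' hb).trans_lt hB
  right
  refine ⟨P, hI, hP, e0, ?_, ?_⟩
  · have h1 := key (q 1) (P 1) _ _ (hq 1) (hI 1) e2 e1'
    have h2 : q 1 * (P 0 * gr0 g P + P 1 * gr1 g P) - P 1 * (q 0 * gr0 g P + q 1 * gr1 g P) =
        dt P q * gr0 g P := by
      simp only [dt]
      ring
    rw [h2, map_mul, hPq, one_mul] at h1
    exact h1
  · have h1 := key (P 0) (q 0) _ _ (hI 0) (hq 0) e1' e2
    have h2 : P 0 * (q 0 * gr0 g P + q 1 * gr1 g P) - q 0 * (P 0 * gr0 g P + P 1 * gr1 g P) =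
        dt P q * gr1 g P := by
      simp only [dt]
      ring
    rw [h2, map_mul, hPq, one_mul] at h1
    exact h1

theorem nm_to (hL : Lt Λ) (h : Bas l Λ v w) (hf : f ∈ NM l Λ) : NML l (gf v w f) := by
  obtain ⟨_, Λ', hlt, hle, hf'⟩ := hf
  obtain ⟨π, hπ⟩ := unif (K := K) l
  obtain ⟨v', _, w', _, h'⟩ := bas_ex (mid_lt hL hlt.le hle) l
  set x := co v w v' with hx
  set y := co v w w' with hy
  have hv' : cb v w x = v' := cb_co h.nz v'
  have hw' : cb v w y = w' := cb_co h.nz w'
  have hIn : ∀ p, Lc l Λ' p → In l ((π : K) • co v w p) := by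
    intro p hp
    have h1 : Lc l Λ (π • p) := (linv_lc hπ p).1 (lc_mono (le_linv.2 hle) hp)
    rw [bas_lc h, co_smul'] at h1
    exact h1
  have hIx := hIn v' h'.hv
  have hIy := hIn w' h'.hw
  have hdt : dt v' w' = dt v w * dt x y := by
    rw [← dt_cb, hv', hw']
  have hDx : dt ((π : K) • x) ((π : K) • y) = (π : K) ^ 2 * dt x y := by
    rw [dt_smul_left, dt_smul_right]
    ring
  have hD1 : l.valuation K (dt ((π : K) • x) ((π : K) • y)) ≤ 1 := bs_dt hIx hIy
  -- the lattices are different at `l`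
  have hne : 1 < l.valuation K (dt x y) := by
    by_contra hn
    push Not at hn
    have hB : Bas l Λ' v w := by
      refine bas_of_val h' (lc_mono hlt.le h.hv) (lc_mono hlt.le h.hw) h.nz ?_
      rw [hdt, map_mul]
      exact mul_le_of_le_one_right' hn
    refine hlt.ne (loc_all fun l' => ?_)
    by_cases hl' : l' = l
    · subst hl'
      exact loc_of_bas h hB
    · exact mid_loc hlt.le hle hl'
  have hge : WithZero.exp (1 : ℤ) ≤ l.valuation K (dt x y) := by
    by_contra hn
    push Not at hn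
    rw [val_lt] at hn
    norm_num at hn
    exact absurd hn (not_le.2 hne)
  have hval : l.valuation K (dt x y) =
      WithZero.exp (2 : ℤ) * l.valuation K (dt ((π : K) • x) ((π : K) • y)) := by
    rw [hDx, map_mul, map_pow, hπ, ← WithZero.exp_nsmul, ← mul_assoc, ← WithZero.exp_add]
    norm_num
  rcases hD1.lt_or_eq with hD | hD
  · -- index one
    have hD2 : l.valuation K (dt x y) ≤ WithZero.exp (1 : ℤ) := by
      rw [← WithZero.exp_zero, val_lt] at hD
      rw [hval]
      refine (mul_le_mul_right hD _).trans (le_of_eq ?_)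
      rw [← WithZero.exp_add]
      norm_num
    have hDD : l.valuation K (dt v' w') ≤ l.valuation K (dt v w) * WithZero.exp (1 : ℤ) := by
      rw [hdt, map_mul]
      exact mul_le_mul_right hD2 _
    by_cases hP : Cg l 1 ((π : K) • x) 0
    · by_cases hQ : Cg l 1 ((π : K) • y) 0
      · exfalso
        have h1 : ∀ i, l.valuation K (((π : K) • x) i) ≤ WithZero.exp (-1 : ℤ) := fun i => by
          have := hP i
          simpa using this
        have h2 : ∀ i, l.valuation K (((π : K) • y) i) ≤ WithZero.exp (-1 : ℤ) := fun i => by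
          have := hQ i
          simpa using this
        have h3 : l.valuation K (dt ((π : K) • x) ((π : K) • y)) ≤ WithZero.exp (-2 : ℤ) := by
          have h4 : WithZero.exp (-2 : ℤ) = WithZero.exp (-1 : ℤ) * WithZero.exp (-1 : ℤ) := by
            rw [← WithZero.exp_add]
            norm_num
          rw [h4]
          refine (Valuation.map_sub _ _ _).trans (max_le ?_ ?_)
          · rw [map_mul]
            exact mul_le_mul' (h1 0) (h2 1)
          · rw [map_mul]
            exact mul_le_mul' (h1 1) (h2 0)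
        rw [hval] at hne
        refine absurd ((mul_le_mul_right h3 _).trans (le_of_eq ?_)) (not_le.2 hne)
        rw [← WithZero.exp_add]
        norm_num
      · obtain ⟨hB, hBv⟩ := bas_swap h'
        exact nm_core hπ h hB hlt.le hf' hIy hQ (by rw [hBv]; exact hDD)
    · exact nm_core hπ h h' hlt.le hf' hIx hP hDD
  · -- `Λ' = l⁻¹ Λ`
    left
    set P := (π : K) • x with hPdef
    set Q := (π : K) • y with hQdef
    have hD0 : dt P Q ≠ 0 := by
      intro h0
      rw [h0, map_zero] at hD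
      exact zero_ne_one hD
    have hxy0 : dt x y ≠ 0 := by
      intro h0
      rw [h0, map_zero] at hne
      exact absurd hne (not_lt.2 zero_le)
    have hπ0 : (π : K) ≠ 0 := by
      intro h0
      rw [h0, map_zero] at hπ
      exact WithZero.exp_ne_zero hπ.symm
    have hG := vl_in h' hf'
    set g := gf v w f with hg
    have hG' : gf v' w' f = gf x y g := by
      conv_lhs => rw [← hv', ← hw']
      rw [gf_gf h.nz]
    rw [hG'] at hG
    -- `pull g P Q = π (dt P Q) gf x y g`
    have h1 : pull g P Q = ((π : K) * dt P Q) • gf x y g := by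
      unfold gf
      rw [smul_smul, hDx, hPdef, hQdef, pull_smul_vec]
      have h2 : (π : K) * ((π : K) ^ 2 * dt x y) * (dt x y)⁻¹ = (π : K) ^ 3 := by
        field_simp
      rw [h2]
      funext i
      fin_cases i
      · show (π : K) ^ 3 * pull g x y 0 = (π : K) ^ 3 * pull g x y 0
        rfl
      · show (π : K) ^ 2 * (π : K) * pull g x y 1 = (π : K) ^ 3 * pull g x y 1
        ring
      · show (π : K) * (π : K) ^ 2 * pull g x y 2 = (π : K) ^ 3 * pull g x y 2
        ring
      · show (π : K) ^ 3 * pull g x y 3 = (π : K) ^ 3 * pull g x y 3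
        rfl
    -- the inverse
    have hb : ∀ e : Fin 2 → K, In l e → In l (co P Q e) := by
      intro e he i
      have hdiv : ∀ z : K, l.valuation K z ≤ 1 → l.valuation K (z / dt P Q) ≤ 1 := by
        intro z hz
        rw [map_div₀, hD, div_one]
        exact hz
      fin_cases i
      · exact hdiv _ (bs_dt he hIy)
      · exact hdiv _ (bs_dt hIx he)
    have he1 : In l (![1, 0] : Fin 2 → K) := by
      intro j
      fin_cases j <;> simp
    have he2 : In l (![0, 1] : Fin 2 → K) := by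
      intro j
      fin_cases j <;> simp
    have h2 : g = pull (pull g P Q) (co P Q ![1, 0]) (co P Q ![0, 1]) := by
      rw [pull_pull, cb_co hD0, cb_co hD0, pull_id]
    rw [h1, pull_smul_form] at h2
    have h3 : In l (pull (gf x y g) (co P Q ![1, 0]) (co P Q ![0, 1])) :=
      in_pull hG (hb _ he1) (hb _ he2)
    intro i
    rw [h2]
    show l.valuation K (((π : K) * dt P Q) * pull (gf x y g) (co P Q ![1, 0]) (co P Q ![0, 1]) i - 0) ≤
      WithZero.exp (-1 : ℤ)
    rw [sub_zero, map_mul, map_mul, hπ, hD, mul_one]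
    exact mul_le_of_le_one_right' (h3 i)

end H77.MF
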