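import Pool.Agent.H77.MF.Kr1
import Pool.Agent.H77.MF.Mu1
import Pool.Agent.H77.MF.Nm2
import Pool.Agent.H77.MF.Nm3

/-!
# MF-KR2: the discriminant of a form which is maximal at `l` is bounded (row: SX MF KR2)

`v = l.valuation K`. `v(2) = exp(-e₂)`, `v(3) = exp(-e₃)` (`char 0`: not zero), one of `e₂, e₃` is `0` (`2, 3` generate the unit ideal). `B = 2e₂ + 3e₃ + 2`. Claim: `In l f`, not `NML l f` ⟹ `v(disc f) ≥ exp(-B)`.
If `v(disc f) = 1`: clear. Otherwise `v(disc f) < 1`; take `g ∈ 𝓞⁴`, `Cg l 1 f g` (`approx`), `disc ḡ = 0` in `k = 𝓞/l`; `mult_root`: `v̄ ∈ k²`; lift to `p ∈ 𝓞²`: primitive, `v(ev f p), v(gr0 f p), v(gr1 f p) < 1`. Complete: `q`, `v(dt p q) = 1` (`compl`). `h = gf p q f = (a, b, c, d)` is `In l`, not `NML`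
(`nml_gf`), `v(disc h) = v(disc f)` (`disc_pull`, `disc_smul`: factor `dt²`), `v(a) < 1`, `v(b) < 1` (`a = ev f p/dt`, `b = (q · grad f(p))/dt`). Then `v(a) = exp(-1)`: otherwise `v(a) ≤ exp(-2)` and `(1,0)` shows `NML l h` (`ev = a`, `gr0 = 3a`, `gr1 = b`). `v(c), v(d)` are not both `< 1` (otherwise `Cg l 1 h 0`).
`disc h = b²c² - 4ac³ - 4b³d - 27a²d² + 18abcd`, `3 disc h = 4PR - Q²`, `P = b² - 3ac`, `R = c² - 3bd`, `Q = bc - 9ad` (`disc_hes`).
Case `v(c) = 1`. If `v(3) = 1`: `v(P) = exp(-1)` (`v(b²) ≤ exp(-2)`, `v(3ac) = exp(-1)`), `v(R) = 1` (`v(bd) < 1`), so `v(4PR) = exp(-(2e₂+1))`, and `Q²` is `0` or has a value with even exponent: the two values differ, so `v(disc h) = max ≥ exp(-(2e₂+1))` (`Valuation.map_add_eq_of_lt_left` etc.).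
 If `v(3) < 1` (`v(2) = 1`): `v(4ac³) = exp(-1)`, all the other terms `≤ exp(-2)`: `v(disc h) = exp(-1)`.
Case `v(c) < 1`, `v(d) = 1`. If `v(3) = 1`: `v(27a²d²) = exp(-2)`, the other terms `≤ exp(-3)`: `v(disc h) = exp(-2)`. If `v(3) < 1`, `v(2) = 1`, `e = e₃ ≥ 1`: values: `T₁ = 27a²d²`: `exp(-(3e+2))`; `T₃ = 4b³d`: `exp(-3β)`; `T₅ = 4ac³`: `exp(-(3γ+1))`; `T₄ = b²c²`: `exp(-(2β+2γ))`;
 `T₂ = 18abcd`: `exp(-(2e+1+β+γ))`, where `v(b) = exp(-β)`, `v(c) = exp(-γ)`, `β, γ ≥ 1` (if `b = 0` or `c = 0` the terms `T₂ = T₄ = 0` and the argument is simpler). `3e+2, 3β, 3γ+1` are different mod 3. `T₄` is smaller than `max(T₃, T₅)`: `β ≤ γ`: `2β+2γ ≥ 4β > 3β`; `γ < β`: `2β+2γ ≥ 4γ+2 > 3γ+1`.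
 `T₂` is smaller than `max(T₁, T₃, T₅)`: otherwise `2e+1+β+γ ≤ 3e+2`, `≤ 3β`, `≤ 3γ+1`, so `β+γ ≤ e+1`, and adding `2e+1+γ ≤ 2β`, `2e+β ≤ 2γ`: `4e+1 ≤ β+γ ≤ e+1`, contradiction to `e ≥ 1` (`omega`). So `v(disc h) = max(v T₁, v T₃, v T₅) ≥ exp(-(3e+2))`.
-/

set_option autoImplicit false

open scoped NumberField Classical
open IsDedekindDomain H38.ML H63.MA H67.SX

noncomputable section

namespace H77.MF

section val

variable {K : Type} [Field K] [NumberField K] {l : Pl K}

private theorem k2_dom {x r : K} {n : ℤ} (hx : l.valuation K x = WithZero.exp n)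
    (hr : l.valuation K r < WithZero.exp n) : l.valuation K (x + r) = WithZero.exp n := by
  rw [Valuation.map_add_eq_of_lt_left _ (by rw [hx]; exact hr), hx]

private theorem k2_five {t1 t2 t3 t4 t5 : K} {n1 n2 n3 n4 n5 : ℤ} (h1 : l.valuation K t1 = WithZero.exp n1)
    (h2 : l.valuation K t2 ≤ WithZero.exp n2) (h3 : l.valuation K t3 = WithZero.exp n3)
    (h4 : l.valuation K t4 ≤ WithZero.exp n4) (h5 : l.valuation K t5 = WithZero.exp n5)
    (h13 : n1 ≠ n3) (h15 : n1 ≠ n5) (h35 : n3 ≠ n5) (hh2 : n2 < n1 ∨ n2 < n3 ∨ n2 < n5)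
    (hh4 : n4 < n1 ∨ n4 < n3 ∨ n4 < n5) :
    WithZero.exp n1 ≤ l.valuation K (t1 + t2 + t3 + t4 + t5) := by
  have hlt : ∀ {t : K} {n m : ℤ}, l.valuation K t ≤ WithZero.exp n → n < m →
      l.valuation K t < WithZero.exp m := fun ht hnm => ht.trans_lt (WithZero.exp_lt_exp.2 hnm)
  have hc : (n3 < n1 ∧ n5 < n1) ∨ (n1 < n3 ∧ n5 < n3) ∨ (n1 < n5 ∧ n3 < n5) := by omega
  rcases hc with ⟨g1, g2⟩ | ⟨g1, g2⟩ | ⟨g1, g2⟩
  · have e : t1 + t2 + t3 + t4 + t5 = t1 + (t2 + t3 + t4 + t5) := by ring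
    rw [e, k2_dom h1 (Valuation.map_add_lt _ (Valuation.map_add_lt _ (Valuation.map_add_lt _
      (hlt h2 (by omega)) (hlt h3.le (by omega))) (hlt h4 (by omega))) (hlt h5.le (by omega)))]
  · have e : t1 + t2 + t3 + t4 + t5 = t3 + (t1 + t2 + t4 + t5) := by ring
    rw [e, k2_dom h3 (Valuation.map_add_lt _ (Valuation.map_add_lt _ (Valuation.map_add_lt _
      (hlt h1.le (by omega)) (hlt h2 (by omega))) (hlt h4 (by omega))) (hlt h5.le (by omega)))]
    exact WithZero.exp_le_exp.2 g1.le
  · have e : t1 + t2 + t3 + t4 + t5 = t5 + (t1 + t2 + t3 + t4) := by ring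
    rw [e, k2_dom h5 (Valuation.map_add_lt _ (Valuation.map_add_lt _ (Valuation.map_add_lt _
      (hlt h1.le (by omega)) (hlt h2 (by omega))) (hlt h3.le (by omega))) (hlt h4 (by omega)))]
    exact WithZero.exp_le_exp.2 g1.le

private theorem k2_ne {x y : K} (h : l.valuation K x ≠ l.valuation K y) :
    l.valuation K x ≤ l.valuation K (x + y) := by
  rw [Valuation.map_add_of_distinct_val _ h]
  exact le_max_left _ _

private theorem k2_nat {x : K} (h0 : x ≠ 0) (h1 : l.valuation K x ≤ 1) :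
    ∃ n : ℕ, l.valuation K x = WithZero.exp (-(n : ℤ)) := by
  obtain ⟨m, hm⟩ := val_exp (l := l) h0
  rw [hm, ← WithZero.exp_zero, WithZero.exp_le_exp] at h1
  refine ⟨(-m).toNat, ?_⟩
  rw [hm]
  congr 1
  omega

private theorem k2_lt_one {x : K} (h : l.valuation K x < 1) : l.valuation K x ≤ WithZero.exp (-1 : ℤ) := by
  rw [← WithZero.exp_zero] at h
  have := val_lt.1 h
  simpa using this

private theorem k2_mul1 {x y : K} (hx : l.valuation K x ≤ 1) (hy : l.valuation K y < 1) :
    l.valuation K (x * y) < 1 := by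
  rw [map_mul]
  exact (mul_le_of_le_one_left' hx).trans_lt hy

private theorem k2_pow (n : ℤ) (k : ℕ) : (WithZero.exp n) ^ k = WithZero.exp (k * n) := by
  rw [← WithZero.exp_nsmul, nsmul_eq_mul]

private theorem k2_main (l : Pl K) (e2 e3 : ℕ) (h2 : l.valuation K (2 : K) = WithZero.exp (-(e2 : ℤ)))
    (h3 : l.valuation K (3 : K) = WithZero.exp (-(e3 : ℤ))) {a b c d : K}
    (ha : l.valuation K a = WithZero.exp (-1 : ℤ)) (hb : l.valuation K b ≤ WithZero.exp (-1 : ℤ))
    (hc : l.valuation K c ≤ 1) (hd : l.valuation K d ≤ 1)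
    (hcd : ¬ (l.valuation K c < 1 ∧ l.valuation K d < 1)) :
    WithZero.exp (-((2 * e2 + 3 * e3 + 2 : ℕ) : ℤ)) ≤ l.valuation K (b ^ 2 * c ^ 2 - 4 * a * c ^ 3 -
      4 * b ^ 3 * d - 27 * a ^ 2 * d ^ 2 + 18 * a * b * c * d) := by
  have h4 : l.valuation K (4 : K) = WithZero.exp (-(2 * e2 : ℤ)) := by
    have : (4 : K) = 2 ^ 2 := by norm_num
    rw [this, map_pow, h2, k2_pow]
    congr 1
    push_cast
    ring
  have h9 : l.valuation K (9 : K) = WithZero.exp (-(2 * e3 : ℤ)) := by
    have : (9 : K) = 3 ^ 2 := by norm_num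
    rw [this, map_pow, h3, k2_pow]
    congr 1
    push_cast
    ring
  have h27 : l.valuation K (27 : K) = WithZero.exp (-(3 * e3 : ℤ)) := by
    have : (27 : K) = 3 ^ 3 := by norm_num
    rw [this, map_pow, h3, k2_pow]
    congr 1
    push_cast
    ring
  have h18 : l.valuation K (18 : K) = WithZero.exp (-(e2 + 2 * e3 : ℤ)) := by
    have : (18 : K) = 2 * 3 ^ 2 := by norm_num
    rw [this, map_mul, map_pow, h2, h3, k2_pow, ← WithZero.exp_add]
    congr 1
    push_cast
    ring
  have h23 : e2 = 0 ∨ e3 = 0 := by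
    by_contra hcon
    push Not at hcon
    have e : (1 : K) = 3 + (-2) := by norm_num
    have g1 : l.valuation K (3 + (-2) : K) < 1 := by
      refine Valuation.map_add_lt _ ?_ ?_
      · rw [h3, ← WithZero.exp_zero, WithZero.exp_lt_exp]
        omega
      · rw [Valuation.map_neg, h2, ← WithZero.exp_zero, WithZero.exp_lt_exp]
        omega
    rw [← e, map_one] at g1
    exact lt_irrefl _ g1
  have h1 : (1 : WithZero (Multiplicative ℤ)) = WithZero.exp 0 := WithZero.exp_zero.symm
  rw [h1] at hc hd hcd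
  -- products of bounds
  have mul2 : ∀ {x y : K} {n m : ℤ}, l.valuation K x ≤ WithZero.exp n → l.valuation K y ≤ WithZero.exp m →
      l.valuation K (x * y) ≤ WithZero.exp (n + m) := by
    intro x y n m hx hy
    rw [map_mul, WithZero.exp_add]
    exact mul_le_mul' hx hy
  have powb : ∀ {x : K} {n : ℤ} (k : ℕ), l.valuation K x ≤ WithZero.exp n →
      l.valuation K (x ^ k) ≤ WithZero.exp (k * n) := by
    intro x n k hx
    rw [map_pow, ← k2_pow]
    exact pow_le_pow_left' hx k
  have small : ∀ {x : K} {n m : ℤ}, l.valuation K x ≤ WithZero.exp n → n < m →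
      l.valuation K x < WithZero.exp m := fun ht hnm => ht.trans_lt (WithZero.exp_lt_exp.2 hnm)
  by_cases hc1 : l.valuation K c = WithZero.exp 0
  · -- case A
    rcases h23 with he | he
    · -- v(2) = 1: the term 4 a c ^ 3 dominates
      subst he
      have t5 : l.valuation K (-(4 * a * c ^ 3)) = WithZero.exp (-1 : ℤ) := by
        rw [Valuation.map_neg, map_mul, map_mul, map_pow, h4, ha, hc1, k2_pow, ← WithZero.exp_add,
          ← WithZero.exp_add]
        norm_num
      have hrest : l.valuation K (b ^ 2 * c ^ 2 + -(4 * b ^ 3 * d) + -(27 * a ^ 2 * d ^ 2) +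
          18 * a * b * c * d) < WithZero.exp (-1 : ℤ) := by
        refine Valuation.map_add_lt _ (Valuation.map_add_lt _ (Valuation.map_add_lt _ ?_ ?_) ?_) ?_
        · exact small (mul2 (powb 2 hb) (powb 2 hc)) (by norm_num)
        · rw [Valuation.map_neg]
          exact small (mul2 (mul2 h4.le (powb 3 hb)) hd) (by norm_num)
        · rw [Valuation.map_neg]
          exact small (mul2 (mul2 h27.le (powb 2 ha.le)) (powb 2 hd)) (by push_cast; omega)
        · exact small (mul2 (mul2 (mul2 (mul2 h18.le ha.le) hb) hc) hd) (by push_cast; omega)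
      have e : b ^ 2 * c ^ 2 - 4 * a * c ^ 3 - 4 * b ^ 3 * d - 27 * a ^ 2 * d ^ 2 + 18 * a * b * c * d =
          -(4 * a * c ^ 3) + (b ^ 2 * c ^ 2 + -(4 * b ^ 3 * d) + -(27 * a ^ 2 * d ^ 2) +
          18 * a * b * c * d) := by ring
      rw [e, k2_dom t5 hrest, WithZero.exp_le_exp]
      push_cast
      omega
    · -- v(3) = 1
      subst he
      have h3' : l.valuation K (3 : K) = WithZero.exp 0 := by simpa using h3
      have hP : l.valuation K (-(3 * a * c) + b ^ 2) = WithZero.exp (-1 : ℤ) := by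
        refine k2_dom ?_ (small (powb 2 hb) (by norm_num))
        rw [Valuation.map_neg, map_mul, map_mul, h3', ha, hc1, ← WithZero.exp_add, ← WithZero.exp_add]
        norm_num
      have hR : l.valuation K (c ^ 2 + -(3 * b * d)) = WithZero.exp 0 := by
        refine k2_dom ?_ ?_
        · rw [map_pow, hc1, k2_pow]
          norm_num
        · rw [Valuation.map_neg]
          exact small (mul2 (mul2 h3'.le hb) hd) (by norm_num)
      have hPR : l.valuation K (4 * (-(3 * a * c) + b ^ 2) * (c ^ 2 + -(3 * b * d))) =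
          WithZero.exp (-(2 * e2 + 1 : ℤ)) := by
        rw [map_mul, map_mul, h4, hP, hR, ← WithZero.exp_add, ← WithZero.exp_add]
        congr 1
        ring
      have hne : l.valuation K (4 * (-(3 * a * c) + b ^ 2) * (c ^ 2 + -(3 * b * d))) ≠
          l.valuation K (-(b * c - 9 * a * d) ^ 2) := by
        rw [hPR, Valuation.map_neg, map_pow]
        intro h0
        have hQ : b * c - 9 * a * d ≠ 0 := by
          intro hQ
          rw [hQ, map_zero, zero_pow two_ne_zero] at h0
          exact WithZero.exp_ne_zero h0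
        obtain ⟨n, hn⟩ := val_exp (l := l) hQ
        rw [hn, k2_pow, WithZero.exp_inj] at h0
        push_cast at h0
        omega
      have h5 := k2_ne hne
      have e : 4 * (-(3 * a * c) + b ^ 2) * (c ^ 2 + -(3 * b * d)) + -(b * c - 9 * a * d) ^ 2 =
          3 * (b ^ 2 * c ^ 2 - 4 * a * c ^ 3 - 4 * b ^ 3 * d - 27 * a ^ 2 * d ^ 2 + 18 * a * b * c * d) := by
        ring
      rw [hPR, e, map_mul, h3', WithZero.exp_zero, one_mul] at h5
      refine le_trans ?_ h5
      rw [WithZero.exp_le_exp]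
      push_cast
      omega
  · -- case B
    have hc2 : l.valuation K c ≤ WithZero.exp (-1 : ℤ) := by
      have := val_lt.1 (lt_of_le_of_ne hc hc1)
      simpa using this
    have hd1 : l.valuation K d = WithZero.exp 0 := by
      by_contra hcon
      exact hcd ⟨lt_of_le_of_ne hc hc1, lt_of_le_of_ne hd hcon⟩
    have t1 : l.valuation K (-(27 * a ^ 2 * d ^ 2)) = WithZero.exp (-(3 * e3 + 2 : ℤ)) := by
      rw [Valuation.map_neg, map_mul, map_mul, map_pow, map_pow, h27, ha, hd1, k2_pow, k2_pow,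
        ← WithZero.exp_add, ← WithZero.exp_add]
      congr 1
      push_cast
      ring
    rcases h23.symm with he | he
    · subst he
      have hrest : l.valuation K (b ^ 2 * c ^ 2 + -(4 * b ^ 3 * d) + -(4 * a * c ^ 3) +
          18 * a * b * c * d) < WithZero.exp (-(3 * (0 : ℕ) + 2 : ℤ)) := by
        refine Valuation.map_add_lt _ (Valuation.map_add_lt _ (Valuation.map_add_lt _ ?_ ?_) ?_) ?_
        · exact small (mul2 (powb 2 hb) (powb 2 hc2)) (by norm_num)
        · rw [Valuation.map_neg]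
          exact small (mul2 (mul2 h4.le (powb 3 hb)) hd) (by push_cast; omega)
        · rw [Valuation.map_neg]
          exact small (mul2 (mul2 h4.le ha.le) (powb 3 hc2)) (by push_cast; omega)
        · exact small (mul2 (mul2 (mul2 (mul2 h18.le ha.le) hb) hc2) hd) (by push_cast; omega)
      have e : b ^ 2 * c ^ 2 - 4 * a * c ^ 3 - 4 * b ^ 3 * d - 27 * a ^ 2 * d ^ 2 + 18 * a * b * c * d =
          -(27 * a ^ 2 * d ^ 2) + (b ^ 2 * c ^ 2 + -(4 * b ^ 3 * d) + -(4 * a * c ^ 3) +
          18 * a * b * c * d) := by ring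
      rw [e, k2_dom t1 hrest, WithZero.exp_le_exp]
      push_cast
      omega
    · subst he
      refine le_trans (WithZero.exp_le_exp.2 (show -((2 * 0 + 3 * e3 + 2 : ℕ) : ℤ) ≤ -(3 * e3 + 2 : ℤ) by
        push_cast; omega)) ?_
      by_cases hb0 : b = 0
      · have hne : l.valuation K (-(27 * a ^ 2 * d ^ 2)) ≠ l.valuation K (-(4 * a * c ^ 3)) := by
          rw [t1, Valuation.map_neg, map_mul, map_mul, map_pow, h4, ha]
          intro h0
          have hc0 : c ≠ 0 := by
            intro hc0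
            rw [hc0, map_zero, zero_pow three_ne_zero, mul_zero] at h0
            exact WithZero.exp_ne_zero h0
          obtain ⟨n, hn⟩ := val_exp (l := l) hc0
          rw [hn, k2_pow, ← WithZero.exp_add, ← WithZero.exp_add, WithZero.exp_inj] at h0
          push_cast at h0
          omega
        have h5 := k2_ne hne
        rw [t1] at h5
        have e : b ^ 2 * c ^ 2 - 4 * a * c ^ 3 - 4 * b ^ 3 * d - 27 * a ^ 2 * d ^ 2 + 18 * a * b * c * d =
            -(27 * a ^ 2 * d ^ 2) + -(4 * a * c ^ 3) := by rw [hb0]; ring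
        rw [e]
        exact h5
      · by_cases hc0 : c = 0
        · have hne : l.valuation K (-(27 * a ^ 2 * d ^ 2)) ≠ l.valuation K (-(4 * b ^ 3 * d)) := by
            rw [t1, Valuation.map_neg, map_mul, map_mul, map_pow, h4, hd1]
            intro h0
            obtain ⟨n, hn⟩ := val_exp (l := l) hb0
            rw [hn, k2_pow, ← WithZero.exp_add, ← WithZero.exp_add, WithZero.exp_inj] at h0
            push_cast at h0
            omega
          have h5 := k2_ne hne
          rw [t1] at h5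
          have e : b ^ 2 * c ^ 2 - 4 * a * c ^ 3 - 4 * b ^ 3 * d - 27 * a ^ 2 * d ^ 2 + 18 * a * b * c * d =
              -(27 * a ^ 2 * d ^ 2) + -(4 * b ^ 3 * d) := by rw [hc0]; ring
          rw [e]
          exact h5
        · obtain ⟨β, hβ⟩ := val_exp (l := l) hb0
          obtain ⟨γ, hγ⟩ := val_exp (l := l) hc0
          rw [hβ, WithZero.exp_le_exp] at hb
          rw [hγ, WithZero.exp_le_exp] at hc2
          by_cases he0 : e3 = 0
          · subst he0
            have e : b ^ 2 * c ^ 2 - 4 * a * c ^ 3 - 4 * b ^ 3 * d - 27 * a ^ 2 * d ^ 2 + 18 * a * b * c * d =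
                -(27 * a ^ 2 * d ^ 2) + (b ^ 2 * c ^ 2 + -(4 * b ^ 3 * d) + -(4 * a * c ^ 3) +
                18 * a * b * c * d) := by ring
            rw [e, k2_dom t1]
            refine Valuation.map_add_lt _ (Valuation.map_add_lt _ (Valuation.map_add_lt _ ?_ ?_) ?_) ?_
            · exact small (mul2 (powb 2 hβ.le) (powb 2 hγ.le)) (by push_cast; omega)
            · rw [Valuation.map_neg]
              exact small (mul2 (mul2 h4.le (powb 3 hβ.le)) hd) (by push_cast; omega)
            · rw [Valuation.map_neg]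
              exact small (mul2 (mul2 h4.le ha.le) (powb 3 hγ.le)) (by push_cast; omega)
            · exact small (mul2 (mul2 (mul2 (mul2 h18.le ha.le) hβ.le) hγ.le) hd) (by push_cast; omega)
          have t2 := mul2 (mul2 (mul2 (mul2 h18.le ha.le) hβ.le) hγ.le) hd
          have t4 := mul2 (powb 2 hβ.le) (powb 2 hγ.le)
          have t3 : l.valuation K (-(4 * b ^ 3 * d)) = WithZero.exp (3 * β) := by
            rw [Valuation.map_neg, map_mul, map_mul, map_pow, h4, hβ, hd1, k2_pow, ← WithZero.exp_add,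
              ← WithZero.exp_add]
            congr 1
            push_cast
            ring
          have t5 : l.valuation K (-(4 * a * c ^ 3)) = WithZero.exp (3 * γ - 1) := by
            rw [Valuation.map_neg, map_mul, map_mul, map_pow, h4, hγ, ha, k2_pow, ← WithZero.exp_add,
              ← WithZero.exp_add]
            congr 1
            push_cast
            ring
          have h5 := k2_five t1 t2 t3 t4 t5 (by omega) (by omega) (by omega) (by push_cast; omega)
            (by push_cast; omega)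
          refine h5.trans (le_of_eq ?_)
          congr 1
          ring

end val

theorem disc_bd {K : Type} [Field K] [NumberField K] (l : Pl K) : ∃ B : ℕ, ∀ f : Fin 4 → K,
    In l f → ¬ NML l f → WithZero.exp (-(B : ℤ)) ≤ l.valuation K (disc f) := by
  have hv2 : l.valuation K (2 : K) ≤ 1 := by
    have h0 : ((2 : 𝓞 K) : K) = 2 := map_ofNat _ 2
    rw [← h0]
    exact val_int l _
  have hv3 : l.valuation K (3 : K) ≤ 1 := by
    have h0 : ((3 : 𝓞 K) : K) = 3 := map_ofNat _ 3
    rw [← h0]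
    exact val_int l _
  obtain ⟨e2, h2⟩ := k2_nat (l := l) (x := (2 : K)) two_ne_zero hv2
  obtain ⟨e3, h3⟩ := k2_nat (l := l) (x := (3 : K)) three_ne_zero hv3
  refine ⟨2 * e2 + 3 * e3 + 2, fun f hf hN => ?_⟩
  by_cases hdf : l.valuation K (disc f) < 1
  swap
  · refine le_trans ?_ (not_lt.1 hdf)
    rw [← WithZero.exp_zero, WithZero.exp_le_exp]
    omega
  -- a common denominator
  obtain ⟨s, g, hs, hg⟩ : ∃ (s : 𝓞 K) (g : Fin 4 → 𝓞 K), s ∉ l.asIdeal ∧ ∀ i, (g i : K) = (s : K) * f i := by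
    choose t a ht hta using fun i => val_frac.1 (hf i)
    refine ⟨∏ i, t i, fun i => (∏ j ∈ Finset.univ.erase i, t j) * a i, ?_, fun i => ?_⟩
    · intro h
      obtain ⟨i, -, hi⟩ := (Ideal.IsPrime.prod_mem_iff (hp := l.isPrime)).1 h
      exact ht i hi
    · rw [← Finset.mul_prod_erase Finset.univ t (Finset.mem_univ i)]
      change (((∏ j ∈ Finset.univ.erase i, t j) : 𝓞 K) : K) * (a i : K) =
        ((t i : K) * (((∏ j ∈ Finset.univ.erase i, t j) : 𝓞 K) : K)) * f i
      rw [← hta i]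
      ring
  have hs1 : l.valuation K (s : K) = 1 := val_notmem.1 hs
  have hgf : (fun i => (g i : K)) = (s : K) • f := by
    funext i
    exact hg i
  have hmk : ∀ x : 𝓞 K, Ideal.Quotient.mk l.asIdeal x = 0 ↔ l.valuation K (x : K) < 1 := by
    intro x
    rw [Ideal.Quotient.eq_zero_iff_mem, val_mem]
  have hdg : disc (red l g) = 0 := by
    have e1 : disc (red l g) = Ideal.Quotient.mk l.asIdeal (disc g) := by
      have h4 : (Ideal.Quotient.mk l.asIdeal) 4 = 4 := map_ofNat _ 4
      have h27 : (Ideal.Quotient.mk l.asIdeal) 27 = 27 := map_ofNat _ 27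
      have h18 : (Ideal.Quotient.mk l.asIdeal) 18 = 18 := map_ofNat _ 18
      simp [disc, red, h4, h27, h18]
    rw [e1, hmk]
    have e2' : ((disc g : 𝓞 K) : K) = disc (fun i => (g i : K)) := by
      have h4 : ((4 : 𝓞 K) : K) = 4 := map_ofNat _ 4
      have h27 : ((27 : 𝓞 K) : K) = 27 := map_ofNat _ 27
      have h18 : ((18 : 𝓞 K) : K) = 18 := map_ofNat _ 18
      simp [disc, h4, h27, h18]
    rw [e2', hgf, disc_smul, map_mul, map_pow, hs1, one_pow, one_mul]
    exact hdf
  obtain ⟨vb, hvb, hev, hg0, hg1⟩ := mult_root hdg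
  choose p' hp' using fun i => Ideal.Quotient.mk_surjective (vb i)
  obtain ⟨p, hp⟩ : ∃ p : Fin 2 → K, p = fun i => (p' i : K) := ⟨_, rfl⟩
  have hpI : In l p := by
    intro i
    rw [hp]
    exact val_int l _
  have hpC : ¬ Cg l 1 p 0 := by
    intro h
    apply hvb
    funext i
    have h1 := h i
    rw [Pi.zero_apply, sub_zero] at h1
    rw [← hp' i, Pi.zero_apply, hmk]
    rw [hp] at h1
    refine h1.trans_lt ?_
    rw [← WithZero.exp_zero, WithZero.exp_lt_exp]
    norm_num
  have cast3 : ((3 : 𝓞 K) : K) = 3 := map_ofNat _ 3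
  have cast2 : ((2 : 𝓞 K) : K) = 2 := map_ofNat _ 2
  have mk3 : (Ideal.Quotient.mk l.asIdeal) 3 = 3 := map_ofNat _ 3
  have mk2 : (Ideal.Quotient.mk l.asIdeal) 2 = 2 := map_ofNat _ 2
  have hevf : l.valuation K (ev f p) < 1 := by
    have e1 : Ideal.Quotient.mk l.asIdeal (ev g p') = 0 := by
      rw [← hev]
      simp [ev, red, hp']
    rw [hmk] at e1
    have e2' : ((ev g p' : 𝓞 K) : K) = (s : K) * ev f p := by
      simp only [ev, map_add, map_mul, map_pow, hg, hp]
      ring
    rw [e2', map_mul, hs1, one_mul] at e1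
    exact e1
  have hgr0 : l.valuation K (gr0 f p) < 1 := by
    have e1 : Ideal.Quotient.mk l.asIdeal (gr0 g p') = 0 := by
      rw [← hg0]
      simp [gr0, red, hp', mk3, mk2]
    rw [hmk] at e1
    have e2' : ((gr0 g p' : 𝓞 K) : K) = (s : K) * gr0 f p := by
      simp only [gr0, map_add, map_mul, map_pow, hg, hp, cast3, cast2]
      ring
    rw [e2', map_mul, hs1, one_mul] at e1
    exact e1
  have hgr1 : l.valuation K (gr1 f p) < 1 := by
    have e1 : Ideal.Quotient.mk l.asIdeal (gr1 g p') = 0 := by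
      rw [← hg1]
      simp [gr1, red, hp', mk3, mk2]
    rw [hmk] at e1
    have e2' : ((gr1 g p' : 𝓞 K) : K) = (s : K) * gr1 f p := by
      simp only [gr1, map_add, map_mul, map_pow, hg, hp, cast3, cast2]
      ring
    rw [e2', map_mul, hs1, one_mul] at e1
    exact e1
  obtain ⟨q, hq, hpq⟩ := compl hpI hpC
  obtain ⟨h, hh⟩ : ∃ h : Fin 4 → K, h = gf p q f := ⟨_, rfl⟩
  have hhI : In l h := by
    rw [hh]
    exact in_gf hpI hq hpq hf
  have hhN : ¬ NML l h := by
    rw [hh, nml_gf hpI hq hpq hf]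
    exact hN
  have hhd : l.valuation K (disc h) = l.valuation K (disc f) := by
    rw [hh, gf, disc_smul, disc_pull, map_mul, map_mul, map_pow, map_pow, map_inv₀, hpq]
    simp
  have hh0 : l.valuation K (h 0) < 1 := by
    have e : h 0 = (dt p q)⁻¹ * ev f p := by
      rw [hh]
      rfl
    rw [e, map_mul, map_inv₀, hpq, inv_one, one_mul]
    exact hevf
  have hh1 : l.valuation K (h 1) < 1 := by
    have e : h 1 = (dt p q)⁻¹ * (q 0 * gr0 f p + q 1 * gr1 f p) := by
      rw [hh]
      rfl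
    rw [e, map_mul, map_inv₀, hpq, inv_one, one_mul]
    refine Valuation.map_add_lt _ ?_ ?_
    · exact k2_mul1 (hq 0) hgr0
    · exact k2_mul1 (hq 1) hgr1
  have hh0' := k2_lt_one hh0
  have hh1' := k2_lt_one hh1
  have ha : l.valuation K (h 0) = WithZero.exp (-1 : ℤ) := by
    by_contra hne
    have h5 := val_lt.1 (lt_of_le_of_ne hh0' hne)
    apply hhN
    right
    refine ⟨![1, 0], ?_, ?_, ?_, ?_, ?_⟩
    · intro i
      fin_cases i
      · change l.valuation K 1 ≤ 1
        rw [map_one]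
      · change l.valuation K 0 ≤ 1
        rw [map_zero]
        exact zero_le
    · intro h6
      have h7 := h6 0
      change l.valuation K (1 - 0) ≤ _ at h7
      rw [sub_zero, map_one, ← WithZero.exp_zero, WithZero.exp_le_exp] at h7
      norm_num at h7
    · have e : ev h ![1, 0] = h 0 := by simp [ev]
      rw [e]
      norm_num at h5
      exact h5
    · have e : gr0 h ![1, 0] = 3 * h 0 := by simp [gr0]
      rw [e]
      exact k2_mul1 hv3 hh0
    · have e : gr1 h ![1, 0] = h 1 := by simp [gr1]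
      rw [e]
      exact hh1
  have hcd : ¬ (l.valuation K (h 2) < 1 ∧ l.valuation K (h 3) < 1) := by
    rintro ⟨h5, h6⟩
    apply hhN
    left
    intro i
    rw [Pi.zero_apply, sub_zero]
    have h7 : l.valuation K (h i) < 1 := by
      fin_cases i
      · exact hh0
      · exact hh1
      · exact h5
      · exact h6
    have h8 := k2_lt_one h7
    simpa using h8
  rw [← hhd]
  exact k2_main l e2 e3 h2 h3 ha hh1' (hhI 2) (hhI 3) hcd

end H77.MF
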