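import Pool.Agent.H77.MF.Va

/-!
# MF-KR3: divisibility by `π^m` locally at a prime of `𝓞 QBar` (row: SX MF KR3)

`P` a prime of `𝓞 QBar` with `P ∩ 𝓞 K = v`, `π ∈ 𝓞 K` a uniformizer at `v`. `Nr P π m x`: there are `s, y ∈ 𝓞 QBar`, `s ∉ P`, `s x = π^m y`.
* `nr_add`: `s s' (x + x') = π^m (s' y + s y')`. `nr_mul`: `Nr m x`, `Nr m' x'` ⟹ `Nr (m + m') (x x')`. `nr_int`: `x` integral ⟹ `Nr 0 x`. `nr_mono`.
* `nr_K`: `x ∈ K`: `Nr P π m x ↔ v(x) ≤ exp(-m)`. `←`: `x/π^m` has `v ≤ 1`, `val_frac`: `s x = π^m a`, `s ∈ 𝓞 K \ v` is not in `P` (`under`). `→`: let `z = x/π^m`, `s z = y ∈ 𝓞 QBar`; if `v(z) > 1` then `v(1/z) < 1`, `1/z = a/t`, `t ∉ v`, `a ∈ v`, `s t = y a ∈ P`, but `s, t ∉ P`, `P` prime: contradiction.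
* `nr_dec`: `σ ∈ dec P`: `σ` fixes `π`, `s ∉ P → σ s ∉ P` (`σ • s`, the action on `𝓞 QBar`; coercion `((σ • s : 𝓞 QBar) : QBar) = σ s`).
* `nr_prod`: `Nr (3m) (x y z) → Nr m x ∨ Nr m y ∨ Nr m z`. Let `E = K(x, y, z) ⊂ QBar`, a number field (finite over `K`: all elements are algebraic), `w = P ∩ 𝓞 E` (`P.comap`), a nonzero prime (it lies over `v`): a `Pl E`. The statement `nr_E`: for `x ∈ E`: `Nr P π m x ↔ w(x) ≤ w(π)^m` (the same proof as
 `nr_K`, with `𝓞 E → 𝓞 QBar` instead of `𝓞 K → 𝓞 QBar`; `w.valuation E`). Then `w(x) w(y) w(z) ≤ w(π)^(3m)` implies one of them is `≤ w(π)^m` (linear order, products of the strict inequalities). To have `nr_K` and `nr_E` by one proof: state it for any field `E` with `Algebra E QBar`, `NumberField E`, a prime `w : Pl E` with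
 `P.comap (algebraMap (𝓞 E) (𝓞 QBar)) = w.asIdeal` and `ϖ ∈ 𝓞 E`, and `s x = ϖ^m y`.
-/

set_option autoImplicit false

open scoped NumberField Classical
open IsDedekindDomain H38.ML H63.MA H67.SX

noncomputable section

namespace H77.MF

variable {K : IntermediateField ℚ QBar} [NumberField K]

/-- `x ∈ π^m 𝓞` locally at `P` -/
def Nr (P : Ideal (𝓞 QBar)) (π : 𝓞 K) (m : ℕ) (x : QBar) : Prop :=
  ∃ s y : 𝓞 QBar, s ∉ P ∧ (s : QBar) * x = (algebraMap K QBar π) ^ m * y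

variable {P : Ideal (𝓞 QBar)} {π : 𝓞 K} {m m' : ℕ} {x y z : QBar} {v : Pl K}

private theorem kr_coe {E : Type} [Field E] [Algebra E QBar] (a : 𝓞 E) :
    ((algebraMap (𝓞 E) (𝓞 QBar) a : 𝓞 QBar) : QBar) = algebraMap E QBar (a : E) := rfl

private theorem kr_inj {E : Type} [Field E] [Algebra E QBar] {a : E} (ha : a ≠ 0) :
    algebraMap E QBar a ≠ 0 := by
  rw [Ne, FaithfulSMul.algebraMap_eq_zero_iff]
  exact ha

private theorem kr_mul (hP : P.IsPrime) {s t : 𝓞 QBar} (hs : s ∉ P) (ht : t ∉ P) : s * t ∉ P := by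
  intro h
  rcases hP.mem_or_mem h with h | h
  · exact hs h
  · exact ht h

theorem nr_add (hP : P.IsPrime) (h : Nr P π m x) (h' : Nr P π m y) : Nr P π m (x + y) := by
  obtain ⟨s, a, hs, ha⟩ := h
  obtain ⟨t, b, ht, hb⟩ := h'
  refine ⟨s * t, t * a + s * b, kr_mul hP hs ht, ?_⟩
  have h1 : ((s * t : 𝓞 QBar) : QBar) = (s : QBar) * t := rfl
  have h2 : ((t * a + s * b : 𝓞 QBar) : QBar) = (t : QBar) * a + (s : QBar) * b := rfl
  rw [h1, h2]
  linear_combination (t : QBar) * ha + (s : QBar) * hb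

theorem nr_sub (hP : P.IsPrime) (h : Nr P π m x) (h' : Nr P π m y) : Nr P π m (x - y) := by
  obtain ⟨s, a, hs, ha⟩ := h
  obtain ⟨t, b, ht, hb⟩ := h'
  refine ⟨s * t, t * a - s * b, kr_mul hP hs ht, ?_⟩
  have h1 : ((s * t : 𝓞 QBar) : QBar) = (s : QBar) * t := rfl
  have h2 : ((t * a - s * b : 𝓞 QBar) : QBar) = (t : QBar) * a - (s : QBar) * b := rfl
  rw [h1, h2]
  linear_combination (t : QBar) * ha - (s : QBar) * hb

theorem nr_mul (hP : P.IsPrime) (h : Nr P π m x) (h' : Nr P π m' y) :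
    Nr P π (m + m') (x * y) := by
  obtain ⟨s, a, hs, ha⟩ := h
  obtain ⟨t, b, ht, hb⟩ := h'
  refine ⟨s * t, a * b, kr_mul hP hs ht, ?_⟩
  have h1 : ((s * t : 𝓞 QBar) : QBar) = (s : QBar) * t := rfl
  have h2 : ((a * b : 𝓞 QBar) : QBar) = (a : QBar) * b := rfl
  rw [h1, h2, pow_add]
  linear_combination ((t : QBar) * y) * ha + (algebraMap K QBar π ^ m * (a : QBar)) * hb

theorem nr_int (hP : P.IsPrime) (h : IsIntegral ℤ x) : Nr P π 0 x := by
  refine ⟨1, ⟨x, h⟩, fun h1 => hP.ne_top ((Ideal.eq_top_iff_one _).2 h1), ?_⟩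
  have h1 : ((1 : 𝓞 QBar) : QBar) = 1 := rfl
  rw [h1, pow_zero]
  rfl

theorem nr_mono (h : m' ≤ m) (hx : Nr P π m x) : Nr P π m' x := by
  obtain ⟨s, a, hs, ha⟩ := hx
  refine ⟨s, algebraMap (𝓞 K) (𝓞 QBar) π ^ (m - m') * a, hs, ?_⟩
  have h1 : ((algebraMap (𝓞 K) (𝓞 QBar) π ^ (m - m') * a : 𝓞 QBar) : QBar) =
      algebraMap K QBar π ^ (m - m') * a := rfl
  rw [ha, h1, ← mul_assoc, ← pow_add]
  congr 2
  omega

private theorem nr_E {E : Type} [Field E] [NumberField E] [Algebra E QBar] {w : Pl E} (hP : P.IsPrime)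
    (hw : P.comap (algebraMap (𝓞 E) (𝓞 QBar)) = w.asIdeal) {ϖ : 𝓞 E} (hϖ : (ϖ : E) ≠ 0) (m : ℕ) (x : E) :
    (∃ s y : 𝓞 QBar, s ∉ P ∧ (s : QBar) * algebraMap E QBar x = (algebraMap E QBar ϖ) ^ m * y) ↔
      w.valuation E x ≤ w.valuation E (ϖ : E) ^ m := by
  have hc : ∀ a : 𝓞 E, algebraMap (𝓞 E) (𝓞 QBar) a ∈ P ↔ a ∈ w.asIdeal := by
    intro a
    rw [← hw, Ideal.mem_comap]
  have hϖm : (ϖ : E) ^ m ≠ 0 := pow_ne_zero _ hϖ
  have hval : w.valuation E ((ϖ : E) ^ m) ≠ 0 := (Valuation.ne_zero_iff _).2 hϖm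
  have hle : w.valuation E x ≤ w.valuation E (ϖ : E) ^ m ↔ w.valuation E (x / (ϖ : E) ^ m) ≤ 1 := by
    rw [← map_pow, map_div₀, div_le_one₀ (zero_lt_iff.2 hval)]
  rw [hle]
  constructor
  · rintro ⟨s, y, hs, h⟩
    by_contra hcon
    push Not at hcon
    obtain ⟨z, hz⟩ : ∃ z : E, z = x / (ϖ : E) ^ m := ⟨_, rfl⟩
    rw [← hz] at hcon
    have hz0 : z ≠ 0 := by
      rintro h0
      rw [h0, map_zero] at hcon
      exact absurd hcon (not_lt.2 zero_le)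
    have hzi : w.valuation E z⁻¹ < 1 := by
      rw [map_inv₀]
      exact inv_lt_one_of_one_lt₀ hcon
    obtain ⟨t, a, ht, hta⟩ := val_frac.1 hzi.le
    have ha : a ∈ w.asIdeal := by
      rw [val_mem, ← hta, map_mul, val_notmem.1 ht, one_mul]
      exact hzi
    have h2 : (s : QBar) * algebraMap E QBar z = y := by
      have h3 : algebraMap E QBar ϖ ^ m ≠ 0 := pow_ne_zero _ (kr_inj hϖ)
      rw [hz, map_div₀, map_pow]
      field_simp
      linear_combination h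
    have h4 : (t : E) = a * z := by
      rw [← hta]
      field_simp
    have h5 : s * algebraMap (𝓞 E) (𝓞 QBar) t = y * algebraMap (𝓞 E) (𝓞 QBar) a := by
      refine NumberField.RingOfIntegers.ext ?_
      change (s : QBar) * algebraMap E QBar (t : E) = (y : QBar) * algebraMap E QBar (a : E)
      rw [h4, map_mul, ← h2]
      ring
    have h6 : s * algebraMap (𝓞 E) (𝓞 QBar) t ∈ P := by
      rw [h5]
      exact P.mul_mem_left _ ((hc a).2 ha)
    exact kr_mul hP hs (fun h7 => ht ((hc t).1 h7)) h6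
  · intro h
    obtain ⟨t, a, ht, hta⟩ := val_frac.1 h
    refine ⟨algebraMap (𝓞 E) (𝓞 QBar) t, algebraMap (𝓞 E) (𝓞 QBar) a, fun h7 => ht ((hc t).1 h7), ?_⟩
    rw [kr_coe, kr_coe, ← hta, ← map_pow, ← map_mul, ← map_mul]
    congr 1
    field_simp

theorem nr_K (hP : P.IsPrime) (hv : P.under (𝓞 K) = v.asIdeal)
    (hπ : v.valuation K (π : K) = WithZero.exp (-1 : ℤ)) (x : K) :
    Nr P π m (algebraMap K QBar x) ↔ v.valuation K x ≤ WithZero.exp (-(m : ℤ)) := by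
  have h0 : (π : K) ≠ 0 := by
    rintro h0
    rw [h0, map_zero] at hπ
    exact WithZero.exp_ne_zero hπ.symm
  have h1 := nr_E (P := P) (w := v) hP hv h0 m x
  rw [hπ] at h1
  have h2 : (WithZero.exp (-1 : ℤ)) ^ m = WithZero.exp (-(m : ℤ)) := by
    rw [← WithZero.exp_nsmul]
    congr 1
    simp
  rw [h2] at h1
  exact h1

theorem nr_dec {σ : Gal(QBar/K)} (hσ : σ ∈ dec (K := K) P) (h : Nr P π m x) :
    Nr P π m (σ x) := by
  obtain ⟨s, a, hs, ha⟩ := h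
  refine ⟨σ • s, σ • a, fun h1 => hs ((hσ s).1 h1), ?_⟩
  have h1 : ((σ • s : 𝓞 QBar) : QBar) = σ (s : QBar) := rfl
  have h2 : ((σ • a : 𝓞 QBar) : QBar) = σ (a : QBar) := rfl
  have h3 := congrArg σ ha
  rw [map_mul, map_mul, map_pow, AlgEquiv.commutes] at h3
  rw [h1, h2, h3]

theorem nr_prod (hP : P.IsPrime) (hv : P.under (𝓞 K) = v.asIdeal)
    (hπ : v.valuation K (π : K) = WithZero.exp (-1 : ℤ)) (h : Nr P π (3 * m) (x * y * z)) :
    Nr P π m x ∨ Nr P π m y ∨ Nr P π m z := by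
  have h0 : (π : K) ≠ 0 := by
    rintro h0
    rw [h0, map_zero] at hπ
    exact WithZero.exp_ne_zero hπ.symm
  obtain ⟨E, hE⟩ : ∃ E : IntermediateField K QBar, E = IntermediateField.adjoin K {x, y, z} := ⟨_, rfl⟩
  have hfd : FiniteDimensional K E := by
    rw [hE]
    exact IntermediateField.finiteDimensional_adjoin fun t _ => by
      have h1 : IsAlgebraic ℚ t := Algebra.IsAlgebraic.isAlgebraic t
      exact (h1.isIntegral).tower_top
  have hnf : NumberField E := NumberField.of_module_finite K E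
  have hx : x ∈ E := by
    rw [hE]
    exact IntermediateField.subset_adjoin K _ (by simp)
  have hy : y ∈ E := by
    rw [hE]
    exact IntermediateField.subset_adjoin K _ (by simp)
  have hz : z ∈ E := by
    rw [hE]
    exact IntermediateField.subset_adjoin K _ (by simp)
  have hprime : (P.comap (algebraMap (𝓞 E) (𝓞 QBar))).IsPrime := Ideal.comap_isPrime _ _
  have hbot : P.comap (algebraMap (𝓞 E) (𝓞 QBar)) ≠ ⊥ := by
    intro hb
    have h1 : π ∈ v.asIdeal := by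
      rw [val_mem, hπ, ← WithZero.exp_zero, WithZero.exp_lt_exp]
      norm_num
    rw [← hv] at h1
    have h2 : algebraMap (𝓞 K) (𝓞 E) π ∈ P.comap (algebraMap (𝓞 E) (𝓞 QBar)) := by
      rw [Ideal.mem_comap]
      exact h1
    rw [hb, Ideal.mem_bot] at h2
    have h3 : algebraMap K E (π : K) = 0 := congrArg (fun t : 𝓞 E => (t : E)) h2
    rw [FaithfulSMul.algebraMap_eq_zero_iff] at h3
    exact h0 h3
  obtain ⟨w, hw⟩ : ∃ w : Pl E, w.asIdeal = P.comap (algebraMap (𝓞 E) (𝓞 QBar)) := ⟨⟨_, hprime, hbot⟩, rfl⟩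
  obtain ⟨ϖ, hϖ⟩ : ∃ ϖ : 𝓞 E, ϖ = algebraMap (𝓞 K) (𝓞 E) π := ⟨_, rfl⟩
  have hϖE : (ϖ : E) = algebraMap K E (π : K) := by rw [hϖ]; rfl
  have hϖ0 : (ϖ : E) ≠ 0 := by
    rw [hϖE, Ne, FaithfulSMul.algebraMap_eq_zero_iff]
    exact h0
  have hϖQ : algebraMap E QBar (ϖ : E) = algebraMap K QBar (π : K) := by
    rw [hϖE]
    rfl
  have key : ∀ (n : ℕ) (t : E), Nr P π n (t : QBar) ↔ w.valuation E t ≤ w.valuation E (ϖ : E) ^ n := by
    intro n t
    rw [← nr_E hP hw.symm hϖ0 n t, hϖQ]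
    rfl
  obtain ⟨c, hc⟩ : ∃ c, c = w.valuation E (ϖ : E) ^ m := ⟨_, rfl⟩
  have h1 := (key (3 * m) (⟨x, hx⟩ * ⟨y, hy⟩ * ⟨z, hz⟩)).1 h
  rw [map_mul, map_mul, mul_comm 3 m, pow_mul, ← hc] at h1
  have h2 := key m ⟨x, hx⟩
  have h3 := key m ⟨y, hy⟩
  have h4 := key m ⟨z, hz⟩
  rw [← hc] at h2 h3 h4
  by_contra hcon
  push Not at hcon
  obtain ⟨g1, g2, g3⟩ := hcon
  have g1' : c < w.valuation E ⟨x, hx⟩ := not_le.1 fun h5 => g1 (h2.2 h5)
  have g2' : c < w.valuation E ⟨y, hy⟩ := not_le.1 fun h5 => g2 (h3.2 h5)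
  have g3' : c < w.valuation E ⟨z, hz⟩ := not_le.1 fun h5 => g3 (h4.2 h5)
  have g4 := mul_lt_mul'' (mul_lt_mul'' g1' g2' zero_le zero_le) g3' zero_le zero_le
  exact absurd h1 (not_le.2 (lt_of_eq_of_lt (pow_three' c) g4))

end H77.MF
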