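import Pool.Agent.H77.MF.FrC

/-!
# MF-KR4: the characteristic polynomial of `x₀ w₀ + x₁ w₁` (row: SX MF KR4)

`f = (a,b,c,d)`, `x ∈ K²`: `c1 f x = -b x₀ + c x₁`, `c2 f x = ac x₀² + (3ad - bc) x₀x₁ + bd x₁²`, `c3 f x = -a²d x₀³ + a(c² - 2bd) x₀²x₁ - d(b² - 2ac) x₀x₁² + a d² x₁³`.
* `lin_cub`: `z = lin w x` satisfies `z³ - c1 z² + c2 z - c3 = 0`: expand with the table (`h00, h01, h11`): `z² = A₀ + A₁w₀ + A₂w₁` with `A₁ = -b x₀² - d x₁²`, `A₂ = a x₀² + c x₁²`, `A₀ = -ac x₀² - 2ad x₀x₁ - bd x₁²`, `z³ = z² z` the same way; `linear_combination (..) * h00 + ..`.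
* `lin_prod`: for three different embeddings `τ_i` into `Ω`: `T³ - c1 T² + c2 T - c3 = ∏ (T - τ_i z)` for all `T ∈ Ω`. By `vieta`, with `α_i = τ_i w₀`, `β_i = (α_i² + bα_i + ac)/a`, `b = -Σα`, `ac = Σα_iα_j`, `a²d = -α₀α₁α₂`: an identity of rational functions (`field_simp; ring`). Alternatively: both sides are
 polynomials in `T` and `x₀, x₁`; if `x ≠ 0`, the three `τ_i z` are different (`z ∉ K`) and roots of the left side.
 A cheap way: `β_i = -ad/α_i`.. only if `α_i ≠ 0`; better use `a β_i = -α_jα_k·(..)`: from `b = -Σα`: `α_i² + bα_i = -α_i(α_j + α_k)`, `ac = Σ`: `a β_i = α_jα_k`. So `β_i = α_jα_k / a` (`i, j, k` different): very simple.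
-/

set_option autoImplicit false

noncomputable section

namespace H77.MF

section ring

variable {R : Type} [CommRing R]

def c1 (f : Fin 4 → R) (x : Fin 2 → R) : R := -f 1 * x 0 + f 2 * x 1

def c2 (f : Fin 4 → R) (x : Fin 2 → R) : R :=
  f 0 * f 2 * x 0 ^ 2 + (3 * f 0 * f 3 - f 1 * f 2) * x 0 * x 1 + f 1 * f 3 * x 1 ^ 2

def c3 (f : Fin 4 → R) (x : Fin 2 → R) : R :=
  -f 0 ^ 2 * f 3 * x 0 ^ 3 + f 0 * (f 2 ^ 2 - 2 * f 1 * f 3) * x 0 ^ 2 * x 1 -
    f 3 * (f 1 ^ 2 - 2 * f 0 * f 2) * x 0 * x 1 ^ 2 + f 0 * f 3 ^ 2 * x 1 ^ 3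

end ring

variable {K F : Type} [Field K] [CharZero K] [Field F] [Algebra K F]

theorem lin_cub {f : Fin 4 → K} {w : Fin 2 → F} (h : Lv f w) (x : Fin 2 → K) :
    lin w x ^ 3 - algebraMap K F (c1 f x) * lin w x ^ 2 + algebraMap K F (c2 f x) * lin w x -
      algebraMap K F (c3 f x) = 0 := by
  have h00 := h.h00
  have h01 := h.h01
  have h11 := h.h11
  simp only [map_neg, map_mul] at h00 h01 h11
  simp only [lin, c1, c2, c3, map_add, map_sub, map_mul, map_pow, map_neg, map_ofNat]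
  generalize algebraMap K F (f 0) = a at *
  generalize algebraMap K F (f 1) = b at *
  generalize algebraMap K F (f 2) = c at *
  generalize algebraMap K F (f 3) = d at *
  generalize algebraMap K F (x 0) = s at *
  generalize algebraMap K F (x 1) = t at *
  linear_combination
    (s ^ 2 * (s * w 0 + t * w 1) + s * (-b * s ^ 2 - d * t ^ 2) - (-b * s + c * t) * s ^ 2) * h00 +
    (2 * s * t * (s * w 0 + t * w 1) + s * (a * s ^ 2 + c * t ^ 2) + t * (-b * s ^ 2 - d * t ^ 2) -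
      2 * (-b * s + c * t) * s * t) * h01 +
    (t ^ 2 * (s * w 0 + t * w 1) + t * (a * s ^ 2 + c * t ^ 2) - (-b * s + c * t) * t ^ 2) * h11

theorem beta_eq (hd : Module.finrank K F = 3) {Ω : Type} [Field Ω] [Algebra K Ω] {f : Fin 4 → K}
    {w : Fin 2 → F} (h : Lv f w) {τ : Fin 3 → (F →ₐ[K] Ω)} (hτ : Function.Injective τ) :
    algebraMap K Ω (f 0) * τ 0 (w 1) = τ 1 (w 0) * τ 2 (w 0) ∧
    algebraMap K Ω (f 0) * τ 1 (w 1) = τ 0 (w 0) * τ 2 (w 0) ∧
    algebraMap K Ω (f 0) * τ 2 (w 1) = τ 0 (w 0) * τ 1 (w 0) := by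
  obtain ⟨v1, v2, v3⟩ := vieta hd h hτ
  rw [map_mul] at v2
  have h1 : ∀ i, algebraMap K Ω (f 0) * τ i (w 1) = τ i (w 0) * τ i (w 0) +
      algebraMap K Ω (f 0) * algebraMap K Ω (f 2) + algebraMap K Ω (f 1) * τ i (w 0) := by
    intro i
    have h2 := congrArg (τ i) h.h00
    simp only [map_neg, map_mul, map_add, map_sub, AlgHom.commutes] at h2
    linear_combination -h2
  refine ⟨?_, ?_, ?_⟩
  · rw [h1]
    linear_combination -v2 + τ 0 (w 0) * v1
  · rw [h1]
    linear_combination -v2 + τ 1 (w 0) * v1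
  · rw [h1]
    linear_combination -v2 + τ 2 (w 0) * v1

theorem lin_prod (hd : Module.finrank K F = 3) {Ω : Type} [Field Ω] [Algebra K Ω] {f : Fin 4 → K}
    {w : Fin 2 → F} (h : Lv f w) {τ : Fin 3 → (F →ₐ[K] Ω)} (hτ : Function.Injective τ)
    (x : Fin 2 → K) (T : Ω) :
    T ^ 3 - algebraMap K Ω (c1 f x) * T ^ 2 + algebraMap K Ω (c2 f x) * T -
      algebraMap K Ω (c3 f x) =
      (T - τ 0 (lin w x)) * (T - τ 1 (lin w x)) * (T - τ 2 (lin w x)) := by
  obtain ⟨v1, v2, v3⟩ := vieta hd h hτ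
  obtain ⟨b0, b1, b2⟩ := beta_eq hd h hτ
  have ha : algebraMap K Ω (f 0) ≠ 0 := by
    rw [Ne, FaithfulSMul.algebraMap_eq_zero_iff]
    exact lv_a h
  rw [map_mul] at v2
  rw [map_mul, map_pow] at v3
  simp only [lin, c1, c2, c3, map_add, map_sub, map_mul, map_pow, map_neg, map_ofNat,
    AlgHom.commutes]
  generalize algebraMap K Ω (f 0) = a at *
  generalize algebraMap K Ω (f 1) = b at *
  generalize algebraMap K Ω (f 2) = c at *
  generalize algebraMap K Ω (f 3) = d at *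
  generalize algebraMap K Ω (x 0) = s at *
  generalize algebraMap K Ω (x 1) = t at *
  generalize τ 0 (w 0) = A0 at *
  generalize τ 1 (w 0) = A1 at *
  generalize τ 2 (w 0) = A2 at *
  generalize τ 0 (w 1) = B0 at *
  generalize τ 1 (w 1) = B1 at *
  generalize τ 2 (w 1) = B2 at *
  have e1 : b = -(A0 + A1 + A2) := by linear_combination v1
  have e2 : c = (A0 * A1 + A0 * A2 + A1 * A2) / a := by
    field_simp
    linear_combination -v2
  have e3 : d = -(A0 * A1 * A2) / a ^ 2 := by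
    field_simp
    linear_combination v3
  have e4 : B0 = A1 * A2 / a := by
    field_simp
    linear_combination b0
  have e5 : B1 = A0 * A2 / a := by
    field_simp
    linear_combination b1
  have e6 : B2 = A0 * A1 / a := by
    field_simp
    linear_combination b2
  rw [e1, e2, e3, e4, e5, e6]
  field_simp
  ring

end H77.MF
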