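import Pool.Agent.H77.MF.Vm

/-!
# MF-LCT: the number of the lattices `Λ ⊇ 𝓞²` of index at most `N` is at most `N^A` (row: SX MF LCT)

Proof. Let `d = [K : ℚ]`, `Λ ⊇ 𝓞²`, `ix Λ = n`, `1 ≤ n ≤ N` (`ix_pos`). `n Λ ≤ 𝓞²` (`ix_smul`), so `𝓞² ≤ Λ ≤ n⁻¹ 𝓞²`. `n Λ` is a subgroup of `𝓞²`, which is free of rank `2d` over `ℤ` (`RingOfIntegers.basis`, `RingOfIntegers.rank`); a subgroup of a free group of rank `2d` is free of rank at most `2d`
(`Submodule.nonempty_basis_of_pid` / `Submodule.basisOfPid`), so `Λ` is generated over `ℤ` by `2d` elements `x_1, …, x_2d` (some may be `0`).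
So `Λ = 𝓞² + Σ ℤ x_i` is determined by `n` and the classes of `y_i = n x_i ∈ 𝓞²` modulo `n 𝓞²`; `𝓞² / n𝓞²` has `n^(2d)` elements (`Nat.card (𝓞 ⧸ (n)) = n^d`: `Ideal.absNorm_span_singleton`, `Algebra.norm_algebraMap`; or: `𝓞² ≅ ℤ^(2d)`, `ZMod n`-vectors). Total: `∑_(n ≤ N) n^(4 d²) ≤ N^(4 d² + 1)`.
In Lean: the map `(n, y) ↦ 𝓞² + span {y_i / n}`, `n ∈ {1..N}`, `y : Fin (2d) → (fundamental representatives of 𝓞² mod n)` is onto the set (take the `𝓞`-span, this does not change `Λ`); so the set is finite and `ncard ≤ ∑_n card(..)`. Representatives: integer vectors with coordinates in `{0..n-1}` with respect to a `ℤ`-basis of `𝓞`: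
`Fin (2d) → Fin 2 → Fin d → Fin n`, embedded in `Fin N`: at most `N · (N^(2d))^(2d)` data. A cruder bound is welcome: `A` is only a constant depending on `K`.
-/

set_option autoImplicit false

open scoped NumberField Classical
open IsDedekindDomain H38.ML H63.MA H67.SX

noncomputable section

namespace H77.MF

variable {K : Type} [Field K] [NumberField K]

private def lct_h (K : Type) [Field K] [NumberField K] : (Fin 2 → 𝓞 K) →+ (Fin 2 → K) where
  toFun y := fun i => (y i : K)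
  map_zero' := rfl
  map_add' _ _ := rfl

private theorem lct_oo (y : Fin 2 → 𝓞 K) : lct_h K y ∈ OO K 2 := fun i => ⟨y i, rfl⟩

/-- the vectors `y` of integers with `y / n` in `Λ` -/
private def lct_L (Λ : Submodule (𝓞 K) (Fin 2 → K)) (n : ℕ) : Submodule ℤ (Fin 2 → 𝓞 K) where
  carrier := {y | (n : K)⁻¹ • lct_h K y ∈ Λ}
  add_mem' := by
    intro y z hy hz
    show (n : K)⁻¹ • lct_h K (y + z) ∈ Λ
    rw [map_add, smul_add]
    exact Λ.add_mem hy hz
  zero_mem' := by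
    show (n : K)⁻¹ • lct_h K 0 ∈ Λ
    rw [map_zero, smul_zero]
    exact Λ.zero_mem
  smul_mem' := by
    intro a y hy
    show (n : K)⁻¹ • lct_h K (a • y) ∈ Λ
    rw [map_zsmul, smul_comm]
    exact zsmul_mem hy a

private theorem lct_gen {ι : Type} [Fintype ι] (b : Module.Basis ι ℤ (Fin 2 → 𝓞 K))
    (L : Submodule ℤ (Fin 2 → 𝓞 K)) : ∃ y : Fin (Fintype.card ι) → (Fin 2 → 𝓞 K),
      Submodule.span ℤ (Set.range y) = L := by
  obtain ⟨m, ⟨bL⟩⟩ := Submodule.nonempty_basis_of_pid b L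
  have hm : m ≤ Fintype.card ι := by
    have h1 := Submodule.finrank_le L
    rw [Module.finrank_eq_card_basis bL, Module.finrank_eq_card_basis b, Fintype.card_fin] at h1
    exact h1
  refine ⟨fun i => if h : (i : ℕ) < m then (bL ⟨i, h⟩ : Fin 2 → 𝓞 K) else 0, ?_⟩
  apply le_antisymm
  · rw [Submodule.span_le]
    rintro _ ⟨i, rfl⟩
    show (if h : (i : ℕ) < m then (bL ⟨i, h⟩ : Fin 2 → 𝓞 K) else 0) ∈ L
    split_ifs with h
    · exact (bL ⟨i, h⟩).2
    · exact L.zero_mem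
  · have h1 : L = Submodule.map L.subtype (Submodule.span ℤ (Set.range bL)) := by
      rw [bL.span_eq, Submodule.map_top, Submodule.range_subtype]
    refine h1.le.trans ?_
    rw [Submodule.map_span, Submodule.span_le]
    rintro _ ⟨_, ⟨j, rfl⟩, rfl⟩
    refine Submodule.subset_span ⟨⟨j, j.2.trans_le hm⟩, ?_⟩
    show (if h : (j : ℕ) < m then (bL ⟨j, h⟩ : Fin 2 → 𝓞 K) else 0) = (bL j : Fin 2 → 𝓞 K)
    rw [dif_pos j.2]

/-- the lattice with given data -/
private def lct_F {ι : Type} [Fintype ι] (b : Module.Basis ι ℤ (Fin 2 → 𝓞 K)) (N : ℕ)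
    (x : Fin N × (Fin (Fintype.card ι) → ι → Fin N)) : Submodule (𝓞 K) (Fin 2 → K) :=
  OO K 2 ⊔ Submodule.span (𝓞 K) (Set.range fun i =>
    (((x.1 : ℕ) + 1 : ℕ) : K)⁻¹ • lct_h K (∑ j, ((x.2 i j : ℕ) : ℤ) • b j))

private theorem lct_mem {ι : Type} [Fintype ι] (b : Module.Basis ι ℤ (Fin 2 → 𝓞 K)) {N : ℕ}
    {Λ : Submodule (𝓞 K) (Fin 2 → K)} (hL : Lt Λ) (h : OO K 2 ≤ Λ) (hN : ix Λ ≤ N) :
    ∃ x, lct_F b N x = Λ := by
  obtain ⟨n, hn⟩ : ∃ n, n = ix Λ := ⟨_, rfl⟩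
  have hn1 : 1 ≤ n := by
    rw [hn]
    exact ix_pos hL h
  rw [← hn] at hN
  have hnK : (n : K) ≠ 0 := by exact_mod_cast (show n ≠ 0 by omega)
  have hnZ : (n : ℤ) ≠ 0 := by omega
  obtain ⟨y, hy⟩ := lct_gen b (lct_L Λ n)
  have hyL : ∀ i, (n : K)⁻¹ • lct_h K (y i) ∈ Λ := by
    intro i
    have h1 : y i ∈ lct_L Λ n := by
      rw [← hy]
      exact Submodule.subset_span ⟨i, rfl⟩
    exact h1
  have hc : ∀ i j, ((b.repr (y i) j) % (n : ℤ)).toNat < N := by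
    intro i j
    have h1 := Int.emod_nonneg (b.repr (y i) j) hnZ
    have h2 := Int.emod_lt_of_pos (b.repr (y i) j) (show (0 : ℤ) < n by omega)
    omega
  have hdec : ∀ i, y i = (∑ j, ((((b.repr (y i) j) % (n : ℤ)).toNat : ℕ) : ℤ) • b j) +
      (n : ℤ) • ∑ j, ((b.repr (y i) j) / (n : ℤ)) • b j := by
    intro i
    rw [Finset.smul_sum, ← Finset.sum_add_distrib]
    conv_lhs => rw [← b.sum_repr (y i)]
    refine Finset.sum_congr rfl fun j _ => ?_
    rw [smul_smul, ← add_smul, Int.toNat_of_nonneg (Int.emod_nonneg _ hnZ), Int.emod_add_mul_ediv]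
  have hk : ∀ i, (n : K)⁻¹ • lct_h K (y i) =
      (n : K)⁻¹ • lct_h K (∑ j, ((((b.repr (y i) j) % (n : ℤ)).toNat : ℕ) : ℤ) • b j) +
      lct_h K (∑ j, ((b.repr (y i) j) / (n : ℤ)) • b j) := by
    intro i
    conv_lhs => rw [hdec i]
    rw [map_add, smul_add, map_zsmul]
    congr 1
    have h1 : ∀ p : Fin 2 → K, (n : K)⁻¹ • ((n : ℤ) • p) = p := by
      intro p
      rw [← Int.cast_smul_eq_zsmul K (n : ℤ) p, Int.cast_natCast, smul_smul, inv_mul_cancel₀ hnK, one_smul]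
    exact h1 _
  refine ⟨(⟨n - 1, by omega⟩, fun i j => ⟨_, hc i j⟩), ?_⟩
  have hn' : ((n - 1 : ℕ) + 1 : ℕ) = n := by omega
  unfold lct_F
  simp only [hn']
  apply le_antisymm
  · refine sup_le h (Submodule.span_le.2 ?_)
    rintro _ ⟨i, rfl⟩
    have h1 := Λ.sub_mem (hyL i) (h (lct_oo (∑ j, ((b.repr (y i) j) / (n : ℤ)) • b j)))
    rw [hk i, add_sub_cancel_right] at h1
    exact h1
  · intro p hp
    have h1 : (n : K) • p ∈ OO K 2 := by
      have h2 := ix_smul hp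
      rw [← hn] at h2
      have h3 : (n : 𝓞 K) • p = (n : K) • p := by
        rw [← algebraMap_smul K (n : 𝓞 K) p, map_natCast]
      rwa [h3] at h2
    choose z hz using h1
    have h2 : (n : K)⁻¹ • lct_h K z = p := by
      have h3 : lct_h K z = (n : K) • p := funext hz
      rw [h3, smul_smul, inv_mul_cancel₀ hnK, one_smul]
    have h3 : z ∈ lct_L Λ n := by
      show (n : K)⁻¹ • lct_h K z ∈ Λ
      rw [h2]
      exact hp
    rw [← hy] at h3
    rw [← h2]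
    clear h2 hz
    induction h3 using Submodule.span_induction with
    | mem x hx =>
      obtain ⟨i, rfl⟩ := hx
      rw [hk i]
      refine Submodule.add_mem _ ?_ ?_
      · exact Submodule.mem_sup_right (Submodule.subset_span ⟨i, rfl⟩)
      · exact Submodule.mem_sup_left (lct_oo _)
    | zero =>
      rw [map_zero, smul_zero]
      exact Submodule.zero_mem _
    | add x y _ _ hx hy =>
      rw [map_add, smul_add]
      exact Submodule.add_mem _ hx hy
    | smul a x _ hx =>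
      rw [map_zsmul, smul_comm]
      exact zsmul_mem hx a

theorem lat_count (K : Type) [Field K] [NumberField K] : ∃ A : ℕ, ∀ N : ℕ, 1 ≤ N →
    {Λ : Submodule (𝓞 K) (Fin 2 → K) | Lt Λ ∧ OO K 2 ≤ Λ ∧ ix Λ ≤ N}.Finite ∧
      {Λ : Submodule (𝓞 K) (Fin 2 → K) | Lt Λ ∧ OO K 2 ≤ Λ ∧ ix Λ ≤ N}.ncard ≤ N ^ A := by
  obtain ⟨ι, hι, ⟨b⟩⟩ : ∃ (ι : Type) (_ : Fintype ι), Nonempty (Module.Basis ι ℤ (Fin 2 → 𝓞 K)) :=
    ⟨_, inferInstance, ⟨Module.Free.chooseBasis ℤ (Fin 2 → 𝓞 K)⟩⟩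
  refine ⟨Fintype.card ι * Fintype.card ι + 1, fun N _ => ?_⟩
  have hsub : {Λ : Submodule (𝓞 K) (Fin 2 → K) | Lt Λ ∧ OO K 2 ≤ Λ ∧ ix Λ ≤ N} ⊆
      Set.range (lct_F b N) := by
    rintro Λ ⟨h1, h2, h3⟩
    exact lct_mem b h1 h2 h3
  refine ⟨(Set.finite_range _).subset hsub, (Set.ncard_le_ncard hsub (Set.finite_range _)).trans ?_⟩
  rw [← Set.image_univ]
  refine (Set.ncard_image_le Set.finite_univ).trans (le_of_eq ?_)
  rw [Set.ncard_univ, Nat.card_eq_fintype_card, Fintype.card_prod, Fintype.card_fun, Fintype.card_fun,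
    Fintype.card_fin, Fintype.card_fin, ← pow_mul, pow_succ, mul_comm]

end H77.MF
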