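import Pool.Agent.H77.MF.FrC

/-!
# MF-RC: a form without zero has exactly three frames (row: SX MF RC)

`f = (a, b, c, d)` without zero in `K²`, `K ⊂ QBar`. `a = ev f (1,0) ≠ 0`. `p = X³ + b X² + ac X + a² d` has no root in `K` (a root `x` gives `ev f (x/a, 1) = p(x)/a² = 0`), so it is irreducible (degree 3:
`Polynomial.Monic.irreducible_iff_roots_eq_zero_of_degree_le_three`), separable (`char 0`), with exactly 3 different roots in `QBar` (`Polynomial.card_rootSet_eq_natDegree`, `IsAlgClosed.splits`).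
The map `x = ⟨c, w⟩ ↦ (w 0 : QBar)` is a bijection of `{x | Lv f x.2}` onto the roots: it is a root by `lv_cub`. Injective: `c.F = K(w 0)` (`K(w 0) ≤ c.F`, degree 3 because the minimal polynomial is `p`; equality of
intermediate fields by `IntermediateField.eq_of_le_of_finrank_eq`), and `w 1 = (w₀² + b w₀ + ac)/a`. Surjective: `α` a root, `c.F = K(α) = K⟮α⟯` (degree 3: `IntermediateField.adjoin.finrank`), `w = (α, (α² + bα + ac)/a)`:
`w₀w₁ = (α³ + bα² + acα)/a = -ad`; `w₁² = w₁(α² + bα + ac)/a = (-adα - abd + ac w₁)/a = -bd - dα + c w₁`; `α ∉ K` because `p` has no root in `K`.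
`recov`: `ncard` of the set = number of roots = 3 (`Set.ncard_congr`). Isomorphism: for `x, y` take the `K`-isomorphism `K(α) ≃ K(α')` with `α ↦ α'` (`minpoly` equal: `IntermediateField.adjoinRootEquivAdjoin` or `IntermediateField.algHomAdjoinIntegralEquiv`,
or: an embedding `x.1.F → QBar` with `α ↦ α'` exists, its range is `K(α') = y.1.F`), and `w 1 ↦ w' 1` by the formula. `recov_cu`: `Lv f w₀` on a non-Galois field: `f` has no zero by `lv_ev`; by `recov` all the three frames live on fields isomorphic to `c₀.F`,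
so not Galois (`IsGalois.of_algEquiv`), and `c ↦ toCb c` identifies the sets (`Set.ncard_congr`).
`dependent pairs`: the elements of sigma types `(c : Cb K) × (Fin 2 → c.F)`: to prove `⟨c, w⟩ = ⟨c', w'⟩`: `c = c'` from `c.F = c'.F` (structure eta), `subst`, then `w = w'` by `Subtype.ext`.
-/

set_option autoImplicit false

open scoped NumberField Classical
open IsDedekindDomain H38.ML H63.MA H67.SX

noncomputable section

namespace H77.MF

variable {K : IntermediateField ℚ QBar} [NumberField K]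

open Polynomial IntermediateField in
/-- the cubic polynomial of the first basis element -/
private def rcp (f : Fin 4 → K) : Polynomial K :=
  X ^ 3 + C (f 1) * X ^ 2 + C (f 0 * f 2) * X + C (f 0 ^ 2 * f 3)

open Polynomial in
private theorem rcp_deg (f : Fin 4 → K) : (rcp f).natDegree = 3 := by
  unfold rcp
  compute_degree!

open Polynomial in
private theorem rcp_monic (f : Fin 4 → K) : (rcp f).Monic := by
  unfold rcp
  monicity!

open Polynomial in
private theorem rcp_aeval (f : Fin 4 → K) {A : Type} [CommRing A] [Algebra K A] (z : A) :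
    aeval z (rcp f) = z ^ 3 + algebraMap K A (f 1) * z ^ 2 + algebraMap K A (f 0 * f 2) * z +
      algebraMap K A (f 0 ^ 2 * f 3) := by
  unfold rcp
  simp only [map_add, map_mul, map_pow, aeval_X, aeval_C]

private theorem nz_a {f : Fin 4 → K} (hf : NZ f) : f 0 ≠ 0 := by
  have h1 := hf ![1, 0] (by
    intro h
    have := congrFun h 0
    exact one_ne_zero this)
  intro h0
  apply h1
  simp [ev, h0]

open Polynomial in
private theorem rcp_irr {f : Fin 4 → K} (hf : NZ f) : Irreducible (rcp f) := by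
  have ha := nz_a hf
  rw [(rcp_monic f).irreducible_iff_roots_eq_zero_of_degree_le_three (by rw [rcp_deg]; norm_num)
    (by rw [rcp_deg])]
  rw [Multiset.eq_zero_iff_forall_notMem]
  intro x hx
  rw [mem_roots (rcp_monic f).ne_zero, IsRoot.def] at hx
  have h1 : aeval x (rcp f) = 0 := by
    rw [← hx]
    exact (coe_aeval_eq_eval x ▸ rfl)
  rw [rcp_aeval] at h1
  simp only [Algebra.algebraMap_self, RingHom.id_apply] at h1
  refine hf ![x / f 0, 1] ?_ ?_
  · intro h
    have := congrFun h 1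
    exact one_ne_zero this
  · simp only [ev, Matrix.cons_val_zero, Matrix.cons_val_one]
    field_simp
    linear_combination h1

/-- the field generated by a root -/
private theorem rc_min {f : Fin 4 → K} (hf : NZ f) {α : QBar}
    (hα : Polynomial.aeval α (rcp f) = 0) : minpoly K α = rcp f :=
  (minpoly.eq_of_irreducible_of_monic (rcp_irr hf) hα (rcp_monic f)).symm

private theorem rc_int {f : Fin 4 → K} {α : QBar}
    (hα : Polynomial.aeval α (rcp f) = 0) : IsIntegral K α :=
  ⟨rcp f, rcp_monic f, hα⟩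

open IntermediateField in
private theorem rc_fin {f : Fin 4 → K} (hf : NZ f) {α : QBar}
    (hα : Polynomial.aeval α (rcp f) = 0) : Module.finrank K K⟮α⟯ = 3 := by
  rw [adjoin.finrank (rc_int hα), rc_min hf hα, rcp_deg]

private theorem rc_root {f : Fin 4 → K} {x : Fr K} (h : Lv f x.2) :
    Polynomial.aeval ((x.2 0 : x.1.F) : QBar) (rcp f) = 0 := by
  have h1 : Polynomial.aeval (x.2 0) (rcp f) = 0 := by
    rw [rcp_aeval]
    exact (lv_cub h).1
  have h2 := congrArg (algebraMap x.1.F QBar) h1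
  rw [← Polynomial.aeval_algebraMap_apply, map_zero] at h2
  exact h2

open IntermediateField in
private theorem rc_field {f : Fin 4 → K} (hf : NZ f) {x : Fr K} (h : Lv f x.2) :
    K⟮((x.2 0 : x.1.F) : QBar)⟯ = x.1.F := by
  refine IntermediateField.eq_of_le_of_finrank_eq ?_ ?_
  · rw [adjoin_simple_le_iff]
    exact (x.2 0).2
  · rw [rc_fin hf (rc_root h), x.1.deg]

/-- the second element of the frame -/
private theorem rc_w1 {F : Type} [Field F] [Algebra K F] {f : Fin 4 → K} {w : Fin 2 → F}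
    (h : Lv f w) : algebraMap K F (f 0) * w 1 =
      w 0 ^ 2 + algebraMap K F (f 1) * w 0 + algebraMap K F (f 0 * f 2) := by
  have h1 := h.h00
  rw [map_neg] at h1
  linear_combination -h1

private theorem rc_ext {f : Fin 4 → K} (hf : NZ f) {x y : Fr K} (hx : Lv f x.2) (hy : Lv f y.2)
    (h : ((x.2 0 : x.1.F) : QBar) = ((y.2 0 : y.1.F) : QBar)) : x = y := by
  have ha := nz_a hf
  obtain ⟨⟨F, hd⟩, w⟩ := x
  obtain ⟨⟨F', hd'⟩, w'⟩ := y
  have e1 := rc_field hf hx
  have e2 := rc_field hf hy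
  simp only at e1 e2 h hx hy
  have e3 : F = F' := by
    rw [← e1, ← e2, h]
  subst e3
  have e4 : w 0 = w' 0 := Subtype.ext h
  have e5 : w 1 = w' 1 := by
    have h1 := rc_w1 hx
    have h2 := rc_w1 hy
    rw [e4, ← h2] at h1
    have h3 : algebraMap K F (f 0) ≠ 0 := by
      intro h4
      exact ha ((map_eq_zero _).1 h4)
    exact mul_left_cancel₀ h3 h1
  have e6 : w = w' := by
    funext i
    fin_cases i
    · exact e4
    · exact e5
  rw [e6]

open IntermediateField in
private theorem rc_surj {f : Fin 4 → K} (hf : NZ f) {α : QBar}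
    (hα : Polynomial.aeval α (rcp f) = 0) :
    ∃ x : Fr K, Lv f x.2 ∧ ((x.2 0 : x.1.F) : QBar) = α := by
  have ha := nz_a hf
  obtain ⟨z, hz⟩ : ∃ z : K⟮α⟯, z = AdjoinSimple.gen K α := ⟨_, rfl⟩
  have hzα : ((z : K⟮α⟯) : QBar) = α := by
    rw [hz]
    exact AdjoinSimple.coe_gen K α
  have hz0 : z ^ 3 + algebraMap K K⟮α⟯ (f 1) * z ^ 2 + algebraMap K K⟮α⟯ (f 0 * f 2) * z +
      algebraMap K K⟮α⟯ (f 0 ^ 2 * f 3) = 0 := by
    rw [← rcp_aeval]
    apply (algebraMap K⟮α⟯ QBar).injective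
    rw [← Polynomial.aeval_algebraMap_apply, map_zero]
    have e : algebraMap K⟮α⟯ QBar z = α := hzα
    rw [e]
    exact hα
  have haz : algebraMap K K⟮α⟯ (f 0) ≠ 0 := by
    intro h4
    exact ha ((map_eq_zero _).1 h4)
  simp only [map_mul, map_pow] at hz0
  refine ⟨⟨⟨K⟮α⟯, rc_fin hf hα⟩, ![z, (z ^ 2 + algebraMap K K⟮α⟯ (f 1) * z +
    algebraMap K K⟮α⟯ (f 0 * f 2)) / algebraMap K K⟮α⟯ (f 0)]⟩, ⟨?_, ?_, ?_, ?_⟩, hzα⟩
  · simp only [Matrix.cons_val_zero, Matrix.cons_val_one, map_neg, map_mul]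
    field_simp
    ring
  · simp only [Matrix.cons_val_zero, Matrix.cons_val_one, map_neg, map_mul]
    field_simp
    linear_combination hz0
  · simp only [Matrix.cons_val_zero, Matrix.cons_val_one, map_neg, map_mul]
    field_simp
    linear_combination (z + algebraMap K K⟮α⟯ (f 1)) * hz0
  · simp only [Matrix.cons_val_zero]
    rintro ⟨k, hk⟩
    have h1 : Polynomial.aeval (algebraMap K K⟮α⟯ k) (rcp f) = 0 := by
      rw [hk, rcp_aeval]
      simp only [map_mul, map_pow]
      exact hz0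
    rw [Polynomial.aeval_algebraMap_apply, map_eq_zero] at h1
    have h2 := Polynomial.degree_eq_one_of_irreducible_of_root (rcp_irr hf) (x := k) (by
      rw [Polynomial.IsRoot.def]
      rw [← h1]
      exact (Polynomial.coe_aeval_eq_eval k ▸ rfl))
    have h3 := Polynomial.natDegree_eq_of_degree_eq_some h2
    rw [rcp_deg] at h3
    exact absurd h3 (by norm_num)

private theorem rc_card {f : Fin 4 → K} (hf : NZ f) : {x : Fr K | Lv f x.2}.ncard = 3 := by
  obtain ⟨Φ, hΦ⟩ : ∃ Φ : Fr K → QBar, Φ = fun x => ((x.2 0 : x.1.F) : QBar) := ⟨_, rfl⟩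
  have hinj : Set.InjOn Φ {x : Fr K | Lv f x.2} := by
    intro x hx y hy h
    rw [hΦ] at h
    exact rc_ext hf hx hy h
  have him : Φ '' {x : Fr K | Lv f x.2} = (rcp f).rootSet QBar := by
    ext α
    rw [Polynomial.mem_rootSet]
    constructor
    · rintro ⟨x, hx, rfl⟩
      rw [hΦ]
      exact ⟨(rcp_monic f).ne_zero, rc_root hx⟩
    · rintro ⟨-, hα⟩
      obtain ⟨x, hx, hxα⟩ := rc_surj hf hα
      refine ⟨x, hx, ?_⟩
      rw [hΦ]
      exact hxα
  rw [← hinj.ncard_image, him, ← Nat.card_coe_set_eq, Nat.card_eq_fintype_card,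
    Polynomial.card_rootSet_eq_natDegree (rcp_irr hf).separable (IsAlgClosed.splits _), rcp_deg]

theorem recov {f : Fin 4 → K} (hf : NZ f) :
    {x : (c : Cb K) × (Fin 2 → c.F) | Lv f x.2}.ncard = 3 ∧
      ∀ x y : (c : Cb K) × (Fin 2 → c.F), Lv f x.2 → Lv f y.2 →
        ∃ σ : x.1.F ≃ₐ[K] y.1.F, ∀ i, σ (x.2 i) = y.2 i := by
  refine ⟨rc_card hf, fun x y hx hy => ?_⟩
  have ha := nz_a hf
  have rx := rc_root hx
  have ry := rc_root hy
  have hm : minpoly K ((x.2 0 : x.1.F) : QBar) = minpoly K ((y.2 0 : y.1.F) : QBar) := by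
    rw [rc_min hf rx, rc_min hf ry]
  have hal : IsAlgebraic K ((x.2 0 : x.1.F) : QBar) := (rc_int rx).isAlgebraic
  obtain ⟨σ, hσ⟩ : ∃ σ : x.1.F ≃ₐ[K] y.1.F, σ (x.2 0) = y.2 0 := by
    refine ⟨(IntermediateField.equivOfEq (rc_field hf hx).symm).trans
      ((minpoly.algEquiv hal hm).trans (IntermediateField.equivOfEq (rc_field hf hy))), ?_⟩
    have e1 : IntermediateField.equivOfEq (rc_field hf hx).symm (x.2 0) =
        IntermediateField.AdjoinSimple.gen K ((x.2 0 : x.1.F) : QBar) := by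
      apply Subtype.ext
      rw [IntermediateField.AdjoinSimple.coe_gen]
      rfl
    rw [AlgEquiv.trans_apply, AlgEquiv.trans_apply, e1, minpoly.algEquiv_apply]
    apply Subtype.ext
    have e2 : ∀ u, ((IntermediateField.equivOfEq (rc_field hf hy) u : y.1.F) : QBar) = u :=
      fun u => rfl
    rw [e2, IntermediateField.AdjoinSimple.coe_gen]
  refine ⟨σ, fun i => ?_⟩
  fin_cases i
  · exact hσ
  · have h1 := rc_w1 hx
    have h2 := rc_w1 hy
    have h3 := congrArg σ h1
    simp only [map_mul, map_add, map_pow, AlgEquiv.commutes, hσ] at h3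
    simp only [map_mul] at h2
    rw [← h2] at h3
    have h4 : algebraMap K y.1.F (f 0) ≠ 0 := by
      intro h4
      exact ha ((map_eq_zero _).1 h4)
    exact mul_left_cancel₀ h4 h3

theorem recov_cu {f : Fin 4 → K} {c₀ : Cu K} {w₀ : Fin 2 → c₀.F} (h₀ : Lv f w₀) :
    {x : (c : Cu K) × (Fin 2 → c.F) | Lv f x.2}.ncard = 3 ∧
      ∀ x : (c : Cb K) × (Fin 2 → c.F), Lv f x.2 → ¬ IsGalois K x.1.F := by
  have hf : NZ f := fun v hv => lv_ev c₀.deg h₀ hv
  have hng : ∀ x : Fr K, Lv f x.2 → ¬ IsGalois K x.1.F := by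
    intro x hx hG
    obtain ⟨σ, -⟩ := (recov hf).2 x ⟨toCb c₀, w₀⟩ hx h₀
    have h1 : IsGalois K (toCb c₀).F := IsGalois.of_algEquiv σ
    exact c₀.non h1
  refine ⟨?_, hng⟩
  obtain ⟨Ψ, hΨ⟩ : ∃ Ψ : ((c : Cu K) × (Fin 2 → c.F)) → Fr K, Ψ = fun x => ⟨toCb x.1, x.2⟩ :=
    ⟨_, rfl⟩
  have hinj : Function.Injective Ψ := by
    rintro ⟨⟨F, hd, hn⟩, w⟩ ⟨⟨F', hd', hn'⟩, w'⟩ h
    rw [hΨ] at h
    simp only [toCb] at h
    cases h
    rfl
  have him : Ψ '' {x : (c : Cu K) × (Fin 2 → c.F) | Lv f x.2} = {x : Fr K | Lv f x.2} := by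
    ext y
    constructor
    · rintro ⟨x, hx, rfl⟩
      rw [hΨ]
      exact hx
    · intro hy
      refine ⟨⟨⟨y.1.F, y.1.deg, hng y hy⟩, y.2⟩, hy, ?_⟩
      rw [hΨ]
      rfl
  rw [← rc_card hf, ← him, Set.ncard_image_of_injective _ hinj]

private theorem rc_ind {F : Type} [Field F] [Algebra K F] (hd : Module.finrank K F = 3) {z : F}
    (hz : z ∉ (algebraMap K F).range) : LinearIndependent K ![1, z, z ^ 2] := by
  rw [Fintype.linearIndependent_iff]
  intro g hg
  rw [Fin.sum_univ_three] at hg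
  simp only [Matrix.cons_val_zero, Matrix.cons_val_one, Matrix.cons_val, Algebra.smul_def,
    mul_one] at hg
  have h2 : g 2 = 0 := by
    by_contra h2
    have h3 : algebraMap K F (g 2) ≠ 0 := by
      intro h4
      exact h2 ((map_eq_zero _).1 h4)
    apply hz
    refine quad hd (r := g 1 / g 2) (s := g 0 / g 2) ?_
    rw [map_div₀, map_div₀]
    field_simp
    linear_combination hg
  rw [h2, map_zero, zero_mul, add_zero] at hg
  have h1 : g 1 = 0 := by
    by_contra h1
    have h3 : algebraMap K F (g 1) ≠ 0 := by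
      intro h4
      exact h1 ((map_eq_zero _).1 h4)
    apply hz
    refine ⟨-(g 0) / g 1, ?_⟩
    rw [map_div₀, map_neg]
    field_simp
    linear_combination -hg
  rw [h1, map_zero, zero_mul, add_zero] at hg
  have h0 : g 0 = 0 := (map_eq_zero _).1 hg
  intro i
  fin_cases i
  · exact h0
  · exact h1
  · exact h2

theorem base_ex (c : Cb K) : ∃ (f : Fin 4 → K) (w : Fin 2 → c.F), Lv f w := by
  obtain ⟨z, hz⟩ : ∃ z : c.F, z ∉ (algebraMap K c.F).range := by
    by_contra h
    push Not at h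
    have h1 : (⊥ : Subalgebra K c.F) = ⊤ := by
      rw [eq_top_iff]
      intro x _
      obtain ⟨k, hk⟩ := h x
      rw [Algebra.mem_bot]
      exact ⟨k, hk⟩
    have h2 := Subalgebra.bot_eq_top_iff_finrank_eq_one.1 h1
    rw [c.deg] at h2
    exact absurd h2 (by norm_num)
  obtain ⟨f, w, h, -⟩ := lv_ex c.deg (t := ![z, z ^ 2]) (by
    have h1 := rc_ind c.deg hz
    exact h1)
  exact ⟨f, w, h⟩

end H77.MF
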