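import Pool.Agent.H77.MF.Kr5
import Pool.Agent.H77.MF.Rc

/-!
# MF-LF: finitely many local types (row: SX MF LF)

* `frame_S`: for `c : Cb K` and `S` there are `Lv f w` with `LocEq v (LF w) (OO K 2)` for all `v ∈ S`. `base_ex`: a frame `w₀` (`Lv f₀ w₀`); `Λ = LF w₀` is `Lt`. For every `l ∈ S` a basis `p_l, q_l ∈ Λ` at `l` (`bas_ex`). Chinese remainder theorem: `e_l ∈ 𝓞`, `e_l - 1 ∈ l`, `e_l ∈ l'` for `l' ∈ S`, `l' ≠ l`
 (`approx_S` with `n = 1`). `p = ∑_(l ∈ S) e_l p_l`, `q = ∑ e_l q_l` in `Λ`. At `l ∈ S`: in coordinates of `(p_l, q_l)` (`co`, all `In l`): `co p = (1,0) + (v < 1)`, `co q = (0,1) + (v < 1)`, so `v(dt (co p) (co q)) = 1`, and `(p, q)` is a basis at `l` (`bas_change`, `cb_co`). `S = ∅`: take any basis (then `dt p q ≠ 0` must be ensured: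
 replace `S` by `insert l₀ S` for some prime `l₀`; there is one: `𝓞 K` is not a field). New frame `w` by `lv_pull`: `x ∈ LF w ↔ cb p q x ∈ Λ` (`lf_change`), so `Lc l (LF w) x ↔ Lc l Λ (cb p q x) ↔ In l (co p q (cb p q x)) = In l x ↔ Lc l (OO K 2) x` (`bas_lc`, `co_cb`, `lc_oo`; `Lc l (LF w) x ↔ Lc l Λ (cb p q x)`: `cb p q (s • x) = s • cb p q x`).
* `in_f`: then `In l f` for `l ∈ S` (`lf_vl`, `vl_in`, `bas_oo`, `bas_loc`, `gf_id`).
* `lfin`: `k_v` from `krasner Q v`. For `c : Cu K` choose `(f_c, w_c)` by `frame_S` (`toCb c`), and `g_c ∈ 𝓞⁴` with `Cg v (k_v) f_c g_c` for all `v ∈ S` (`approx_S`). Let `J = ∏_(v ∈ S) v^(k_v) ≠ 0`; `𝓞/J` is finite; if `g_c = g_{c'}` mod `J` then `Cg v k_v f_c f_{c'}` for all `v ∈ S` and `LEq S Q c c'` (from `LEq {v}` for every `v ∈ S`). So the map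
 `c ↦ g_c mod J` has finite range; choose one `c₀` in every nonempty fibre (`Set.Finite.toFinset` of the range of a section: `T = image of (Fin 4 → 𝓞/J)`): `LEq S Q c₀ c`. Use `Set.Finite` of the range and `Classical.choice`.
-/

set_option autoImplicit false

open scoped NumberField Classical
open IsDedekindDomain H38.ML H63.MA H67.SX

noncomputable section

namespace H77.MF

variable {K : IntermediateField ℚ QBar} [NumberField K]

private theorem lf_dt {L : Type} [Field L] [NumberField L] {l : Pl L} {Λ : Submodule (𝓞 L) (Fin 2 → L)}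
    {v w : Fin 2 → L} (h : Bas l Λ v w) {x y : Fin 2 → L} (hx : x ∈ Λ) (hy : y ∈ Λ) :
    l.valuation L (dt x y) ≤ l.valuation L (dt v w) :=
  (bas_dl h _).1 (lc_mem (Submodule.subset_span ⟨x, hx, y, hy, rfl⟩))

private theorem lf_small {L : Type} [Field L] [NumberField L] {l : Pl L} {Λ : Submodule (𝓞 L) (Fin 2 → L)}
    {v w : Fin 2 → L} (h : Bas l Λ v w) {r y : Fin 2 → L} (hr : r ∈ l.asIdeal • Λ) (hy : y ∈ Λ) :
    l.valuation L (dt r y) < l.valuation L (dt v w) := by
  have h0 : 0 < l.valuation L (dt v w) := bs_pos h.nz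
  induction hr using Submodule.smul_induction_on' with
  | smul a ha x hx =>
    rw [bs_left, map_mul]
    have h1 := lf_dt h hx hy
    have h2 := val_mem.1 ha
    calc l.valuation L (a : L) * l.valuation L (dt x y) ≤ l.valuation L (a : L) * l.valuation L (dt v w) :=
          mul_le_mul_right h1 _
      _ < 1 * l.valuation L (dt v w) := mul_lt_mul_of_pos_right h2 h0
      _ = _ := one_mul _
  | add x _ z _ hx hz =>
    rw [dt_add_left]
    exact Valuation.map_add_lt _ hx hz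

private theorem lf_anti {L : Type} [Field L] (x y : Fin 2 → L) : dt y x = - dt x y := by
  simp only [dt]
  ring

/-- a pair of vectors which is close to a local basis at all the places of `S` -/
private theorem lf_pair {L : Type} [Field L] [NumberField L] {Λ : Submodule (𝓞 L) (Fin 2 → L)} (hL : Lt Λ)
    (S : Finset (Pl L)) : ∃ P ∈ Λ, ∃ Q ∈ Λ, ∀ l ∈ S, Bas l Λ P Q := by
  choose p hp q hq hb using fun l : Pl L => bas_ex hL l
  have he : ∀ l : Pl L, ∃ e : 𝓞 L, ∀ l' ∈ S, e - (if l' = l then 1 else 0) ∈ l'.asIdeal := by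
    intro l
    obtain ⟨g, hg⟩ := approx_S (n := 1) S (fun _ => 1) (f := fun l' _ => if l' = l then 1 else 0) (by
      intro l' _ i
      dsimp only
      split_ifs
      · rw [map_one]
      · rw [map_zero]
        exact zero_le)
    refine ⟨g 0, fun l' hl' => ?_⟩
    have h1 := hg l' hl' 0
    dsimp only at h1
    rw [← pow_one l'.asIdeal, val_pow_mem]
    have e1 : (((g 0 - (if l' = l then 1 else 0) : 𝓞 L)) : L) = -((if l' = l then 1 else 0) - ((g 0 : 𝓞 L) : L)) := by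
      split_ifs <;> simp
    rw [e1, Valuation.map_neg]
    exact h1
  choose e he using he
  have key : ∀ p : Pl L → Fin 2 → L, (∀ l, p l ∈ Λ) → ∀ l ∈ S,
      (∑ l' ∈ S, e l' • p l') - p l ∈ l.asIdeal • Λ := by
    intro p hp l hl
    have h1 : p l = ∑ l' ∈ S, (if l = l' then (1 : 𝓞 L) else 0) • p l' := by
      rw [Finset.sum_eq_single_of_mem l hl]
      · rw [if_pos rfl, one_smul]
      · intro l' _ hne
        rw [if_neg (Ne.symm hne), zero_smul]
    rw [h1, ← Finset.sum_sub_distrib]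
    refine Submodule.sum_mem _ fun l' hl' => ?_
    rw [← sub_smul]
    exact Submodule.smul_mem_smul (he l' l hl) (hp l')
  refine ⟨∑ l' ∈ S, e l' • p l', Submodule.sum_mem _ fun l' _ => Λ.smul_mem _ (hp l'),
    ∑ l' ∈ S, e l' • q l', Submodule.sum_mem _ fun l' _ => Λ.smul_mem _ (hq l'), fun l hl => ?_⟩
  have hP := key p hp l hl
  have hQ := key q hq l hl
  obtain ⟨P, hPe⟩ : ∃ P, P = ∑ l' ∈ S, e l' • p l' := ⟨_, rfl⟩
  obtain ⟨Q, hQe⟩ : ∃ Q, Q = ∑ l' ∈ S, e l' • q l' := ⟨_, rfl⟩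
  have hPm : P ∈ Λ := by
    rw [hPe]
    exact Submodule.sum_mem _ fun l' _ => Λ.smul_mem _ (hp l')
  have hQm : Q ∈ Λ := by
    rw [hQe]
    exact Submodule.sum_mem _ fun l' _ => Λ.smul_mem _ (hq l')
  rw [← hPe] at hP ⊢
  rw [← hQe] at hQ ⊢
  have hb' := hb l
  have h0 : 0 < l.valuation L (dt (p l) (q l)) := bs_pos hb'.nz
  have h1 : l.valuation L (dt (P - p l) Q) < l.valuation L (dt (p l) (q l)) := lf_small hb' hP hQm
  have h2 : l.valuation L (dt (p l) (Q - q l)) < l.valuation L (dt (p l) (q l)) := by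
    rw [lf_anti, Valuation.map_neg]
    exact lf_small hb' hQ (hp l)
  have h3 : dt P Q = dt (p l) (q l) + (dt (P - p l) Q + dt (p l) (Q - q l)) := by
    simp only [dt, Pi.sub_apply]
    ring
  have h4 : l.valuation L (dt P Q) = l.valuation L (dt (p l) (q l)) := by
    rw [h3]
    exact Valuation.map_add_eq_of_lt_left _ (Valuation.map_add_lt _ h1 h2)
  refine ⟨lc_mem hPm, lc_mem hQm, ?_, fun x hx => ?_, fun x hx => ?_⟩
  · intro h5
    rw [h5, map_zero] at h4
    exact h0.ne h4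
  · rw [h4]
    exact lf_dt hb' hx hQm
  · rw [h4]
    exact lf_dt hb' hPm hx

theorem frame_S (c : Cb K) (S : Finset (Pl K)) : ∃ (f : Fin 4 → K) (w : Fin 2 → c.F), Lv f w ∧
    ∀ v ∈ S, LocEq v (LF w) (OO K 2) := by
  obtain ⟨f, w, h⟩ := base_ex c
  rcases S.eq_empty_or_nonempty with hS | ⟨l₀, hl₀⟩
  · refine ⟨f, w, h, fun v hv => ?_⟩
    rw [hS] at hv
    exact absurd hv (Finset.notMem_empty v)
  obtain ⟨P, hP, Q, hQ, hb⟩ := lf_pair (lf_lt c.deg h) S
  obtain ⟨u, hu, k, h₀, h₁⟩ := lv_pull c.deg h (hb l₀ hl₀).nz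
  refine ⟨_, u, hu, fun l hl x => ?_⟩
  have h1 : Lc l (LF u) x ↔ Lc l (LF w) (cb P Q x) := by
    unfold Lc
    refine exists_congr fun s => and_congr Iff.rfl ?_
    rw [lf_change h₀ h₁]
    have e1 : cb P Q (s • x) = s • cb P Q x := by
      rw [bs_smul, bs_smul]
      funext i
      simp only [cb, Pi.smul_apply, smul_eq_mul]
      ring
    rw [e1]
  rw [h1, bas_lc (hb l hl), co_cb (hb l hl).nz, lc_oo]

private theorem lf_in (c : Cb K) (v : Pl K) {f : Fin 4 → K} {w : Fin 2 → c.F} (h : Lv f w)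
    (hl : LocEq v (LF w) (OO K 2)) : In v f := by
  have hV : f ∈ VL (LF w) := lf_vl c.deg h
  have h1 := vl_in (bas_loc (bas_oo v) (loceq_symm hl)) hV
  rwa [gf_id] at h1

theorem lfin (S : Finset (Pl K)) (Q : DP K QBar) : LFin K S Q := by
  choose k hk using fun v : Pl K => krasner Q v
  choose f w hLv hloc using fun c : Cu K => frame_S (toCb c) S
  choose g hg using fun c : Cu K => approx_S S k (f := fun _ => f c)
    (fun l hl => lf_in (toCb c) l (hLv c) (hloc c l hl))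
  obtain ⟨J, hJ⟩ : ∃ J : Ideal (𝓞 K), J = ∏ v ∈ S, v.asIdeal ^ k v := ⟨_, rfl⟩
  have hJ0 : J ≠ ⊥ := by
    rw [hJ, ← Ideal.zero_eq_bot, Finset.prod_ne_zero_iff]
    intro v _
    exact pow_ne_zero _ v.ne_bot
  have hJle : ∀ v ∈ S, J ≤ v.asIdeal ^ k v := by
    intro v hv
    rw [← Ideal.dvd_iff_le, hJ]
    exact Finset.dvd_prod_of_mem (fun v : Pl K => v.asIdeal ^ k v) hv
  have : Finite (𝓞 K ⧸ J) := Ideal.finiteQuotientOfFreeOfNeBot J hJ0
  obtain ⟨Φ, hΦ⟩ : ∃ Φ : Cu K → (Fin 4 → 𝓞 K ⧸ J), Φ = fun c i => Ideal.Quotient.mk J (g c i) := ⟨_, rfl⟩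
  have hmain : ∀ c c' : Cu K, Φ c = Φ c' → LEq S Q c c' := by
    intro c c' hcc v hv
    have h1 : Cg v (k v) (f c) (f c') := by
      intro i
      have h2 := hg c v hv i
      have h3 := hg c' v hv i
      have h4 : g c i - g c' i ∈ v.asIdeal ^ k v := by
        apply hJle v hv
        rw [← Ideal.Quotient.eq]
        have h5 := congrFun hcc i
        rw [hΦ] at h5
        exact h5
      rw [val_pow_mem] at h4
      have e1 : f c i - f c' i = (f c i - (g c i : K)) + (((g c i - g c' i : 𝓞 K) : K) - (f c' i - (g c' i : K))) := by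
        push_cast
        ring
      rw [e1]
      exact (Valuation.map_add _ _ _).trans (max_le h2 ((Valuation.map_sub _ _ _).trans (max_le h4 h3)))
    exact hk v c c' (f c) (f c') (w c) (w c') (hLv c) (hLv c') (hloc c v hv) (hloc c' v hv) h1 v
      (Finset.mem_singleton_self v)
  refine ⟨(Set.finite_range (Set.rangeSplitting Φ)).toFinset, fun c => ⟨Set.rangeSplitting Φ ⟨Φ c, Set.mem_range_self c⟩, ?_, ?_⟩⟩
  · rw [Set.Finite.mem_toFinset]
    exact Set.mem_range_self _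
  · exact hmain _ _ (Set.apply_rangeSplitting Φ _)

end H77.MF
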