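import Pool.Agent.H77.MF.Va

/-!
# MF-LG: local and global (row: SX MF LG)

`Lc l M v ↔ ∃ s ∉ l, s • v ∈ M`. Proofs. `lc_add`: `s s'` (`l` prime). `lc_cancel`: `s s'`. `lc_val`: `val_frac`: `s x = a`, `t v ∈ M`:
`(s t) (x v) = (s x) (t v) = a (t v) ∈ M`. `lc_oo`: `val_frac` at every coordinate and product of the `s` (finite), conversely `val_frac`.
`lc_all`: the ideal `{s | s • v ∈ M}` is not contained in any `l`; an ideal `≠ ⊤` is contained in a maximal ideal `m`, and `m ≠ ⊥` because `𝓞 K` is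
not a field (`RingOfIntegers.not_isField`), so `m` is a `Pl K`; hence `1 • v ∈ M`. `loc_other`: for `l' ≠ l` choose `s ∈ l^k`, `s ∉ l'`
(`l^k ≤ l'` would imply `l ≤ l'`, `l = l'`): `s • v ∈ l^k • M` for `v ∈ M`. `cg_of_mem`: `Submodule.smul_induction_on`: for `a ∈ l^k`, `v ∈ V`:
`v(a v_i) ≤ exp(-k) · 1` (`in_of_mem`); sums: ultrametric. `mem_of_cg`: by `lc_all` for the module `l^k • V`: at `l' ≠ l`: `loc_other`. At `l`:
`π` uniformizer (`unif`): `π^(-k) g` is `In l` (`v(g_i) ≤ exp(-k)`), so `Lc l V (π^(-k) g)` (`lc_oo`, `h`): `s π^(-k) g ∈ V`, hence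
`s g = π^k (s π^(-k) g) ∈ l^k • V`. `loc_fg_le`: `V` finitely generated, all of the generators locally in `W`: ok, one `s` for all.
-/

set_option autoImplicit false

open scoped NumberField Classical
open IsDedekindDomain H38.ML H63.MA H67.SX

noncomputable section

namespace H77.MF

variable {K : Type} [Field K] [NumberField K] {l : Pl K}

section gen

variable {V : Type} [AddCommGroup V] [Module (𝓞 K) V] {M M' M'' : Submodule (𝓞 K) V} {v w : V}

theorem lc_mem (h : v ∈ M) : Lc l M v := by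
  refine ⟨1, fun h1 => l.isPrime.ne_top ((Ideal.eq_top_iff_one _).2 h1), ?_⟩
  rw [one_smul]
  exact h

theorem lc_add (h : Lc l M v) (h' : Lc l M w) : Lc l M (v + w) := by
  obtain ⟨s, hs, h1⟩ := h
  obtain ⟨t, ht, h2⟩ := h'
  refine ⟨s * t, fun h3 => (l.isPrime.mem_or_mem h3).elim hs ht, ?_⟩
  rw [smul_add]
  refine M.add_mem ?_ ?_
  · rw [mul_comm, mul_smul]
    exact M.smul_mem t h1
  · rw [mul_smul]
    exact M.smul_mem s h2

theorem lc_sub (h : Lc l M v) (h' : Lc l M w) : Lc l M (v - w) := by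
  have h1 : Lc l M (-w) := by
    obtain ⟨t, ht, h2⟩ := h'
    exact ⟨t, ht, by rw [smul_neg]; exact M.neg_mem h2⟩
  rw [sub_eq_add_neg]
  exact lc_add h h1

theorem lc_smul (r : 𝓞 K) (h : Lc l M v) : Lc l M (r • v) := by
  obtain ⟨s, hs, h1⟩ := h
  refine ⟨s, hs, ?_⟩
  rw [smul_comm]
  exact M.smul_mem r h1

theorem lc_cancel {s : 𝓞 K} (hs : s ∉ l.asIdeal) (h : Lc l M (s • v)) : Lc l M v := by
  obtain ⟨t, ht, h1⟩ := h
  refine ⟨t * s, fun h3 => (l.isPrime.mem_or_mem h3).elim ht hs, ?_⟩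
  rw [mul_smul]
  exact h1

theorem lc_mono (hM : M ≤ M') (h : Lc l M v) : Lc l M' v := by
  obtain ⟨t, ht, h1⟩ := h
  exact ⟨t, ht, hM h1⟩

/-- a local inclusion can be checked on the elements of `M` -/
theorem lc_of_le (hM : ∀ x ∈ M, Lc l M' x) (h : Lc l M v) : Lc l M' v := by
  obtain ⟨t, ht, h1⟩ := h
  exact lc_cancel ht (hM _ h1)

theorem loceq_refl (M : Submodule (𝓞 K) V) : LocEq l M M := fun _ => Iff.rfl

theorem loceq_symm (h : LocEq l M M') : LocEq l M' M := fun v => (h v).symm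

theorem loceq_trans (h : LocEq l M M') (h' : LocEq l M' M'') : LocEq l M M'' :=
  fun v => (h v).trans (h' v)

theorem lc_val [Module K V] [IsScalarTower (𝓞 K) K V] {x : K} (hx : l.valuation K x ≤ 1)
    (h : Lc l M v) : Lc l M (x • v) := by
  obtain ⟨s, a, hs, hxa⟩ := val_frac.1 hx
  obtain ⟨t, ht, h1⟩ := h
  refine ⟨s * t, fun h3 => (l.isPrime.mem_or_mem h3).elim hs ht, ?_⟩
  have h2 : (s * t) • (x • v) = a • (t • v) := by
    rw [← mul_smul a t v, ← smul_assoc (s * t) x v, ← algebraMap_smul K (a * t) v]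
    congr 1
    rw [Algebra.smul_def, map_mul, map_mul]
    linear_combination (algebraMap (𝓞 K) K t) * hxa
  rw [h2]
  exact M.smul_mem a h1

theorem lc_all (h : ∀ l : Pl K, Lc l M v) : v ∈ M := by
  let I : Ideal (𝓞 K) := M.comap (LinearMap.toSpanSingleton (𝓞 K) V v)
  have hI : ∀ s : 𝓞 K, s ∈ I ↔ s • v ∈ M := fun s => Iff.rfl
  by_cases hT : I = ⊤
  · have h1 : (1 : 𝓞 K) ∈ I := by
      rw [hT]
      exact Submodule.mem_top
    have h2 := (hI 1).1 h1
    rwa [one_smul] at h2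
  · obtain ⟨m, hm, hIm⟩ := Ideal.exists_le_maximal I hT
    have hm0 : m ≠ ⊥ := Ring.ne_bot_of_isMaximal_of_not_isField hm (NumberField.RingOfIntegers.not_isField K)
    obtain ⟨s, hs, h3⟩ := h ⟨m, hm.isPrime, hm0⟩
    exact absurd (hIm ((hI s).2 h3)) hs

theorem loc_all (h : ∀ l : Pl K, LocEq l M M') : M = M' := by
  ext v
  exact ⟨fun hv => lc_all fun l => (h l v).1 (lc_mem hv), fun hv => lc_all fun l => (h l v).2 (lc_mem hv)⟩

theorem loc_other {l' : Pl K} (hl : l' ≠ l) (k : ℕ) (M : Submodule (𝓞 K) V) :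
    LocEq l' (l.asIdeal ^ k • M) M := by
  have h0 : ∃ s : 𝓞 K, s ∈ l.asIdeal ^ k ∧ s ∉ l'.asIdeal := by
    by_contra hc
    push Not at hc
    have h1 : l.asIdeal ^ k ≤ l'.asIdeal := hc
    have h2 : l.asIdeal ≤ l'.asIdeal := Ideal.IsPrime.le_of_pow_le h1
    have h3 : l.asIdeal = l'.asIdeal := (l.isMaximal).eq_of_le l'.isPrime.ne_top h2
    exact hl (HeightOneSpectrum.ext h3.symm)
  obtain ⟨s, hs, hs'⟩ := h0
  intro v
  constructor
  · exact fun h => lc_mono Submodule.smul_le_right h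
  · rintro ⟨t, ht, h1⟩
    refine ⟨s * t, fun h3 => (l'.isPrime.mem_or_mem h3).elim hs' ht, ?_⟩
    rw [mul_smul]
    exact Submodule.smul_mem_smul hs h1

end gen

variable {n : ℕ} {V : Submodule (𝓞 K) (Fin n → K)}

theorem lc_oo {f : Fin n → K} : Lc l (OO K n) f ↔ In l f := by
  constructor
  · rintro ⟨s, hs, h1⟩ i
    obtain ⟨a, ha⟩ := h1 i
    refine val_frac.2 ⟨s, a, hs, ?_⟩
    rw [ha, Pi.smul_apply, Algebra.smul_def]
  · intro h
    have h1 := fun i => val_frac.1 (h i)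
    choose s a hs hsa using h1
    refine ⟨∏ i, s i, ?_, fun i => ?_⟩
    · intro h2
      rw [Ideal.IsPrime.prod_mem_iff] at h2
      obtain ⟨i, -, h3⟩ := h2
      exact hs i h3
    · refine ⟨(∏ j ∈ Finset.univ.erase i, s j) * a i, ?_⟩
      rw [Pi.smul_apply, Algebra.smul_def, ← Finset.prod_erase_mul _ _ (Finset.mem_univ i), map_mul]
      show (algebraMap (𝓞 K) K) ((∏ j ∈ Finset.univ.erase i, s j) * a i) = _
      rw [map_mul, mul_assoc]
      congr 1
      exact (hsa i).symm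

theorem in_of_mem (h : LocEq l V (OO K n)) {f : Fin n → K} (hf : f ∈ V) : In l f := by
  exact lc_oo.1 ((h f).1 (lc_mem hf))

theorem cg_of_mem (h : LocEq l V (OO K n)) {k : ℕ} {g : Fin n → K} (hg : g ∈ l.asIdeal ^ k • V) :
    Cg l k g 0 := by
  have key : ∀ i, l.valuation K (g i) ≤ WithZero.exp (-(k : ℤ)) := by
    refine Submodule.smul_induction_on (p := fun g => ∀ i, l.valuation K (g i) ≤ WithZero.exp (-(k : ℤ))) hg ?_ ?_
    · intro a ha v hv i
      rw [Pi.smul_apply, Algebra.smul_def, map_mul]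
      have h1 := val_pow_mem.1 ha
      have h2 := in_of_mem h hv i
      refine (mul_le_mul' h1 h2).trans ?_
      rw [mul_one]
    · intro x y hx hy i
      rw [Pi.add_apply]
      exact Valuation.map_add_le _ (hx i) (hy i)
  intro i
  rw [Pi.zero_apply, sub_zero]
  exact key i

theorem mem_of_cg (h : LocEq l V (OO K n)) {k : ℕ} {g : Fin n → K} (hg : g ∈ V) (hc : Cg l k g 0) :
    g ∈ l.asIdeal ^ k • V := by
  refine lc_all fun l' => ?_
  rcases eq_or_ne l' l with rfl | hne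
  · obtain ⟨π, hπ⟩ := unif l'
    change l'.valuation K (algebraMap (𝓞 K) K π) = _ at hπ
    have hπ0 : (algebraMap (𝓞 K) K π) ≠ 0 := by
      intro h0
      rw [h0, map_zero] at hπ
      exact WithZero.exp_ne_zero hπ.symm
    have hin : In l' (((algebraMap (𝓞 K) K π) ^ k)⁻¹ • g) := by
      intro i
      rw [Pi.smul_apply, smul_eq_mul, map_mul, map_inv₀, map_pow, hπ]
      have h1 := hc i
      rw [Pi.zero_apply, sub_zero] at h1
      refine (mul_le_mul' le_rfl h1).trans (le_of_eq ?_)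
      rw [← WithZero.exp_nsmul, ← WithZero.exp_neg, ← WithZero.exp_add]
      simp
    obtain ⟨s, hs, h2⟩ := (h _).2 (lc_oo.2 hin)
    refine ⟨s, hs, ?_⟩
    have h3 : s • g = (π ^ k) • (s • (((algebraMap (𝓞 K) K π) ^ k)⁻¹ • g)) := by
      funext i
      have h4 : (algebraMap (𝓞 K) K π) ^ k ≠ 0 := pow_ne_zero k hπ0
      simp only [Pi.smul_apply]
      rw [smul_eq_mul, Algebra.smul_def, Algebra.smul_def, Algebra.smul_def, map_pow]
      field_simp
    rw [h3]
    refine Submodule.smul_mem_smul ?_ h2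
    have hmem : π ∈ l'.asIdeal := by
      rw [val_mem]
      show l'.valuation K (algebraMap (𝓞 K) K π) < 1
      rw [hπ]
      exact WithZero.exp_lt_exp.2 (by norm_num) |>.trans_eq WithZero.exp_zero
    exact Ideal.pow_mem_pow hmem k
  · exact (loc_other hne k V g).2 (lc_mem hg)

end H77.MF
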