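import Pool.Agent.H77.MF.Lg

/-!
# MF-MN: means over `V / J V` (row: SX MF MN)

`V` finitely generated, `J ≠ 0`. Proofs. `fin_quot`: `V / J V` is a finitely generated module over the finite ring `𝓞 K / J`
(`Ideal.finiteQuotientOfFreeOfNeBot` / `Ideal.Quotient.finite..` for number fields; `Module.Finite (𝓞 K) V`), hence finite: e.g. with generators `v_1..v_m` the map
`(𝓞/J)^m → V / J V` is onto. `mean_out`: for `Per V J φ` the value `φ (out c)` may be replaced by `φ v` for any `v` in the class `c`: `out c - v ∈ J • ⊤`, map it to `K^n`: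
`↑(out c) - ↑v ∈ J • V` (`Submodule.map_smul''`, `Submodule.map_subtype_top`, or `Submodule.mem_smul_top_iff`). `per_le`: clear (`J₂ • V ≤ J₁ • V`).
`mean_lvl`: the natural map `V/J₂V → V/J₁V` is a surjective homomorphism of finite groups, all fibres have the same number of elements
(`card_fiber..`: e.g. `MonoidHom.card_fiber_eq_of_mem_range`, or cosets of the kernel), the function `φ ∘ out` on `V/J₂V` is the pull-back of the one on `V/J₁V` (`mean_out`).
`mean_mul`: `V/(J₁J₂)V → V/J₁V × V/J₂V` is bijective: injective: `J₁V ⊓ J₂V = J₁J₂V` for coprime `J₁, J₂` (`1 = a + b`, `x = a x + b x`, `x ∈ J₂V` gives `a x ∈ J₁J₂V`),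
surjective: `(x, y) ↦ b x + a y`. Then the sum over the product is the product of the sums (`Finset.sum_mul_sum`, convert `finsum` to `Finset.sum` by
`finsum_eq_sum_of_fintype`), `card` of the product. `mean_congr`: equal at all elements of `V`. The others: termwise.
-/

set_option autoImplicit false

open scoped NumberField Classical
open IsDedekindDomain H38.ML H63.MA H67.SX

noncomputable section

namespace H77.MF

variable {K : Type} [Field K] [NumberField K] {n : ℕ} {V : Submodule (𝓞 K) (Fin n → K)}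
  {J J₁ J₂ : Ideal (𝓞 K)} {φ ψ : (Fin n → K) → ℝ}

theorem fin_quot (hV : V.FG) (hJ : J ≠ ⊥) : Finite (V ⧸ (J • ⊤ : Submodule (𝓞 K) V)) := by
  have : Finite (𝓞 K ⧸ J) := Ideal.finiteQuotientOfFreeOfNeBot J hJ
  have : Module.Finite (𝓞 K) V := Module.Finite.iff_fg.2 hV
  have : Finite (V ⧸ (⊤ : Submodule (𝓞 K) V)) := inferInstance
  exact Submodule.finite_quotient_smul J (Module.Finite.fg_top)

theorem mean_out (hφ : Per V J φ) (v : V) :
    φ ((Quotient.out (Submodule.Quotient.mk v : V ⧸ (J • ⊤ : Submodule (𝓞 K) V)) : V) : Fin n → K) =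
      φ v := by
  obtain ⟨o, ho⟩ : ∃ o : V, o = Quotient.out (Submodule.Quotient.mk v : V ⧸ (J • ⊤ : Submodule (𝓞 K) V)) :=
    ⟨_, rfl⟩
  rw [← ho]
  have h1 : (Submodule.Quotient.mk o : V ⧸ (J • ⊤ : Submodule (𝓞 K) V)) = Submodule.Quotient.mk v := by
    rw [ho]
    exact Quotient.out_eq _
  rw [Submodule.Quotient.eq, Submodule.mem_smul_top_iff] at h1
  have h2 := hφ (v : Fin n → K) v.2 _ h1
  have h3 : (v : Fin n → K) + ((o - v : V) : Fin n → K) = (o : Fin n → K) := by
    rw [AddSubgroupClass.coe_sub]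
    abel
  rw [h3] at h2
  exact h2

theorem per_le (h : J₂ ≤ J₁) (hφ : Per V J₁ φ) : Per V J₂ φ :=
  fun f hf g hg => hφ f hf g (Submodule.smul_mono_left h hg)

/-- sums over a surjective homomorphism of finite groups -/
private theorem mn_sum {A B : Type} [AddCommGroup A] [AddCommGroup B] [Fintype A] [Fintype B] (p : A →+ B)
    (hp : Function.Surjective p) (F : B → ℝ) :
    (∑ a, F (p a)) / (Fintype.card A : ℝ) = (∑ b, F b) / (Fintype.card B : ℝ) := by
  have hk : ∀ b, (Finset.univ.filter fun a => p a = b).card = (Finset.univ.filter fun a => p a = 0).card :=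
    fun b => AddMonoidHom.card_fiber_eq_of_mem_range p (hp b) (hp 0)
  have h1 : ∀ G : B → ℝ, ∑ a, G (p a) = ((Finset.univ.filter fun a => p a = 0).card : ℝ) * ∑ b, G b := by
    intro G
    rw [← Finset.sum_fiberwise Finset.univ p fun a => G (p a), Finset.mul_sum]
    refine Finset.sum_congr rfl fun b _ => ?_
    rw [← hk b, ← nsmul_eq_mul, ← Finset.sum_const]
    refine Finset.sum_congr rfl fun a ha => ?_
    rw [(Finset.mem_filter.1 ha).2]
  have h2 := h1 fun _ => 1
  rw [Finset.sum_const, Finset.sum_const, nsmul_eq_mul, nsmul_eq_mul, mul_one, mul_one, Finset.card_univ,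
    Finset.card_univ] at h2
  have h3 : (0 : ℝ) < ((Finset.univ.filter fun a => p a = 0).card : ℝ) := by
    have h4 : 0 < (Finset.univ.filter fun a => p a = 0).card :=
      Finset.card_pos.2 ⟨0, Finset.mem_filter.2 ⟨Finset.mem_univ _, map_zero p⟩⟩
    exact_mod_cast h4
  rw [h1 F, h2, mul_div_mul_left _ _ h3.ne']

private theorem mn_eq [Fintype (V ⧸ (J • ⊤ : Submodule (𝓞 K) V))] : mean V J φ =
    (∑ c : V ⧸ (J • ⊤ : Submodule (𝓞 K) V), φ ((Quotient.out c : V) : Fin n → K)) /
      (Fintype.card (V ⧸ (J • ⊤ : Submodule (𝓞 K) V)) : ℝ) := by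
  unfold mean
  rw [finsum_eq_sum_of_fintype, Nat.card_eq_fintype_card]

theorem mean_lvl (hV : V.FG) (h₁ : J₁ ≠ ⊥) (h₂ : J₂ ≠ ⊥) (h : J₂ ≤ J₁) (hφ : Per V J₁ φ) :
    mean V J₂ φ = mean V J₁ φ := by
  have := fin_quot hV h₁
  have := fin_quot hV h₂
  have := Fintype.ofFinite (V ⧸ (J₁ • ⊤ : Submodule (𝓞 K) V))
  have := Fintype.ofFinite (V ⧸ (J₂ • ⊤ : Submodule (𝓞 K) V))
  have hle : (J₂ • ⊤ : Submodule (𝓞 K) V) ≤ J₁ • ⊤ := Submodule.smul_mono_left h
  rw [mn_eq, mn_eq]
  have h1 := mn_sum (Submodule.factor hle).toAddMonoidHom (Submodule.factor_surjective hle)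
    fun c => φ ((Quotient.out c : V) : Fin n → K)
  rw [← h1]
  congr 1
  refine Finset.sum_congr rfl fun c _ => ?_
  obtain ⟨v, rfl⟩ := Submodule.Quotient.mk_surjective _ c
  rw [mean_out (per_le h hφ)]
  exact (mean_out hφ v).symm

theorem mean_mul (hV : V.FG) (h₁ : J₁ ≠ ⊥) (h₂ : J₂ ≠ ⊥) (hc : IsCoprime J₁ J₂) (hφ : Per V J₁ φ)
    (hψ : Per V J₂ ψ) : mean V (J₁ * J₂) (fun f => φ f * ψ f) = mean V J₁ φ * mean V J₂ ψ := by
  have h12 : J₁ * J₂ ≠ ⊥ := mul_ne_zero h₁ h₂
  have := fin_quot hV h₁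
  have := fin_quot hV h₂
  have := fin_quot hV h12
  have := Fintype.ofFinite (V ⧸ (J₁ • ⊤ : Submodule (𝓞 K) V))
  have := Fintype.ofFinite (V ⧸ (J₂ • ⊤ : Submodule (𝓞 K) V))
  have := Fintype.ofFinite (V ⧸ ((J₁ * J₂) • ⊤ : Submodule (𝓞 K) V))
  have hl1 : ((J₁ * J₂) • ⊤ : Submodule (𝓞 K) V) ≤ J₁ • ⊤ := Submodule.smul_mono_left Ideal.mul_le_left
  have hl2 : ((J₁ * J₂) • ⊤ : Submodule (𝓞 K) V) ≤ J₂ • ⊤ := Submodule.smul_mono_left Ideal.mul_le_right
  obtain ⟨a, ha, b, hb, hab⟩ := Ideal.isCoprime_iff_exists.1 hc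
  obtain ⟨p, hp⟩ : ∃ p : V ⧸ ((J₁ * J₂) • ⊤ : Submodule (𝓞 K) V) →
      (V ⧸ (J₁ • ⊤ : Submodule (𝓞 K) V)) × (V ⧸ (J₂ • ⊤ : Submodule (𝓞 K) V)),
      p = fun c => (Submodule.factor hl1 c, Submodule.factor hl2 c) := ⟨_, rfl⟩
  have hpm : ∀ v : V, p (Submodule.Quotient.mk v) = (Submodule.Quotient.mk v, Submodule.Quotient.mk v) := by
    intro v
    rw [hp]
    rfl
  have hbij : Function.Bijective p := by
    constructor
    · intro c c' h
      obtain ⟨v, rfl⟩ := Submodule.Quotient.mk_surjective _ c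
      obtain ⟨v', rfl⟩ := Submodule.Quotient.mk_surjective _ c'
      rw [hpm, hpm, Prod.mk.injEq, Submodule.Quotient.eq, Submodule.Quotient.eq] at h
      rw [Submodule.Quotient.eq]
      have e1 : v - v' = a • (v - v') + b • (v - v') := by rw [← add_smul, hab, one_smul]
      rw [e1]
      refine Submodule.add_mem _ ?_ ?_
      · rw [mul_smul]
        exact Submodule.smul_mem_smul ha h.2
      · rw [mul_comm, mul_smul]
        exact Submodule.smul_mem_smul hb h.1
    · rintro ⟨c, c'⟩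
      obtain ⟨x, rfl⟩ := Submodule.Quotient.mk_surjective _ c
      obtain ⟨y, rfl⟩ := Submodule.Quotient.mk_surjective _ c'
      refine ⟨Submodule.Quotient.mk (b • x + a • y), ?_⟩
      rw [hpm, Prod.mk.injEq, Submodule.Quotient.eq, Submodule.Quotient.eq]
      constructor
      · have e1 : b • x + a • y - x = a • (y - x) := by
          have e4 : b • x = x - a • x := by
            have e2 : b • x + a • x = x := by rw [← add_smul, add_comm b a, hab, one_smul]
            rw [eq_sub_iff_add_eq]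
            exact e2
          rw [e4, smul_sub]
          abel
        rw [e1]
        exact Submodule.smul_mem_smul ha trivial
      · have e1 : b • x + a • y - y = b • (x - y) := by
          have e4 : a • y = y - b • y := by
            have e2 : a • y + b • y = y := by rw [← add_smul, hab, one_smul]
            rw [eq_sub_iff_add_eq]
            exact e2
          rw [e4, smul_sub]
          abel
        rw [e1]
        exact Submodule.smul_mem_smul hb trivial
  have hcard : (Fintype.card (V ⧸ ((J₁ * J₂) • ⊤ : Submodule (𝓞 K) V)) : ℝ) =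
      (Fintype.card (V ⧸ (J₁ • ⊤ : Submodule (𝓞 K) V)) : ℝ) *
        (Fintype.card (V ⧸ (J₂ • ⊤ : Submodule (𝓞 K) V)) : ℝ) := by
    rw [Fintype.card_of_bijective hbij, Fintype.card_prod]
    push_cast
    rfl
  rw [mn_eq, mn_eq, mn_eq, hcard, div_mul_div_comm, Finset.sum_mul_sum, ← Fintype.sum_prod_type']
  congr 1
  refine Fintype.sum_bijective p hbij _ _ fun c => ?_
  obtain ⟨v, rfl⟩ := Submodule.Quotient.mk_surjective _ c
  rw [hpm]
  simp only []
  rw [mean_out hφ, mean_out hψ, mean_out (per_le Ideal.mul_le_left hφ), mean_out (per_le Ideal.mul_le_right hψ)]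

theorem mean_congr (h : ∀ f ∈ V, φ f = ψ f) : mean V J φ = mean V J ψ := by
  unfold mean
  congr 1
  exact finsum_congr fun c => h _ (Quotient.out c : V).2

theorem mean_const (hV : V.FG) (hJ : J ≠ ⊥) (c : ℝ) : mean V J (fun _ => c) = c := by
  have := fin_quot hV hJ
  have := Fintype.ofFinite (V ⧸ (J • ⊤ : Submodule (𝓞 K) V))
  rw [mn_eq, Finset.sum_const, nsmul_eq_mul, Finset.card_univ]
  have h1 : (Fintype.card (V ⧸ (J • ⊤ : Submodule (𝓞 K) V)) : ℝ) ≠ 0 := by
    exact_mod_cast Fintype.card_ne_zero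
  rw [mul_comm, mul_div_assoc, div_self h1, mul_one]

theorem mean_add (hV : V.FG) (hJ : J ≠ ⊥) :
    mean V J (fun f => φ f + ψ f) = mean V J φ + mean V J ψ := by
  have := fin_quot hV hJ
  have := Fintype.ofFinite (V ⧸ (J • ⊤ : Submodule (𝓞 K) V))
  rw [mn_eq, mn_eq, mn_eq, Finset.sum_add_distrib, add_div]

theorem mean_smul (c : ℝ) : mean V J (fun f => c * φ f) = c * mean V J φ := by
  unfold mean
  have h1 := smul_finsum c fun q : V ⧸ (J • ⊤ : Submodule (𝓞 K) V) => φ ((Quotient.out q : V) : Fin n → K)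
  simp only [smul_eq_mul] at h1
  rw [← h1, mul_div_assoc]

theorem mean_sub (hV : V.FG) (hJ : J ≠ ⊥) :
    mean V J (fun f => φ f - ψ f) = mean V J φ - mean V J ψ := by
  have := fin_quot hV hJ
  have := Fintype.ofFinite (V ⧸ (J • ⊤ : Submodule (𝓞 K) V))
  rw [mn_eq, mn_eq, mn_eq, Finset.sum_sub_distrib, sub_div]

theorem mean_mono (hV : V.FG) (hJ : J ≠ ⊥) (h : ∀ f ∈ V, φ f ≤ ψ f) :
    mean V J φ ≤ mean V J ψ := by
  have := fin_quot hV hJ
  have := Fintype.ofFinite (V ⧸ (J • ⊤ : Submodule (𝓞 K) V))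
  rw [mn_eq, mn_eq]
  exact div_le_div_of_nonneg_right (Finset.sum_le_sum fun c _ => h _ (Quotient.out c : V).2) (Nat.cast_nonneg _)

theorem mean_sum {ι : Type} (s : Finset ι) (hV : V.FG) (hJ : J ≠ ⊥) (φ : ι → (Fin n → K) → ℝ) :
    mean V J (fun f => ∑ i ∈ s, φ i f) = ∑ i ∈ s, mean V J (φ i) := by
  induction s using Finset.induction_on with
  | empty =>
    simp only [Finset.sum_empty]
    exact mean_const hV hJ 0
  | insert i s hi ih =>
    rw [Finset.sum_insert hi, ← ih, ← mean_add hV hJ]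
    refine mean_congr fun f _ => ?_
    rw [Finset.sum_insert hi]

end H77.MF
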