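import Pool.Agent.H77.MF.Mu1
import Pool.Agent.H77.MF.Mn

/-!
# MF-MU2: sums over the forms over `𝓞/l` (row: SX MF MU2)

`q = nm l`, `6 ∉ l` (so `q ≥ 5`), `k = 𝓞/l`, `Nat.card k = q`.
* `mean_red`: if `φ (g : 𝓞⁴) = ψ (g mod l)` then `mean (OO K 4) l φ = (∑ᶠ ḡ : Fin 4 → 𝓞/l, ψ ḡ) / q⁴` (`𝓞⁴ / l 𝓞⁴ ≅ (𝓞/l)⁴`; `Per` holds).
* `sum_rt`: `∑_ḡ rt ḡ = (q + 1) q³`: for every `x ∈ k`: `#{ḡ | ev ḡ (x,1) = 0} = q³` (`ḡ 3` is determined by the others), and `#{ḡ 0 = 0} = q³`.
* `sum_disc`: `#{ḡ | disc ḡ = 0} ≤ 3 q³`: `ḡ 0 = 0`: `q³`. `ḡ 0 ≠ 0`: for given `ḡ 0, ḡ 1, ḡ 2` the discriminant is a polynomial of degree 2 in `ḡ 3` with leading coefficient `-27 ḡ₀² ≠ 0`: at most 2 values.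
-/

set_option autoImplicit false

open scoped NumberField Classical
open IsDedekindDomain H38.ML H63.MA H67.SX

noncomputable section

namespace H77.MF

section red

variable {K : Type} [Field K] [NumberField K]

/-- the integral vectors -/
private def iv : (Fin 4 → 𝓞 K) →ₗ[𝓞 K] (OO K 4) where
  toFun g := ⟨fun i => (g i : K), fun i => ⟨g i, rfl⟩⟩
  map_add' g h := by
    apply Subtype.ext
    funext i
    rfl
  map_smul' r g := by
    apply Subtype.ext
    funext i
    change ((r * g i : 𝓞 K) : K) = r • (g i : K)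
    rw [Algebra.smul_def]
    rfl

private theorem iv_bij : Function.Bijective (iv (K := K)) := by
  constructor
  · intro g h e
    funext i
    have h1 := congrFun (congrArg Subtype.val e) i
    exact NumberField.RingOfIntegers.coe_injective h1
  · rintro ⟨v, hv⟩
    have hv' : ∀ i, ∃ a : 𝓞 K, (a : K) = v i := hv
    choose g hg using hv'
    exact ⟨g, Subtype.ext (funext hg)⟩

private def ive : (Fin 4 → 𝓞 K) ≃ₗ[𝓞 K] (OO K 4) := LinearEquiv.ofBijective iv iv_bij

/-- reduction of the integral vectors -/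
private def rdl (l : Pl K) : (OO K 4) →ₗ[𝓞 K] (Fin 4 → 𝓞 K ⧸ l.asIdeal) :=
  (LinearMap.pi fun i => (Submodule.mkQ l.asIdeal).comp (LinearMap.proj i)).comp
    (ive (K := K)).symm.toLinearMap

private theorem rdl_ive (l : Pl K) (g : Fin 4 → 𝓞 K) : rdl l (ive g) = red l g := by
  funext i
  change Submodule.mkQ l.asIdeal ((ive (K := K)).symm (ive g) i) = _
  rw [LinearEquiv.symm_apply_apply]
  rfl

private theorem rdl_surj (l : Pl K) : Function.Surjective (rdl l) := by
  intro y
  choose g hg using fun i => Ideal.Quotient.mk_surjective (I := l.asIdeal) (y i)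
  exact ⟨ive g, by rw [rdl_ive]; exact funext hg⟩

private theorem rdl_ker (l : Pl K) :
    LinearMap.ker (rdl l) = (l.asIdeal • ⊤ : Submodule (𝓞 K) (OO K 4)) := by
  apply le_antisymm
  · intro v hv
    obtain ⟨g, rfl⟩ := (ive (K := K)).surjective v
    rw [LinearMap.mem_ker, rdl_ive] at hv
    have hg : ∀ i, g i ∈ l.asIdeal := fun i => Ideal.Quotient.eq_zero_iff_mem.1 (congrFun hv i)
    have e : g = ∑ i, g i • (Pi.single i 1 : Fin 4 → 𝓞 K) := by
      funext j
      rw [Finset.sum_apply, Finset.sum_eq_single j]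
      · simp
      · intro b _ hb
        simp [Pi.single_eq_of_ne hb.symm]
      · intro h
        exact absurd (Finset.mem_univ _) h
    rw [e, map_sum]
    refine Submodule.sum_mem _ fun i _ => ?_
    rw [map_smul]
    exact Submodule.smul_mem_smul (hg i) Submodule.mem_top
  · rw [Submodule.smul_le]
    intro r hr v _
    obtain ⟨g, rfl⟩ := (ive (K := K)).surjective v
    rw [LinearMap.mem_ker, ← map_smul, rdl_ive]
    funext i
    exact Ideal.Quotient.eq_zero_iff_mem.2 (Ideal.mul_mem_right _ _ hr)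

private def rde (l : Pl K) : ((OO K 4) ⧸ (l.asIdeal • ⊤ : Submodule (𝓞 K) (OO K 4))) ≃
    (Fin 4 → 𝓞 K ⧸ l.asIdeal) :=
  ((Submodule.quotEquivOfEq _ _ (rdl_ker l).symm).trans
    (LinearMap.quotKerEquivOfSurjective (rdl l) (rdl_surj l))).toEquiv

private theorem rde_mk (l : Pl K) (v : OO K 4) : rde l (Submodule.Quotient.mk v) = rdl l v := rfl

theorem mean_red {K : Type} [Field K] [NumberField K] (l : Pl K) {φ : (Fin 4 → K) → ℝ}
    {ψ : (Fin 4 → 𝓞 K ⧸ l.asIdeal) → ℝ} (h : ∀ g : Fin 4 → 𝓞 K, φ (fun i => (g i : K)) = ψ (red l g)) :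
    mean (OO K 4) l.asIdeal φ = (∑ᶠ g : Fin 4 → 𝓞 K ⧸ l.asIdeal, ψ g) / (nm l : ℝ) ^ 4 := by
  rw [mean]
  have h1 : ∀ c : (OO K 4) ⧸ (l.asIdeal • ⊤ : Submodule (𝓞 K) (OO K 4)),
      φ ((Quotient.out c : OO K 4) : Fin 4 → K) = ψ (rde l c) := by
    intro c
    obtain ⟨g, hg⟩ := (ive (K := K)).surjective (Quotient.out c)
    have h2 : φ ((ive g : OO K 4) : Fin 4 → K) = ψ (red l g) := h g
    rw [← hg, h2, ← rdl_ive, ← rde_mk]
    congr 2
    rw [hg]
    exact Quotient.out_eq c
  have h3 : Nat.card ((OO K 4) ⧸ (l.asIdeal • ⊤ : Submodule (𝓞 K) (OO K 4))) = nm l ^ 4 := by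
    rw [Nat.card_congr (rde l), Nat.card_fun, Nat.card_eq_fintype_card (α := Fin 4), Fintype.card_fin,
      nm, Ideal.absNorm_apply, Submodule.cardQuot_apply]
  rw [h3, finsum_congr h1, finsum_comp_equiv (rde l) (f := ψ)]
  push_cast
  rfl

end red

private theorem nc_eq {α : Type} [Fintype α] (p : α → Prop) :
    ((({x | p x} : Set α).ncard : ℕ) : ℝ) = ∑ x : α, if p x then (1 : ℝ) else 0 := by
  rw [Set.ncard_eq_toFinset_card', Set.toFinset_ofPred, Finset.sum_boole]

theorem sum_rt {k : Type} [Field k] [Finite k] :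
    ∑ᶠ g : Fin 4 → k, (rt g : ℝ) = (Nat.card k + 1) * (Nat.card k : ℝ) ^ 3 := by
  have := Fintype.ofFinite k
  rw [finsum_eq_sum_of_fintype]
  have h1 : ∀ x : k, ({g : Fin 4 → k | ev g ![x, 1] = 0}.ncard : ℝ) = (Nat.card k : ℝ) ^ 3 := by
    intro x
    obtain ⟨F, hF⟩ : ∃ F : (Fin 3 → k) → (Fin 4 → k),
        F = fun t => ![t 0, t 1, t 2, -(t 0 * x ^ 3 + t 1 * x ^ 2 + t 2 * x)] := ⟨_, rfl⟩
    have hinj : Function.Injective F := by
      intro t t' h
      rw [hF] at h
      have a0 := congrFun h 0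
      have a1 := congrFun h 1
      have a2 := congrFun h 2
      funext i
      fin_cases i
      · exact a0
      · exact a1
      · exact a2
    have he : {g : Fin 4 → k | ev g ![x, 1] = 0} = Set.range F := by
      ext g
      simp only [Set.mem_ofPred_eq, Set.mem_range]
      constructor
      · intro hg
        refine ⟨![g 0, g 1, g 2], ?_⟩
        rw [hF]
        funext i
        fin_cases i
        · rfl
        · rfl
        · rfl
        · simp [ev] at hg
          simp
          linear_combination -hg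
      · rintro ⟨t, rfl⟩
        rw [hF]
        simp [ev]
    rw [he, ← Set.image_univ, Set.ncard_image_of_injective _ hinj, Set.ncard_univ, Nat.card_fun,
      Nat.card_eq_fintype_card (α := Fin 3), Fintype.card_fin]
    push_cast
    rfl
  have h2 : ({g : Fin 4 → k | g 0 = 0}.ncard : ℝ) = (Nat.card k : ℝ) ^ 3 := by
    obtain ⟨F, hF⟩ : ∃ F : (Fin 3 → k) → (Fin 4 → k), F = fun t => ![0, t 0, t 1, t 2] := ⟨_, rfl⟩
    have hinj : Function.Injective F := by
      intro t t' h
      rw [hF] at h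
      have a0 := congrFun h 1
      have a1 := congrFun h 2
      have a2 := congrFun h 3
      funext i
      fin_cases i
      · exact a0
      · exact a1
      · exact a2
    have he : {g : Fin 4 → k | g 0 = 0} = Set.range F := by
      ext g
      simp only [Set.mem_ofPred_eq, Set.mem_range]
      constructor
      · intro hg
        refine ⟨![g 1, g 2, g 3], ?_⟩
        rw [hF]
        funext i
        fin_cases i
        · exact hg.symm
        · rfl
        · rfl
        · rfl
      · rintro ⟨t, rfl⟩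
        rw [hF]
        rfl
    rw [he, ← Set.image_univ, Set.ncard_image_of_injective _ hinj, Set.ncard_univ, Nat.card_fun,
      Nat.card_eq_fintype_card (α := Fin 3), Fintype.card_fin]
    push_cast
    rfl
  have h3 : ∀ g : Fin 4 → k, (rt g : ℝ) =
      (∑ x : k, if ev g ![x, 1] = 0 then (1 : ℝ) else 0) + (if g 0 = 0 then (1 : ℝ) else 0) := by
    intro g
    rw [rt, ← nc_eq]
    push_cast
    rfl
  rw [Finset.sum_congr rfl fun g _ => h3 g, Finset.sum_add_distrib, Finset.sum_comm]
  rw [Finset.sum_congr rfl fun x _ => (nc_eq fun g : Fin 4 → k => ev g ![x, 1] = 0).symm.trans (h1 x)]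
  rw [← nc_eq fun g : Fin 4 → k => g 0 = 0, h2, Finset.sum_const, Finset.card_univ, nsmul_eq_mul,
    ← Nat.card_eq_fintype_card]
  ring

private theorem quad_two {k : Type} [Field k] [Fintype k] {A B C : k} (hA : A ≠ 0) :
    (Finset.univ.filter fun d : k => A * d ^ 2 + B * d + C = 0).card ≤ 2 := by
  obtain ⟨P, hP⟩ : ∃ P : Polynomial k, P = Polynomial.C A * Polynomial.X ^ 2 +
    Polynomial.C B * Polynomial.X + Polynomial.C C := ⟨_, rfl⟩
  have hd : P.natDegree = 2 := by rw [hP]; exact Polynomial.natDegree_quadratic hA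
  have h0 : P ≠ 0 := by
    rintro rfl
    simp at hd
  have h1 : (Finset.univ.filter fun d : k => A * d ^ 2 + B * d + C = 0) ⊆ P.roots.toFinset := by
    intro d hd
    rw [Finset.mem_filter] at hd
    rw [Multiset.mem_toFinset, Polynomial.mem_roots h0, Polynomial.IsRoot.def, hP]
    simp
    exact hd.2
  refine (Finset.card_le_card h1).trans ((Multiset.toFinset_card_le _).trans ?_)
  rw [← hd]
  exact Polynomial.card_roots' P

theorem sum_disc {k : Type} [Field k] [Finite k] (h6 : (6 : k) ≠ 0) :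
    {g : Fin 4 → k | disc g = 0}.ncard ≤ 3 * Nat.card k ^ 3 := by
  have := Fintype.ofFinite k
  have h3 : (27 : k) ≠ 0 := by
    intro h
    have h4 : (3 : k) ^ 3 = 0 := by rw [← h]; norm_num
    have h5 : (3 : k) = 0 := pow_eq_zero_iff (by norm_num) |>.1 h4
    apply h6
    rw [show (6 : k) = 2 * 3 by norm_num, h5, mul_zero]
  obtain ⟨pr, hpr⟩ : ∃ pr : (Fin 4 → k) → (Fin 3 → k), pr = fun g => ![g 0, g 1, g 2] := ⟨_, rfl⟩
  have hq : Fintype.card (Fin 3 → k) = Nat.card k ^ 3 := by
    rw [← Nat.card_eq_fintype_card, Nat.card_fun, Nat.card_eq_fintype_card (α := Fin 3),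
      Fintype.card_fin]
  -- the first part
  have hA : (Finset.univ.filter fun g : Fin 4 → k => g 0 = 0).card ≤ Nat.card k ^ 3 := by
    rw [← hq, ← Finset.card_univ]
    refine Finset.card_le_card_of_injOn (fun g => (![g 1, g 2, g 3] : Fin 3 → k))
      (fun _ _ => Finset.mem_coe.2 (Finset.mem_univ _)) ?_
    intro g hg g' hg' h
    have b0 := (Finset.mem_filter.1 (Finset.mem_coe.1 hg)).2
    have b1 := (Finset.mem_filter.1 (Finset.mem_coe.1 hg')).2
    have a0 := congrFun h 0
    have a1 := congrFun h 1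
    have a2 := congrFun h 2
    funext i
    fin_cases i
    · exact b0.trans b1.symm
    · exact a0
    · exact a1
    · exact a2
  -- the second part
  have hB : (Finset.univ.filter fun g : Fin 4 → k => g 0 ≠ 0 ∧ disc g = 0).card ≤
      2 * Nat.card k ^ 3 := by
    refine (Finset.card_le_mul_card_image (f := pr) _ 2 ?_).trans ?_
    · intro t ht
      obtain ⟨g₀, hg₀, rfl⟩ := Finset.mem_image.1 ht
      have hg₀' := (Finset.mem_filter.1 hg₀).2.1
      have hlead : -27 * g₀ 0 ^ 2 ≠ 0 := mul_ne_zero (neg_ne_zero.2 h3) (pow_ne_zero _ hg₀')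
      refine le_trans ?_ (quad_two (B := 18 * g₀ 0 * g₀ 1 * g₀ 2 - 4 * g₀ 1 ^ 3)
        (C := g₀ 1 ^ 2 * g₀ 2 ^ 2 - 4 * g₀ 0 * g₀ 2 ^ 3) hlead)
      refine Finset.card_le_card_of_injOn (fun g => g 3) ?_ ?_
      · intro g hg
        obtain ⟨hg1, hg2⟩ := Finset.mem_filter.1 (Finset.mem_coe.1 hg)
        have hg3 := (Finset.mem_filter.1 hg1).2.2
        rw [hpr] at hg2
        have a0 : g 0 = g₀ 0 := congrFun hg2 0
        have a1 : g 1 = g₀ 1 := congrFun hg2 1
        have a2 : g 2 = g₀ 2 := congrFun hg2 2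
        rw [Finset.mem_coe, Finset.mem_filter]
        refine ⟨Finset.mem_univ _, ?_⟩
        rw [← a0, ← a1, ← a2]
        rw [← hg3, disc]
        ring
      · intro g hg g' hg' h
        have hg2 := (Finset.mem_filter.1 (Finset.mem_coe.1 hg)).2
        have hg2' := (Finset.mem_filter.1 (Finset.mem_coe.1 hg')).2
        have e := hg2.trans hg2'.symm
        rw [hpr] at e
        have a0 := congrFun e 0
        have a1 := congrFun e 1
        have a2 := congrFun e 2
        funext i
        fin_cases i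
        · exact a0
        · exact a1
        · exact a2
        · exact h
    · refine Nat.mul_le_mul_left 2 ?_
      rw [← hq, ← Finset.card_univ]
      exact Finset.card_le_card (Finset.subset_univ _)
  rw [Set.ncard_eq_toFinset_card', Set.toFinset_ofPred]
  have hC : (Finset.univ.filter fun g : Fin 4 → k => disc g = 0) ⊆
      (Finset.univ.filter fun g : Fin 4 → k => g 0 = 0) ∪
        (Finset.univ.filter fun g : Fin 4 → k => g 0 ≠ 0 ∧ disc g = 0) := by
    intro g hg
    have hg1 := (Finset.mem_filter.1 hg).2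
    rw [Finset.mem_union, Finset.mem_filter, Finset.mem_filter]
    by_cases h0 : g 0 = 0
    · exact Or.inl ⟨Finset.mem_univ _, h0⟩
    · exact Or.inr ⟨Finset.mem_univ _, h0, hg1⟩
  refine (Finset.card_le_card hC).trans ((Finset.card_union_le _ _).trans ?_)
  omega

end H77.MF
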