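import Pool.Agent.H77.MF.Mn

/-!
# MF-MV: universality of the means (row: SX MF MV)

* `mean_univ`: `V` locally equal to `𝓞^n` at `l`, `φ` depends only on the class modulo `l^k` locally at `l`. Proof: the classes of `V` mod `l^k V` and of `𝓞^n` mod
  `l^k 𝓞^n` correspond to each other by `f ≡ f'` (`Cg l k f f'`). Precisely: for `f ∈ V` choose `f' ∈ 𝓞^n` with `Cg l k f f'` (`approx`, `in_of_mem`); the class of `f'` mod
  `l^k 𝓞^n` does not depend on the choices (`mem_of_cg` for `OO K n`; `loceq_refl`) and depends only on the class of `f` (`cg_of_mem`); injective: `f₁' - f₂' ∈ l^k 𝓞^n`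
  implies `Cg l k (f₁ - f₂) 0`, so `f₁ - f₂ ∈ l^k V` (`mem_of_cg`). Surjective: `f' ∈ 𝓞^n`, `s f' ∈ V` with `s ∉ l` (`lc_oo`, `h`), choose `t ∈ 𝓞` with
  `s t - 1 ∈ l^k` (`s` is a unit mod `l^k`: `l^k ⊔ (s) = ⊤`), then `f = t s f' ∈ V`, `Cg l k f f'`. So the two finite sums have the same terms
  (`finsum` over a bijection; `φ` of representatives: `hφ`, both `In l`) and the same number of terms (`Nat.card_congr`). Both quotients are finite or not at the same time,
  nothing about finiteness is needed (`finsum_comp_equiv`, `Nat.card_congr`).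
* `per_univ`: such a `φ` is `Per V (l^k)` (`cg_of_mem`, `in_of_mem`).
* `mean_map`: for a `K`-linear automorphism `e` of `K^n`, `V' = e(V)`: the quotients `V/JV` and `V'/JV'` correspond: `mean V' J φ = mean V J (φ ∘ e)` if `φ` is
  `Per V' J`. `V' = V.map (e.toLinearMap.restrictScalars (𝓞 K))`.
-/

set_option autoImplicit false

open scoped NumberField Classical
open IsDedekindDomain H38.ML H63.MA H67.SX

noncomputable section

namespace H77.MF

variable {K : Type} [Field K] [NumberField K] {n : ℕ} {V : Submodule (𝓞 K) (Fin n → K)}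
  {J : Ideal (𝓞 K)} {φ : (Fin n → K) → ℝ} {l : Pl K} {k : ℕ}

omit [NumberField K] in
private theorem mv_mk (v w : V) :
    (Submodule.Quotient.mk v : V ⧸ (J • ⊤ : Submodule (𝓞 K) V)) = Submodule.Quotient.mk w ↔
      (v : Fin n → K) - (w : Fin n → K) ∈ J • V := by
  rw [Submodule.Quotient.eq, Submodule.mem_smul_top_iff, Submodule.coe_sub]

omit [NumberField K] in
private theorem mv_bij {V' : Submodule (𝓞 K) (Fin n → K)} {J' : Ideal (𝓞 K)}
    {ψ : (Fin n → K) → ℝ}
    (F : (V ⧸ (J • ⊤ : Submodule (𝓞 K) V)) → (V' ⧸ (J' • ⊤ : Submodule (𝓞 K) V')))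
    (hF : Function.Bijective F)
    (h : ∀ c, ψ ((Quotient.out (F c) : V') : Fin n → K) = φ ((Quotient.out c : V) : Fin n → K)) :
    mean V J φ = mean V' J' ψ := by
  unfold mean
  rw [Nat.card_congr (Equiv.ofBijective F hF),
    ← finsum_comp_equiv (Equiv.ofBijective F hF)
      (f := fun c : V' ⧸ (J' • ⊤ : Submodule (𝓞 K) V') => ψ ((Quotient.out c : V') : Fin n → K))]
  congr 1
  exact finsum_congr fun c => (h c).symm

private theorem mv_cg_sub {f g : Fin n → K} : Cg l k (f - g) 0 ↔ Cg l k f g := by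
  unfold Cg
  simp only [Pi.sub_apply, Pi.zero_apply, sub_zero]

/-- two elements of `V` are in the same class if and only if they are congruent -/
private theorem mv_cg (h : LocEq l V (OO K n)) (v w : V) :
    (Submodule.Quotient.mk v : V ⧸ (l.asIdeal ^ k • ⊤ : Submodule (𝓞 K) V)) =
      Submodule.Quotient.mk w ↔ Cg l k (v : Fin n → K) (w : Fin n → K) := by
  rw [mv_mk, ← mv_cg_sub]
  exact ⟨fun h1 => cg_of_mem h h1, fun h1 => mem_of_cg h (V.sub_mem v.2 w.2) h1⟩

private theorem mv_inv {s : 𝓞 K} (hs : s ∉ l.asIdeal) (k : ℕ) :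
    ∃ t : 𝓞 K, t * s - 1 ∈ l.asIdeal ^ k := by
  have hm : l.asIdeal.IsMaximal := l.isMaximal
  have h1 : IsCoprime (l.asIdeal) (Ideal.span {s}) := by
    rw [Ideal.isCoprime_iff_sup_eq]
    refine hm.out.2 _ ?_
    refine lt_of_le_of_ne le_sup_left fun h => hs ?_
    rw [h]
    exact Ideal.mem_sup_right (Ideal.mem_span_singleton_self s)
  have h2 : IsCoprime (l.asIdeal ^ k) (Ideal.span {s}) := h1.pow_left
  rw [Ideal.isCoprime_iff_exists] at h2
  obtain ⟨a, ha, b, hb, hab⟩ := h2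
  obtain ⟨t, rfl⟩ := Ideal.mem_span_singleton'.1 hb
  refine ⟨t, ?_⟩
  have h3 : t * s - 1 = -a := by
    rw [← hab]
    ring
  rw [h3]
  exact (Ideal.neg_mem_iff _).2 ha

private theorem mv_sur (h : LocEq l V (OO K n)) (k : ℕ) {w : Fin n → K} (hw : w ∈ OO K n) :
    ∃ f ∈ V, Cg l k f w := by
  obtain ⟨s, hs, hsw⟩ := (h w).2 (lc_mem hw)
  obtain ⟨t, ht⟩ := mv_inv hs k
  refine ⟨t • s • w, V.smul_mem t hsw, fun i => ?_⟩
  have hin : l.valuation K (w i) ≤ 1 := in_of_mem (loceq_refl _) hw i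
  have h1 : (t • s • w) i - w i = ((t * s - 1 : 𝓞 K) : K) * w i := by
    rw [Pi.smul_apply, Pi.smul_apply, Algebra.smul_def, Algebra.smul_def]
    push_cast
    ring
  rw [h1, map_mul]
  calc l.valuation K ((t * s - 1 : 𝓞 K) : K) * l.valuation K (w i)
      ≤ WithZero.exp (-(k : ℤ)) * 1 := mul_le_mul' (val_pow_mem.1 ht) hin
    _ = WithZero.exp (-(k : ℤ)) := mul_one _

theorem mean_univ (hV : V.FG) (h : LocEq l V (OO K n))
    (hφ : ∀ f g : Fin n → K, In l f → Cg l k g f → φ g = φ f) :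
    mean V (l.asIdeal ^ k) φ = mean (OO K n) (l.asIdeal ^ k) φ := by
  have hO : LocEq l (OO K n) (OO K n) := loceq_refl _
  have hex : ∀ c : V ⧸ (l.asIdeal ^ k • ⊤ : Submodule (𝓞 K) V), ∃ w : OO K n,
      Cg l k ((Quotient.out c : V) : Fin n → K) (w : Fin n → K) := by
    intro c
    obtain ⟨g, hg⟩ := approx (in_of_mem h (Quotient.out c : V).2) k
    exact ⟨⟨fun i => (g i : K), fun i => ⟨g i, rfl⟩⟩, hg⟩
  choose g hg using hex
  have hout : ∀ c : V ⧸ (l.asIdeal ^ k • ⊤ : Submodule (𝓞 K) V),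
      Submodule.Quotient.mk (Quotient.out c : V) = c := fun c => Quotient.out_eq c
  have hout' : ∀ c : (OO K n) ⧸ (l.asIdeal ^ k • ⊤ : Submodule (𝓞 K) (OO K n)),
      Submodule.Quotient.mk (Quotient.out c : OO K n) = c := fun c => Quotient.out_eq c
  refine mv_bij (fun c => Submodule.Quotient.mk (g c)) ⟨?_, ?_⟩ ?_
  · intro c₁ c₂ h12
    have h1 := (mv_cg hO _ _).1 h12
    rw [← hout c₁, ← hout c₂, mv_cg h]
    exact cg_trans (hg c₁) (cg_trans h1 (cg_symm (hg c₂)))
  · intro c'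
    obtain ⟨f, hf, hfc⟩ := mv_sur h k (Quotient.out c' : OO K n).2
    refine ⟨Submodule.Quotient.mk ⟨f, hf⟩, ?_⟩
    rw [← hout' c']
    refine (mv_cg hO _ _).2 ?_
    refine cg_trans (cg_symm (hg _)) (cg_trans ?_ hfc)
    exact (mv_cg h _ ⟨f, hf⟩).1 (hout _)
  · intro c
    refine hφ _ _ (in_of_mem h (Quotient.out c : V).2) ?_
    have h1 := (mv_cg hO _ _).1 (hout' (Submodule.Quotient.mk (g c)))
    exact cg_trans h1 (cg_symm (hg c))

theorem per_univ (h : LocEq l V (OO K n))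
    (hφ : ∀ f g : Fin n → K, In l f → Cg l k g f → φ g = φ f) : Per V (l.asIdeal ^ k) φ := by
  intro f hf g hg
  refine hφ f (f + g) (in_of_mem h hf) ?_
  rw [← mv_cg_sub, add_sub_cancel_left]
  exact cg_of_mem h hg

theorem mean_map (hV : V.FG) (e : (Fin n → K) ≃ₗ[K] (Fin n → K))
    (hφ : Per (V.map (e.toLinearMap.restrictScalars (𝓞 K))) J φ) :
    mean (V.map (e.toLinearMap.restrictScalars (𝓞 K))) J φ = mean V J (fun f => φ (e f)) := by
  symm
  have hmem : ∀ v : V, e (v : Fin n → K) ∈ V.map (e.toLinearMap.restrictScalars (𝓞 K)) :=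
    fun v => Submodule.mem_map_of_mem v.2
  have hJ : ∀ v : Fin n → K, e v ∈ J • V.map (e.toLinearMap.restrictScalars (𝓞 K)) ↔
      v ∈ J • V := by
    intro v
    rw [← Submodule.map_smul'']
    constructor
    · rintro ⟨u, hu, hue⟩
      have h1 : e u = e v := hue
      rw [← e.injective h1]
      exact hu
    · intro hv
      exact ⟨v, hv, rfl⟩
  have hout : ∀ c : V ⧸ (J • ⊤ : Submodule (𝓞 K) V),
      Submodule.Quotient.mk (Quotient.out c : V) = c := fun c => Quotient.out_eq c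
  have key : ∀ v w : V, (Submodule.Quotient.mk (⟨e v, hmem v⟩ : V.map (e.toLinearMap.restrictScalars (𝓞 K))) :
      (V.map (e.toLinearMap.restrictScalars (𝓞 K))) ⧸
        (J • ⊤ : Submodule (𝓞 K) (V.map (e.toLinearMap.restrictScalars (𝓞 K))))) =
      Submodule.Quotient.mk (⟨e w, hmem w⟩ : V.map (e.toLinearMap.restrictScalars (𝓞 K))) ↔
      (Submodule.Quotient.mk v : V ⧸ (J • ⊤ : Submodule (𝓞 K) V)) = Submodule.Quotient.mk w := by
    intro v w
    rw [mv_mk, mv_mk, ← hJ, map_sub]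
  refine mv_bij (fun c => Submodule.Quotient.mk ⟨e (Quotient.out c : V), hmem _⟩) ⟨?_, ?_⟩ ?_
  · intro c₁ c₂ h12
    rw [← hout c₁, ← hout c₂]
    exact (key _ _).1 h12
  · intro c'
    induction c' using Submodule.Quotient.induction_on with
    | _ w =>
      obtain ⟨w, v, hv, rfl⟩ := w
      refine ⟨Submodule.Quotient.mk ⟨v, hv⟩, ?_⟩
      exact (key _ ⟨v, hv⟩).2 (hout _)
  · intro c
    exact mean_out hφ _

end H77.MF
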