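import Pool.Agent.H77.MF.Vl

/-!
# MF-VM: `VL Λ` globally (row: SX MF VM)

`N = ix Λ = [Λ : 𝓞²]` (`AddSubgroup.relIndex`, `0` if infinite).
* `ix_smul`: `N • p ∈ OO K 2` for `p ∈ Λ`: the quotient `Λ / 𝓞²` has `N` elements (if `N = 0` clear): e.g. `AddSubgroup.nsmul_index_mem` / the order of an
  element divides the order of the group, applied to `(OO K 2).toAddSubgroup.addSubgroupOf Λ.toAddSubgroup`.
* `ix_pos`: `Λ` is finitely generated and `N₁ Λ ≤ OO K 2` for some `N₁ ≠ 0` (common denominator of the generators); `Λ / 𝓞²` is a finitely generated module over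
  the finite ring `𝓞 / N₁` (or: `N₁ 𝓞² ≤ N₁ Λ ≤ 𝓞²` and `𝓞² / N₁ 𝓞²` is finite), so the index is finite, `≠ 0`.
* `vl_hi`: `e₁, e₂ ∈ OO K 2 ≤ Λ`, `pull f e₁ e₂ = f` (`pull_id`), so `f i ∈ DL Λ`; `N² DL Λ ≤ 𝓞`: `dt (N p) (N q) ∈ 𝓞`, span induction.
* `vl_lo`: `f ∈ OO K 4`, `p, q ∈ Λ`: `pull (N³ f) p q i = pull f (N p) (N q) i ∈ 𝓞` (`pull_smul_vec`), and `𝓞 ≤ DL Λ` because `dt e₁ e₂ = 1`.
* `vl_fg`: take `v, w ∈ Λ` with `dt v w ≠ 0`. The map `f ↦ pull f v w` is a `K`-linear injection `K⁴ → K⁴` (`disc`.. no: its inverse is `f ↦ pull f x y`, `x, y` the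
  inverse matrix, by `pull_pull` and `pull_id`), it maps `VL Λ` into `{g | ∀ i, g i ∈ DL Λ}`, which is finitely generated because `DL Λ` is (it is contained in
  `N₁⁻² 𝓞`, `𝓞 K` noetherian). Submodules of finitely generated modules are finitely generated; injective linear maps reflect it
  (`Submodule.fg_of_injective` or `Module.Finite.of_injective`, `IsNoetherian`).
* `vl_loc`: `s e₁ ∈ Λ`, `t e₂ ∈ Λ` with `s, t ∉ l`; `(e₁, e₂)` is a basis of `Λ` at `l` (`bas_oo`, `bas_loc`), so `vl_lc` with `gf e₁ e₂ f = f` (`gf_id`), `lc_oo`.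
* `loc_ix`: `Lc l Λ p → Lc l (OO K 2) p` by `ix_smul`.
-/

set_option autoImplicit false

open scoped NumberField Classical
open IsDedekindDomain H38.ML H63.MA H67.SX

noncomputable section

namespace H77.MF

variable {K : Type} [Field K] [NumberField K] {Λ : Submodule (𝓞 K) (Fin 2 → K)}

/-! private lemmas -/

private theorem vm_pull_map {R R' : Type} [CommRing R] [CommRing R'] (φ : R →+* R') (f : Fin 4 → R)
    (v w : Fin 2 → R) (i : Fin 4) :
    pull (fun i => φ (f i)) (fun i => φ (v i)) (fun i => φ (w i)) i = φ (pull f v w i) := by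
  have h2 : φ 2 = 2 := map_ofNat φ 2
  have h3 : φ 3 = 3 := map_ofNat φ 3
  fin_cases i <;> simp [pull, ev, gr0, gr1, h2, h3]

omit [NumberField K] in
private theorem vm_smul {n : ℕ} (r : 𝓞 K) (f : Fin n → K) : r • f = (r : K) • f := by
  funext i
  rw [Pi.smul_apply, Pi.smul_apply, Algebra.smul_def]
  rfl

omit [NumberField K] in
private theorem vm_cube (r : K) (f : Fin 4 → K) (v w : Fin 2 → K) (i : Fin 4) :
    pull f (r • v) (r • w) i = r ^ 3 * pull f v w i := by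
  fin_cases i <;> simp [pull, ev, gr0, gr1] <;> ring

private theorem vm_pull_oo {f : Fin 4 → K} (hf : f ∈ OO K 4) {v w : Fin 2 → K} (hv : v ∈ OO K 2)
    (hw : w ∈ OO K 2) : pull f v w ∈ OO K 4 := by
  choose f' hf' using hf
  choose v' hv' using hv
  choose w' hw' using hw
  intro i
  have h := vm_pull_map (algebraMap (𝓞 K) K) f' v' w' i
  have h5 : (fun i => algebraMap (𝓞 K) K (f' i)) = f := funext fun i => hf' i
  have h6 : (fun i => algebraMap (𝓞 K) K (v' i)) = v := funext fun i => hv' i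
  have h7 : (fun i => algebraMap (𝓞 K) K (w' i)) = w := funext fun i => hw' i
  rw [h5, h6, h7] at h
  exact ⟨_, h.symm⟩

private theorem vm_e1 : (![1, 0] : Fin 2 → K) ∈ OO K 2 := by
  intro i
  fin_cases i
  · exact ⟨1, by simp⟩
  · exact ⟨0, by simp⟩

private theorem vm_e2 : (![0, 1] : Fin 2 → K) ∈ OO K 2 := by
  intro i
  fin_cases i
  · exact ⟨0, by simp⟩
  · exact ⟨1, by simp⟩

omit [NumberField K] in
private theorem vm_dt : dt (![1, 0] : Fin 2 → K) ![0, 1] = 1 := by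
  simp [dt]

/-- if `N Λ ≤ 𝓞²` then `N² DL Λ ≤ 𝓞` -/
private theorem vm_dl {N : 𝓞 K} (hN : ∀ p ∈ Λ, N • p ∈ OO K 2) {x : K} (hx : x ∈ DL Λ) :
    ∃ a : 𝓞 K, (a : K) = (N : K) ^ 2 * x := by
  induction hx using Submodule.span_induction with
  | mem x hx =>
    obtain ⟨p, hp, q, hq, rfl⟩ := hx
    have h1 := hN p hp
    have h2 := hN q hq
    rw [vm_smul] at h1 h2
    choose a ha using h1
    choose b hb using h2
    refine ⟨a 0 * b 1 - a 1 * b 0, ?_⟩
    have e : ((a 0 * b 1 - a 1 * b 0 : 𝓞 K) : K) = (a 0 : K) * (b 1 : K) - (a 1 : K) * (b 0 : K) := by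
      simp
    rw [e, ha, ha, hb, hb]
    simp only [Pi.smul_apply, smul_eq_mul, dt]
    ring
  | zero => exact ⟨0, by simp⟩
  | add x y _ _ hx hy =>
    obtain ⟨a, ha⟩ := hx
    obtain ⟨b, hb⟩ := hy
    refine ⟨a + b, ?_⟩
    have e : ((a + b : 𝓞 K) : K) = (a : K) + (b : K) := by simp
    rw [e, ha, hb]
    ring
  | smul r x _ hx =>
    obtain ⟨a, ha⟩ := hx
    refine ⟨r * a, ?_⟩
    have e : ((r * a : 𝓞 K) : K) = (r : K) * (a : K) := by simp
    have e2 : r • x = (r : K) * x := Algebra.smul_def r x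
    rw [e, ha, e2]
    ring

theorem oo_fg (K : Type) [Field K] [NumberField K] (n : ℕ) : (OO K n).FG := by
  let φ : (Fin n → 𝓞 K) →ₗ[𝓞 K] (Fin n → K) :=
    { toFun := fun a i => (a i : K)
      map_add' := fun a b => by
        funext i
        simp
      map_smul' := fun r a => by
        funext i
        simp only [Pi.smul_apply, smul_eq_mul, RingHom.id_apply, Algebra.smul_def]
        simp }
  have h : OO K n = Submodule.map φ ⊤ := by
    ext v
    rw [Submodule.map_top, LinearMap.mem_range]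
    constructor
    · intro hv
      choose a ha using hv
      exact ⟨a, funext fun i => ha i⟩
    · rintro ⟨a, rfl⟩ i
      exact ⟨a i, rfl⟩
  rw [h]
  exact Submodule.FG.map φ (Module.finite_def.1 inferInstance)

theorem oo_lt (K : Type) [Field K] [NumberField K] : Lt (OO K 2) :=
  ⟨oo_fg K 2, _, vm_e1, _, vm_e2, by rw [vm_dt]; exact one_ne_zero⟩

theorem ix_smul {p : Fin 2 → K} (hp : p ∈ Λ) : (ix Λ : 𝓞 K) • p ∈ OO K 2 := by
  have h := AddSubgroup.nsmul_index_mem ((OO K 2).toAddSubgroup.addSubgroupOf Λ.toAddSubgroup)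
    (⟨p, hp⟩ : Λ.toAddSubgroup)
  rw [AddSubgroup.mem_addSubgroupOf] at h
  rw [Nat.cast_smul_eq_nsmul]
  exact h

theorem lt_den (hL : Lt Λ) : ∃ N : 𝓞 K, N ≠ 0 ∧ ∀ p ∈ Λ, N • p ∈ OO K 2 := by
  obtain ⟨⟨G, hG⟩, -⟩ := hL
  obtain ⟨b, hb⟩ := IsLocalization.exist_integer_multiples_of_finset (nonZeroDivisors (𝓞 K))
    (G.image (fun v => v 0) ∪ G.image (fun v => v 1))
  refine ⟨b, nonZeroDivisors.coe_ne_zero b, ?_⟩
  intro p hp
  rw [← hG] at hp
  induction hp using Submodule.span_induction with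
  | mem x hx =>
    intro i
    have h1 : x i ∈ G.image (fun v => v 0) ∪ G.image (fun v => v 1) := by
      rw [Finset.mem_union]
      fin_cases i
      · exact Or.inl (Finset.mem_image_of_mem (fun v : Fin 2 → K => v 0) hx)
      · exact Or.inr (Finset.mem_image_of_mem (fun v : Fin 2 → K => v 1) hx)
    obtain ⟨a, ha⟩ := hb _ h1
    exact ⟨a, ha⟩
  | zero =>
    rw [smul_zero]
    exact (OO K 2).zero_mem
  | add x y _ _ hx hy =>
    rw [smul_add]
    exact (OO K 2).add_mem hx hy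
  | smul r x _ hx =>
    rw [smul_comm]
    exact (OO K 2).smul_mem r hx

theorem ix_pos (hL : Lt Λ) (h : OO K 2 ≤ Λ) : 1 ≤ ix Λ := by
  have _h := h
  obtain ⟨N, hN, hNp⟩ := lt_den hL
  obtain ⟨m, hm⟩ : ∃ m : ℕ, m = Ideal.absNorm (Ideal.span {N}) := ⟨_, rfl⟩
  have hm0 : m ≠ 0 := by
    rw [hm, Ne, Ideal.absNorm_eq_zero_iff, Ideal.span_singleton_eq_bot]
    exact hN
  obtain ⟨c, hc⟩ := Ideal.mem_span_singleton'.1 (Ideal.absNorm_mem (Ideal.span {N}))
  rw [← hm] at hc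
  have hmp : ∀ p ∈ Λ, m • p ∈ OO K 2 := by
    intro p hp
    rw [← Nat.cast_smul_eq_nsmul (𝓞 K), ← hc, mul_smul]
    exact (OO K 2).smul_mem c (hNp p hp)
  have h1 : Module.Finite (𝓞 K) Λ := Module.Finite.iff_fg.2 hL.1
  have h2 : Module.Finite ℤ Λ := Module.Finite.trans (𝓞 K) Λ
  obtain ⟨G, hG⟩ : ∃ G : AddSubgroup Λ, G = (OO K 2).toAddSubgroup.addSubgroupOf Λ.toAddSubgroup := ⟨_, rfl⟩
  have h3 : Module.Finite ℤ (Λ ⧸ G) :=
    Module.Finite.of_surjective (QuotientAddGroup.mk' G).toIntLinearMap (QuotientAddGroup.mk'_surjective G)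
  have h4 : Finite (Λ ⧸ G) := by
    apply Module.finite_of_fg_torsion
    intro x
    obtain ⟨y, rfl⟩ := QuotientAddGroup.mk_surjective x
    refine ⟨⟨(m : ℤ), mem_nonZeroDivisors_of_ne_zero (by exact_mod_cast hm0)⟩, ?_⟩
    show (m : ℤ) • (QuotientAddGroup.mk y : Λ ⧸ G) = 0
    rw [natCast_zsmul, ← QuotientAddGroup.mk_nsmul, QuotientAddGroup.eq_zero_iff, hG,
      AddSubgroup.mem_addSubgroupOf]
    exact hmp y y.2
  have h5 : G.index ≠ 0 := AddSubgroup.index_ne_zero_of_finite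
  rw [hG] at h5
  exact Nat.one_le_iff_ne_zero.2 h5

theorem vl_lo (hL : Lt Λ) (h : OO K 2 ≤ Λ) :
    ∀ f ∈ OO K 4, ((ix Λ : 𝓞 K) ^ 3) • f ∈ VL Λ := by
  have _hL := hL
  intro f hf p hp q hq i
  have h1 := ix_smul hp
  have h2 := ix_smul hq
  rw [vm_smul] at h1 h2
  obtain ⟨a, ha⟩ := vm_pull_oo hf h1 h2 i
  rw [vm_cube] at ha
  have e : pull (((ix Λ : 𝓞 K) ^ 3) • f) p q i = a • (1 : K) := by
    rw [vm_smul, pull_smul, Pi.smul_apply, smul_eq_mul, Algebra.smul_def, mul_one]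
    have e2 : (((ix Λ : 𝓞 K) ^ 3 : 𝓞 K) : K) = (((ix Λ : 𝓞 K) : 𝓞 K) : K) ^ 3 := by simp
    rw [e2, ← ha]
  rw [e]
  exact (DL Λ).smul_mem a (Submodule.subset_span ⟨_, h vm_e1, _, h vm_e2, vm_dt.symm⟩)

theorem vl_hi (hL : Lt Λ) (h : OO K 2 ≤ Λ) :
    ∀ f ∈ VL Λ, ((ix Λ : 𝓞 K) ^ 2) • f ∈ OO K 4 := by
  have _hL := hL
  intro f hf i
  have h1 := hf _ (h vm_e1) _ (h vm_e2) i
  rw [pull_id] at h1
  obtain ⟨a, ha⟩ := vm_dl (N := (ix Λ : 𝓞 K)) (fun p hp => ix_smul hp) h1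
  refine ⟨a, ?_⟩
  rw [ha, vm_smul, Pi.smul_apply, smul_eq_mul]
  have e2 : (((ix Λ : 𝓞 K) ^ 2 : 𝓞 K) : K) = (((ix Λ : 𝓞 K) : 𝓞 K) : K) ^ 2 := by simp
  rw [e2]

theorem vl_fg (hL : Lt Λ) : (VL Λ).FG := by
  obtain ⟨N, hN, hNp⟩ := lt_den hL
  obtain ⟨-, v, hv, w, hw, hd⟩ := hL
  have hN0 : (N : K) ≠ 0 := by
    intro h0
    exact hN (by exact_mod_cast h0)
  let φ : (Fin 4 → K) →ₗ[𝓞 K] (Fin 4 → K) :=
    { toFun := fun f => (N : K) ^ 2 • pull f v w
      map_add' := fun f g => by rw [pull_add, smul_add]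
      map_smul' := fun r f => by
        rw [RingHom.id_apply, vm_smul r f, pull_smul, vm_smul r, smul_comm] }
  have hφ : Function.Injective φ := by
    intro f g hfg
    have h1 : (N : K) ^ 2 • pull f v w = (N : K) ^ 2 • pull g v w := hfg
    have h2 : pull f v w = pull g v w := smul_right_injective _ (pow_ne_zero 2 hN0) h1
    have h3 := congrArg (fun h => pull h (co v w ![1, 0]) (co v w ![0, 1])) h2
    simp only [pull_pull, cb_co hd, pull_id] at h3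
    exact h3
  refine Submodule.fg_of_fg_map_injective φ hφ ?_
  refine Submodule.FG.of_le (oo_fg K 4) ?_
  rintro _ ⟨f, hf, rfl⟩ i
  obtain ⟨a, ha⟩ := vm_dl hNp (hf v hv w hw i)
  exact ⟨a, ha⟩

theorem vl_loc (hL : Lt Λ) {l : Pl K} (h : LocEq l Λ (OO K 2)) : LocEq l (VL Λ) (OO K 4) := by
  have hb : Bas l Λ ![1, 0] ![0, 1] := bas_loc (bas_oo l) (loceq_symm h)
  intro f
  rw [vl_lc hL hb, gf_id, lc_oo]

theorem loc_ix (hL : Lt Λ) (h : OO K 2 ≤ Λ) {l : Pl K} (hl : ((ix Λ : 𝓞 K)) ∉ l.asIdeal) :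
    LocEq l Λ (OO K 2) := by
  have _hL := hL
  intro p
  constructor
  · rintro ⟨s, hs, hp⟩
    refine ⟨(ix Λ : 𝓞 K) * s, fun h3 => (l.isPrime.mem_or_mem h3).elim hl hs, ?_⟩
    rw [mul_smul]
    exact ix_smul hp
  · exact lc_mono h

theorem vl_oo (K : Type) [Field K] [NumberField K] : VL (OO K 2) = OO K 4 :=
  loc_all fun _ => vl_loc (oo_lt K) (loceq_refl _)

/-- a lattice between two lattices is a lattice -/
theorem lt_of_le {Λ' Λ'' : Submodule (𝓞 K) (Fin 2 → K)} (hL : Lt Λ) (hL' : Lt Λ')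
    (h : Λ ≤ Λ'') (h' : Λ'' ≤ Λ') : Lt Λ'' := by
  obtain ⟨-, v, hv, w, hw, hd⟩ := hL
  exact ⟨Submodule.FG.of_le hL'.1 h', v, h hv, w, h hw, hd⟩

end H77.MF
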