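import Pool.Agent.H77.MF.Nm3
import Pool.Agent.H77.MF.Mv
import Pool.Agent.H77.MF.Vm

/-!
# MF-NM3B: the density of `NML` mod `l²` (row: SX MF NM3B)

`q = nm l ≥ 2`. `V₄ = OO K 4`.
* `mean_pt`: for `v ∈ {![t, 1], ![1, 0]}`, `t ∈ 𝓞 K`: `mean V₄ (l^2) 1[v(ev f v) ≤ exp(-2), v(gr0 f v) < 1, v(gr1 f v) < 1] = q⁻³` (only `≤` is needed): by the substitution
  `f ↦ pull f ![1,0] v` resp. `pull f ![0,1] v` (an automorphism of `𝓞⁴`, determinant `±1`, `mean_map`) the condition becomes `f 3 ∈ l²`, `f 2 ∈ l` (`gr0 f e₂ = f 2`, `gr1 f e₂ = 3 f 3`). The mean of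
  `1[f 3 ∈ l², f 2 ∈ l]` over `𝓞⁴ / l² 𝓞⁴ ≅ (𝓞/l²)⁴` (number of elements `q⁸`): the condition has `q⁴ · q · 1 · ..`: `(𝓞/l²)² × l/l² × 0`: `q⁵` elements. In Lean perhaps easier: injection of the set of
  classes with the condition, times `(𝓞/l²) × (𝓞/l)`, into all classes: `(c, a, b) ↦ c + (0, 0, b̃, a)`: `#cond · q² · q ≤ q⁸`; any proof is fine. `card (𝓞/l^k) = q^k`: `Ideal.absNorm` multiplicative, `Submodule.cardQuot_apply`.
* `nml_mean2`: `NML l f` with `f ∈ 𝓞⁴` implies `f = 0` mod `l` (mean `q⁻⁴`: condition `∀ i, f i ∈ l`) or the condition of `mean_pt` for one of the `q + 1` vectors `![t, 1]`, `t` a representative of `𝓞/l`, `![1, 0]`: a primitive `v ∈ A²` may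
  be multiplied by a unit of `A` and changed mod `l` (`ev` changes by `π (..·grad) + π²`), so it can be one of these (`approx`). Union bound: `mean ≤ q⁻⁴ + (q+1) q⁻³ ≤ 3/q²` (`q ≥ 2`), also `≤ 3/4` (`q = 2`: `1/16 + 3/8`;
  `1 - mean ≥ 1/4`).
-/

set_option autoImplicit false

open scoped NumberField Classical
open IsDedekindDomain H38.ML H63.MA H67.SX

noncomputable section

namespace H77.MF

variable {K : Type} [Field K] [NumberField K] {l : Pl K}

section pure

variable {R : Type} [CommRing R]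

/-- the value as a linear map in the form -/
private def b_E (v : Fin 2 → R) : (Fin 4 → R) →ₗ[R] R where
  toFun f := ev f v
  map_add' f g := by
    simp only [ev, Pi.add_apply]
    ring
  map_smul' r f := by
    simp only [ev, Pi.smul_apply, smul_eq_mul, RingHom.id_apply]
    ring

private def b_G0 (v : Fin 2 → R) : (Fin 4 → R) →ₗ[R] R where
  toFun f := gr0 f v
  map_add' f g := by
    simp only [gr0, Pi.add_apply]
    ring
  map_smul' r f := by
    simp only [gr0, Pi.smul_apply, smul_eq_mul, RingHom.id_apply]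
    ring

private def b_G1 (v : Fin 2 → R) : (Fin 4 → R) →ₗ[R] R where
  toFun f := gr1 f v
  map_add' f g := by
    simp only [gr1, Pi.add_apply]
    ring
  map_smul' r f := by
    simp only [gr1, Pi.smul_apply, smul_eq_mul, RingHom.id_apply]
    ring

/-- the condition at a point -/
private def b_P (I : Ideal R) (f : Fin 4 → R) (v : Fin 2 → R) : Prop :=
  ev f v ∈ I ^ 2 ∧ gr0 f v ∈ I ∧ gr1 f v ∈ I

private theorem b_P_smul {I : Ideal R} {f : Fin 4 → R} {v : Fin 2 → R} (u : R) (h : b_P I f v) :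
    b_P I f (fun i => u * v i) := by
  obtain ⟨h1, h2, h3⟩ := h
  have e1 : ev f (fun i => u * v i) = u ^ 3 * ev f v := by
    simp only [ev]
    ring
  have e2 : gr0 f (fun i => u * v i) = u ^ 2 * gr0 f v := by
    simp only [gr0]
    ring
  have e3 : gr1 f (fun i => u * v i) = u ^ 2 * gr1 f v := by
    simp only [gr1]
    ring
  refine ⟨?_, ?_, ?_⟩
  · rw [e1]
    exact Ideal.mul_mem_left _ _ h1
  · rw [e2]
    exact Ideal.mul_mem_left _ _ h2
  · rw [e3]
    exact Ideal.mul_mem_left _ _ h3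

private theorem b_P_near {I : Ideal R} {f : Fin 4 → R} {v v' : Fin 2 → R} (h : b_P I f v)
    (hv : ∀ i, v' i - v i ∈ I) : b_P I f v' := by
  obtain ⟨h1, h2, h3⟩ := h
  obtain ⟨x, hx⟩ : ∃ x, x = v' 0 - v 0 := ⟨_, rfl⟩
  obtain ⟨y, hy⟩ : ∃ y, y = v' 1 - v 1 := ⟨_, rfl⟩
  have hx0 : v' 0 = v 0 + x := by rw [hx]; ring
  have hy0 : v' 1 = v 1 + y := by rw [hy]; ring
  have hxI : x ∈ I := by rw [hx]; exact hv 0
  have hyI : y ∈ I := by rw [hy]; exact hv 1
  have hxx : x * x ∈ I ^ 2 := by rw [pow_two]; exact Ideal.mul_mem_mul hxI hxI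
  have hxy : x * y ∈ I ^ 2 := by rw [pow_two]; exact Ideal.mul_mem_mul hxI hyI
  have hyy : y * y ∈ I ^ 2 := by rw [pow_two]; exact Ideal.mul_mem_mul hyI hyI
  have hxg : x * gr0 f v ∈ I ^ 2 := by rw [pow_two]; exact Ideal.mul_mem_mul hxI h2
  have hyg : y * gr1 f v ∈ I ^ 2 := by rw [pow_two]; exact Ideal.mul_mem_mul hyI h3
  refine ⟨?_, ?_, ?_⟩
  · have e : ev f v' = ev f v + x * gr0 f v + y * gr1 f v +
        (3 * f 0 * v 0 + f 1 * v 1 + f 0 * x + f 1 * y) * (x * x) +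
        (2 * f 1 * v 0 + 2 * f 2 * v 1) * (x * y) +
        (f 2 * v 0 + 3 * f 3 * v 1 + f 2 * x + f 3 * y) * (y * y) := by
      simp only [ev, gr0, gr1, hx0, hy0]
      ring
    rw [e]
    exact Ideal.add_mem _ (Ideal.add_mem _ (Ideal.add_mem _ (Ideal.add_mem _ (Ideal.add_mem _ h1 hxg) hyg)
      (Ideal.mul_mem_left _ _ hxx)) (Ideal.mul_mem_left _ _ hxy)) (Ideal.mul_mem_left _ _ hyy)
  · have e : gr0 f v' = gr0 f v + (3 * f 0 * (2 * v 0 + x) + 2 * f 1 * (v 1 + y)) * x +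
        (2 * f 1 * v 0 + f 2 * (2 * v 1 + y)) * y := by
      simp only [gr0, hx0, hy0]
      ring
    rw [e]
    exact Ideal.add_mem _ (Ideal.add_mem _ h2 (Ideal.mul_mem_left _ _ hxI)) (Ideal.mul_mem_left _ _ hyI)
  · have e : gr1 f v' = gr1 f v + (f 1 * (2 * v 0 + x) + 2 * f 2 * (v 1 + y)) * x +
        (2 * f 2 * v 0 + 3 * f 3 * (2 * v 1 + y)) * y := by
      simp only [gr1, hx0, hy0]
      ring
    rw [e]
    exact Ideal.add_mem _ (Ideal.add_mem _ h3 (Ideal.mul_mem_left _ _ hxI)) (Ideal.mul_mem_left _ _ hyI)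

private theorem b_lin_mem (E : (Fin 4 → R) →ₗ[R] R) {I : Ideal R} {f : Fin 4 → R} (h : ∀ i, f i ∈ I) :
    E f ∈ I := by
  rw [LinearMap.pi_apply_eq_sum_univ E f]
  refine Ideal.sum_mem _ fun i _ => ?_
  rw [smul_eq_mul]
  exact Ideal.mul_mem_right _ _ (h i)

private theorem b_map_ev {S : Type} [CommRing S] (φ : R →+* S) (f : Fin 4 → R) (v : Fin 2 → R) :
    φ (ev f v) = ev (fun i => φ (f i)) (fun i => φ (v i)) := by
  simp only [ev, map_add, map_mul, map_pow]

private theorem b_map_gr0 {S : Type} [CommRing S] (φ : R →+* S) (f : Fin 4 → R) (v : Fin 2 → R) :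
    φ (gr0 f v) = gr0 (fun i => φ (f i)) (fun i => φ (v i)) := by
  simp only [gr0, map_add, map_mul, map_pow, map_ofNat]

private theorem b_map_gr1 {S : Type} [CommRing S] (φ : R →+* S) (f : Fin 4 → R) (v : Fin 2 → R) :
    φ (gr1 f v) = gr1 (fun i => φ (f i)) (fun i => φ (v i)) := by
  simp only [gr1, map_add, map_mul, map_pow, map_ofNat]

end pure

/-- a primitive point of the local criterion is one of the `q + 1` points -/
private theorem b_nml {a : Fin 4 → 𝓞 K} (h : NML l (fun i => (a i : K))) :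
    (∀ i, a i ∈ l.asIdeal) ∨ (∃ t : 𝓞 K ⧸ l.asIdeal, b_P l.asIdeal a ![Quotient.out t, 1]) ∨
      b_P l.asIdeal a ![1, 0] := by
  rcases h with h | ⟨v, hv, hv1, h1, h2, h3⟩
  · left
    intro i
    have h4 := h i
    rw [Pi.zero_apply, sub_zero, ← val_pow_mem, pow_one] at h4
    exact h4
  · right
    obtain ⟨s, b, hs, hb⟩ := val_frac.1 (hv 0)
    obtain ⟨t, c, ht, hc⟩ := val_frac.1 (hv 1)
    have hst : s * t ∉ l.asIdeal := fun h => by
      rcases l.isPrime.mem_or_mem h with h | h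
      · exact hs h
      · exact ht h
    have hval : l.valuation K ((s * t : 𝓞 K) : K) = 1 := val_notmem.1 hst
    obtain ⟨w, hw⟩ : ∃ w : Fin 2 → 𝓞 K, w = ![t * b, s * c] := ⟨_, rfl⟩
    have hw0 : ((w 0 : 𝓞 K) : K) = ((s * t : 𝓞 K) : K) * v 0 := by
      rw [hw]
      show (t : K) * (b : K) = ((s : K) * (t : K)) * v 0
      rw [← hb]
      ring
    have hw1 : ((w 1 : 𝓞 K) : K) = ((s * t : 𝓞 K) : K) * v 1 := by
      rw [hw]
      show (s : K) * (c : K) = ((s : K) * (t : K)) * v 1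
      rw [← hc]
      ring
    have hP : b_P l.asIdeal a w := by
      refine ⟨?_, ?_, ?_⟩
      · rw [val_pow_mem]
        have e : ((ev a w : 𝓞 K) : K) = ((s * t : 𝓞 K) : K) ^ 3 * ev (fun i => (a i : K)) v := by
          have e1 : ((ev a w : 𝓞 K) : K) = ev (fun i => (a i : K)) (fun i => ((w i : 𝓞 K) : K)) :=
            b_map_ev (algebraMap (𝓞 K) K) a w
          rw [e1]
          simp only [ev, hw0, hw1]
          ring
        rw [e, map_mul, map_pow, hval, one_pow, one_mul]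
        exact h1
      · rw [val_mem]
        have e : ((gr0 a w : 𝓞 K) : K) = ((s * t : 𝓞 K) : K) ^ 2 * gr0 (fun i => (a i : K)) v := by
          have e1 : ((gr0 a w : 𝓞 K) : K) = gr0 (fun i => (a i : K)) (fun i => ((w i : 𝓞 K) : K)) :=
            b_map_gr0 (algebraMap (𝓞 K) K) a w
          rw [e1]
          simp only [gr0, hw0, hw1]
          ring
        rw [e, map_mul, map_pow, hval, one_pow, one_mul]
        exact h2
      · rw [val_mem]
        have e : ((gr1 a w : 𝓞 K) : K) = ((s * t : 𝓞 K) : K) ^ 2 * gr1 (fun i => (a i : K)) v := by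
          have e1 : ((gr1 a w : 𝓞 K) : K) = gr1 (fun i => (a i : K)) (fun i => ((w i : 𝓞 K) : K)) :=
            b_map_gr1 (algebraMap (𝓞 K) K) a w
          rw [e1]
          simp only [gr1, hw0, hw1]
          ring
        rw [e, map_mul, map_pow, hval, one_pow, one_mul]
        exact h3
    have hnot : ¬ (w 0 ∈ l.asIdeal ∧ w 1 ∈ l.asIdeal) := by
      rintro ⟨g0, g1⟩
      apply hv1
      rw [← pow_one l.asIdeal, val_pow_mem] at g0 g1
      rw [hw0, map_mul, hval, one_mul] at g0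
      rw [hw1, map_mul, hval, one_mul] at g1
      intro i
      rw [Pi.zero_apply, sub_zero]
      fin_cases i
      · exact g0
      · exact g1
    by_cases hc1 : w 1 ∈ l.asIdeal
    · right
      have hc0 : w 0 ∉ l.asIdeal := fun h => hnot ⟨h, hc1⟩
      obtain ⟨u, i, hi, hu⟩ := l.isMaximal.exists_inv hc0
      refine b_P_near (b_P_smul u hP) fun j => ?_
      fin_cases j
      · show (1 : 𝓞 K) - u * w 0 ∈ l.asIdeal
        rw [← hu, add_sub_cancel_left]
        exact hi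
      · show (0 : 𝓞 K) - u * w 1 ∈ l.asIdeal
        rw [zero_sub]
        exact neg_mem (Ideal.mul_mem_left _ _ hc1)
    · left
      obtain ⟨u, i, hi, hu⟩ := l.isMaximal.exists_inv hc1
      refine ⟨Ideal.Quotient.mk l.asIdeal (u * w 0), b_P_near (b_P_smul u hP) fun j => ?_⟩
      fin_cases j
      · show Quotient.out (Ideal.Quotient.mk l.asIdeal (u * w 0)) - u * w 0 ∈ l.asIdeal
        rw [← Ideal.Quotient.eq, Ideal.Quotient.mk_out]
      · show (1 : 𝓞 K) - u * w 1 ∈ l.asIdeal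
        rw [← hu, add_sub_cancel_left]
        exact hi

/-- the classes -/
private abbrev b_Q (l : Pl K) : Type :=
  (OO K 4) ⧸ ((l.asIdeal ^ 2) • ⊤ : Submodule (𝓞 K) (OO K 4))

/-- the coefficients of the representative -/
private def b_cf (c : b_Q l) : Fin 4 → 𝓞 K := fun i => ((Quotient.out c : OO K 4).2 i).choose

private theorem b_cf_spec (c : b_Q l) : (fun i => (b_cf c i : K)) = ((Quotient.out c : OO K 4) : Fin 4 → K) := by
  funext i
  exact ((Quotient.out c : OO K 4).2 i).choose_spec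

private def b_emb (a : Fin 4 → 𝓞 K) : OO K 4 := ⟨fun i => (a i : K), fun i => ⟨a i, rfl⟩⟩

private theorem b_emb_add (a b : Fin 4 → 𝓞 K) : b_emb (a + b) = b_emb a + b_emb b := by
  apply Subtype.ext
  funext i
  rfl

private def b_mk (a : Fin 4 → 𝓞 K) : b_Q l := Submodule.Quotient.mk (b_emb a)

private theorem b_mk_cf (c : b_Q l) : b_mk (b_cf c) = c := by
  have h : b_emb (b_cf c) = (Quotient.out c : OO K 4) := Subtype.ext (b_cf_spec c)
  unfold b_mk
  rw [h]
  exact Quotient.out_eq c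

private theorem b_mem {x : OO K 4} (hx : x ∈ ((l.asIdeal ^ 2) • ⊤ : Submodule (𝓞 K) (OO K 4))) :
    ∀ i, ∃ r ∈ l.asIdeal ^ 2, (r : K) = (x : Fin 4 → K) i := by
  refine Submodule.smul_induction_on hx ?_ ?_
  · intro r hr n _ i
    obtain ⟨a, ha⟩ := n.2 i
    refine ⟨r * a, Ideal.mul_mem_right _ _ hr, ?_⟩
    show ((r * a : 𝓞 K) : K) = (r • (n : Fin 4 → K)) i
    rw [Pi.smul_apply, Algebra.smul_def, ← ha]
    rfl
  · intro x y hx hy i
    obtain ⟨a, ha, ha'⟩ := hx i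
    obtain ⟨b, hb, hb'⟩ := hy i
    refine ⟨a + b, Ideal.add_mem _ ha hb, ?_⟩
    show ((a + b : 𝓞 K) : K) = ((x : Fin 4 → K) + (y : Fin 4 → K)) i
    rw [Pi.add_apply, ← ha', ← hb']
    rfl

private theorem b_mk_eq {a b : Fin 4 → 𝓞 K} (h : (b_mk a : b_Q l) = b_mk b) (i : Fin 4) :
    a i - b i ∈ l.asIdeal ^ 2 := by
  have h1 : b_emb a - b_emb b ∈ ((l.asIdeal ^ 2) • ⊤ : Submodule (𝓞 K) (OO K 4)) :=
    (Submodule.Quotient.eq _).1 h
  obtain ⟨r, hr, hr'⟩ := b_mem h1 i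
  have h2 : r = a i - b i := by
    apply NumberField.RingOfIntegers.ext
    rw [hr']
    rfl
  rw [← h2]
  exact hr

private theorem b_mk_add (a b : Fin 4 → 𝓞 K) : (b_mk (a + b) : b_Q l) = b_mk a + b_mk b := by
  unfold b_mk
  rw [b_emb_add]
  rfl

private theorem b_fin (l : Pl K) : Finite (b_Q l) :=
  fin_quot (oo_fg K 4) (pow_ne_zero 2 l.ne_bot)

private theorem b_cnt {Q A : Type} [Fintype Q] [Finite A] (S : Q → Prop) [DecidablePred S] (F : Q → A → Q)
    (h : ∀ c c', S c → S c' → ∀ a a', F c a = F c' a' → c = c' ∧ a = a') :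
    (Finset.univ.filter S).card * Nat.card A ≤ Fintype.card Q := by
  have : Fintype A := Fintype.ofFinite A
  rw [Nat.card_eq_fintype_card, ← Finset.card_univ (α := A), ← Finset.card_product, ← Finset.card_univ (α := Q)]
  refine Finset.card_le_card_of_injOn (fun x => F x.1 x.2) (fun _ _ => Finset.mem_univ _) ?_
  rintro ⟨c, a⟩ hx ⟨c', a'⟩ hy hxy
  have h1 := (Finset.mem_filter.1 (Finset.mem_product.1 (Finset.mem_coe.1 hx)).1).2
  have h2 := (Finset.mem_filter.1 (Finset.mem_product.1 (Finset.mem_coe.1 hy)).1).2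
  obtain ⟨h3, h4⟩ := h c c' h1 h2 a a' hxy
  exact Prod.ext h3 h4

private theorem b_finl (l : Pl K) : Finite (𝓞 K ⧸ l.asIdeal) :=
  Ideal.finiteQuotientOfFreeOfNeBot _ l.ne_bot

private theorem b_card1 (l : Pl K) : Nat.card (𝓞 K ⧸ l.asIdeal) = nm l := by
  have h := card_quot l 1
  rw [pow_one, pow_one] at h
  exact h

private theorem b_zero [Fintype (b_Q l)] :
    (Finset.univ.filter fun c : b_Q l => ∀ i, b_cf c i ∈ l.asIdeal).card * nm l ^ 4 ≤
      Fintype.card (b_Q l) := by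
  have := b_finl l
  have hc : Nat.card (Fin 4 → 𝓞 K ⧸ l.asIdeal) = nm l ^ 4 := by
    rw [Nat.card_fun, b_card1, Nat.card_eq_fintype_card, Fintype.card_fin]
  rw [← hc]
  refine b_cnt (A := Fin 4 → 𝓞 K ⧸ l.asIdeal) (fun c : b_Q l => ∀ i, b_cf c i ∈ l.asIdeal)
    (fun c a => c + b_mk (fun i => Quotient.out (a i))) ?_
  intro c c' hS hS' a a' h
  have h' : (b_mk (b_cf c + fun i => Quotient.out (a i)) : b_Q l) =
      b_mk (b_cf c' + fun i => Quotient.out (a' i)) := by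
    rw [b_mk_add (b_cf c), b_mk_add (b_cf c'), b_mk_cf, b_mk_cf]
    exact h
  have haa : a = a' := by
    funext i
    have h1 : (b_cf c i + Quotient.out (a i)) - (b_cf c' i + Quotient.out (a' i)) ∈ l.asIdeal :=
      Ideal.pow_le_self two_ne_zero (b_mk_eq h' i)
    have h2 : Quotient.out (a i) - Quotient.out (a' i) ∈ l.asIdeal := by
      have h3 : (Quotient.out (a i) : 𝓞 K) - Quotient.out (a' i) =
          ((b_cf c i + Quotient.out (a i)) - (b_cf c' i + Quotient.out (a' i))) - b_cf c i + b_cf c' i := by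
        ring
      rw [h3]
      exact Ideal.add_mem _ (Ideal.sub_mem _ h1 (hS i)) (hS' i)
    rw [← Ideal.Quotient.eq, Ideal.Quotient.mk_out, Ideal.Quotient.mk_out] at h2
    exact h2
  subst haa
  exact ⟨add_right_cancel h, rfl⟩

private theorem b_pt [Fintype (b_Q l)] (E g : (Fin 4 → 𝓞 K) →ₗ[𝓞 K] 𝓞 K) (e₁ e₂ : Fin 4 → 𝓞 K)
    (h1 : E e₁ = 1) (h2 : E e₂ = 0) (h3 : g e₂ = 1) :
    (Finset.univ.filter fun c : b_Q l => E (b_cf c) ∈ l.asIdeal ^ 2 ∧ g (b_cf c) ∈ l.asIdeal).card *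
      nm l ^ 3 ≤ Fintype.card (b_Q l) := by
  have := b_finl l
  have : Finite (𝓞 K ⧸ l.asIdeal ^ 2) :=
    Ideal.finiteQuotientOfFreeOfNeBot _ (pow_ne_zero 2 l.ne_bot)
  have hc : Nat.card ((𝓞 K ⧸ l.asIdeal ^ 2) × (𝓞 K ⧸ l.asIdeal)) = nm l ^ 3 := by
    rw [Nat.card_prod, b_card1, card_quot l 2, pow_succ (nm l) 2]
  rw [← hc]
  refine b_cnt (A := (𝓞 K ⧸ l.asIdeal ^ 2) × (𝓞 K ⧸ l.asIdeal))
    (fun c : b_Q l => E (b_cf c) ∈ l.asIdeal ^ 2 ∧ g (b_cf c) ∈ l.asIdeal)
    (fun c a => c + b_mk ((Quotient.out a.1 : 𝓞 K) • e₁ + (Quotient.out a.2 : 𝓞 K) • e₂)) ?_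
  rintro c c' ⟨hS1, hS2⟩ ⟨hS1', hS2'⟩ ⟨a, b⟩ ⟨a', b'⟩ h
  simp only at h
  have h' : (b_mk (b_cf c + ((Quotient.out a : 𝓞 K) • e₁ + (Quotient.out b : 𝓞 K) • e₂)) : b_Q l) =
      b_mk (b_cf c' + ((Quotient.out a' : 𝓞 K) • e₁ + (Quotient.out b' : 𝓞 K) • e₂)) := by
    rw [b_mk_add (b_cf c), b_mk_add (b_cf c'), b_mk_cf, b_mk_cf]
    exact h
  have hE := fun G : (Fin 4 → 𝓞 K) →ₗ[𝓞 K] 𝓞 K => b_lin_mem G (f := (b_cf c +
    ((Quotient.out a : 𝓞 K) • e₁ + (Quotient.out b : 𝓞 K) • e₂)) - (b_cf c' +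
    ((Quotient.out a' : 𝓞 K) • e₁ + (Quotient.out b' : 𝓞 K) • e₂))) (b_mk_eq h')
  have ha : a = a' := by
    have h4 := hE E
    rw [map_sub, map_add, map_add, map_add, map_add, map_smul, map_smul, map_smul, map_smul, h1, h2,
      smul_eq_mul, smul_eq_mul, smul_eq_mul, smul_eq_mul, mul_one, mul_zero, mul_one, mul_zero, add_zero,
      add_zero] at h4
    have h5 : Quotient.out a - Quotient.out a' ∈ l.asIdeal ^ 2 := by
      have h6 : (Quotient.out a : 𝓞 K) - Quotient.out a' =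
          (E (b_cf c) + Quotient.out a - (E (b_cf c') + Quotient.out a')) - E (b_cf c) + E (b_cf c') := by
        ring
      rw [h6]
      exact Ideal.add_mem _ (Ideal.sub_mem _ h4 hS1) hS1'
    rw [← Ideal.Quotient.eq, Ideal.Quotient.mk_out, Ideal.Quotient.mk_out] at h5
    exact h5
  subst ha
  have hb : b = b' := by
    have h4 := Ideal.pow_le_self two_ne_zero (hE g)
    rw [map_sub, map_add, map_add, map_add, map_add, map_smul, map_smul, map_smul, h3,
      smul_eq_mul, smul_eq_mul, smul_eq_mul, mul_one, mul_one] at h4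
    have h5 : Quotient.out b - Quotient.out b' ∈ l.asIdeal := by
      have h6 : (Quotient.out b : 𝓞 K) - Quotient.out b' =
          (g (b_cf c) + (Quotient.out a * g e₁ + Quotient.out b) -
            (g (b_cf c') + (Quotient.out a * g e₁ + Quotient.out b'))) - g (b_cf c) + g (b_cf c') := by
        ring
      rw [h6]
      exact Ideal.add_mem _ (Ideal.sub_mem _ h4 hS2) hS2'
    rw [← Ideal.Quotient.eq, Ideal.Quotient.mk_out, Ideal.Quotient.mk_out] at h5
    exact h5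
  subst hb
  exact ⟨add_right_cancel h, rfl⟩

private theorem b_ptA [Fintype (b_Q l)] (t : 𝓞 K) :
    (Finset.univ.filter fun c : b_Q l => b_P l.asIdeal (b_cf c) ![t, 1]).card *
      nm l ^ 3 ≤ Fintype.card (b_Q l) := by
  refine le_trans (Nat.mul_le_mul_right _ (Finset.card_le_card ?_))
    (b_pt (b_E ![t, 1]) (b_G0 ![t, 1]) ![0, 0, 0, 1] ![0, 0, 1, -t] ?_ ?_ ?_)
  · intro c hc
    rw [Finset.mem_filter] at hc ⊢
    exact ⟨hc.1, hc.2.1, hc.2.2.1⟩
  · simp [b_E, ev]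
  · simp [b_E, ev]
  · simp [b_G0, gr0]

private theorem b_ptB [Fintype (b_Q l)] :
    (Finset.univ.filter fun c : b_Q l => b_P l.asIdeal (b_cf c) ![1, 0]).card *
      nm l ^ 3 ≤ Fintype.card (b_Q l) := by
  refine le_trans (Nat.mul_le_mul_right _ (Finset.card_le_card ?_))
    (b_pt (b_E ![1, 0]) (b_G1 ![1, 0]) ![1, 0, 0, 0] ![0, 1, 0, 0] ?_ ?_ ?_)
  · intro c hc
    rw [Finset.mem_filter] at hc ⊢
    exact ⟨hc.1, hc.2.1, hc.2.2.2⟩
  · simp [b_E, ev]
  · simp [b_E, ev]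
  · simp [b_G1, gr1]

theorem nml_mean2 (l : Pl K) : mean (OO K 4) (l.asIdeal ^ 2) (fun f => if NML l f then 1 else 0) ≤
    1 / (nm l : ℝ) ^ 4 + (nm l + 1) / (nm l : ℝ) ^ 3 := by
  have hfin := b_fin l
  have : Fintype (b_Q l) := Fintype.ofFinite _
  have hfl := b_finl l
  have : Fintype (𝓞 K ⧸ l.asIdeal) := Fintype.ofFinite _
  have hq : (0 : ℝ) < nm l := by exact_mod_cast (lt_trans one_pos (one_lt_nm l))
  have hN : (0 : ℝ) < (Fintype.card (b_Q l) : ℝ) := by
    exact_mod_cast Fintype.card_pos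
  have hmean : mean (OO K 4) (l.asIdeal ^ 2) (fun f => if NML l f then 1 else 0) =
      ((Finset.univ.filter fun c : b_Q l => NML l ((Quotient.out c : OO K 4) : Fin 4 → K)).card : ℝ) /
        (Fintype.card (b_Q l) : ℝ) := by
    unfold mean
    rw [finsum_eq_sum_of_fintype, Finset.sum_boole, Nat.card_eq_fintype_card]
  rw [hmean, div_le_iff₀ hN]
  have hsub : (Finset.univ.filter fun c : b_Q l => NML l ((Quotient.out c : OO K 4) : Fin 4 → K)) ⊆
      (Finset.univ.filter fun c : b_Q l => ∀ i, b_cf c i ∈ l.asIdeal) ∪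
        ((Finset.univ.biUnion fun t : 𝓞 K ⧸ l.asIdeal => Finset.univ.filter fun c : b_Q l =>
          b_P l.asIdeal (b_cf c) ![Quotient.out t, 1]) ∪
        (Finset.univ.filter fun c : b_Q l => b_P l.asIdeal (b_cf c) ![1, 0])) := by
    intro c hc
    have h1 := (Finset.mem_filter.1 hc).2
    rw [← b_cf_spec c] at h1
    rw [Finset.mem_union, Finset.mem_union, Finset.mem_biUnion]
    rcases b_nml h1 with h2 | ⟨t, h2⟩ | h2
    · exact Or.inl (Finset.mem_filter.2 ⟨Finset.mem_univ _, h2⟩)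
    · exact Or.inr (Or.inl ⟨t, Finset.mem_univ _, Finset.mem_filter.2 ⟨Finset.mem_univ _, h2⟩⟩)
    · exact Or.inr (Or.inr (Finset.mem_filter.2 ⟨Finset.mem_univ _, h2⟩))
  have hcard := (Finset.card_le_card hsub).trans ((Finset.card_union_le _ _).trans
    (Nat.add_le_add_left ((Finset.card_union_le _ _).trans
      (Nat.add_le_add_right Finset.card_biUnion_le _)) _))
  have hA : ∀ {m k : ℕ}, m * nm l ^ k ≤ Fintype.card (b_Q l) →
      (m : ℝ) ≤ (Fintype.card (b_Q l) : ℝ) / (nm l : ℝ) ^ k := by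
    intro m k h
    rw [le_div_iff₀ (pow_pos hq k)]
    exact_mod_cast h
  have h0 := hA (b_zero (l := l))
  have h1 := hA (b_ptB (l := l))
  have h2 : ∀ t : 𝓞 K ⧸ l.asIdeal, ((Finset.univ.filter fun c : b_Q l =>
      b_P l.asIdeal (b_cf c) ![Quotient.out t, 1]).card : ℝ) ≤
        (Fintype.card (b_Q l) : ℝ) / (nm l : ℝ) ^ 3 := fun t => hA (b_ptA _)
  have h3 : ((∑ t : 𝓞 K ⧸ l.asIdeal, (Finset.univ.filter fun c : b_Q l =>
      b_P l.asIdeal (b_cf c) ![Quotient.out t, 1]).card : ℕ) : ℝ) ≤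
        nm l * ((Fintype.card (b_Q l) : ℝ) / (nm l : ℝ) ^ 3) := by
    rw [Nat.cast_sum]
    refine (Finset.sum_le_sum fun t _ => h2 t).trans ?_
    rw [Finset.sum_const, Finset.card_univ, nsmul_eq_mul, ← Nat.card_eq_fintype_card, b_card1]
  have hcard' : ((Finset.univ.filter fun c : b_Q l =>
      NML l ((Quotient.out c : OO K 4) : Fin 4 → K)).card : ℝ) ≤ _ := Nat.cast_le.2 hcard
  push_cast at hcard' h3
  refine hcard'.trans ?_
  refine (add_le_add h0 (add_le_add h3 h1)).trans (le_of_eq ?_)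
  ring

end H77.MF
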