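import Pool.Agent.H77.MF.Nm2b
import Pool.Agent.H77.MF.Nm3b

/-!
# MF-NM3C: the density of `NM l Λ` (row: SX MF NM3C)

`q = nm l ≥ 2`. `V₄ = OO K 4`.
* `nml_mean3`: `nml_mean2` and `mean_lvl` (`Per` by `per_univ`, `nml_cg`, `vl_oo`/`oo_fg`, `loceq_refl`).
* `nm_dens`: `(v, w)` a basis of `Λ` at `l` (`bas_ex`), `e = gf v w` as a `K`-linear automorphism of `K⁴` (inverse by `gf_gf` and the inverse matrix), `V' = e(VL Λ)` is finitely generated and locally `𝓞⁴` at `l` (`vl_lc`, `lc_oo`).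
  `mean (VL Λ) l³ 1_NM = mean (VL Λ) l³ (1_NML ∘ e)` (`nm_bas`, `mean_congr`) `= mean V' l³ 1_NML` (`mean_map`, `per_univ`) `= mean V₄ l³ 1_NML` (`mean_univ`, `nml_cg`) `= mean V₄ l² ..` (`mean_lvl`).
* `M0_bd`: `M0 = 1 - mean ..`.
  `1/q⁴ + (q+1)/q³ ≤ 3/q²` and `≤ 1/16 + 3/8 ≤ 3/4` for `q ≥ 2` (`one_lt_nm`).
-/

set_option autoImplicit false

open scoped NumberField Classical
open IsDedekindDomain H38.ML H63.MA H67.SX

noncomputable section

namespace H77.MF

variable {K : Type} [Field K] [NumberField K] {l : Pl K} {Λ : Submodule (𝓞 K) (Fin 2 → K)}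

private theorem pow_ne_bot (l : Pl K) (k : ℕ) : l.asIdeal ^ k ≠ ⊥ := pow_ne_zero k l.ne_bot

private theorem nml_univ (l : Pl K) (k : ℕ) (hk : 2 ≤ k) (f g : Fin 4 → K) (hf : In l f)
    (h : Cg l k g f) : (if NML l g then (1 : ℝ) else 0) = if NML l f then 1 else 0 := by
  have h2 : Cg l 2 g f := by
    intro i
    refine (h i).trans ?_
    rw [WithZero.exp_le_exp]
    have : (2 : ℤ) ≤ (k : ℤ) := by exact_mod_cast hk
    push_cast
    omega
  simp only [nml_cg hf h2]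

private theorem q2 (l : Pl K) : (2 : ℝ) ≤ (nm l : ℝ) := by
  have := one_lt_nm l
  exact_mod_cast this

private theorem three_q {q : ℝ} (hq : 2 ≤ q) : 1 / q ^ 4 + (q + 1) / q ^ 3 ≤ 3 / q ^ 2 := by
  have hq0 : 0 < q := by linarith
  have e1 : 1 / q ^ 4 + (q + 1) / q ^ 3 = (1 + (q + 1) * q) / q ^ 4 := by
    field_simp
  have e2 : 3 / q ^ 2 = (3 * q ^ 2) / q ^ 4 := by
    field_simp
  rw [e1, e2]
  refine div_le_div_of_nonneg_right ?_ (by positivity)
  nlinarith

theorem nml_mean3 (l : Pl K) : mean (OO K 4) (l.asIdeal ^ 3) (fun f => if NML l f then 1 else 0) ≤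
    1 / (nm l : ℝ) ^ 4 + (nm l + 1) / (nm l : ℝ) ^ 3 := by
  rw [mean_lvl (J₁ := l.asIdeal ^ 2) (oo_fg K 4) (pow_ne_bot l 2) (pow_ne_bot l 3)
    (Ideal.pow_le_pow_right (by norm_num))
    (per_univ (loceq_refl _) fun f g hf h => nml_univ l 2 le_rfl f g hf h)]
  exact nml_mean2 l

/-- the map `gf v w` as a linear automorphism -/
private theorem gf_equiv {v w : Fin 2 → K} (h : dt v w ≠ 0) :
    ∃ e : (Fin 4 → K) ≃ₗ[K] (Fin 4 → K), ∀ f, e f = gf v w f := by
  let T : (Fin 4 → K) →ₗ[K] (Fin 4 → K) :=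
    { toFun := gf v w
      map_add' := fun f g => gf_add f g v w
      map_smul' := fun r f => gf_smul r f v w }
  have hT : Function.Injective T := by
    intro f g hfg
    have hfg' : gf v w f = gf v w g := hfg
    have h1 := gf_gf h (co v w ![1, 0]) (co v w ![0, 1]) f
    have h2 := gf_gf h (co v w ![1, 0]) (co v w ![0, 1]) g
    rw [cb_co h, cb_co h, gf_id] at h1 h2
    rw [h1, h2, hfg']
  exact ⟨LinearEquiv.ofInjectiveEndo T hT, fun f => rfl⟩

theorem nm_mean (hL : Lt Λ) (l : Pl K) :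
    mean (VL Λ) (l.asIdeal ^ 3) (fun f => if f ∈ NM l Λ then 1 else 0) =
      mean (OO K 4) (l.asIdeal ^ 3) (fun f => if NML l f then 1 else 0) := by
  obtain ⟨v, -, w, -, hb⟩ := bas_ex hL l
  obtain ⟨e, he⟩ := gf_equiv hb.nz
  have hmem : ∀ g : Fin 4 → K, g ∈ (VL Λ).map (e.toLinearMap.restrictScalars (𝓞 K)) ↔
      ∃ f ∈ VL Λ, gf v w f = g := by
    intro g
    rw [Submodule.mem_map]
    constructor
    · rintro ⟨f, hf, h1⟩
      refine ⟨f, hf, ?_⟩
      rw [← he]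
      exact h1
    · rintro ⟨f, hf, h1⟩
      refine ⟨f, hf, ?_⟩
      rw [← he] at h1
      exact h1
  have hloc : LocEq l ((VL Λ).map (e.toLinearMap.restrictScalars (𝓞 K))) (OO K 4) := by
    intro g
    constructor
    · rintro ⟨s, hs, hsg⟩
      rw [hmem] at hsg
      obtain ⟨f, hf, h1⟩ := hsg
      have h2 := vl_in hb hf
      rw [h1] at h2
      exact lc_cancel hs (lc_oo.2 h2)
    · intro hg
      have hg' := lc_oo.1 hg
      have h1 : gf v w (e.symm g) = g := by rw [← he, LinearEquiv.apply_symm_apply]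
      have h2 : Lc l (VL Λ) (e.symm g) := by
        rw [vl_lc hL hb, h1]
        exact hg'
      obtain ⟨s, hs, hsf⟩ := h2
      refine ⟨s, hs, ?_⟩
      rw [hmem]
      refine ⟨s • e.symm g, hsf, ?_⟩
      rw [gf_osmul, h1]
  have hφ : ∀ f g : Fin 4 → K, In l f → Cg l 3 g f →
      (fun f => if NML l f then (1 : ℝ) else 0) g = (fun f => if NML l f then (1 : ℝ) else 0) f :=
    fun f g hf h => nml_univ l 3 (by norm_num) f g hf h
  rw [← mean_univ ((vl_fg hL).map _) hloc hφ, mean_map (vl_fg hL) e (per_univ hloc hφ)]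
  refine mean_congr fun f hf => ?_
  simp only [he, nm_bas hL hb hf]

theorem nm_dens (hL : Lt Λ) (l : Pl K) :
    mean (VL Λ) (l.asIdeal ^ 3) (fun f => if f ∈ NM l Λ then 1 else 0) ≤ 3 / (nm l : ℝ) ^ 2 := by
  rw [nm_mean hL l]
  exact (nml_mean3 l).trans (three_q (q2 l))

theorem M0_bd (l : Pl K) : 1 / 4 ≤ M0 l ∧ M0 l ≤ 1 := by
  have hV := oo_fg K 4
  have hJ := pow_ne_bot l 3
  have h1 : M0 l = 1 - mean (OO K 4) (l.asIdeal ^ 3) (fun f => if NML l f then 1 else 0) := by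
    have h2 := mean_sub (φ := fun _ => (1 : ℝ)) (ψ := fun f => if NML l f then (1 : ℝ) else 0) hV hJ
    rw [mean_const hV hJ] at h2
    rw [← h2]
    unfold M0
    refine mean_congr fun f _ => ?_
    by_cases h3 : NML l f
    · simp [h3]
    · simp [h3]
  have h3 : mean (OO K 4) (l.asIdeal ^ 3) (fun f => if NML l f then 1 else 0) ≤ 3 / 4 := by
    refine (nml_mean3 l).trans ((three_q (q2 l)).trans ?_)
    have := q2 l
    rw [div_le_div_iff₀ (by positivity) (by norm_num)]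
    nlinarith
  have h4 : 0 ≤ mean (OO K 4) (l.asIdeal ^ 3) (fun f => if NML l f then (1 : ℝ) else 0) := by
    have h5 := mean_mono (φ := fun _ => (0 : ℝ)) (ψ := fun f => if NML l f then (1 : ℝ) else 0) hV hJ
      (fun f _ => by
        show (0 : ℝ) ≤ if NML l f then (1 : ℝ) else 0
        split_ifs <;> norm_num)
    rwa [mean_const hV hJ] at h5
  rw [h1]
  constructor <;> linarith

end H77.MF
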