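import Pool.Agent.H77.MF.Mu2
import Pool.Agent.H77.MF.Nm3c

/-!
# MF-MU3: the mean value `M1` (row: SX MF MU3)

`q = nm l`, `6 ∉ l` (so `q ≥ 5`; `q ≥ 2` is enough), `k = 𝓞/l`, `Nat.card k = q`.
* `M1_bd`: let `φ = MU l` (`φ g = rt ḡ - [disc ḡ = 0] - 1`: `MU_eq`, `mu0_eq`). `M1 = mean_(l³) ((1 - 1_NML) φ) = mean_l φ - mean_(l³) (1_NML φ)` (`mean_lvl`, `mean_sub`). `mean_l φ = (q+1)/q - 1 - #{disc = 0}/q⁴`, so
  `|mean φ| ≤ 3/q`. `|1_NML φ| ≤ 2 · 1_NML + q · 1[ḡ = 0]` (`rt_le` for `ḡ ≠ 0`; `φ = q + 1 - 1 - 1` for `ḡ = 0`), mean at most `2 · (1/q⁴ + (q+1)/q³) + q · q⁻⁴` (`nml_mean3`; mean of `1[ḡ = 0]` is `q⁻⁴`) `≤ 8/q`.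
  So `|M1| ≤ 11/q`, `C = 11`. `-M0 ≤ M1`: `M0 + M1 = mean (1 - 1_NML)(φ + 1)`, `φ + 1 = rt ḡ - [disc ḡ = 0] ≥ 0` by `disc_root`, `rt_pos` (`mean_add`, `mean_mono`).
-/

set_option autoImplicit false

open scoped NumberField Classical
open IsDedekindDomain H38.ML H63.MA H67.SX

noncomputable section

namespace H77.MF

section help

variable {K : Type} [Field K] [NumberField K]

private theorem mu3_card (l : Pl K) : Nat.card (𝓞 K ⧸ l.asIdeal) = nm l := by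
  have h := card_quot l 1
  rwa [pow_one, pow_one] at h

private theorem mu3_fin (l : Pl K) : Finite (𝓞 K ⧸ l.asIdeal) := by
  refine Nat.finite_of_card_ne_zero ?_
  rw [mu3_card]
  have := one_lt_nm l
  omega

private theorem mu3_refl {n : ℕ} (l : Pl K) (k : ℕ) (f : Fin n → K) : Cg l k f f := by
  intro i
  rw [sub_self, map_zero]
  exact zero_le

private theorem mu3_MU (l : Pl K) (g : Fin 4 → 𝓞 K) : MU l (fun i => (g i : K)) =
    (rt (red l g) : ℝ) - (if disc (red l g) = 0 then 1 else 0) - 1 := by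
  rw [MU_eq (mu3_refl l 1 _), mu0_eq]

private theorem mu3_six {l : Pl K} (h6 : (6 : 𝓞 K) ∉ l.asIdeal) :
    (6 : 𝓞 K ⧸ l.asIdeal) ≠ 0 := by
  intro h
  apply h6
  rw [← Ideal.Quotient.eq_zero_iff_mem]
  rw [← h]
  exact map_ofNat (Ideal.Quotient.mk l.asIdeal) 6

private theorem mu3_per (l : Pl K) : Per (OO K 4) l.asIdeal (MU l) := by
  have h := per_univ (l := l) (k := 1) (n := 4) (V := OO K 4) (φ := MU l) (loceq_refl _)
    (fun f g hf hg => MU_cg hf hg)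
  rwa [pow_one] at h

private theorem mu3_per0 (l : Pl K) :
    Per (OO K 4) l.asIdeal (fun f => if Cg l 1 f 0 then 1 else 0) := by
  have h := per_univ (l := l) (k := 1) (n := 4) (V := OO K 4)
    (φ := fun f => if Cg l 1 f 0 then 1 else 0) (loceq_refl _)
    (fun f g hf hg => by
      have h1 : Cg l 1 g 0 ↔ Cg l 1 f 0 :=
        ⟨fun h => cg_trans (cg_symm hg) h, fun h => cg_trans hg h⟩
      simp only [h1])
  rwa [pow_one] at h

private theorem mu3_lvl (l : Pl K) {φ : (Fin 4 → K) → ℝ} (h : Per (OO K 4) l.asIdeal φ) :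
    mean (OO K 4) (l.asIdeal ^ 3) φ = mean (OO K 4) l.asIdeal φ :=
  mean_lvl (oo_fg K 4) l.ne_bot (pow_ne_zero 3 l.ne_bot) (Ideal.pow_le_self (by norm_num)) h

private theorem mu3_red0 (l : Pl K) (g : Fin 4 → 𝓞 K) :
    Cg l 1 (fun i => (g i : K)) 0 ↔ red l g = 0 := by
  constructor
  · intro h
    funext i
    have h1 := h i
    rw [Pi.zero_apply, sub_zero, ← val_pow_mem, pow_one] at h1
    exact Ideal.Quotient.eq_zero_iff_mem.2 h1
  · intro h i
    rw [Pi.zero_apply, sub_zero, ← val_pow_mem, pow_one]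
    exact Ideal.Quotient.eq_zero_iff_mem.1 (congrFun h i)

private theorem mu3_mean0 (l : Pl K) :
    mean (OO K 4) (l.asIdeal ^ 3) (fun f => if Cg l 1 f 0 then 1 else 0) = 1 / (nm l : ℝ) ^ 4 := by
  rw [mu3_lvl l (mu3_per0 l)]
  rw [mean_red l (ψ := fun g => if g = 0 then 1 else 0) (fun g => by
    simp only [mu3_red0])]
  congr 1
  rw [finsum_eq_single _ (0 : Fin 4 → 𝓞 K ⧸ l.asIdeal) (fun x hx => if_neg hx), if_pos rfl]

private theorem mu3_mean1 {l : Pl K} (h6 : (6 : 𝓞 K) ∉ l.asIdeal) :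
    |mean (OO K 4) (l.asIdeal ^ 3) (MU l)| ≤ 3 / nm l := by
  have := mu3_fin l
  have := Fintype.ofFinite (𝓞 K ⧸ l.asIdeal)
  have hq : (1 : ℝ) < nm l := by exact_mod_cast one_lt_nm l
  rw [mu3_lvl l (mu3_per l)]
  rw [mean_red l (ψ := fun g => (rt g : ℝ) - (if disc g = 0 then 1 else 0) - 1) (mu3_MU l)]
  have h1 : ∑ᶠ g : Fin 4 → 𝓞 K ⧸ l.asIdeal, ((rt g : ℝ) - (if disc g = 0 then 1 else 0) - 1) =
      (nm l : ℝ) ^ 3 - ({g : Fin 4 → 𝓞 K ⧸ l.asIdeal | disc g = 0}.ncard : ℝ) := by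
    have h2 := sum_rt (k := 𝓞 K ⧸ l.asIdeal)
    rw [finsum_eq_sum_of_fintype, mu3_card] at h2
    rw [finsum_eq_sum_of_fintype, Finset.sum_sub_distrib, Finset.sum_sub_distrib, h2]
    rw [Finset.sum_const, Finset.card_univ, ← Nat.card_eq_fintype_card, Nat.card_fun, mu3_card,
      Nat.card_eq_fintype_card, Fintype.card_fin]
    rw [Finset.sum_ite, Finset.sum_const_zero, add_zero, Finset.sum_const, nsmul_eq_mul, mul_one,
      Set.ncard_eq_toFinset_card', Set.toFinset_ofPred]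
    rw [nsmul_eq_mul]
    push_cast
    ring
  rw [h1]
  have h3 := sum_disc (k := 𝓞 K ⧸ l.asIdeal) (mu3_six h6)
  rw [mu3_card] at h3
  have h4 : ({g : Fin 4 → 𝓞 K ⧸ l.asIdeal | disc g = 0}.ncard : ℝ) ≤ 3 * (nm l : ℝ) ^ 3 := by
    exact_mod_cast h3
  have h5 : (0 : ℝ) ≤ ({g : Fin 4 → 𝓞 K ⧸ l.asIdeal | disc g = 0}.ncard : ℝ) := Nat.cast_nonneg _
  have h6 : (3 : ℝ) / nm l = 3 * (nm l : ℝ) ^ 3 / (nm l : ℝ) ^ 4 := by
    field_simp
  rw [h6, abs_div, abs_of_pos (by positivity : (0 : ℝ) < (nm l : ℝ) ^ 4)]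
  refine div_le_div_of_nonneg_right ?_ (by positivity)
  have h7 : (0 : ℝ) ≤ (nm l : ℝ) ^ 3 := by positivity
  rw [abs_le]
  constructor <;> linarith

private theorem mu3_abs (l : Pl K) (g : Fin 4 → 𝓞 K) : |MU l (fun i => (g i : K))| ≤
    2 + nm l * (if Cg l 1 (fun i => (g i : K)) 0 then 1 else 0) := by
  have := mu3_fin l
  rw [mu3_MU]
  simp only [mu3_red0]
  have hq : (1 : ℝ) < nm l := by exact_mod_cast one_lt_nm l
  by_cases h : red l g = 0
  · rw [if_pos h, h]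
    have h1 : (rt (0 : Fin 4 → 𝓞 K ⧸ l.asIdeal)) ≤ nm l + 1 := by
      rw [rt, if_pos (by rfl)]
      have h2 : {x : 𝓞 K ⧸ l.asIdeal | ev (0 : Fin 4 → 𝓞 K ⧸ l.asIdeal) ![x, 1] = 0}.ncard ≤
          nm l := by
        rw [← mu3_card l, ← Set.ncard_univ]
        exact Set.ncard_le_ncard (Set.subset_univ _) Set.finite_univ
      omega
    have h2 : ((rt (0 : Fin 4 → 𝓞 K ⧸ l.asIdeal) : ℕ) : ℝ) ≤ nm l + 1 := by exact_mod_cast h1
    have h3 : (0 : ℝ) ≤ ((rt (0 : Fin 4 → 𝓞 K ⧸ l.asIdeal) : ℕ) : ℝ) := Nat.cast_nonneg _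
    rw [abs_le]
    split_ifs <;> constructor <;> linarith
  · rw [if_neg h]
    have h1 := rt_le h
    have h2 : ((rt (red l g) : ℕ) : ℝ) ≤ 3 := by exact_mod_cast h1
    have h3 : (0 : ℝ) ≤ ((rt (red l g) : ℕ) : ℝ) := Nat.cast_nonneg _
    rw [abs_le]
    split_ifs <;> constructor <;> linarith

private theorem mu3_nonneg {l : Pl K} (h6 : (6 : 𝓞 K) ∉ l.asIdeal) (g : Fin 4 → 𝓞 K) :
    0 ≤ 1 + MU l (fun i => (g i : K)) := by
  have := mu3_fin l
  rw [mu3_MU]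
  have h3 : (0 : ℝ) ≤ ((rt (red l g) : ℕ) : ℝ) := Nat.cast_nonneg _
  split_ifs with h
  · obtain ⟨v, hv, hz⟩ := disc_root (mu3_six h6) h
    have h1 := rt_pos hv hz
    have h2 : (1 : ℝ) ≤ ((rt (red l g) : ℕ) : ℝ) := by exact_mod_cast h1
    linarith
  · linarith

private theorem mu3_oo {f : Fin 4 → K} (hf : f ∈ OO K 4) : ∃ g : Fin 4 → 𝓞 K,
    f = fun i => (g i : K) := by
  choose g hg using hf
  exact ⟨g, funext fun i => (hg i).symm⟩

private theorem mu3_nml (l : Pl K) :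
    |mean (OO K 4) (l.asIdeal ^ 3) (fun f => if NML l f then MU l f else 0)| ≤
      2 * (1 / (nm l : ℝ) ^ 4 + (nm l + 1) / (nm l : ℝ) ^ 3) + nm l * (1 / (nm l : ℝ) ^ 4) := by
  have hV := oo_fg K 4
  have hJ : l.asIdeal ^ 3 ≠ ⊥ := pow_ne_zero 3 l.ne_bot
  have hq : (1 : ℝ) < nm l := by exact_mod_cast one_lt_nm l
  have e : mean (OO K 4) (l.asIdeal ^ 3) (fun f => 2 * (if NML l f then 1 else 0) +
      nm l * (if Cg l 1 f 0 then 1 else 0)) ≤
      2 * (1 / (nm l : ℝ) ^ 4 + (nm l + 1) / (nm l : ℝ) ^ 3) + nm l * (1 / (nm l : ℝ) ^ 4) := by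
    rw [mean_add (φ := fun f => 2 * (if NML l f then 1 else 0))
      (ψ := fun f => (nm l : ℝ) * (if Cg l 1 f 0 then 1 else 0)) hV hJ, mean_smul, mean_smul,
      mu3_mean0]
    have := nml_mean3 l
    linarith
  have hb : ∀ f ∈ OO K 4, |(if NML l f then MU l f else 0)| ≤ 2 * (if NML l f then 1 else 0) +
      nm l * (if Cg l 1 f 0 then 1 else 0) := by
    intro f hf
    obtain ⟨g, rfl⟩ := mu3_oo hf
    by_cases h : NML l (fun i => (g i : K))
    · rw [if_pos h, if_pos h, mul_one]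
      exact mu3_abs l g
    · rw [if_neg h, if_neg h, abs_zero]
      have h0 : (0 : ℝ) ≤ if Cg l 1 (fun i => (g i : K)) 0 then 1 else 0 := by
        split_ifs <;> norm_num
      have h1 : (0 : ℝ) ≤ nm l * (if Cg l 1 (fun i => (g i : K)) 0 then 1 else 0) :=
        mul_nonneg (by linarith) h0
      linarith
  rw [abs_le]
  constructor
  · have h1 : mean (OO K 4) (l.asIdeal ^ 3) (fun f => (-1 : ℝ) * (if NML l f then MU l f else 0)) ≤
        mean (OO K 4) (l.asIdeal ^ 3) (fun f => 2 * (if NML l f then 1 else 0) +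
          nm l * (if Cg l 1 f 0 then 1 else 0)) :=
      mean_mono hV hJ (fun f hf => by
        have := (abs_le.1 (hb f hf)).1
        linarith)
    rw [mean_smul] at h1
    linarith
  · exact (mean_mono hV hJ (fun f hf => (abs_le.1 (hb f hf)).2)).trans e

end help

theorem M1_bd (K : Type) [Field K] [NumberField K] : ∃ C : ℝ, 1 ≤ C ∧ ∀ l : Pl K,
    (6 : 𝓞 K) ∉ l.asIdeal → |M1 l| ≤ C / nm l ∧ -M0 l ≤ M1 l := by
  refine ⟨11, by norm_num, fun l h6 => ?_⟩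
  have hV := oo_fg K 4
  have hJ : l.asIdeal ^ 3 ≠ ⊥ := pow_ne_zero 3 l.ne_bot
  have hq : (2 : ℝ) ≤ nm l := by exact_mod_cast one_lt_nm l
  constructor
  · have h1 : M1 l = mean (OO K 4) (l.asIdeal ^ 3) (MU l) -
        mean (OO K 4) (l.asIdeal ^ 3) (fun f => if NML l f then MU l f else 0) := by
      rw [← mean_sub hV hJ, M1]
      refine mean_congr fun f _ => ?_
      split_ifs <;> ring
    rw [h1]
    have h2 := mu3_mean1 h6
    have h3 := mu3_nml l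
    have h4 : 2 * (1 / (nm l : ℝ) ^ 4 + (nm l + 1) / (nm l : ℝ) ^ 3) + nm l * (1 / (nm l : ℝ) ^ 4) ≤
        8 / nm l := by
      have e : 8 / (nm l : ℝ) - (2 * (1 / (nm l : ℝ) ^ 4 + (nm l + 1) / (nm l : ℝ) ^ 3) +
          nm l * (1 / (nm l : ℝ) ^ 4)) =
          (8 * (nm l : ℝ) ^ 3 - 2 * (nm l : ℝ) ^ 2 - 3 * nm l - 2) / (nm l : ℝ) ^ 4 := by
        field_simp
        ring
      have h5 : 0 ≤ (8 * (nm l : ℝ) ^ 3 - 2 * (nm l : ℝ) ^ 2 - 3 * nm l - 2) / (nm l : ℝ) ^ 4 := by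
        refine div_nonneg ?_ (by positivity)
        nlinarith [mul_nonneg (by linarith : (0 : ℝ) ≤ nm l) (by linarith : (0 : ℝ) ≤ nm l - 2),
          mul_nonneg (mul_nonneg (by linarith : (0 : ℝ) ≤ nm l) (by linarith : (0 : ℝ) ≤ nm l))
            (by linarith : (0 : ℝ) ≤ nm l - 2)]
      linarith
    have h5 : (3 : ℝ) / nm l + 8 / nm l = 11 / nm l := by ring
    refine (abs_sub _ _).trans ?_
    linarith
  · have h1 : M0 l + M1 l = mean (OO K 4) (l.asIdeal ^ 3) (fun f => (if NML l f then 0 else 1) +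
        (if NML l f then 0 else MU l f)) := by
      rw [mean_add (φ := fun f => if NML l f then 0 else 1)
        (ψ := fun f => if NML l f then 0 else MU l f) hV hJ, M0, M1]
    have h2 : mean (OO K 4) (l.asIdeal ^ 3) (fun _ => (0 : ℝ)) ≤
        mean (OO K 4) (l.asIdeal ^ 3) (fun f => (if NML l f then 0 else 1) +
          (if NML l f then 0 else MU l f)) := by
      refine mean_mono hV hJ fun f hf => ?_
      obtain ⟨g, rfl⟩ := mu3_oo hf
      split_ifs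
      · norm_num
      · exact mu3_nonneg h6 g
    rw [mean_const hV hJ] at h2
    linarith

end H77.MF
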