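import Pool.Agent.H77.MF.Kd
import Pool.Agent.H77.MF.Cf
import Pool.Agent.H77.MF.Mu1
import Pool.Agent.H77.MF.Or3

/-!
# MF-MU4: the number of the primes over `l` and `MU` (row: SX MF MU4)

`Lv f w`, `6 ∉ l`, `LF w` locally `𝓞²` at `l`; `q = nm l ≥ 5`.
(1) `In l f`, not `NML l f`: `f ∈ VL (LF w)` (`lf_vl`), `(e₁, e₂)` is a basis of `LF w` at `l` (`bas_oo`, `bas_loc`): `vl_in`, `gf_id`; `nm_loc` (with `LocEq` reflexive) and `nm_iff`.
(2) Approximate `f` by `g ∈ 𝓞⁴` mod `l` (`approx`): `ḡ ≠ 0` (first alternative of `NML`). By `nonroot` (`q ≥ 4`) there is `v̄ ∈ k²` with `ev ḡ v̄ ≠ 0`; lift to `p ∈ 𝓞²`, `v(ev f p) = 1`, `p` is primitive; `compl`: `q₀` with `v(dt p q₀) = 1`.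
(3) New frame (`lv_pull`): `Lv (gf p q₀ f) u`, `f' = gf p q₀ f`, `v(f' 0) = 1` (`f' 0 = ev f p / dt`), `LF u` is locally `𝓞²` (`lf_change`: `x ∈ LF u ↔ cb p q₀ x ∈ LF w`; `Lc`: `cb p q₀ x` is `In l` iff `x` is). `MU l f' = MU l f` (`MU_gf`).
(4) Choose `s ∉ l` with `s f' i ∈ 𝓞` for all `i` (`val_frac`, product). `lv_pull` with `(s,0), (0,s)` (or directly): `Lv (s • f') (s u + const)`; in fact `(s u₀, s u₁)` satisfies the table of `s • f'`: check `h00`: `s² u₀² = - (sa)(sc) - (sb)(s u₀) + (sa)(s u₁)`. So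
 WLOG `f ∈ 𝓞⁴`, `f 0 ∉ l` (`MU_smul`), `LF` is still locally `𝓞²`. Write `f = (a,b,c,d)` with `a, b, c, d ∈ 𝓞`.
(5) `θ = w 0` is integral (`lv_cub`), a root of `P = X³ + bX² + acX + a²d ∈ 𝓞[X]`, which is its minimal polynomial over `𝓞 K` (`minpoly.isIntegrallyClosed_eq_field_fractions'`; over `K` the degree is 3: `w 0 ∉ K`, `quad`). Conductor: `z ∈ 𝓞 F`: `z = k + lin w v`, `v ∈ LF w`, so
 `t v ∈ 𝓞²` for some `t ∉ l`; `t z - lin w (t v) = t k ∈ K` is integral; `t z ∈ 𝓞 + 𝓞 w₀ + 𝓞 w₁` (`w₁` is integral too), `a w₁ = w₀² + b w₀ + ac ∈ 𝓞[w₀]`: `a t z ∈ 𝓞[θ]`. `𝓞 F` is a finite `𝓞 K`-module: one `t` for all generators (product). `s = a t ∉ l`.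
(6) `kd` with `ρ = Ideal.Quotient.mk l` (field structure of `Mu1`): `c.np l = n`, number of different factors of `P̄ = X³ + b̄X² + āc̄X + ā²d̄`. `cubic_count`: `c.lam l = 2^(n-1) - 1 = r - δ`, `r` = number of roots of `P̄`, which is the number of `x` with `ev f̄ (x, 1) = 0`
 (`X = ā x`: `P̄(āx) = ā² ev f̄ (x,1)`, `ā ≠ 0`), `f̄ 0 ≠ 0`: `rt f̄ = r`; `δ`: `disc (1, b, ac, a²d) = a² disc f`. So `mu0_eq`, `MU_eq`: `MU l f = r - δ - 1 = c.lam l - 1 = c.mu l`.
`np_pos`-remark: `c.np l` and `n ≥ 1`: the exponent `np - 1` in `lam` is natural subtraction, the same in `cubic_count`.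
-/

set_option autoImplicit false

open scoped NumberField Classical
open IsDedekindDomain H38.ML H63.MA H67.SX

noncomputable section

namespace H77.MF

section np

open Polynomial

variable {K F : Type} [Field K] [NumberField K] [Field F] [NumberField F] [Algebra K F]

omit [NumberField F] in
private theorem int0 {g : Fin 4 → 𝓞 K} {w : Fin 2 → F} (h : Lv (fun i => (g i : K)) w) :
    IsIntegral ℤ (w 0) := by
  have h1 : IsIntegral (𝓞 K) (w 0) := by
    refine ⟨X ^ 3 + C (g 1) * X ^ 2 + C (g 0 * g 2) * X + C (g 0 ^ 2 * g 3), by monicity!, ?_⟩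
    have h2 := (lv_cub h).1
    simp only [eval₂_add, eval₂_mul, eval₂_pow, eval₂_X, eval₂_C]
    rw [← h2]
    rfl
  exact isIntegral_trans (R := ℤ) (A := 𝓞 K) (w 0) h1

omit [NumberField F] in
private theorem int1 {g : Fin 4 → 𝓞 K} {w : Fin 2 → F} (h : Lv (fun i => (g i : K)) w) :
    IsIntegral ℤ (w 1) := by
  have h1 : IsIntegral (𝓞 K) (w 1) := by
    refine ⟨X ^ 3 + C (-g 2) * X ^ 2 + C (g 1 * g 3) * X + C (-(g 0 * g 3 ^ 2)), by monicity!, ?_⟩
    have h2 := (lv_cub h).2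
    simp only [eval₂_add, eval₂_mul, eval₂_pow, eval₂_X, eval₂_C]
    have e1 : algebraMap (𝓞 K) F (-g 2) = - algebraMap K F (g 2 : K) := by
      rw [map_neg]
      rfl
    have e2 : algebraMap (𝓞 K) F (-(g 0 * g 3 ^ 2)) =
        - algebraMap K F ((g 0 : K) * (g 3 : K) ^ 2) := by
      rw [map_neg]
      rfl
    have e3 : algebraMap (𝓞 K) F (g 1 * g 3) = algebraMap K F ((g 1 : K) * (g 3 : K)) := rfl
    rw [e1, e2, e3]
    linear_combination h2
  exact isIntegral_trans (R := ℤ) (A := 𝓞 K) (w 1) h1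

omit [NumberField F] in
private theorem minp (hd : Module.finrank K F = 3) {g : Fin 4 → 𝓞 K} {w : Fin 2 → F}
    (h : Lv (fun i => (g i : K)) w) (θ : 𝓞 F) (hθ : (θ : F) = w 0) :
    minpoly (𝓞 K) θ =
      X ^ 3 + C (g 1) * X ^ 2 + C (g 0 * g 2) * X + C (g 0 ^ 2 * g 3) := by
  obtain ⟨P, hP⟩ : ∃ P : (𝓞 K)[X], P =
    X ^ 3 + C (g 1) * X ^ 2 + C (g 0 * g 2) * X + C (g 0 ^ 2 * g 3) := ⟨_, rfl⟩
  have hPm : P.Monic := by rw [hP]; monicity!
  have hPd : P.natDegree = 3 := by rw [hP]; compute_degree!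
  have hint : IsIntegral (𝓞 K) θ := Algebra.IsIntegral.isIntegral θ
  have haev : aeval θ P = 0 := by
    apply FaithfulSMul.algebraMap_injective (𝓞 F) F
    rw [map_zero, ← aeval_algebraMap_apply]
    change aeval (θ : F) P = 0
    rw [hθ, hP]
    have h2 := (lv_cub h).1
    simp only [map_add, map_mul, map_pow, aeval_X, aeval_C]
    rw [← h2]
    simp only [map_mul, map_pow]
    rfl
  have hdiv : minpoly (𝓞 K) θ ∣ P := minpoly.isIntegrallyClosed_dvd hint haev
  have hff : minpoly K (algebraMap (𝓞 F) F θ) = (minpoly (𝓞 K) θ).map (algebraMap (𝓞 K) K) :=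
    minpoly.isIntegrallyClosed_eq_field_fractions K F hint
  have hdeg : (minpoly (𝓞 K) θ).natDegree = (minpoly K (w 0)).natDegree := by
    have h1 : algebraMap (𝓞 F) F θ = w 0 := hθ
    rw [← h1, hff, (minpoly.monic hint).natDegree_map]
  have hfd : FiniteDimensional K F := FiniteDimensional.of_finrank_pos (by rw [hd]; norm_num)
  have h3 : 3 ≤ (minpoly K (w 0)).natDegree := by
    have h4 : (minpoly K (w 0)).natDegree ∣ 3 := by
      rw [← hd]
      exact minpoly.degree_dvd (Algebra.IsIntegral.isIntegral (w 0))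
    rcases (Nat.dvd_prime Nat.prime_three).1 h4 with h5 | h5
    · exact absurd (minpoly.natDegree_eq_one_iff.1 h5) h.non
    · rw [h5]
  rw [← hP]
  exact (Polynomial.eq_of_monic_of_dvd_of_natDegree_le (minpoly.monic hint) hPm hdiv
    (by rw [hPd, hdeg]; exact h3)).symm

private theorem cond (hd : Module.finrank K F = 3) {l : Pl K} {g : Fin 4 → 𝓞 K}
    {w : Fin 2 → F} (h : Lv (fun i => (g i : K)) w) (h0 : g 0 ∉ l.asIdeal)
    (hl : LocEq l (LF w) (OO K 2)) (θ : 𝓞 F) (hθ : (θ : F) = w 0) :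
    ∃ s : 𝓞 K, s ∉ l.asIdeal ∧ ∀ z : 𝓞 F, s • z ∈ Algebra.adjoin (𝓞 K) {θ} := by
  obtain ⟨θ₁, hθ₁⟩ : ∃ θ₁ : 𝓞 F, (θ₁ : F) = w 1 := ⟨⟨w 1, int1 h⟩, rfl⟩
  have hθm : θ ∈ Algebra.adjoin (𝓞 K) {θ} := Algebra.self_mem_adjoin_singleton _ _
  have ha1 : g 0 • θ₁ ∈ Algebra.adjoin (𝓞 K) {θ} := by
    have e : g 0 • θ₁ = θ * θ + g 1 • θ + algebraMap (𝓞 K) (𝓞 F) (g 0 * g 2) := by
      apply FaithfulSMul.algebraMap_injective (𝓞 F) F
      rw [Algebra.smul_def, Algebra.smul_def]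
      simp only [map_add, map_mul]
      have h1 := h.h00
      have e1 : algebraMap (𝓞 F) F θ = w 0 := hθ
      have e2 : algebraMap (𝓞 F) F θ₁ = w 1 := hθ₁
      have e3 : ∀ r : 𝓞 K, algebraMap (𝓞 F) F (algebraMap (𝓞 K) (𝓞 F) r) =
        algebraMap K F (r : K) := fun r => rfl
      rw [e1, e2, e3, e3, e3, h1, map_neg, map_mul]
      ring
    rw [e]
    exact add_mem (add_mem (mul_mem hθm hθm) (Subalgebra.smul_mem _ hθm _))
      (Subalgebra.algebraMap_mem _ _)
  have hone : ∀ z : 𝓞 F, ∃ s : 𝓞 K, s ∉ l.asIdeal ∧ s • z ∈ Algebra.adjoin (𝓞 K) {θ} := by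
    intro z
    obtain ⟨k, v, hz⟩ := lv_span hd h (z : F)
    have hv : v ∈ LF w := ⟨k, by rw [← hz]; exact z.isIntegral_coe⟩
    obtain ⟨t, ht, h1⟩ := (hl v).1 (lc_mem hv)
    obtain ⟨α, hα⟩ := h1 0
    obtain ⟨β, hβ⟩ := h1 1
    have e0 : (t : K) * v 0 = α := by
      rw [hα, Pi.smul_apply, Algebra.smul_def]
    have e1 : (t : K) * v 1 = β := by
      rw [hβ, Pi.smul_apply, Algebra.smul_def]
    have e2 : ((t • z - α • θ - β • θ₁ : 𝓞 F) : F) = algebraMap K F ((t : K) * k) := by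
      have e3 : ((t • z - α • θ - β • θ₁ : 𝓞 F) : F) =
          algebraMap K F (t : K) * (z : F) - algebraMap K F (α : K) * (θ : F) -
            algebraMap K F (β : K) * (θ₁ : F) := by
        rw [Algebra.smul_def, Algebra.smul_def, Algebra.smul_def]
        rfl
      rw [e3, hz, hθ, hθ₁, ← e0, ← e1]
      simp only [lin, map_mul]
      ring
    have e4 : IsIntegral ℤ ((t : K) * k) := by
      have h2 : IsIntegral ℤ (algebraMap K F ((t : K) * k)) := by
        rw [← e2]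
        exact NumberField.RingOfIntegers.isIntegral_coe _
      exact (isIntegral_algebraMap_iff (algebraMap K F).injective).1 h2
    obtain ⟨κ, hκ⟩ : ∃ κ : 𝓞 K, (κ : K) = (t : K) * k := ⟨⟨_, e4⟩, rfl⟩
    have e5 : t • z = algebraMap (𝓞 K) (𝓞 F) κ + α • θ + β • θ₁ := by
      have e6 : t • z - α • θ - β • θ₁ = algebraMap (𝓞 K) (𝓞 F) κ := by
        apply FaithfulSMul.algebraMap_injective (𝓞 F) F
        change ((t • z - α • θ - β • θ₁ : 𝓞 F) : F) = algebraMap K F (κ : K)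
        rw [e2, hκ]
      linear_combination e6
    refine ⟨g 0 * t, fun h3 => (l.isPrime.mem_or_mem h3).elim h0 ht, ?_⟩
    rw [mul_smul, e5, smul_add, smul_add, smul_comm (g 0) β θ₁]
    exact add_mem (add_mem (Subalgebra.smul_mem _ (Subalgebra.algebraMap_mem _ _) _)
      (Subalgebra.smul_mem _ (Subalgebra.smul_mem _ hθm _) _)) (Subalgebra.smul_mem _ ha1 _)
  have hfin : Module.Finite (𝓞 K) (𝓞 F) := inferInstance
  obtain ⟨G, hG⟩ := hfin.fg_top
  choose s hs1 hs2 using hone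
  refine ⟨∏ z ∈ G, s z, ?_, ?_⟩
  · intro h2
    have := l.isPrime
    rw [Ideal.IsPrime.prod_mem_iff] at h2
    obtain ⟨z, -, h3⟩ := h2
    exact hs1 z h3
  · intro z
    have hz : z ∈ Submodule.span (𝓞 K) (G : Set (𝓞 F)) := by
      rw [hG]
      exact Submodule.mem_top
    induction hz using Submodule.span_induction with
    | mem x hx =>
      rw [← Finset.prod_erase_mul _ _ (Finset.mem_coe.1 hx), mul_smul]
      exact Subalgebra.smul_mem _ (hs2 x) _
    | zero =>
      rw [smul_zero]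
      exact zero_mem _
    | add x y _ _ hx hy =>
      rw [smul_add]
      exact add_mem hx hy
    | smul r x _ hx =>
      rw [smul_comm]
      exact Subalgebra.smul_mem _ hx _

end np

/-- steps (5), (6), for general number fields -/
theorem np_int {K F : Type} [Field K] [NumberField K] [Field F] [NumberField F] [Algebra K F]
    (hd : Module.finrank K F = 3) {l : Pl K} (h6 : (6 : 𝓞 K) ∉ l.asIdeal) {g : Fin 4 → 𝓞 K}
    {w : Fin 2 → F} (h : Lv (fun i => (g i : K)) w) (h0 : g 0 ∉ l.asIdeal)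
    (hl : LocEq l (LF w) (OO K 2)) :
    (2 : ℝ) ^ ({P : Pl F | Over P l}.ncard - 1) - 1 - 1 = mu0 l g := by
  obtain ⟨θ, hθ⟩ : ∃ θ : 𝓞 F, (θ : F) = w 0 := ⟨⟨w 0, int0 h⟩, rfl⟩
  have hfk : Finite (𝓞 K ⧸ l.asIdeal) := Ideal.finiteQuotientOfFreeOfNeBot _ l.ne_bot
  have hkd := kd l (Ideal.Quotient.mk l.asIdeal) Ideal.Quotient.mk_surjective Ideal.mk_ker θ
    (cond hd h h0 hl θ hθ)
  rw [minp hd h θ hθ] at hkd
  have hmap : (Polynomial.X ^ 3 + Polynomial.C (g 1) * Polynomial.X ^ 2 +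
      Polynomial.C (g 0 * g 2) * Polynomial.X + Polynomial.C (g 0 ^ 2 * g 3)).map
        (Ideal.Quotient.mk l.asIdeal) =
      Polynomial.X ^ 3 + Polynomial.C (red l g 1) * Polynomial.X ^ 2 +
      Polynomial.C (red l g 0 * red l g 2) * Polynomial.X +
        Polynomial.C (red l g 0 ^ 2 * red l g 3) := by
    simp only [Polynomial.map_add, Polynomial.map_mul, Polynomial.map_pow, Polynomial.map_X,
      Polynomial.map_C, map_mul, map_pow, red]
  rw [hmap] at hkd
  have h6' : (6 : 𝓞 K ⧸ l.asIdeal) ≠ 0 := by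
    intro h7
    apply h6
    rw [← Ideal.Quotient.eq_zero_iff_mem]
    rw [← h7]
    exact map_ofNat _ 6
  have ha : red l g 0 ≠ 0 := fun h7 => h0 (Ideal.Quotient.eq_zero_iff_mem.1 h7)
  have hcc := (cubic_count h6' (red l g 1) (red l g 0 * red l g 2)
    (red l g 0 ^ 2 * red l g 3)).2
  rw [← hkd] at hcc
  rw [hcc, mu0_eq]
  have hdisc : (disc ![1, red l g 1, red l g 0 * red l g 2, red l g 0 ^ 2 * red l g 3] = 0) ↔
      disc (red l g) = 0 := by
    have e : disc ![1, red l g 1, red l g 0 * red l g 2, red l g 0 ^ 2 * red l g 3] =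
        red l g 0 ^ 2 * disc (red l g) := by
      simp [disc]
      ring
    rw [e]
    constructor
    · intro h8
      exact (mul_eq_zero.1 h8).resolve_left (pow_ne_zero _ ha)
    · intro h8
      rw [h8, mul_zero]
  have hrt : {x : 𝓞 K ⧸ l.asIdeal | x ^ 3 + red l g 1 * x ^ 2 + red l g 0 * red l g 2 * x +
      red l g 0 ^ 2 * red l g 3 = 0}.ncard = rt (red l g) := by
    unfold rt
    rw [if_neg ha, add_zero]
    have e : {x : 𝓞 K ⧸ l.asIdeal | x ^ 3 + red l g 1 * x ^ 2 + red l g 0 * red l g 2 * x +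
      red l g 0 ^ 2 * red l g 3 = 0} = (fun y => red l g 0 * y) '' {x | ev (red l g) ![x, 1] = 0} := by
      have e1 : ∀ y, (red l g 0 * y) ^ 3 + red l g 1 * (red l g 0 * y) ^ 2 +
          red l g 0 * red l g 2 * (red l g 0 * y) + red l g 0 ^ 2 * red l g 3 =
          red l g 0 ^ 2 * ev (red l g) ![y, 1] := by
        intro y
        simp [ev]
        ring
      ext x
      simp only [Set.mem_ofPred_eq, Set.mem_image]
      constructor
      · intro hx
        refine ⟨(red l g 0)⁻¹ * x, ?_, mul_inv_cancel_left₀ ha x⟩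
        have e2 := e1 ((red l g 0)⁻¹ * x)
        rw [mul_inv_cancel_left₀ ha x, hx] at e2
        exact (mul_eq_zero.1 e2.symm).resolve_left (pow_ne_zero _ ha)
      · rintro ⟨y, hy, rfl⟩
        rw [e1, hy, mul_zero]
    rw [e, Set.InjOn.ncard_image]
    exact fun x _ y _ hxy => mul_left_cancel₀ ha hxy
  rw [hrt]
  simp only [hdisc]

section gen

variable {K F : Type} [Field K] [NumberField K] [Field F] [NumberField F] [Algebra K F]

/-- at least 4 elements -/
private theorem four {l : Pl K} (h6 : (6 : 𝓞 K) ∉ l.asIdeal) :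
    4 ≤ Nat.card (𝓞 K ⧸ l.asIdeal) := by
  have hfk : Finite (𝓞 K ⧸ l.asIdeal) := Ideal.finiteQuotientOfFreeOfNeBot _ l.ne_bot
  have := Fintype.ofFinite (𝓞 K ⧸ l.asIdeal)
  have h6' : (6 : 𝓞 K ⧸ l.asIdeal) ≠ 0 := by
    intro h7
    apply h6
    rw [← Ideal.Quotient.eq_zero_iff_mem]
    rw [← h7]
    exact map_ofNat _ 6
  have h1 : ((Nat.card (𝓞 K ⧸ l.asIdeal) : ℕ) : 𝓞 K ⧸ l.asIdeal) = 0 := by
    rw [Nat.card_eq_fintype_card]
    exact Nat.cast_card_eq_zero _
  have h2 : 1 < Nat.card (𝓞 K ⧸ l.asIdeal) := Finite.one_lt_card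
  by_contra hc
  have h3 : Nat.card (𝓞 K ⧸ l.asIdeal) = 2 ∨ Nat.card (𝓞 K ⧸ l.asIdeal) = 3 := by omega
  rcases h3 with h3 | h3
  · rw [h3] at h1
    apply h6'
    have h4 : (2 : 𝓞 K ⧸ l.asIdeal) = 0 := by exact_mod_cast h1
    linear_combination 3 * h4
  · rw [h3] at h1
    apply h6'
    have h4 : (3 : 𝓞 K ⧸ l.asIdeal) = 0 := by exact_mod_cast h1
    linear_combination 2 * h4

private theorem lt_one {l : Pl K} {x : K} (h : l.valuation K x ≤ WithZero.exp (-((1 : ℕ) : ℤ))) :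
    l.valuation K x < 1 := by
  have h1 : l.valuation K x < WithZero.exp 0 := val_lt.2 (by simpa using h)
  rwa [WithZero.exp_zero] at h1

private theorem lt_mul {l : Pl K} {x y : K} (hx : l.valuation K x < 1) (hy : l.valuation K y ≤ 1) :
    l.valuation K (x * y) < 1 := by
  rw [map_mul]
  exact (mul_le_of_le_one_right' hy).trans_lt hx

/-- values of congruent forms -/
private theorem ev_cg {l : Pl K} {f g : Fin 4 → K} (h : Cg l 1 f g) {v : Fin 2 → K} (hv : In l v) :
    l.valuation K (ev f v - ev g v) < 1 := by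
  have e : ev f v - ev g v = (f 0 - g 0) * v 0 ^ 3 + (f 1 - g 1) * (v 0 ^ 2 * v 1) +
      (f 2 - g 2) * (v 0 * v 1 ^ 2) + (f 3 - g 3) * v 1 ^ 3 := by
    simp only [ev]
    ring
  have hp : ∀ (n : ℕ) (i : Fin 2), l.valuation K (v i ^ n) ≤ 1 := fun n i => by
    rw [map_pow]
    exact pow_le_one₀ zero_le (hv i)
  have hm : ∀ {x y : K}, l.valuation K x ≤ 1 → l.valuation K y ≤ 1 → l.valuation K (x * y) ≤ 1 := by
    intro x y hx hy
    rw [map_mul]
    exact mul_le_one' hx hy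
  rw [e]
  refine (Valuation.map_add _ _ _).trans_lt (max_lt ((Valuation.map_add _ _ _).trans_lt
    (max_lt ((Valuation.map_add _ _ _).trans_lt (max_lt ?_ ?_)) ?_)) ?_)
  · exact lt_mul (lt_one (h 0)) (hp 3 0)
  · exact lt_mul (lt_one (h 1)) (hm (hp 2 0) (hv 1))
  · exact lt_mul (lt_one (h 2)) (hm (hv 0) (hp 2 1))
  · exact lt_mul (lt_one (h 3)) (hp 3 1)

/-- step (2) -/
private theorem prim {l : Pl K} (h6 : (6 : 𝓞 K) ∉ l.asIdeal) {f : Fin 4 → K} (hf : In l f)
    (hN : ¬ NML l f) : ∃ p : Fin 2 → K, In l p ∧ l.valuation K (ev f p) = 1 ∧ ¬ Cg l 1 p 0 := by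
  have hfk : Finite (𝓞 K ⧸ l.asIdeal) := Ideal.finiteQuotientOfFreeOfNeBot _ l.ne_bot
  obtain ⟨g, hg⟩ := approx hf 1
  have h0 : ¬ Cg l 1 f 0 := fun h1 => hN (Or.inl h1)
  have h1 : red l g ≠ 0 := by
    intro h2
    apply h0
    refine cg_trans hg fun i => ?_
    have h3 : g i ∈ l.asIdeal := Ideal.Quotient.eq_zero_iff_mem.1 (congrFun h2 i)
    rw [← pow_one l.asIdeal, val_pow_mem] at h3
    simpa using h3
  obtain ⟨v, hv⟩ := nonroot (four h6) h1
  obtain ⟨p', hp'⟩ : ∃ p' : Fin 2 → 𝓞 K, ∀ i, Ideal.Quotient.mk l.asIdeal (p' i) = v i := by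
    have h2 : ∀ i, ∃ a : 𝓞 K, Ideal.Quotient.mk l.asIdeal a = v i := fun i =>
      Ideal.Quotient.mk_surjective (v i)
    choose p' hp' using h2
    exact ⟨p', hp'⟩
  have h2 : ev g p' ∉ l.asIdeal := by
    intro h3
    apply hv
    rw [← Ideal.Quotient.eq_zero_iff_mem] at h3
    rw [← h3]
    have h4 : v = fun i => Ideal.Quotient.mk l.asIdeal (p' i) := funext fun i => (hp' i).symm
    rw [h4]
    simp only [ev, red, map_add, map_mul, map_pow]
  have hp : In l (fun i => (p' i : K)) := fun i => val_int l (p' i)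
  have h3 : l.valuation K (ev (fun i => (g i : K)) (fun i => (p' i : K))) = 1 := by
    have h4 : ev (fun i => (g i : K)) (fun i => (p' i : K)) = ((ev g p' : 𝓞 K) : K) := by
      simp only [ev, map_add, map_mul, map_pow]
    rw [h4]
    exact val_notmem.1 h2
  have h4 : l.valuation K (ev f (fun i => (p' i : K))) = 1 := by
    have h5 := ev_cg hg hp
    have h6 : ev f (fun i => (p' i : K)) = ev (fun i => (g i : K)) (fun i => (p' i : K)) +
        (ev f (fun i => (p' i : K)) - ev (fun i => (g i : K)) (fun i => (p' i : K))) := by ring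
    rw [h6, Valuation.map_add_eq_of_lt_left _ (by rw [h3]; exact h5), h3]
  refine ⟨_, hp, h4, fun h5 => ?_⟩
  have h6 : l.valuation K (ev f (fun i => (p' i : K))) < 1 := by
    have hq : ∀ i, l.valuation K ((p' i : K)) < 1 := fun i => by
      have := h5 i
      simp only [Pi.zero_apply, sub_zero] at this
      exact lt_one this
    have hm : ∀ {x y : K}, l.valuation K x ≤ 1 → l.valuation K y ≤ 1 →
        l.valuation K (x * y) ≤ 1 := by
      intro x y hx hy
      rw [map_mul]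
      exact mul_le_one' hx hy
    have e : ev f (fun i => (p' i : K)) = (p' 0 : K) * (f 0 * (p' 0 : K) ^ 2) +
        (p' 0 : K) * (f 1 * ((p' 0 : K) * (p' 1 : K))) +
        (p' 0 : K) * (f 2 * (p' 1 : K) ^ 2) + (p' 1 : K) * (f 3 * (p' 1 : K) ^ 2) := by
      simp only [ev]
      ring
    have hs : ∀ i, l.valuation K ((p' i : K) ^ 2) ≤ 1 := fun i => by
      rw [map_pow]
      exact pow_le_one₀ zero_le (hp i)
    rw [e]
    refine (Valuation.map_add _ _ _).trans_lt (max_lt ((Valuation.map_add _ _ _).trans_lt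
      (max_lt ((Valuation.map_add _ _ _).trans_lt (max_lt ?_ ?_)) ?_)) ?_)
    · exact lt_mul (hq 0) (hm (hf 0) (hs 0))
    · exact lt_mul (hq 0) (hm (hf 1) (hm (hp 0) (hp 1)))
    · exact lt_mul (hq 0) (hm (hf 2) (hs 1))
    · exact lt_mul (hq 1) (hm (hf 3) (hs 1))
  rw [h4] at h6
  exact lt_irrefl _ h6

/-- `mu_eq` for general number fields -/
private theorem mu_gen (hd : Module.finrank K F = 3) {f : Fin 4 → K} {w : Fin 2 → F}
    (h : Lv f w) {l : Pl K} (h6 : (6 : 𝓞 K) ∉ l.asIdeal) (hl : LocEq l (LF w) (OO K 2)) :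
    (2 : ℝ) ^ ({P : Pl F | Over P l}.ncard - 1) - 1 - 1 = MU l f := by
  have hV : f ∈ VL (LF w) := lf_vl hd h
  have hB : Bas l (LF (K := K) w) ![1, 0] ![0, 1] := bas_loc (bas_oo l) (loceq_symm hl)
  have hf : In l f := by
    have h1 := vl_in hB hV
    rwa [gf_id] at h1
  have hLt := lf_lt hd h
  have hN : ¬ NML l f := by
    rw [← nm_iff hLt hl hV, nm_loc hd h hLt hV l, not_not]
    exact loceq_refl _
  obtain ⟨p, hp, hev, hp1⟩ := prim h6 hf hN
  obtain ⟨q, hq, hdt⟩ := compl hp hp1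
  have hdt0 : dt p q ≠ 0 := by
    intro h0
    rw [h0, map_zero] at hdt
    exact zero_ne_one hdt
  obtain ⟨u, hu, k, hk0, hk1⟩ := lv_pull hd h hdt0
  have hu' : Lv (gf p q f) u := hu
  -- the lattice
  have hid : ∀ x : Fin 2 → K, cb ![1, 0] ![0, 1] x = x := by
    intro x
    funext i
    fin_cases i <;> simp [cb]
  have hB' : Bas l (LF (K := K) w) p q := by
    have h1 := bas_change hB hp hq hdt
    rwa [hid, hid] at h1
  have hlu : LocEq l (LF (K := K) u) (OO K 2) := by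
    intro x
    rw [lc_oo]
    have h1 : Lc l (LF (K := K) u) x ↔ Lc l (LF (K := K) w) (cb p q x) := by
      have h2 : ∀ s : 𝓞 K, s • x ∈ LF (K := K) u ↔ s • cb p q x ∈ LF (K := K) w := by
        intro s
        rw [lf_change hk0 hk1]
        have h3 : cb p q (s • x) = s • cb p q x := by
          rw [bs_smul, bs_smul]
          funext i
          simp only [cb, Pi.smul_apply, smul_eq_mul]
          ring
        rw [h3]
      exact exists_congr fun s => and_congr_right fun _ => h2 s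
    rw [h1, bas_lc hB', co_cb hdt0]
  have hf' : In l (gf p q f) := in_gf hp hq hdt hf
  have hMU : MU l (gf p q f) = MU l f := MU_gf hf hp hq hdt
  -- scaling
  obtain ⟨s, hs, hsf⟩ := lc_oo.2 hf'
  choose g hg using hsf
  have hg' : ∀ i, (g i : K) = (s : K) * gf p q f i := by
    intro i
    rw [hg i, Pi.smul_apply, Algebra.smul_def]
  have hs0 : (s : K) ≠ 0 := by
    intro h0
    have h1 := val_notmem.1 hs
    rw [h0, map_zero] at h1
    exact zero_ne_one h1
  have hu2 : Lv (fun i => (g i : K)) (fun i => algebraMap K F (s : K) * u i) := by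
    have h00 := hu'.h00
    have h01 := hu'.h01
    have h11 := hu'.h11
    refine ⟨?_, ?_, ?_, ?_⟩
    · simp only [hg', map_mul, map_neg] at h00 ⊢
      linear_combination (algebraMap K F (s : K)) ^ 2 * h00
    · simp only [hg', map_mul, map_neg] at h01 ⊢
      linear_combination (algebraMap K F (s : K)) ^ 2 * h01
    · simp only [hg', map_mul, map_neg] at h11 ⊢
      linear_combination (algebraMap K F (s : K)) ^ 2 * h11
    · rintro ⟨y, hy⟩
      apply hu'.non
      refine ⟨(s : K)⁻¹ * y, ?_⟩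
      rw [map_mul, hy, map_inv₀]
      have h1 : algebraMap K F (s : K) ≠ 0 := (map_ne_zero _).2 hs0
      exact inv_mul_cancel_left₀ h1 _
  have hl2 : LocEq l (LF (K := K) (fun i => algebraMap K F (s : K) * u i)) (OO K 2) := by
    have h1 : ∀ x : Fin 2 → K, x ∈ LF (K := K) (fun i => algebraMap K F (s : K) * u i) ↔
        s • x ∈ LF (K := K) u := by
      intro x
      have h2 : lin (fun i => algebraMap K F (s : K) * u i) x = lin u (s • x) := by
        rw [bs_smul]
        simp only [lin, Pi.smul_apply, smul_eq_mul, map_mul]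
        ring
      change (∃ k : K, IsIntegral ℤ (algebraMap K F k + lin _ x)) ↔
        ∃ k : K, IsIntegral ℤ (algebraMap K F k + lin u (s • x))
      rw [h2]
    intro x
    rw [← hlu x]
    constructor
    · rintro ⟨t, ht, htx⟩
      rw [h1] at htx
      refine lc_cancel hs ⟨t, ht, ?_⟩
      rw [smul_comm]
      exact htx
    · intro h2
      obtain ⟨t, ht, htx⟩ := lc_smul s h2
      refine ⟨t, ht, ?_⟩
      rw [h1, smul_comm]
      exact htx
  have hg0 : g 0 ∉ l.asIdeal := by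
    rw [val_notmem, hg' 0, map_mul, val_notmem.1 hs, one_mul]
    have h1 : gf p q f 0 = (dt p q)⁻¹ * ev f p := rfl
    rw [h1, map_mul, map_inv₀, hdt, hev, inv_one, one_mul]
  rw [np_int hd h6 hu2 hg0 hl2, ← hMU]
  have h1 : MU l (gf p q f) = MU l ((s : K) • gf p q f) := (MU_smul hf' (val_notmem.1 hs)).symm
  rw [h1]
  symm
  apply MU_eq
  intro i
  have h2 : ((s : K) • gf p q f) i - (g i : K) = 0 := by
    rw [hg' i, Pi.smul_apply, smul_eq_mul, sub_self]
  rw [h2, map_zero]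
  exact zero_le

end gen

variable {K : IntermediateField ℚ QBar} [NumberField K]

theorem mu_eq (c : Cu K) {f : Fin 4 → K} {w : Fin 2 → c.F} (h : Lv f w) {l : Pl K}
    (h6 : (6 : 𝓞 K) ∉ l.asIdeal) (hl : LocEq l (LF w) (OO K 2)) : c.mu l = MU l f :=
  mu_gen c.deg h h6 hl

end H77.MF
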