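import Pool.Agent.H77.MF.Vm

/-!
# MF-NM1: lattices between `Λ` and `l⁻¹ Λ`; periodicity of `NM` (row: SX MF NM1)

`π` a uniformizer (`unif`), `v(π) = exp(-1)`.
* `mid_loc`: `Λ ≤ Λ'`, `l Λ' ≤ Λ`, `l' ≠ l`: choose `s ∈ l`, `s ∉ l'`; `s Λ' ≤ Λ`.
* `linv_le`, `linv_smul` (`l (l⁻¹Λ) ≤ Λ`, clear by definition), `le_linv`: `Λ' ≤ linv l Λ` iff `l Λ' ≤ Λ`.
* `linv_lc`: `Lc l (linv l Λ) p ↔ Lc l Λ (π • p)`. `→`: `s p ∈ linv`, `π s p ∈ Λ`. `←`: `s π p ∈ Λ`. Let `a ∈ l`: `a/π` is integral at `l`, so `Lc l Λ (a p)`, for the finitely many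
  generators `a_1..a_m` of `l` one common `t ∉ l` with `t a_i p ∈ Λ`; then `t p ∈ linv l Λ`.
* `mid_lt`, `linv_lt`: `linv l Λ` is finitely generated: for `0 ≠ a ∈ l` the map `p ↦ a p` is an injection of `linv l Λ` into `Λ` (noetherian). A lattice in between: `lt_of_le`.
* `bas_linv`: `Bas l Λ v w → Bas l (linv l Λ) (π⁻¹ v) (π⁻¹ w)`: by `linv_lc` and `bas_of_co`, coordinates `co (π⁻¹v) (π⁻¹w) p = π co v w p`.
* `smul_vl`: `a ∈ l³`, `g ∈ VL Λ`, `Λ ≤ Λ'`, `l Λ' ≤ Λ` ⟹ `a • g ∈ VL Λ'`. By `lc_all` it suffices `Lc l' (VL Λ') (a g)` for all `l'`. `l' ≠ l`: `vl_loceq`, `mid_loc`, `lc_smul`,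
  `lc_mem`. At `l`: basis `(v, w)` of `Λ'`, `π v, π w` are locally in `Λ`: `x = co v₀ w₀ (π v)`, `y = co v₀ w₀ (π w)` are `In l` for a basis `(v₀, w₀)` of `Λ`, and `h = gf v₀ w₀ g` is `In l`
  (`vl_in`). `π³ pull g v w = pull g (πv) (πw) = pull (pull g v₀ w₀) x y = dt v₀ w₀ • pull h x y`, so `gf v w g = π⁻³ (dt v₀ w₀ / dt v w) pull h x y`, and `dt v₀ w₀ / dt v w` is integral because `v₀, w₀` are
  locally in `Λ ≤ Λ'` (`bas_lc`, `dt_cb`). So `gf v w (a g)` is integral (`v(a) ≤ v(π³)`), `vl_lc`.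
* `nm_per`: if `f ∈ NM l Λ`, `g ∈ l³ VL Λ`: `f + g ∈ VL Λ` and `g ∈ VL Λ'` by `smul_vl` (`Submodule.smul_induction_on`), so `f + g ∈ NM`. Conversely apply this to `f + g` and `-g`.
-/

set_option autoImplicit false

open scoped NumberField Classical
open IsDedekindDomain H38.ML H63.MA H67.SX

noncomputable section

namespace H77.MF

variable {K : Type} [Field K] [NumberField K] {l : Pl K} {Λ Λ' : Submodule (𝓞 K) (Fin 2 → K)}

theorem nm1_sep {l' : Pl K} (hl : l' ≠ l) : ∃ s ∈ l.asIdeal, s ∉ l'.asIdeal := by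
  by_contra hcon
  push Not at hcon
  have h1 : l.asIdeal ≤ l'.asIdeal := fun s hs => hcon s hs
  apply hl
  apply HeightOneSpectrum.ext
  exact (l.isMaximal.eq_of_le l'.isPrime.ne_top h1).symm

theorem mid_loc (h : Λ ≤ Λ') (h' : l.asIdeal • Λ' ≤ Λ) {l' : Pl K} (hl : l' ≠ l) :
    LocEq l' Λ Λ' := by
  obtain ⟨s, hs, hs'⟩ := nm1_sep hl
  exact fun v => ⟨lc_mono h, lc_of_le fun x hx => ⟨s, hs', h' (Submodule.smul_mem_smul hs hx)⟩⟩

theorem le_linv : Λ' ≤ linv l Λ ↔ l.asIdeal • Λ' ≤ Λ := by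
  constructor
  · intro h
    rw [Submodule.smul_le]
    intro r hr n hn
    exact h hn r hr
  · intro h v hv s hs
    exact h (Submodule.smul_mem_smul hs hv)

theorem self_le_linv (l : Pl K) (Λ : Submodule (𝓞 K) (Fin 2 → K)) : Λ ≤ linv l Λ :=
  fun _ hv s _ => Λ.smul_mem s hv

theorem nm1_pi {π : 𝓞 K} (hπ : l.valuation K (π : K) = WithZero.exp (-1 : ℤ)) : π ∈ l.asIdeal := by
  rw [val_mem, hπ, ← WithZero.exp_zero, WithZero.exp_lt_exp]
  norm_num

theorem nm1_pi0 {π : 𝓞 K} (hπ : l.valuation K (π : K) = WithZero.exp (-1 : ℤ)) : (π : K) ≠ 0 := by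
  intro h
  rw [h, map_zero] at hπ
  exact WithZero.exp_ne_zero hπ.symm

theorem linv_lc {π : 𝓞 K} (hπ : l.valuation K (π : K) = WithZero.exp (-1 : ℤ)) (p : Fin 2 → K) :
    Lc l (linv l Λ) p ↔ Lc l Λ (π • p) := by
  constructor
  · rintro ⟨s, hs, h⟩
    refine ⟨s, hs, ?_⟩
    rw [smul_comm]
    exact h π (nm1_pi hπ)
  · intro h
    have h1 : ∀ a ∈ l.asIdeal, Lc l Λ (a • p) := by
      intro a ha
      have h2 : a • p = ((a : K) / (π : K)) • (π • p) := by
        rw [bs_smul, bs_smul, smul_smul, div_mul_cancel₀ _ (nm1_pi0 hπ)]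
      rw [h2]
      apply lc_val _ h
      have h3 : l.valuation K (a : K) ≤ WithZero.exp (-1 : ℤ) := by
        have h4 := val_mem.1 ha
        rw [← WithZero.exp_zero, val_lt] at h4
        exact h4
      rw [map_div₀, hπ, div_le_one₀ WithZero.exp_pos]
      exact h3
    obtain ⟨S, hS⟩ : (l.asIdeal).FG := IsNoetherian.noetherian l.asIdeal
    have hsub : ∀ a ∈ S, a ∈ l.asIdeal := fun a ha => by
      rw [← hS]
      exact Submodule.subset_span ha
    choose! t ht ht' using fun a (ha : a ∈ S) => h1 a (hsub a ha)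
    refine ⟨∏ a ∈ S, t a, ?_, ?_⟩
    · have := l.isPrime
      rw [Ideal.IsPrime.prod_mem_iff]
      push Not
      exact ht
    · intro r hr
      rw [← hS] at hr
      induction hr using Submodule.span_induction with
      | mem a ha =>
        obtain ⟨c, hc⟩ := Finset.dvd_prod_of_mem t (show a ∈ S from ha)
        have h3 : a • (∏ a ∈ S, t a) • p = c • (t a • (a • p)) := by
          rw [hc, smul_smul, smul_smul, smul_smul]
          congr 1
          ring
        rw [h3]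
        exact Λ.smul_mem c (ht' a ha)
      | zero =>
        rw [zero_smul]
        exact Λ.zero_mem
      | add x y _ _ hx hy =>
        rw [add_smul]
        exact Λ.add_mem hx hy
      | smul b x _ hx =>
        rw [smul_assoc]
        exact Λ.smul_mem b hx

theorem linv_lt (hL : Lt Λ) (l : Pl K) : Lt (linv l Λ) := by
  obtain ⟨hfg, v, hv, w, hw, hd⟩ := hL
  refine ⟨?_, v, self_le_linv l Λ hv, w, self_le_linv l Λ hw, hd⟩
  obtain ⟨a, ha, ha0⟩ := Submodule.exists_mem_ne_zero_of_ne_bot l.ne_bot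
  have hno : IsNoetherian (𝓞 K) Λ := isNoetherian_of_fg_of_noetherian Λ hfg
  let f : linv l Λ →ₗ[𝓞 K] Λ :=
    (LinearMap.lsmul (𝓞 K) (Fin 2 → K) a).restrict (fun x hx => hx a ha)
  have hf : Function.Injective f := by
    intro x y hxy
    have h1 : a • (x : Fin 2 → K) = a • (y : Fin 2 → K) := congrArg Subtype.val hxy
    apply Subtype.ext
    have ha1 : (a : K) ≠ 0 := by
      intro h0
      exact ha0 (NumberField.RingOfIntegers.ext h0)
    rw [bs_smul, bs_smul] at h1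
    exact smul_right_injective _ ha1 h1
  have hno2 : IsNoetherian (𝓞 K) (linv l Λ) := isNoetherian_of_injective f hf
  exact Module.Finite.iff_fg.1 inferInstance

theorem mid_lt (hL : Lt Λ) (h : Λ ≤ Λ') (h' : l.asIdeal • Λ' ≤ Λ) : Lt Λ' :=
  lt_of_le hL (linv_lt hL l) h (le_linv.2 h')

theorem bas_linv {π : 𝓞 K} (hπ : l.valuation K (π : K) = WithZero.exp (-1 : ℤ))
    {v w : Fin 2 → K} (h : Bas l Λ v w) :
    Bas l (linv l Λ) ((π : K)⁻¹ • v) ((π : K)⁻¹ • w) := by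
  have h0 := nm1_pi0 hπ
  have h1 : ∀ q : Fin 2 → K, π • ((π : K)⁻¹ • q) = q := fun q => by
    rw [bs_smul, smul_smul, mul_inv_cancel₀ h0, one_smul]
  refine bas_of_co ?_ ?_ ?_ ?_
  · rw [linv_lc hπ, h1]
    exact h.hv
  · rw [linv_lc hπ, h1]
    exact h.hw
  · rw [dt_smul_left, dt_smul_right]
    exact mul_ne_zero (inv_ne_zero h0) (mul_ne_zero (inv_ne_zero h0) h.nz)
  · intro p hp
    have h2 : co ((π : K)⁻¹ • v) ((π : K)⁻¹ • w) p = co v w (π • p) := by
      have hnz := h.nz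
      funext i
      fin_cases i
      · show dt p ((π : K)⁻¹ • w) / dt ((π : K)⁻¹ • v) ((π : K)⁻¹ • w) = dt (π • p) w / dt v w
        rw [dt_smul_left, dt_smul_right, dt_smul_right, bs_left]
        field_simp
      · show dt ((π : K)⁻¹ • v) p / dt ((π : K)⁻¹ • v) ((π : K)⁻¹ • w) = dt v (π • p) / dt v w
        rw [dt_smul_left, dt_smul_left, dt_smul_right, bs_right]
        field_simp
    rw [h2]
    exact (bas_lc h _).1 ((linv_lc hπ p).1 (lc_mem hp))

theorem smul_vl (hL : Lt Λ) (h : Λ ≤ Λ') (h' : l.asIdeal • Λ' ≤ Λ) {a : 𝓞 K}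
    (ha : a ∈ l.asIdeal ^ 3) {g : Fin 4 → K} (hg : g ∈ VL Λ) : a • g ∈ VL Λ' := by
  have hL' : Lt Λ' := mid_lt hL h h'
  apply lc_all
  intro l'
  by_cases hl : l' = l
  · subst hl
    obtain ⟨v, hv, w, hw, hB⟩ := bas_ex hL' l'
    obtain ⟨v0, hv0, w0, hw0, hB0⟩ := bas_ex hL l'
    obtain ⟨π, hπ⟩ := unif l'
    have hπ0 := nm1_pi0 hπ
    rw [vl_lc hL' hB, gf_osmul]
    intro i
    have e0 : (a • gf v w g) i = (a : K) * gf v w g i := by
      rw [Pi.smul_apply, Algebra.smul_def]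
    rw [e0, map_mul]
    have hpv : π • v ∈ Λ := h' (Submodule.smul_mem_smul (nm1_pi hπ) hv)
    have hpw : π • w ∈ Λ := h' (Submodule.smul_mem_smul (nm1_pi hπ) hw)
    have hx := (bas_lc hB0 _).1 (lc_mem hpv)
    have hy := (bas_lc hB0 _).1 (lc_mem hpw)
    have e1 : pull g (π • v) (π • w) = (π : K) ^ 3 • pull g v w := by
      rw [bs_smul, bs_smul, pull_smul_vec]
      funext j
      fin_cases j
      · rfl
      · show (π : K) ^ 2 * (π : K) * pull g v w 1 = (π : K) ^ 3 * pull g v w 1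
        ring
      · show (π : K) * (π : K) ^ 2 * pull g v w 2 = (π : K) ^ 3 * pull g v w 2
        ring
      · rfl
    have e2 : pull g (π • v) (π • w) =
        dt v0 w0 • pull (gf v0 w0 g) (co v0 w0 (π • v)) (co v0 w0 (π • w)) := by
      rw [← pull_smul_form]
      have e3 : dt v0 w0 • gf v0 w0 g = pull g v0 w0 := by
        rw [gf, smul_smul, mul_inv_cancel₀ hB0.nz, one_smul]
      rw [e3, pull_pull, cb_co hB0.nz, cb_co hB0.nz]
    have e4 : (π : K) ^ 3 * gf v w g i =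
        (dt v0 w0 / dt v w) * pull (gf v0 w0 g) (co v0 w0 (π • v)) (co v0 w0 (π • w)) i := by
      have e5 := congrFun (e1.symm.trans e2) i
      rw [Pi.smul_apply, Pi.smul_apply, smul_eq_mul, smul_eq_mul] at e5
      have e6 : gf v w g i = (dt v w)⁻¹ * pull g v w i := rfl
      rw [e6]
      have := hB.nz
      field_simp
      linear_combination e5
    have h3 : l'.valuation K (dt v0 w0 / dt v w) ≤ 1 := by
      rw [map_div₀, div_le_one₀ (bs_pos hB.nz)]
      exact (bas_dl hB _).1 (lc_mem (Submodule.subset_span ⟨v0, h hv0, w0, h hw0, rfl⟩))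
    have h4 : l'.valuation K ((π : K) ^ 3 * gf v w g i) ≤ 1 := by
      rw [e4, map_mul]
      exact mul_le_one' h3 (in_pull (vl_in hB0 hg) hx hy i)
    have h5 : l'.valuation K (a : K) ≤ l'.valuation K ((π : K) ^ 3) := by
      rw [map_pow, hπ, ← WithZero.exp_nsmul]
      have h6 := val_pow_mem.1 ha
      simpa using h6
    rw [map_mul] at h4
    exact (mul_le_mul_left h5 _).trans h4
  · exact (vl_loceq hL hL' (mid_loc h h' hl) _).1 (lc_smul a (lc_mem hg))

theorem nm_per (hL : Lt Λ) (l : Pl K) :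
    Per (VL Λ) (l.asIdeal ^ 3) (fun f => if f ∈ NM l Λ then 1 else 0) := by
  have key : ∀ f g : Fin 4 → K, g ∈ l.asIdeal ^ 3 • VL Λ → f ∈ NM l Λ → f + g ∈ NM l Λ := by
    rintro f g hg ⟨hf, Λ', hlt, hle, hf'⟩
    refine ⟨(VL Λ).add_mem hf (Submodule.smul_le_right hg), Λ', hlt, hle, (VL Λ').add_mem hf' ?_⟩
    refine Submodule.smul_induction_on hg (fun a ha n hn => smul_vl hL hlt.le hle ha hn)
      (fun x y hx hy => (VL Λ').add_mem hx hy)
  intro f _ g hg
  have h1 : f + g ∈ NM l Λ ↔ f ∈ NM l Λ := by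
    refine ⟨fun h => ?_, key f g hg⟩
    have h2 := key (f + g) (-g) (Submodule.neg_mem _ hg) h
    rwa [add_neg_cancel_right] at h2
  simp only [h1]

end H77.MF
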