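import Pool.Agent.H77.MF.Or1

/-!
# MF-OR2: `f ∈ VL (LF w)`, and `LF w` is the largest lattice with this property (row: SX MF OR2)

* `lf_form`: `(v, v')` a basis of `M = LF w` at `l`. By `lv_pull` there is `u` with `Lv g u`, `g = gf v v' f` (`gf` is `(dt)⁻¹ • pull` by definition), `u₀ = lin w v + k₀`, `u₁ = lin w v' + k₁`. By `lf_lc` (`hv`, `hw` of the basis) there are `z₀ = u₀ + κ₀`, `z₁ = u₁ + κ₁` with
  `Il l`, `κ_i ∈ K`. `z₀z₁ = u₀u₁ + κ₁u₀ + κ₀u₁ + κ₀κ₁` is `Il l`, and `u₀u₁ ∈ K`, so `Lc l (LF w) (κ₁ v + κ₀ v')` (`lf_lc`), coordinates `(κ₁, κ₀)`: `bas_lc`, `co_cb`: `v(κ_i) ≤ 1`. So `u₀, u₁` are `Il l` (`il_K`, `il_sub`).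
  `u₀² = const - b u₀ + a u₁` is `Il l` (`g = (a,b,c,d)`): the same argument: `v(a), v(b) ≤ 1`. `u₁² = const - d u₀ + c u₁`: `v(c), v(d) ≤ 1`. So `In l g`.
* `lf_vl`: `vl_of_all`, `bas_ex` (`lf_lt`), `lf_form`.
* `lf_max`: let `p ∈ Λ`; by `lc_all` show `Lc l (LF w) p`. Basis `(v, v')` of `Λ` at `l`, `g = gf v v' f` is `In l` (`vl_in`), `u` from `lv_pull`, `u₀, u₁` are `Il l` (`lv_il`). `p = cb v v' x`, `x = co v v' p` is `In l` (`bas_lc`, `lc_mem`).
  `lin w p + (x₀k₀ + x₁k₁) = x₀u₀ + x₁u₁` is `Il l`: `lf_lc`.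
* `gn_iff`: `Gn l (LF w) v v'`: `v, v' ∈ LF w` iff `e₁, e₂ ∈ LF u` (`lf_change` with `x = e₁, e₂`: `cb v v' e₁ = v`) iff `OO K 2 ≤ LF u`. `→` `LocEq`: `Lc l (LF u) x`: `s • x ∈ LF u`, `cb v v' (s x) ∈ LF w`, so `t • cb v v' (s x) = a v + b v'` (`Submodule.mem_span_pair`), so
  (`dt v v' ≠ 0`, `co_cb`) `t s x = (a, b) ∈ OO K 2`. The other inclusion: `lc_mono`. `←`: `p ∈ LF w`, `p = cb v v' x` (`cb_co`), `x ∈ LF u` (`lf_change`), `s x ∈ OO K 2`, `s p = (s x)₀ v + (s x)₁ v'` in the span.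
-/

set_option autoImplicit false

open scoped NumberField Classical
open IsDedekindDomain H38.ML H63.MA H67.SX

noncomputable section

namespace H77.MF

variable {K F : Type} [Field K] [NumberField K] [Field F] [NumberField F] [Algebra K F] {l : Pl K}

private theorem or2_lin {w : Fin 2 → F} (v v' x : Fin 2 → K) :
    lin w (cb v v' x) = algebraMap K F (x 0) * lin w v + algebraMap K F (x 1) * lin w v' := by
  simp only [lin, cb, map_add, map_mul]
  ring

/-- the coefficients of an element which is integral at `l` are integral at `l` -/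
private theorem or2_key {w u : Fin 2 → F} {v v' k : Fin 2 → K}
    (hB : Bas l (LF (K := K) w) v v')
    (h₀ : u 0 = lin w v + algebraMap K F (k 0)) (h₁ : u 1 = lin w v' + algebraMap K F (k 1))
    {κ α β : K} {z : F} (hz : Il l z)
    (e : z = algebraMap K F κ + algebraMap K F α * u 0 + algebraMap K F β * u 1) :
    l.valuation K α ≤ 1 ∧ l.valuation K β ≤ 1 := by
  have h1 : Lc l (LF (K := K) w) (cb v v' ![α, β]) := by
    refine lf_lc.2 ⟨κ + α * k 0 + β * k 1, ?_⟩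
    have h2 : algebraMap K F (κ + α * k 0 + β * k 1) + lin w (cb v v' ![α, β]) = z := by
      rw [or2_lin, e, h₀, h₁]
      simp only [Matrix.cons_val_zero, Matrix.cons_val_one, map_add, map_mul]
      ring
    rw [h2]
    exact hz
  rw [bas_lc hB, co_cb hB.nz] at h1
  exact ⟨h1 0, h1 1⟩

theorem lf_form (hd : Module.finrank K F = 3) {f : Fin 4 → K} {w : Fin 2 → F} (h : Lv f w)
    {v v' : Fin 2 → K} (hB : Bas l (LF (K := K) w) v v') : In l (gf v v' f) := by
  obtain ⟨u, hu, k, h0, h1⟩ := lv_pull hd h hB.nz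
  obtain ⟨m0, hm0⟩ := lf_lc.1 hB.hv
  obtain ⟨m1, hm1⟩ := lf_lc.1 hB.hw
  have hg : gf v v' f = (dt v v')⁻¹ • pull f v v' := rfl
  rw [← hg] at hu
  generalize gf v v' f = g at hu ⊢
  have e0 : algebraMap K F m0 + lin w v = u 0 + algebraMap K F (m0 - k 0) := by
    rw [h0, map_sub]
    ring
  have e1 : algebraMap K F m1 + lin w v' = u 1 + algebraMap K F (m1 - k 1) := by
    rw [h1, map_sub]
    ring
  rw [e0] at hm0
  rw [e1] at hm1
  generalize m0 - k 0 = n0 at hm0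
  generalize m1 - k 1 = n1 at hm1
  have hk := or2_key hB h0 h1 (κ := -(g 0 * g 3) + n0 * n1) (α := n1) (β := n0)
    (il_mul hm0 hm1) (by
      have := hu.h01
      rw [map_add, map_mul (algebraMap K F) n0 n1]
      linear_combination this)
  have i0 : Il l (u 0) := by
    have := il_sub hm0 (il_K.2 hk.2)
    rwa [add_sub_cancel_right] at this
  have i1 : Il l (u 1) := by
    have := il_sub hm1 (il_K.2 hk.1)
    rwa [add_sub_cancel_right] at this
  have hA := or2_key hB h0 h1 (κ := -(g 0 * g 2)) (α := -(g 1)) (β := g 0) (il_mul i0 i0) (by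
    have := hu.h00
    rw [map_neg (algebraMap K F) (g 1)]
    linear_combination this)
  have hC := or2_key hB h0 h1 (κ := -(g 1 * g 3)) (α := -(g 3)) (β := g 2) (il_mul i1 i1) (by
    have := hu.h11
    rw [map_neg (algebraMap K F) (g 3)]
    linear_combination this)
  rw [Valuation.map_neg] at hA hC
  intro i
  fin_cases i
  · exact hA.2
  · exact hA.1
  · exact hC.2
  · exact hC.1

theorem lf_vl (hd : Module.finrank K F = 3) {f : Fin 4 → K} {w : Fin 2 → F} (h : Lv f w) :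
    f ∈ VL (LF w) := by
  refine vl_of_all fun l => ?_
  obtain ⟨v, -, v', -, hb⟩ := bas_ex (lf_lt hd h) l
  exact ⟨v, v', hb, lf_form hd h hb⟩

theorem lf_max (hd : Module.finrank K F = 3) {f : Fin 4 → K} {w : Fin 2 → F} (h : Lv f w)
    {Λ : Submodule (𝓞 K) (Fin 2 → K)} (hL : Lt Λ) (hf : f ∈ VL Λ) : Λ ≤ LF w := by
  intro p hp
  refine lc_all fun l => ?_
  obtain ⟨v, -, v', -, hb⟩ := bas_ex hL l
  have hg : In l (gf v v' f) := vl_in hb hf
  obtain ⟨u, hu, k, h0, h1⟩ := lv_pull hd h hb.nz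
  have hu' : Lv (gf v v' f) u := hu
  have hx := (bas_lc hb p).1 (lc_mem hp)
  have e := cb_co hb.nz p
  generalize co v v' p = x at hx e
  refine lf_lc.2 ⟨x 0 * k 0 + x 1 * k 1, ?_⟩
  have e2 : algebraMap K F (x 0 * k 0 + x 1 * k 1) + lin w p =
      algebraMap K F (x 0) * u 0 + algebraMap K F (x 1) * u 1 := by
    rw [← e, or2_lin, h0, h1]
    simp only [map_add, map_mul]
    ring
  rw [e2]
  exact il_add (il_mul (il_K.2 (hx 0)) (lv_il hu' hg 0)) (il_mul (il_K.2 (hx 1)) (lv_il hu' hg 1))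

omit [NumberField K] in
private theorem or2_cb {v v' x : Fin 2 → K} {a b : 𝓞 K} (ha : (a : K) = x 0)
    (hb : (b : K) = x 1) : cb v v' x = a • v + b • v' := by
  rw [bs_smul, bs_smul, ha, hb]
  rfl

theorem gn_iff {w u : Fin 2 → F} {v v' k : Fin 2 → K} (hv : dt v v' ≠ 0)
    (h₀ : u 0 = lin w v + algebraMap K F (k 0)) (h₁ : u 1 = lin w v' + algebraMap K F (k 1))
    (l : Pl K) : Gn l (LF w) v v' ↔ OO K 2 ≤ LF u ∧ LocEq l (LF u) (OO K 2) := by
  constructor
  · rintro ⟨g1, g2, g3⟩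
    have hle : OO K 2 ≤ LF u := by
      intro x hx
      obtain ⟨a, ha⟩ := hx 0
      obtain ⟨b, hb⟩ := hx 1
      rw [lf_change h₀ h₁, or2_cb ha hb]
      exact (LF w).add_mem ((LF w).smul_mem a g1) ((LF w).smul_mem b g2)
    refine ⟨hle, fun x => ⟨?_, lc_mono hle⟩⟩
    rintro ⟨s, hs, hsx⟩
    rw [lf_change h₀ h₁] at hsx
    obtain ⟨t, ht, htx⟩ := g3 _ hsx
    obtain ⟨a, b, hab⟩ := Submodule.mem_span_pair.1 htx
    refine lc_cancel hs (lc_cancel ht (lc_mem ?_))
    have e1 : cb v v' (t • s • x) = cb v v' ![(a : K), (b : K)] := by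
      have e2 : cb v v' ![(a : K), (b : K)] = a • v + b • v' := or2_cb rfl rfl
      rw [e2, hab]
      funext i
      rw [bs_smul t (s • x), bs_smul t (cb v v' (s • x))]
      simp only [cb, Pi.smul_apply, smul_eq_mul]
      ring
    have e3 : t • s • x = ![(a : K), (b : K)] := by
      rw [← co_cb hv (t • s • x), e1, co_cb hv]
    rw [e3]
    intro i
    fin_cases i
    · exact ⟨a, rfl⟩
    · exact ⟨b, rfl⟩
  · rintro ⟨hle, hloc⟩
    have o0 : (![1, 0] : Fin 2 → K) ∈ OO K 2 := by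
      intro i
      fin_cases i
      · exact ⟨1, by simp⟩
      · exact ⟨0, by simp⟩
    have o1 : (![0, 1] : Fin 2 → K) ∈ OO K 2 := by
      intro i
      fin_cases i
      · exact ⟨0, by simp⟩
      · exact ⟨1, by simp⟩
    have c0 : cb v v' ![1, 0] = v := by
      funext i
      simp [cb]
    have c1 : cb v v' ![0, 1] = v' := by
      funext i
      simp [cb]
    have g1 := (lf_change h₀ h₁ ![1, 0]).1 (hle o0)
    have g2 := (lf_change h₀ h₁ ![0, 1]).1 (hle o1)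
    rw [c0] at g1
    rw [c1] at g2
    refine ⟨g1, g2, fun p hp => ?_⟩
    have e := cb_co hv p
    rw [← e, ← lf_change h₀ h₁] at hp
    obtain ⟨s, hs, hsx⟩ := (hloc _).1 (lc_mem hp)
    obtain ⟨a, ha⟩ := hsx 0
    obtain ⟨b, hb⟩ := hsx 1
    refine ⟨s, hs, Submodule.mem_span_pair.2 ⟨a, b, ?_⟩⟩
    rw [← or2_cb ha hb]
    conv_rhs => rw [← e]
    rw [bs_smul, bs_smul]
    funext i
    simp only [cb, Pi.smul_apply, smul_eq_mul]
    ring

end H77.MF
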