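import Pool.Agent.H77.MF.Nm1
import Pool.Agent.H77.MF.Rt

/-!
# MF-SB1: the reduction `Λ / l Λ ≅ (𝓞/l)²` (row: SX MF SB1)

`(v, w)` a basis of `Λ` at `l` with `v, w ∈ Λ` (`bas_ex`).
* `rho_ex`: for `p ∈ Λ` the coordinates `x = co v w p` are `In l` (`bas_lc`, `lc_mem`); choose `a ∈ 𝓞²` with `Cg l 1 x a` (`approx`) and put `ρ p = a mod l`; independent of the choice (`val_pow_mem`: `a - a' ∈ l`). Linear: `co` is linear, the classes too. Surjective: `ρ (a₀ v + a₁ w) = a`
 (`co_cb`). Kernel: `ρ p = 0` iff `v(x_i) ≤ exp(-1)`, iff `p ∈ l • Λ`: `←`: `Submodule.smul_induction_on`. `→`: `lc_all` for `l • Λ`: at `l' ≠ l` `loc_other` (`k = 1`, `pow_one`); at `l`: `π⁻¹ x` is `In l`, so `π⁻¹ p` is locally in `Λ`: `s π⁻¹ p ∈ Λ`, `s p = π (s π⁻¹ p) ∈ l • Λ`.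
 (`l • ⊤` in `Λ` and `l • Λ` in `K²`: `Submodule.map_smul''`, `Submodule.map_top`, `Submodule.range_subtype`.)
* `card_mod`: `Nat.card (Λ ⧸ l•⊤) = q²`: `quotKerEquivOfSurjective`, `Nat.card (𝓞/l) = nm l`.
* `rix_self`: `rix (l • Λ) Λ = q²`: index of the submodule `l • ⊤` of `Λ` (`AddSubgroup.relIndex`, `AddSubgroup.index`, `Submodule`-quotient: `Nat.card (Λ ⧸ N) = (N.toAddSubgroup).index`).
* `gn_bas`: `Gn l Λ v w ↔ v ∈ Λ ∧ w ∈ Λ ∧ Bas l Λ v w`: `→`: `dt v w ≠ 0` because `Λ` has rank 2 (otherwise all elements of the span, then all `p ∈ Λ` up to `s`, are multiples of one vector); for `p ∈ Λ`: `s p = a v + b w`, `co v w (s p) = (a, b)`. `←`: `In l (co v w p)`, `val_frac`: `s co v w p ∈ 𝓞²`,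
 `s p = ..` (`cb_co`).
* `gn_per`: with `gn_bas`: `a, b ∈ l Λ` have coordinates with `v < 1` (`rho`-kernel argument), `dt (v+a) (w+b) = dt v w (1 + x₀)(1 + y₁) - ..`: `dt (co (v+a)) (co (w+b))` is a unit; `bas_change`.
* `gn_red`: `Gn l Λ p q ↔ dt (ρ p) (ρ q) ≠ 0` for `p, q ∈ Λ`: the same.
-/

set_option autoImplicit false

open scoped NumberField Classical
open IsDedekindDomain H38.ML H63.MA H67.SX

noncomputable section

namespace H77.MF

variable {K : Type} [Field K] [NumberField K] {l : Pl K} {Λ : Submodule (𝓞 K) (Fin 2 → K)}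
  {v w : Fin 2 → K}

private theorem sb1_lt {x : K} (h : l.valuation K x ≤ WithZero.exp (-((1 : ℕ) : ℤ))) :
    l.valuation K x < 1 := by
  have h1 : l.valuation K x < WithZero.exp 0 := val_lt.2 (by simpa using h)
  rwa [WithZero.exp_zero] at h1

private theorem sb1_le {x : K} (h : l.valuation K x < 1) :
    l.valuation K x ≤ WithZero.exp (-((1 : ℕ) : ℤ)) := by
  rw [← WithZero.exp_zero] at h
  simpa using val_lt.1 h

private theorem sb1_nc (l : Pl K) : Nat.card (𝓞 K ⧸ l.asIdeal) = nm l := by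
  rw [nm, Ideal.absNorm_apply, Submodule.cardQuot_apply]

omit [NumberField K] in
private theorem sb1_co_add (v w p q : Fin 2 → K) (i : Fin 2) :
    co v w (p + q) i = co v w p i + co v w q i := by
  fin_cases i
  · show dt (p + q) w / dt v w = dt p w / dt v w + dt q w / dt v w
    rw [dt_add_left, add_div]
  · show dt v (p + q) / dt v w = dt v p / dt v w + dt v q / dt v w
    rw [dt_add_right, add_div]

omit [NumberField K] in
private theorem sb1_co_smul (v w p : Fin 2 → K) (r : K) (i : Fin 2) :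
    co v w (r • p) i = r * co v w p i := by
  fin_cases i
  · show dt (r • p) w / dt v w = r * (dt p w / dt v w)
    rw [dt_smul_left, mul_div_assoc]
  · show dt v (r • p) / dt v w = r * (dt v p / dt v w)
    rw [dt_smul_right, mul_div_assoc]

/-- the coordinates of the elements of `l Λ` -/
private theorem sb1_ker (hB : Bas l Λ v w) {p : Fin 2 → K} (hp : p ∈ Λ) :
    (∀ i, l.valuation K (co v w p i) < 1) ↔ p ∈ l.asIdeal • Λ := by
  constructor
  · intro h
    refine lc_all fun l' => ?_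
    by_cases hl : l' = l
    · subst hl
      obtain ⟨π, hπ⟩ := unif l'
      have h0 := nm1_pi0 hπ
      have h2 : π • ((π : K)⁻¹ • p) = p := by
        rw [bs_smul, smul_smul, mul_inv_cancel₀ h0, one_smul]
      have h3 : Lc l' Λ ((π : K)⁻¹ • p) := by
        rw [bas_lc hB]
        intro i
        rw [sb1_co_smul, map_mul, map_inv₀, hπ, inv_mul_le_iff₀ WithZero.exp_pos, mul_one]
        simpa using sb1_le (h i)
      obtain ⟨s, hs, h4⟩ := h3
      refine ⟨s, hs, ?_⟩
      rw [← h2, smul_comm]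
      exact Submodule.smul_mem_smul (nm1_pi hπ) h4
    · have h2 := loc_other hl 1 Λ
      rw [pow_one] at h2
      exact (h2 p).2 (lc_mem hp)
  · intro h
    refine Submodule.smul_induction_on (p := fun p => ∀ i, l.valuation K (co v w p i) < 1) h ?_ ?_
    · intro a ha q hq i
      rw [bs_smul, sb1_co_smul, map_mul]
      exact (mul_le_of_le_one_right' ((bas_lc hB q).1 (lc_mem hq) i)).trans_lt (val_mem.1 ha)
    · intro x y hx hy i
      rw [sb1_co_add]
      exact (Valuation.map_add _ _ _).trans_lt (max_lt (hx i) (hy i))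

private theorem sb1_congr {x : Fin 2 → K} {g g' : Fin 2 → 𝓞 K} (h : Cg l 1 x (fun i => (g i : K)))
    (h' : Cg l 1 x (fun i => (g' i : K))) :
    (fun i => Ideal.Quotient.mk l.asIdeal (g i)) = fun i => Ideal.Quotient.mk l.asIdeal (g' i) := by
  funext i
  refine Ideal.Quotient.eq.2 ?_
  rw [val_mem]
  have h1 : ((g i - g' i : 𝓞 K) : K) = (x i - (g' i : K)) - (x i - (g i : K)) := by
    have h2 : ((g i - g' i : 𝓞 K) : K) = (g i : K) - (g' i : K) := rfl
    rw [h2]
    ring
  rw [h1]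
  exact (Valuation.map_sub _ _ _).trans_lt (max_lt (sb1_lt (h' i)) (sb1_lt (h i)))

theorem rho_ex (hB : Bas l Λ v w) (hv : v ∈ Λ) (hw : w ∈ Λ) :
    ∃ ρ : Λ →ₗ[𝓞 K] (Fin 2 → 𝓞 K ⧸ l.asIdeal), Function.Surjective ρ ∧
      LinearMap.ker ρ = (l.asIdeal • ⊤ : Submodule (𝓞 K) Λ) ∧
      ∀ (p : Λ) (a : Fin 2 → 𝓞 K), Cg l 1 (co v w p) (fun i => (a i : K)) →
        ρ p = fun i => Ideal.Quotient.mk l.asIdeal (a i) := by
  have hin : ∀ p : Λ, In l (co v w p) := fun p => (bas_lc hB p).1 (lc_mem p.2)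
  choose A hA using fun p : Λ => approx (hin p) 1
  let ρ : Λ →ₗ[𝓞 K] (Fin 2 → 𝓞 K ⧸ l.asIdeal) :=
    { toFun := fun p => fun i => Ideal.Quotient.mk l.asIdeal (A p i)
      map_add' := fun p q => by
        have h1 : Cg l 1 (co v w (p + q : Λ)) (fun i => ((A p i + A q i : 𝓞 K) : K)) := by
          intro i
          have h2 : co v w (p + q : Λ) i - ((A p i + A q i : 𝓞 K) : K) =
              (co v w p i - (A p i : K)) + (co v w q i - (A q i : K)) := by
            have h3 : ((A p i + A q i : 𝓞 K) : K) = (A p i : K) + (A q i : K) := rfl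
            rw [h3, Submodule.coe_add, sb1_co_add]
            ring
          rw [h2]
          exact (Valuation.map_add _ _ _).trans (max_le (hA p i) (hA q i))
        have h2 := sb1_congr (hA (p + q)) h1
        rw [h2]
        funext i
        rw [map_add]
        rfl
      map_smul' := fun r p => by
        have h1 : Cg l 1 (co v w (r • p : Λ)) (fun i => ((r * A p i : 𝓞 K) : K)) := by
          intro i
          have h2 : co v w (r • p : Λ) i - ((r * A p i : 𝓞 K) : K) =
              (r : K) * (co v w p i - (A p i : K)) := by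
            have h3 : ((r * A p i : 𝓞 K) : K) = (r : K) * (A p i : K) := rfl
            rw [h3, Submodule.coe_smul, bs_smul, sb1_co_smul]
            ring
          rw [h2, map_mul]
          exact (mul_le_of_le_one_left' (val_int l r)).trans (hA p i)
        have h2 := sb1_congr (hA (r • p)) h1
        rw [h2]
        funext i
        rw [RingHom.id_apply, Pi.smul_apply, Algebra.smul_def, map_mul]
        rfl }
  have hρ : ∀ (p : Λ) (a : Fin 2 → 𝓞 K), Cg l 1 (co v w p) (fun i => (a i : K)) →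
        ρ p = fun i => Ideal.Quotient.mk l.asIdeal (a i) := fun p a h => sb1_congr (hA p) h
  refine ⟨ρ, ?_, ?_, hρ⟩
  · intro z
    choose b hb using fun i => Ideal.Quotient.mk_surjective (z i)
    have hmem : b 0 • v + b 1 • w ∈ Λ := Λ.add_mem (Λ.smul_mem _ hv) (Λ.smul_mem _ hw)
    refine ⟨⟨_, hmem⟩, ?_⟩
    have hco : co v w (b 0 • v + b 1 • w) = fun i => (b i : K) := by
      have h1 : b 0 • v + b 1 • w = cb v w (fun i => (b i : K)) := by
        funext i
        rw [bs_smul, bs_smul]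
        rfl
      rw [h1, co_cb hB.nz]
    rw [hρ ⟨_, hmem⟩ b (by
      intro i
      show l.valuation K (co v w (b 0 • v + b 1 • w) i - (b i : K)) ≤ _
      rw [hco, sub_self, map_zero]
      exact zero_le)]
    funext i
    exact hb i
  · ext p
    rw [LinearMap.mem_ker, Submodule.mem_smul_top_iff, ← sb1_ker hB p.2]
    constructor
    · intro h i
      have h1 : A p i ∈ l.asIdeal := Ideal.Quotient.eq_zero_iff_mem.1 (congrFun h i)
      have h2 : co v w p i = (co v w p i - (A p i : K)) + (A p i : K) := by ring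
      rw [h2]
      exact (Valuation.map_add _ _ _).trans_lt (max_lt (sb1_lt (hA p i)) (val_mem.1 h1))
    · intro h
      rw [hρ p 0 (by
        intro i
        show l.valuation K (co v w p i - ((0 : 𝓞 K) : K)) ≤ _
        have h0 : ((0 : 𝓞 K) : K) = 0 := rfl
        rw [h0, sub_zero]
        exact sb1_le (h i))]
      funext i
      show Ideal.Quotient.mk l.asIdeal 0 = 0
      rw [map_zero]

private theorem sb1_card2 (l : Pl K) : Nat.card (Fin 2 → 𝓞 K ⧸ l.asIdeal) = nm l ^ 2 := by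
  rw [Nat.card_fun, sb1_nc, Nat.card_fin]

theorem card_mod (hL : Lt Λ) (l : Pl K) :
    Nat.card (Λ ⧸ (l.asIdeal • ⊤ : Submodule (𝓞 K) Λ)) = nm l ^ 2 := by
  obtain ⟨v, hv, w, hw, hB⟩ := bas_ex hL l
  obtain ⟨ρ, hρ, hk, -⟩ := rho_ex hB hv hw
  rw [← hk, Nat.card_congr (LinearMap.quotKerEquivOfSurjective ρ hρ).toEquiv, sb1_card2]

theorem rix_self (hL : Lt Λ) (l : Pl K) : rix (l.asIdeal • Λ) Λ = nm l ^ 2 := by
  obtain ⟨v, hv, w, hw, hB⟩ := bas_ex hL l
  obtain ⟨ρ, hρ, hk, -⟩ := rho_ex hB hv hw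
  let φ : Λ.toAddSubgroup →+ (Fin 2 → 𝓞 K ⧸ l.asIdeal) :=
    { toFun := fun r => ρ ⟨r.1, r.2⟩
      map_zero' := by
        have h1 : (⟨((0 : Λ.toAddSubgroup) : Fin 2 → K), (0 : Λ.toAddSubgroup).2⟩ : Λ) = 0 := rfl
        rw [h1, map_zero]
      map_add' := fun x y => by
        have h1 : (⟨((x + y : Λ.toAddSubgroup) : Fin 2 → K), (x + y).2⟩ : Λ) =
          (⟨x.1, x.2⟩ : Λ) + ⟨y.1, y.2⟩ := rfl
        rw [h1, map_add] }
  have h3 : Function.Surjective φ := by
    intro y
    obtain ⟨r, hr⟩ := hρ y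
    exact ⟨⟨r.1, r.2⟩, hr⟩
  have h4 : (l.asIdeal • Λ).toAddSubgroup.addSubgroupOf Λ.toAddSubgroup = φ.ker := by
    ext r
    rw [AddSubgroup.mem_addSubgroupOf, AddMonoidHom.mem_ker]
    have h5 : ρ ⟨r.1, r.2⟩ = 0 ↔ (r : Fin 2 → K) ∈ l.asIdeal • Λ := by
      rw [← LinearMap.mem_ker, hk, Submodule.mem_smul_top_iff]
    exact h5.symm
  unfold rix
  rw [AddSubgroup.relIndex, h4, AddSubgroup.index_ker, AddMonoidHom.range_eq_top.2 h3,
    AddSubgroup.card_top, sb1_card2]

theorem gn_bas (hL : Lt Λ) : Gn l Λ v w ↔ v ∈ Λ ∧ w ∈ Λ ∧ Bas l Λ v w := by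
  constructor
  · rintro ⟨hv, hw, hsp⟩
    have h1 : ∀ p ∈ Λ, ∃ s a b : 𝓞 K, s ∉ l.asIdeal ∧ (s : K) • p = (a : K) • v + (b : K) • w := by
      intro p hp
      obtain ⟨s, hs, h2⟩ := hsp p hp
      obtain ⟨a, b, h3⟩ := Submodule.mem_span_pair.1 h2
      refine ⟨s, a, b, hs, ?_⟩
      rw [← bs_smul, ← bs_smul, ← bs_smul, h3]
    have hs0 : ∀ s : 𝓞 K, s ∉ l.asIdeal → (s : K) ≠ 0 := by
      intro s hs h0
      apply hs
      have h2 : s = 0 := NumberField.RingOfIntegers.ext h0
      rw [h2]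
      exact Submodule.zero_mem _
    have hnz : dt v w ≠ 0 := by
      obtain ⟨-, p, hp, q, hq, hpq⟩ := hL
      obtain ⟨s, a, b, hs, hsp'⟩ := h1 p hp
      obtain ⟨t, c, d, ht, htq⟩ := h1 q hq
      intro h0
      have h2 : dt ((s : K) • p) ((t : K) • q) = ((a : K) * d - (b : K) * c) * dt v w := by
        rw [hsp', htq]
        simp only [dt, Pi.add_apply, Pi.smul_apply, smul_eq_mul]
        ring
      rw [h0, mul_zero, dt_smul_left, dt_smul_right] at h2
      exact mul_ne_zero (hs0 s hs) (mul_ne_zero (hs0 t ht) hpq) h2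
    refine ⟨hv, hw, bas_of_co (lc_mem hv) (lc_mem hw) hnz fun p hp => ?_⟩
    obtain ⟨s, a, b, hs, hsp'⟩ := h1 p hp
    have h2 : co v w ((s : K) • p) = ![(a : K), (b : K)] := by
      have h3 : (s : K) • p = cb v w ![(a : K), (b : K)] := by
        rw [hsp']
        funext i
        rfl
      rw [h3, co_cb hnz]
    intro i
    have h3 := congrFun h2 i
    rw [sb1_co_smul] at h3
    have h4 := congrArg (l.valuation K) h3
    rw [map_mul, val_notmem.1 hs, one_mul] at h4
    rw [h4]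
    fin_cases i
    · exact val_int l a
    · exact val_int l b
  · rintro ⟨hv, hw, hB⟩
    refine ⟨hv, hw, fun p hp => ?_⟩
    have hin := (bas_lc hB p).1 (lc_mem hp)
    obtain ⟨s, a, hs, hsa⟩ := val_frac.1 (hin 0)
    obtain ⟨t, b, ht, htb⟩ := val_frac.1 (hin 1)
    refine ⟨s * t, fun h3 => (l.isPrime.mem_or_mem h3).elim hs ht, ?_⟩
    rw [Submodule.mem_span_pair]
    refine ⟨t * a, s * b, ?_⟩
    have h1 : p = co v w p 0 • v + co v w p 1 • w := by
      conv_lhs => rw [← cb_co hB.nz p]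
      rfl
    have h2 : ((t * a : 𝓞 K) : K) = (s : K) * (t : K) * co v w p 0 := by
      have h3 : ((t * a : 𝓞 K) : K) = (t : K) * (a : K) := rfl
      rw [h3, ← hsa]
      ring
    have h2' : ((s * b : 𝓞 K) : K) = (s : K) * (t : K) * co v w p 1 := by
      have h3 : ((s * b : 𝓞 K) : K) = (s : K) * (b : K) := rfl
      rw [h3, ← htb]
      ring
    have h2'' : ((s * t : 𝓞 K) : K) = (s : K) * (t : K) := rfl
    rw [bs_smul, bs_smul, bs_smul, h2, h2', h2'']
    conv_rhs => rw [h1]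
    rw [smul_add, smul_smul, smul_smul]

theorem gn_per (hL : Lt Λ) {a b : Fin 2 → K} (ha : a ∈ l.asIdeal • Λ) (hb : b ∈ l.asIdeal • Λ)
    (h : Gn l Λ v w) : Gn l Λ (v + a) (w + b) := by
  obtain ⟨hv, hw, hB⟩ := (gn_bas hL).1 h
  have ha' : a ∈ Λ := Submodule.smul_le_right ha
  have hb' : b ∈ Λ := Submodule.smul_le_right hb
  have ka := (sb1_ker hB ha').2 ha
  have kb := (sb1_ker hB hb').2 hb
  have hva : v + a ∈ Λ := Λ.add_mem hv ha'
  have hwb : w + b ∈ Λ := Λ.add_mem hw hb'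
  have hcv : co v w v = ![1, 0] := by
    rw [co, dt_self, div_self hB.nz, zero_div]
  have hcw : co v w w = ![0, 1] := by
    rw [co, dt_self, div_self hB.nz, zero_div]
  refine (gn_bas hL).2 ⟨hva, hwb, ?_⟩
  have hx := (bas_lc hB _).1 (lc_mem hva)
  have hy := (bas_lc hB _).1 (lc_mem hwb)
  have key := bas_change hB hx hy ?_
  · rwa [cb_co hB.nz, cb_co hB.nz] at key
  · have h0 : dt (co v w (v + a)) (co v w (w + b)) = 1 + (co v w a 0 + co v w b 1 +
        (co v w a 0 * co v w b 1 - co v w a 1 * co v w b 0)) := by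
      simp only [dt, sb1_co_add, hcv, hcw, Matrix.cons_val_zero, Matrix.cons_val_one]
      ring
    rw [h0]
    have hm : ∀ i j, l.valuation K (co v w a i * co v w b j) < 1 := by
      intro i j
      rw [map_mul]
      exact (mul_le_of_le_one_right' (kb j).le).trans_lt (ka i)
    have h1 : l.valuation K (co v w a 0 + co v w b 1 +
        (co v w a 0 * co v w b 1 - co v w a 1 * co v w b 0)) < 1 :=
      (Valuation.map_add _ _ _).trans_lt (max_lt ((Valuation.map_add _ _ _).trans_lt (max_lt (ka 0) (kb 1)))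
        ((Valuation.map_sub _ _ _).trans_lt (max_lt (hm 0 1) (hm 1 0))))
    have h2 := Valuation.map_add_eq_of_lt_right (l.valuation K) (x := co v w a 0 + co v w b 1 +
        (co v w a 0 * co v w b 1 - co v w a 1 * co v w b 0)) (y := 1) (by rw [map_one]; exact h1)
    rw [add_comm, h2, map_one]

end H77.MF
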