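import Pool.Agent.H77.MF.Sb1

/-!
# MF-SB2: sublattices between `l Λ` and `Λ` (row: SX MF SB2)

`k = 𝓞/l`, `q = nm l = card k`; `ρ : Λ → k²` as in `rho_ex` (basis by `bas_ex`).
* `mid_line`: for `l Λ < Λ' < Λ` there is `p ∈ Λ'` with `ρ p ≠ 0` and `Λ' = {r ∈ Λ | ρ r ∈ k ρ p}` (equivalently `dt (ρ p) (ρ r) = 0`): the image `ρ(Λ')` is a `k`-subspace (an `𝓞`-submodule of `k²`), not `0` (`Λ' > l Λ = ker`), not everything (`Λ' ⊇ ker ρ`, `Λ' ≠ Λ`), so a line.
* `rix_mid`: `Λ' / l Λ ≅` a line with `q` elements, so `[Λ : Λ'] = q² / q` (`AddSubgroup.relIndex_mul_relIndex`: `rix (lΛ) Λ' * rix Λ' Λ = rix (lΛ) Λ = q²`).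
* `mid_card`: `Λ' ↦` the line: injective; lines of `k²`: normal forms `(x, 1)`, `(1, 0)`: at most `q + 1`.
* `rix_inv`: `Λ₁ = linv l Λ` is `Lt` (`linv_lt`), `l • Λ₁ = Λ`: `≤` by definition; `≥`: `1 ∈ l · l⁻¹`: by `lc_all`: at `l' ≠ l` `loc_other` and `mid_loc`; at `l`: `p ∈ Λ`: `π⁻¹ p` is locally in `Λ₁` (`linv_lc`): `s π⁻¹ p ∈ Λ₁`, `s p ∈ l • Λ₁`. Then `rix_self` for `Λ₁`.
* `sub_three`: `(v, w)` basis at `l`, `v, w ∈ Λ`, `g = gf v w f` is `In l` (`vl_in`); `g ≠ 0` mod `l`: otherwise `f ∈ VL (linv l Λ)` (`vl_of_all`: at `l` `bas_linv`: `gf (π⁻¹v) (π⁻¹w) f = π⁻¹ g`; at `l' ≠ l` `mid_loc`, `bas_loc`, `vl_in`). Let `Λ'` be in the set, `p ∈ Λ'` with `ρ p ≠ 0`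
 (`mid_line`), `p₀ = co v w p`: `In l`, not `0` mod `l`; `compl`: `q₀`, `v(dt p₀ q₀) = 1`. `(p, π cb v w q₀)` is a basis of `Λ'` at `l`: coordinates of `r ∈ Λ'`: `r = α p + β cb v w q₀`, `α, β` integral, and `dt (ρ p) (ρ r) = 0` gives `v(β) < 1`. So `gf p (π cb v w q₀) f` is `In l` (`vl_in`,
 `f ∈ VL Λ'`), its first coefficient is `ev g p₀ / (π dt p₀ q₀)` (`gf_gf`): `v(ev g p₀) < 1`: `ρ p` is a zero of `ḡ` in `k²`. So the lines of the `Λ'` are among the `rt ḡ ≤ 3` roots of `ḡ ≠ 0` in `P¹(k)` (`rt_le`); injection of the set into `{x : k | ev ḡ (x,1) = 0} ∪ {∞ if ḡ 0 = 0}`.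
-/

set_option autoImplicit false

open scoped NumberField Classical
open IsDedekindDomain H38.ML H63.MA H67.SX

noncomputable section

namespace H77.MF

variable {K : Type} [Field K] [NumberField K]

section point

variable {k : Type} [Field k]

/-- the normal form of a point of the projective line -/
private def sb2_nf (u : Fin 2 → k) : Option k := if u 1 = 0 then none else some (u 0 / u 1)

private def sb2_pt : Option k → Fin 2 → k
  | none => ![1, 0]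
  | some x => ![x, 1]

private theorem sb2_u0 {u : Fin 2 → k} (hu : u ≠ 0) (h : u 1 = 0) : u 0 ≠ 0 := by
  intro h0
  apply hu
  funext i
  fin_cases i
  · exact h0
  · exact h

private theorem sb2_nf_dt {u u' : Fin 2 → k} (hu : u ≠ 0) (h : sb2_nf u = sb2_nf u')
    {z : Fin 2 → k} (hz : dt u z = 0) : dt u' z = 0 := by
  unfold sb2_nf at h
  unfold dt at hz ⊢
  by_cases h1 : u 1 = 0
  · rw [if_pos h1] at h
    by_cases h2 : u' 1 = 0
    · rw [h1, zero_mul, sub_zero] at hz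
      rcases mul_eq_zero.1 hz with h3 | h3
      · exact absurd h3 (sb2_u0 hu h1)
      · rw [h2, h3, zero_mul, mul_zero, sub_zero]
    · rw [if_neg h2] at h
      exact absurd h (by simp)
  · rw [if_neg h1] at h
    by_cases h2 : u' 1 = 0
    · rw [if_pos h2] at h
      exact absurd h (by simp)
    · rw [if_neg h2] at h
      have h3 : u 0 / u 1 = u' 0 / u' 1 := Option.some_injective _ h
      rw [div_eq_div_iff h1 h2] at h3
      apply mul_left_cancel₀ h1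
      rw [mul_zero]
      linear_combination (u' 1) * hz - (z 1) * h3

private theorem sb2_ev_pt {g : Fin 4 → k} {u : Fin 2 → k} (hu : u ≠ 0) (h : ev g u = 0) :
    ev g (sb2_pt (sb2_nf u)) = 0 := by
  unfold sb2_nf
  by_cases h1 : u 1 = 0
  · rw [if_pos h1]
    have h2 := sb2_u0 hu h1
    unfold ev at h
    rw [h1] at h
    have h3 : g 0 * u 0 ^ 3 = 0 := by linear_combination h
    rcases mul_eq_zero.1 h3 with h4 | h4
    · show ev g ![1, 0] = 0
      simp [ev, h4]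
    · exact absurd (pow_eq_zero_iff (by norm_num) |>.1 h4) h2
  · rw [if_neg h1]
    show ev g ![u 0 / u 1, 1] = 0
    have h3 : (u 1) ^ 3 * ev g ![u 0 / u 1, 1] = ev g u := by
      simp only [ev, Matrix.cons_val_zero, Matrix.cons_val_one]
      field_simp
    rw [h] at h3
    rcases mul_eq_zero.1 h3 with h4 | h4
    · exact absurd (pow_eq_zero_iff (by norm_num) |>.1 h4) h1
    · exact h4

private theorem sb2_three [Finite k] {g : Fin 4 → k} (hg : g ≠ 0) :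
    {x : Option k | ev g (sb2_pt x) = 0}.ncard ≤ 3 := by
  refine le_trans ?_ (rt_le hg)
  unfold rt
  have h1 : {x : Option k | ev g (sb2_pt x) = 0} ⊆
      (some '' {x : k | ev g ![x, 1] = 0}) ∪ (if g 0 = 0 then {none} else ∅) := by
    rintro (_ | x) hx
    · right
      have h2 : ev g ![1, 0] = 0 := hx
      have h3 : g 0 = 0 := by simpa [ev] using h2
      rw [if_pos h3]
      rfl
    · left
      exact ⟨x, hx, rfl⟩
  refine (Set.ncard_le_ncard h1 (Set.toFinite _)).trans ((Set.ncard_union_le _ _).trans ?_)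
  rw [Set.ncard_image_of_injective _ (Option.some_injective k)]
  refine Nat.add_le_add_left ?_ _
  split_ifs
  · rw [Set.ncard_singleton]
  · rw [Set.ncard_empty]

private theorem sb2_dt_surj {u : Fin 2 → k} (hu : u ≠ 0) (y : k) : ∃ z : Fin 2 → k, dt u z = y := by
  by_cases h1 : u 1 = 0
  · have h2 := sb2_u0 hu h1
    refine ⟨![0, y / u 0], ?_⟩
    simp only [dt, Matrix.cons_val_zero, Matrix.cons_val_one]
    field_simp
    ring
  · refine ⟨![-y / u 1, 0], ?_⟩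
    simp only [dt, Matrix.cons_val_zero, Matrix.cons_val_one]
    field_simp
    ring

end point

private abbrev sb2_fld (l : Pl K) : Field (𝓞 K ⧸ l.asIdeal) :=
  letI : l.asIdeal.IsMaximal := l.isMaximal
  Ideal.Quotient.field l.asIdeal

attribute [local instance] sb2_fld

private theorem sb2_fin (l : Pl K) : Finite (𝓞 K ⧸ l.asIdeal) :=
  Ideal.finiteQuotientOfFreeOfNeBot _ l.ne_bot

private theorem sb2_nc (l : Pl K) : Nat.card (𝓞 K ⧸ l.asIdeal) = nm l := by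
  rw [nm, Ideal.absNorm_apply, Submodule.cardQuot_apply]

section val

variable {l : Pl K}

private theorem sb2_lt {x : K} (h : l.valuation K x ≤ WithZero.exp (-((1 : ℕ) : ℤ))) :
    l.valuation K x < 1 := by
  have h1 : l.valuation K x < WithZero.exp 0 := val_lt.2 (by simpa using h)
  rwa [WithZero.exp_zero] at h1

private theorem sb2_le {x : K} (h : l.valuation K x < 1) :
    l.valuation K x ≤ WithZero.exp (-((1 : ℕ) : ℤ)) := by
  rw [← WithZero.exp_zero] at h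
  simpa using val_lt.1 h

/-- the maximal ideal of the valuation ring -/
private def sb2_mx (l : Pl K) : Ideal (l.valuation K).integer where
  carrier := {z | l.valuation K (z : K) < 1}
  add_mem' := fun {a b} ha hb => by
    change l.valuation K ((a : K) + b) < 1
    exact (Valuation.map_add _ _ _).trans_lt (max_lt ha hb)
  zero_mem' := by
    change l.valuation K ((0 : (l.valuation K).integer) : K) < 1
    rw [ZeroMemClass.coe_zero, map_zero]
    exact zero_lt_one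
  smul_mem' := fun c a ha => by
    change l.valuation K ((c : K) * a) < 1
    rw [map_mul]
    exact (mul_le_of_le_one_left' c.2).trans_lt ha

private theorem sb2_evm {R R' : Type} [CommRing R] [CommRing R'] (φ : R →+* R') (f : Fin 4 → R)
    (v : Fin 2 → R) : ev (fun i => φ (f i)) (fun i => φ (v i)) = φ (ev f v) := by
  simp [ev]

private theorem sb2_dtm {R R' : Type} [CommRing R] [CommRing R'] (φ : R →+* R')
    (v w : Fin 2 → R) : dt (fun i => φ (v i)) (fun i => φ (w i)) = φ (dt v w) := by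
  simp [dt]

private theorem sb2_in {n : ℕ} {x : Fin n → K} {x' : Fin n → 𝓞 K} (h : Cg l 1 x (fun i => (x' i : K))) :
    In l x := by
  intro i
  have h1 : x i = (x i - (x' i : K)) + (x' i : K) := by ring
  rw [h1]
  exact (Valuation.map_add _ _ _).trans (max_le (sb2_lt (h i)).le (val_int l _))

private theorem sb2_ev {g : Fin 4 → K} {x : Fin 2 → K} {g' : Fin 4 → 𝓞 K} {x' : Fin 2 → 𝓞 K}
    (hg : Cg l 1 g (fun i => (g' i : K))) (hx : Cg l 1 x (fun i => (x' i : K)))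
    (h : l.valuation K (ev g x) < 1) :
    ev (fun i => Ideal.Quotient.mk l.asIdeal (g' i)) (fun i => Ideal.Quotient.mk l.asIdeal (x' i)) = 0 := by
  have e : ∀ {a b : K} (ha : l.valuation K a ≤ 1) (hb : l.valuation K b ≤ 1),
      l.valuation K (a - b) ≤ WithZero.exp (-((1 : ℕ) : ℤ)) →
      Ideal.Quotient.mk (sb2_mx l) ⟨a, ha⟩ = Ideal.Quotient.mk (sb2_mx l) ⟨b, hb⟩ := by
    intro a b ha hb h
    refine Ideal.Quotient.eq.2 ?_
    exact sb2_lt h
  have hG : (fun i => Ideal.Quotient.mk (sb2_mx l) ⟨g i, sb2_in hg i⟩) =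
      fun i => Ideal.Quotient.mk (sb2_mx l) ⟨(g' i : K), val_int l (g' i)⟩ := funext fun i => e _ _ (hg i)
  have hX : (fun i => Ideal.Quotient.mk (sb2_mx l) ⟨x i, sb2_in hx i⟩) =
      fun i => Ideal.Quotient.mk (sb2_mx l) ⟨(x' i : K), val_int l (x' i)⟩ := funext fun i => e _ _ (hx i)
  have k1 := sb2_evm (Ideal.Quotient.mk (sb2_mx l)) (fun i => ⟨g i, sb2_in hg i⟩) (fun i => ⟨x i, sb2_in hx i⟩)
  have k2 := sb2_evm (Ideal.Quotient.mk (sb2_mx l)) (fun i => ⟨(g' i : K), val_int l (g' i)⟩)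
    (fun i => ⟨(x' i : K), val_int l (x' i)⟩)
  have k3 : ev g x = ((l.valuation K).integer.subtype) (ev (fun i => ⟨g i, sb2_in hg i⟩)
        (fun i => ⟨x i, sb2_in hx i⟩)) :=
    sb2_evm ((l.valuation K).integer.subtype) (fun i => ⟨g i, sb2_in hg i⟩) (fun i => ⟨x i, sb2_in hx i⟩)
  have k4 : ev (fun i => (g' i : K)) (fun i => (x' i : K)) = ((l.valuation K).integer.subtype)
      (ev (fun i => ⟨(g' i : K), val_int l (g' i)⟩) (fun i => ⟨(x' i : K), val_int l (x' i)⟩)) :=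
    sb2_evm ((l.valuation K).integer.subtype) (fun i => ⟨(g' i : K), val_int l (g' i)⟩)
      (fun i => ⟨(x' i : K), val_int l (x' i)⟩)
  have k5 : Ideal.Quotient.mk (sb2_mx l) (ev (fun i => ⟨g i, sb2_in hg i⟩)
        (fun i => ⟨x i, sb2_in hx i⟩)) = 0 := by
    refine Ideal.Quotient.eq_zero_iff_mem.2 ?_
    rw [k3] at h
    exact h
  rw [hG, hX, k2, k5] at k1
  have k6 := Ideal.Quotient.eq_zero_iff_mem.1 k1
  have k7 : l.valuation K (ev (fun i => (g' i : K)) (fun i => (x' i : K))) < 1 := by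
    rw [k4]
    exact k6
  have k8 : ev (fun i => (g' i : K)) (fun i => (x' i : K)) = ((ev g' x' : 𝓞 K) : K) :=
    sb2_evm (algebraMap (𝓞 K) K) g' x'
  rw [k8, ← val_mem] at k7
  rw [sb2_evm]
  exact Ideal.Quotient.eq_zero_iff_mem.2 k7

private theorem sb2_dt {x y : Fin 2 → K} {x' y' : Fin 2 → 𝓞 K}
    (hx : Cg l 1 x (fun i => (x' i : K))) (hy : Cg l 1 y (fun i => (y' i : K)))
    (h : dt (fun i => Ideal.Quotient.mk l.asIdeal (x' i)) (fun i => Ideal.Quotient.mk l.asIdeal (y' i)) = 0) :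
    l.valuation K (dt x y) < 1 := by
  rw [sb2_dtm] at h
  have h1 := val_mem.1 (Ideal.Quotient.eq_zero_iff_mem.1 h)
  have h2 : ((dt x' y' : 𝓞 K) : K) = dt (fun i => (x' i : K)) (fun i => (y' i : K)) :=
    (sb2_dtm (algebraMap (𝓞 K) K) x' y').symm
  rw [h2] at h1
  have h3 : dt x y = dt (fun i => (x' i : K)) (fun i => (y' i : K)) +
      (((x 0 - (x' 0 : K)) * y 1 + (x' 0 : K) * (y 1 - (y' 1 : K))) -
        ((x 1 - (x' 1 : K)) * y 0 + (x' 1 : K) * (y 0 - (y' 0 : K)))) := by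
    simp only [dt]
    ring
  have hm : ∀ {a b : K}, l.valuation K a < 1 → l.valuation K b ≤ 1 → l.valuation K (a * b) < 1 := by
    intro a b ha hb
    rw [map_mul]
    exact (mul_le_of_le_one_right' hb).trans_lt ha
  have hm' : ∀ {a b : K}, l.valuation K a ≤ 1 → l.valuation K b < 1 → l.valuation K (a * b) < 1 := by
    intro a b ha hb
    rw [map_mul]
    exact (mul_le_of_le_one_left' ha).trans_lt hb
  rw [h3]
  refine (Valuation.map_add _ _ _).trans_lt (max_lt h1 ((Valuation.map_sub _ _ _).trans_lt (max_lt ?_ ?_)))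
  · exact (Valuation.map_add _ _ _).trans_lt (max_lt (hm (sb2_lt (hx 0)) (sb2_in hy 1))
      (hm' (val_int l _) (sb2_lt (hy 1))))
  · exact (Valuation.map_add _ _ _).trans_lt (max_lt (hm (sb2_lt (hx 1)) (sb2_in hy 0))
      (hm' (val_int l _) (sb2_lt (hy 0))))

end val

/-- the line of a lattice between `l Λ` and `Λ` -/
private theorem sb2_line {Λ Λ' : Submodule (𝓞 K) (Fin 2 → K)} {l : Pl K}
    (ρ : Λ →ₗ[𝓞 K] (Fin 2 → 𝓞 K ⧸ l.asIdeal))
    (hk : LinearMap.ker ρ = (l.asIdeal • ⊤ : Submodule (𝓞 K) Λ))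
    (h₁ : l.asIdeal • Λ < Λ') (h₂ : Λ' < Λ) :
    ∃ p : Λ, (p : Fin 2 → K) ∈ Λ' ∧ ρ p ≠ 0 ∧ ∀ r : Λ, (r : Fin 2 → K) ∈ Λ' ↔ dt (ρ p) (ρ r) = 0 := by
  have hker : ∀ r : Λ, ρ r = 0 ↔ (r : Fin 2 → K) ∈ l.asIdeal • Λ := by
    intro r
    rw [← LinearMap.mem_ker, hk, Submodule.mem_smul_top_iff]
  obtain ⟨p₀, hp, hp'⟩ := SetLike.exists_of_lt h₁
  obtain ⟨p, hpe⟩ : ∃ p : Λ, (p : Fin 2 → K) = p₀ := ⟨⟨p₀, h₂.le hp⟩, rfl⟩
  rw [← hpe] at hp hp'
  have hp0 : ρ p ≠ 0 := fun h => hp' ((hker p).1 h)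
  have hsm : ∀ (a : 𝓞 K) (r : Λ) (i : Fin 2), ρ (a • r) i = Ideal.Quotient.mk l.asIdeal a * ρ r i := by
    intro a r i
    rw [map_smul, Pi.smul_apply, Algebra.smul_def]
    rfl
  refine ⟨p, hp, hp0, fun r => ⟨fun hr => ?_, fun hr => ?_⟩⟩
  · by_contra hd
    obtain ⟨x₀, hx, hx'⟩ := SetLike.exists_of_lt h₂
    obtain ⟨x, hxe⟩ : ∃ x : Λ, (x : Fin 2 → K) = x₀ := ⟨⟨x₀, hx⟩, rfl⟩
    rw [← hxe] at hx'
    obtain ⟨a, ha⟩ := Ideal.Quotient.mk_surjective (dt (ρ x) (ρ r) / dt (ρ p) (ρ r))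
    obtain ⟨b, hb⟩ := Ideal.Quotient.mk_surjective (dt (ρ p) (ρ x) / dt (ρ p) (ρ r))
    have h3 : ρ (x - a • p - b • r) = 0 := by
      funext i
      rw [map_sub, map_sub, Pi.sub_apply, Pi.sub_apply, hsm, hsm, ha, hb, Pi.zero_apply]
      have h4 := cramer (ρ p) (ρ r) (ρ x) i
      apply mul_left_cancel₀ hd
      rw [mul_zero, mul_sub, mul_sub, h4]
      field_simp
      ring
    have h4 := h₁.le ((hker _).1 h3)
    apply hx'
    have h5 : (x : Fin 2 → K) = ((x - a • p - b • r : Λ) : Fin 2 → K) + a • (p : Fin 2 → K) +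
        b • (r : Fin 2 → K) := by
      rw [Submodule.coe_sub, Submodule.coe_sub, Submodule.coe_smul, Submodule.coe_smul]
      abel
    rw [h5]
    exact Λ'.add_mem (Λ'.add_mem h4 (Λ'.smul_mem a hp)) (Λ'.smul_mem b hr)
  · have h3 : ∃ α : 𝓞 K ⧸ l.asIdeal, ∀ i, ρ r i = α * ρ p i := by
      unfold dt at hr
      by_cases h1 : ρ p 1 = 0
      · have h0 := sb2_u0 hp0 h1
        refine ⟨ρ r 0 / ρ p 0, fun i => ?_⟩
        fin_cases i
        · show ρ r 0 = ρ r 0 / ρ p 0 * ρ p 0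
          rw [div_mul_cancel₀ _ h0]
        · show ρ r 1 = ρ r 0 / ρ p 0 * ρ p 1
          rw [h1, mul_zero]
          rw [h1, zero_mul, sub_zero] at hr
          exact (mul_eq_zero.1 hr).resolve_left h0
      · refine ⟨ρ r 1 / ρ p 1, fun i => ?_⟩
        fin_cases i
        · show ρ r 0 = ρ r 1 / ρ p 1 * ρ p 0
          field_simp
          linear_combination -hr
        · show ρ r 1 = ρ r 1 / ρ p 1 * ρ p 1
          rw [div_mul_cancel₀ _ h1]
    obtain ⟨α, hα⟩ := h3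
    obtain ⟨a, rfl⟩ := Ideal.Quotient.mk_surjective α
    have h4 : ρ (r - a • p) = 0 := by
      funext i
      rw [map_sub, Pi.sub_apply, hsm, hα, sub_self, Pi.zero_apply]
    have h5 := h₁.le ((hker _).1 h4)
    have h6 : (r : Fin 2 → K) = ((r - a • p : Λ) : Fin 2 → K) + a • (p : Fin 2 → K) := by
      rw [Submodule.coe_sub, Submodule.coe_smul]
      abel
    rw [h6]
    exact Λ'.add_mem h5 (Λ'.smul_mem a hp)

theorem rix_mid {Λ Λ' : Submodule (𝓞 K) (Fin 2 → K)} (hL : Lt Λ) {l : Pl K}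
    (h₁ : l.asIdeal • Λ < Λ') (h₂ : Λ' < Λ) : rix Λ' Λ = nm l := by
  obtain ⟨v, hv, w, hw, hB⟩ := bas_ex hL l
  obtain ⟨ρ, hρ, hk, -⟩ := rho_ex hB hv hw
  obtain ⟨p, hp, hp0, hline⟩ := sb2_line ρ hk h₁ h₂
  let φ : Λ.toAddSubgroup →+ (𝓞 K ⧸ l.asIdeal) :=
    { toFun := fun r => dt (ρ p) (ρ ⟨r.1, r.2⟩)
      map_zero' := by
        have h1 : (⟨((0 : Λ.toAddSubgroup) : Fin 2 → K), (0 : Λ.toAddSubgroup).2⟩ : Λ) = 0 := rfl
        rw [h1, map_zero]
        simp [dt]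
      map_add' := fun x y => by
        have h1 : (⟨((x + y : Λ.toAddSubgroup) : Fin 2 → K), (x + y).2⟩ : Λ) =
          (⟨x.1, x.2⟩ : Λ) + ⟨y.1, y.2⟩ := rfl
        rw [h1, map_add, dt_add_right] }
  have h3 : Function.Surjective φ := by
    intro y
    obtain ⟨z, hz⟩ := sb2_dt_surj hp0 y
    obtain ⟨r, hr⟩ := hρ z
    refine ⟨⟨r.1, r.2⟩, ?_⟩
    show dt (ρ p) (ρ r) = y
    rw [hr, hz]
  have h4 : Λ'.toAddSubgroup.addSubgroupOf Λ.toAddSubgroup = φ.ker := by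
    ext r
    rw [AddSubgroup.mem_addSubgroupOf, AddMonoidHom.mem_ker]
    exact hline ⟨r.1, r.2⟩
  unfold rix
  rw [AddSubgroup.relIndex, h4, AddSubgroup.index_ker, AddMonoidHom.range_eq_top.2 h3,
    AddSubgroup.card_top, sb2_nc]

theorem rix_inv {Λ : Submodule (𝓞 K) (Fin 2 → K)} (hL : Lt Λ) (l : Pl K) :
    Lt (linv l Λ) ∧ Λ ≤ linv l Λ ∧ l.asIdeal • linv l Λ = Λ ∧ rix Λ (linv l Λ) = nm l ^ 2 := by
  have h1 : l.asIdeal • linv l Λ = Λ := by
    refine le_antisymm (le_linv.1 le_rfl) ?_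
    intro p hp
    refine lc_all fun l' => ?_
    by_cases hl : l' = l
    · subst hl
      obtain ⟨π, hπ⟩ := unif l'
      have h0 := nm1_pi0 hπ
      have h2 : π • ((π : K)⁻¹ • p) = p := by
        rw [bs_smul, smul_smul, mul_inv_cancel₀ h0, one_smul]
      have h3 : Lc l' (linv l' Λ) ((π : K)⁻¹ • p) := by
        rw [linv_lc hπ, h2]
        exact lc_mem hp
      obtain ⟨s, hs, h4⟩ := h3
      refine ⟨s, hs, ?_⟩
      rw [← h2, smul_comm]
      exact Submodule.smul_mem_smul (nm1_pi hπ) h4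
    · have h2 := loc_other hl 1 (linv l Λ)
      rw [pow_one] at h2
      exact (h2 p).2 (lc_mem (self_le_linv l Λ hp))
  refine ⟨linv_lt hL l, self_le_linv l Λ, h1, ?_⟩
  have h2 := rix_self (linv_lt hL l) l
  rwa [h1] at h2

/-- the map to the projective line -/
private theorem sb2_map {Λ : Submodule (𝓞 K) (Fin 2 → K)} {l : Pl K}
    (ρ : Λ →ₗ[𝓞 K] (Fin 2 → 𝓞 K ⧸ l.asIdeal))
    (hk : LinearMap.ker ρ = (l.asIdeal • ⊤ : Submodule (𝓞 K) Λ)) :
    ∃ F : Submodule (𝓞 K) (Fin 2 → K) → Option (𝓞 K ⧸ l.asIdeal),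
      Set.InjOn F {Λ' | l.asIdeal • Λ < Λ' ∧ Λ' < Λ} ∧
      ∀ Λ' ∈ {Λ' | l.asIdeal • Λ < Λ' ∧ Λ' < Λ}, ∃ p : Λ, (p : Fin 2 → K) ∈ Λ' ∧ ρ p ≠ 0 ∧
        (∀ r : Λ, (r : Fin 2 → K) ∈ Λ' ↔ dt (ρ p) (ρ r) = 0) ∧ F Λ' = sb2_nf (ρ p) := by
  have h1 : ∀ Λ' : Submodule (𝓞 K) (Fin 2 → K), ∃ x : Option (𝓞 K ⧸ l.asIdeal),
      Λ' ∈ {Λ' | l.asIdeal • Λ < Λ' ∧ Λ' < Λ} → ∃ p : Λ, (p : Fin 2 → K) ∈ Λ' ∧ ρ p ≠ 0 ∧
        (∀ r : Λ, (r : Fin 2 → K) ∈ Λ' ↔ dt (ρ p) (ρ r) = 0) ∧ x = sb2_nf (ρ p) := by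
    intro Λ'
    by_cases h : l.asIdeal • Λ < Λ' ∧ Λ' < Λ
    · obtain ⟨p, hp, hp0, hl⟩ := sb2_line ρ hk h.1 h.2
      exact ⟨_, fun _ => ⟨p, hp, hp0, hl, rfl⟩⟩
    · exact ⟨none, fun h' => absurd h' h⟩
  choose F hF using h1
  refine ⟨F, ?_, hF⟩
  intro A hA B hB hAB
  obtain ⟨p, hp, hp0, hl, hFA⟩ := hF A hA
  obtain ⟨p', hp', hp0', hl', hFB⟩ := hF B hB
  rw [hFA, hFB] at hAB
  ext r
  constructor
  · intro hr
    exact (hl' ⟨r, hA.2.le hr⟩).2 (sb2_nf_dt hp0 hAB ((hl ⟨r, hA.2.le hr⟩).1 hr))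
  · intro hr
    exact (hl ⟨r, hB.2.le hr⟩).2 (sb2_nf_dt hp0' hAB.symm ((hl' ⟨r, hB.2.le hr⟩).1 hr))

theorem mid_card {Λ : Submodule (𝓞 K) (Fin 2 → K)} (hL : Lt Λ) (l : Pl K) :
    {Λ' | l.asIdeal • Λ < Λ' ∧ Λ' < Λ}.Finite ∧
      {Λ' | l.asIdeal • Λ < Λ' ∧ Λ' < Λ}.ncard ≤ nm l + 1 := by
  obtain ⟨v, hv, w, hw, hB⟩ := bas_ex hL l
  obtain ⟨ρ, hρ, hk, -⟩ := rho_ex hB hv hw
  obtain ⟨F, hF, -⟩ := sb2_map ρ hk
  have hfin := sb2_fin l
  refine ⟨Set.Finite.of_injOn (f := F) (t := Set.univ) (fun _ _ => Set.mem_univ _) hF (Set.toFinite _), ?_⟩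
  refine (Set.ncard_le_ncard_of_injOn (t := Set.univ) F (fun _ _ => Set.mem_univ _) hF (Set.toFinite _)).trans ?_
  rw [Set.ncard_univ, Finite.card_option, sb2_nc]

theorem sub_three {Λ : Submodule (𝓞 K) (Fin 2 → K)} (hL : Lt Λ) {l : Pl K} {f : Fin 4 → K}
    (hf : f ∈ VL Λ) (hc : f ∉ VL (linv l Λ)) :
    {Λ' | l.asIdeal • Λ < Λ' ∧ Λ' < Λ ∧ f ∈ VL Λ'}.ncard ≤ 3 := by
  obtain ⟨v, hv, w, hw, hB⟩ := bas_ex hL l
  obtain ⟨ρ, hρ, hk, hcg⟩ := rho_ex hB hv hw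
  obtain ⟨F, hF, hFp⟩ := sb2_map ρ hk
  have hfin := sb2_fin l
  have hg := vl_in hB hf
  obtain ⟨g', hg'⟩ := approx hg 1
  have hne : (fun i => Ideal.Quotient.mk l.asIdeal (g' i)) ≠ 0 := by
    intro h0
    apply hc
    refine vl_of_all fun l' => ?_
    by_cases hl : l' = l
    · subst hl
      obtain ⟨π, hπ⟩ := unif l'
      have hp0 := nm1_pi0 hπ
      refine ⟨_, _, bas_linv hπ hB, fun i => ?_⟩
      have h1 : gf ((π : K)⁻¹ • v) ((π : K)⁻¹ • w) f i = (π : K)⁻¹ * gf v w f i := by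
        have hnz := hB.nz
        rw [gf, gf, pull_smul_vec, dt_smul_left, dt_smul_right]
        fin_cases i
        · simp
          field_simp
        · simp
          field_simp
        · simp
          field_simp
        · simp
          field_simp
      rw [h1, map_mul, map_inv₀, hπ]
      have h2 : l'.valuation K (gf v w f i) ≤ WithZero.exp (-1 : ℤ) := by
        have h3 : l'.valuation K ((g' i : 𝓞 K) : K) < 1 := by
          rw [← val_mem]
          exact Ideal.Quotient.eq_zero_iff_mem.1 (congrFun h0 i)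
        have h4 : gf v w f i = (gf v w f i - (g' i : K)) + (g' i : K) := by ring
        rw [h4]
        refine (Valuation.map_add _ _ _).trans (max_le ?_ ?_)
        · simpa using hg' i
        · simpa using sb2_le h3
      rw [inv_mul_le_iff₀ WithZero.exp_pos, mul_one]
      exact h2
    · obtain ⟨v', hv', w', hw', hB'⟩ := bas_ex hL l'
      refine ⟨v', w', bas_loc hB' (mid_loc (self_le_linv l Λ) (le_linv.1 le_rfl) hl), vl_in hB' hf⟩
  have hFi : Set.InjOn F {Λ' | l.asIdeal • Λ < Λ' ∧ Λ' < Λ ∧ f ∈ VL Λ'} :=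
    hF.mono (show {Λ' | l.asIdeal • Λ < Λ' ∧ Λ' < Λ ∧ f ∈ VL Λ'} ⊆
      {Λ' | l.asIdeal • Λ < Λ' ∧ Λ' < Λ} from fun Λ' h => ⟨h.1, h.2.1⟩)
  refine le_trans (Set.ncard_le_ncard_of_injOn
    (t := {x : Option (𝓞 K ⧸ l.asIdeal) | ev (fun i => Ideal.Quotient.mk l.asIdeal (g' i)) (sb2_pt x) = 0})
    F ?_ hFi (Set.toFinite _)) (sb2_three hne)
  rintro Λ' ⟨h₁, h₂, hf'⟩
  obtain ⟨p, hp, hp0, hl, hFΛ⟩ := hFp Λ' ⟨h₁, h₂⟩
  rw [Set.mem_ofPred_eq, hFΛ]
  apply sb2_ev_pt hp0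
  have hin : ∀ r : Λ, In l (co v w r) := fun r => (bas_lc hB r).1 (lc_mem r.2)
  have hap : ∀ r : Λ, ∃ a : Fin 2 → 𝓞 K, Cg l 1 (co v w r) (fun i => (a i : K)) := fun r => approx (hin r) 1
  have hDL : ∀ z ∈ DL Λ', l.valuation K z < l.valuation K (dt v w) := by
    intro z hz
    induction hz using Submodule.span_induction with
    | mem x hx =>
      obtain ⟨r, hr, r', hr', rfl⟩ := hx
      obtain ⟨a, ha⟩ := hap ⟨r, h₂.le hr⟩
      obtain ⟨b, hb⟩ := hap ⟨r', h₂.le hr'⟩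
      have e1 := hcg _ a ha
      have e2 := hcg _ b hb
      have h3 : dt (ρ ⟨r, h₂.le hr⟩) (ρ ⟨r', h₂.le hr'⟩) = 0 := by
        have h4 := (hl ⟨r, h₂.le hr⟩).1 hr
        have h5 := (hl ⟨r', h₂.le hr'⟩).1 hr'
        have h6 := cramer (ρ ⟨r, h₂.le hr⟩) (ρ ⟨r', h₂.le hr'⟩) (ρ p)
        by_contra hd
        apply hp0
        funext i
        apply mul_left_cancel₀ hd
        rw [h6 i, Pi.zero_apply, mul_zero]
        have h7 : dt (ρ ⟨r, h₂.le hr⟩) (ρ p) = - dt (ρ p) (ρ ⟨r, h₂.le hr⟩) := by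
          simp only [dt]
          ring
        rw [h7, h4, h5]
        ring
      rw [e1, e2] at h3
      have h4 := sb2_dt ha hb h3
      have h5 : dt r r' = dt v w * dt (co v w r) (co v w r') := by
        rw [← dt_cb, cb_co hB.nz, cb_co hB.nz]
      rw [h5, map_mul]
      exact mul_lt_of_lt_one_right (bs_pos hB.nz) h4
    | zero =>
      rw [map_zero]
      exact bs_pos hB.nz
    | add x y _ _ hx hy => exact (Valuation.map_add _ _ _).trans_lt (max_lt hx hy)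
    | smul a x _ hx =>
      have : a • x = (a : K) * x := Algebra.smul_def a x
      rw [this, map_mul]
      exact (mul_le_of_le_one_left' (val_int l a)).trans_lt hx
  obtain ⟨a, ha⟩ := hap p
  rw [hcg p a ha]
  refine sb2_ev hg' ha ?_
  have h3 := hDL _ (hf' p hp p hp 0)
  have h4 : pull f p p 0 = dt v w * ev (gf v w f) (co v w p) := by
    have h5 : dt v w • gf v w f = pull f v w := by
      rw [gf, smul_smul, mul_inv_cancel₀ hB.nz, one_smul]
    have h6 : dt v w * ev (gf v w f) (co v w p) = ev (dt v w • gf v w f) (co v w p) := by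
      simp only [ev, Pi.smul_apply, smul_eq_mul]
      ring
    rw [h6, h5, ev_pull, cb_co hB.nz]
    rfl
  rw [h4, map_mul] at h3
  by_contra hcon
  push Not at hcon
  exact absurd h3 (not_lt.2 (le_mul_of_one_le_right' hcon))

end H77.MF
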