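import Pool.Agent.H77.MF.Sb1

/-!
# MF-SB3: the number of the generating pairs mod `l` (row: SX MF SB3)

`k = 𝓞/l`, `q = nm l = card k`. `(v₀, w₀)` a basis of `Λ` at `l` with `v₀, w₀ ∈ Λ` (`bas_ex`), `ρ : Λ → k²` from `rho_ex` (onto, kernel `l Λ`), so `Λ / lΛ ≅ k²` (`LinearMap.quotKerEquivOfSurjective`, after rewriting the kernel).
`gn_red`: for `p, r ∈ Λ`: `Gn l Λ p r ↔ dt (ρ p) (ρ r) ≠ 0` in `k`. Proof: `x = co v₀ w₀ p`, `y = co v₀ w₀ r` are `In l` (`bas_lc`, `lc_mem`), with approximations `a, b ∈ 𝓞²` (`approx`): `ρ p = ā`, `ρ r = b̄`, `v(dt x y - dt a b) < 1`; so `dt ā b̄ ≠ 0 ↔ v(dt x y) = 1`. If `v(dt x y) = 1` then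
`(p, r)` is a basis at `l` (`bas_change`, `cb_co`), `gn_bas`. Conversely `gn_bas` and `bas_eq`.
Number of `(ā, b̄) ∈ k² × k²` with `dt ā b̄ ≠ 0`: `(q² - 1)(q² - q)`: for `ā ≠ 0` the `b̄` with `dt ā b̄ = 0` are the `q` multiples of `ā` (Mathlib `Matrix.card_GL_field`: `Nat.card (GL (Fin 2) k) = ∏ (q² - q^i)`, or direct). Transport of the set along the isomorphism: the condition `∃ v w : Λ, mk v = x.1 ∧ mk w = x.2 ∧ Gn` is
`dt (ρ̄ x.1) (ρ̄ x.2) ≠ 0`.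
-/

set_option autoImplicit false

open scoped NumberField Classical
open IsDedekindDomain H38.ML H63.MA H67.SX

noncomputable section

namespace H77.MF

variable {K : Type} [Field K] [NumberField K]

private theorem sb3_dtm {R R' : Type} [CommRing R] [CommRing R'] (φ : R →+* R')
    (v w : Fin 2 → R) : dt (fun i => φ (v i)) (fun i => φ (w i)) = φ (dt v w) := by
  simp [dt]

private theorem sb3_gl {k : Type} [Field k] [Finite k] :
    {x : (Fin 2 → k) × (Fin 2 → k) | dt x.1 x.2 ≠ 0}.ncard =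
      (Nat.card k ^ 2 - 1) * (Nat.card k ^ 2 - Nat.card k) := by
  have := Fintype.ofFinite k
  have h1 := Matrix.card_GL_field (𝔽 := k) 2
  rw [Fin.prod_univ_two] at h1
  simp only [Fin.val_zero, Fin.val_one, pow_zero, pow_one] at h1
  rw [Nat.card_eq_fintype_card (α := k), ← h1, ← Nat.card_coe_set_eq]
  refine (Nat.card_congr (Equiv.ofBijective (fun g : GL (Fin 2) k =>
    (⟨(g.1 0, g.1 1), ?_⟩ : {x : (Fin 2 → k) × (Fin 2 → k) | dt x.1 x.2 ≠ 0})) ⟨?_, ?_⟩)).symm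
  · have h2 : dt (g.1 0) (g.1 1) = g.1.det := by
      rw [Matrix.det_fin_two]
      rfl
    show dt (g.1 0) (g.1 1) ≠ 0
    rw [h2]
    exact g.det.ne_zero
  · intro g g' h
    have h2 := congrArg Subtype.val h
    have h3 : g.1 0 = g'.1 0 := congrArg Prod.fst h2
    have h4 : g.1 1 = g'.1 1 := congrArg Prod.snd h2
    apply Units.ext
    funext i
    fin_cases i
    · exact h3
    · exact h4
  · rintro ⟨⟨u, u'⟩, hu⟩
    have h2 : (Matrix.of ![u, u']).det ≠ 0 := by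
      rw [Matrix.det_fin_two]
      exact hu
    refine ⟨Matrix.GeneralLinearGroup.mkOfDetNeZero _ h2, ?_⟩
    rfl

theorem gn_red {Λ : Submodule (𝓞 K) (Fin 2 → K)} (hL : Lt Λ) {l : Pl K} {v w : Fin 2 → K}
    (hB : Bas l Λ v w) {ρ : Λ →ₗ[𝓞 K] (Fin 2 → 𝓞 K ⧸ l.asIdeal)}
    (hρ : ∀ (p : Λ) (a : Fin 2 → 𝓞 K), Cg l 1 (co v w p) (fun i => (a i : K)) →
        ρ p = fun i => Ideal.Quotient.mk l.asIdeal (a i)) (p r : Λ) :
    Gn l Λ p r ↔ dt (ρ p) (ρ r) ≠ 0 := by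
  have hx := (bas_lc hB p).1 (lc_mem p.2)
  have hy := (bas_lc hB r).1 (lc_mem r.2)
  obtain ⟨a, ha⟩ := approx hx 1
  obtain ⟨b, hb⟩ := approx hy 1
  rw [hρ p a ha, hρ r b hb, sb3_dtm, Ne, Ideal.Quotient.eq_zero_iff_mem]
  have hlt : ∀ {z : K}, l.valuation K z ≤ WithZero.exp (-((1 : ℕ) : ℤ)) → l.valuation K z < 1 := by
    intro z h
    have h1 : l.valuation K z < WithZero.exp 0 := val_lt.2 (by simpa using h)
    rwa [WithZero.exp_zero] at h1
  have h1 : l.valuation K (dt (co v w p) (co v w r) - ((dt a b : 𝓞 K) : K)) < 1 := by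
    have h2 : ((dt a b : 𝓞 K) : K) = dt (fun i => (a i : K)) (fun i => (b i : K)) :=
      (sb3_dtm (algebraMap (𝓞 K) K) a b).symm
    have h3 : dt (co v w p) (co v w r) - dt (fun i => (a i : K)) (fun i => (b i : K)) =
      (((co v w p 0 - (a 0 : K)) * co v w r 1 + (a 0 : K) * (co v w r 1 - (b 1 : K))) -
        ((co v w p 1 - (a 1 : K)) * co v w r 0 + (a 1 : K) * (co v w r 0 - (b 0 : K)))) := by
      simp only [dt]
      ring
    have hm : ∀ {a b : K}, l.valuation K a < 1 → l.valuation K b ≤ 1 → l.valuation K (a * b) < 1 := by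
      intro a b ha hb
      rw [map_mul]
      exact (mul_le_of_le_one_right' hb).trans_lt ha
    have hm' : ∀ {a b : K}, l.valuation K a ≤ 1 → l.valuation K b < 1 → l.valuation K (a * b) < 1 := by
      intro a b ha hb
      rw [map_mul]
      exact (mul_le_of_le_one_left' ha).trans_lt hb
    rw [h2, h3]
    refine (Valuation.map_sub _ _ _).trans_lt (max_lt ?_ ?_)
    · exact (Valuation.map_add _ _ _).trans_lt (max_lt (hm (hlt (ha 0)) (hy 1))
        (hm' (val_int l _) (hlt (hb 1))))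
    · exact (Valuation.map_add _ _ _).trans_lt (max_lt (hm (hlt (ha 1)) (hy 0))
        (hm' (val_int l _) (hlt (hb 0))))
  have h2 : l.valuation K (dt (co v w p) (co v w r)) = 1 ↔ dt a b ∉ l.asIdeal := by
    rw [val_notmem]
    constructor
    · intro h
      have h3 : ((dt a b : 𝓞 K) : K) = dt (co v w p) (co v w r) +
        -(dt (co v w p) (co v w r) - ((dt a b : 𝓞 K) : K)) := by ring
      rw [h3, Valuation.map_add_eq_of_lt_left, h]
      rw [Valuation.map_neg, h]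
      exact h1
    · intro h
      have h3 : dt (co v w p) (co v w r) = ((dt a b : 𝓞 K) : K) +
        (dt (co v w p) (co v w r) - ((dt a b : 𝓞 K) : K)) := by ring
      rw [h3, Valuation.map_add_eq_of_lt_left, h]
      rw [h]
      exact h1
  rw [← h2, gn_bas hL]
  constructor
  · rintro ⟨-, -, h⟩
    exact (bas_eq hB h).2.2
  · intro h
    have h3 := bas_change hB hx hy h
    rw [cb_co hB.nz, cb_co hB.nz] at h3
    exact ⟨p.2, r.2, h3⟩

theorem gn_card {Λ : Submodule (𝓞 K) (Fin 2 → K)} (hL : Lt Λ) (l : Pl K) :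
    Nat.card (Λ ⧸ (l.asIdeal • ⊤ : Submodule (𝓞 K) Λ)) = nm l ^ 2 ∧
    {x : (Λ ⧸ (l.asIdeal • ⊤ : Submodule (𝓞 K) Λ)) × (Λ ⧸ (l.asIdeal • ⊤ : Submodule (𝓞 K) Λ)) |
      ∃ v w : Λ, Submodule.Quotient.mk v = x.1 ∧ Submodule.Quotient.mk w = x.2 ∧
        Gn l Λ (v : Fin 2 → K) (w : Fin 2 → K)}.ncard = (nm l ^ 2 - 1) * (nm l ^ 2 - nm l) := by
  refine ⟨card_mod hL l, ?_⟩
  obtain ⟨v, hv, w, hw, hB⟩ := bas_ex hL l
  obtain ⟨ρ, hρ, hk, hcg⟩ := rho_ex hB hv hw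
  letI : l.asIdeal.IsMaximal := l.isMaximal
  letI : Field (𝓞 K ⧸ l.asIdeal) := Ideal.Quotient.field l.asIdeal
  have hfin : Finite (𝓞 K ⧸ l.asIdeal) := Ideal.finiteQuotientOfFreeOfNeBot _ l.ne_bot
  have hq : Nat.card (𝓞 K ⧸ l.asIdeal) = nm l := by
    rw [nm, Ideal.absNorm_apply, Submodule.cardQuot_apply]
  have hgl := sb3_gl (k := 𝓞 K ⧸ l.asIdeal)
  rw [hq] at hgl
  rw [← hgl]
  have hex : ∃ e : (Λ ⧸ (l.asIdeal • ⊤ : Submodule (𝓞 K) Λ)) ≃ (Fin 2 → 𝓞 K ⧸ l.asIdeal),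
      ∀ p : Λ, e (Submodule.Quotient.mk p) = ρ p := by
    rw [← hk]
    exact ⟨(LinearMap.quotKerEquivOfSurjective ρ hρ).toEquiv, fun p => rfl⟩
  obtain ⟨e, he⟩ := hex
  have himg : {x : (Fin 2 → 𝓞 K ⧸ l.asIdeal) × (Fin 2 → 𝓞 K ⧸ l.asIdeal) | dt x.1 x.2 ≠ 0} =
      (fun x => (e x.1, e x.2)) ''
      {x : (Λ ⧸ (l.asIdeal • ⊤ : Submodule (𝓞 K) Λ)) × (Λ ⧸ (l.asIdeal • ⊤ : Submodule (𝓞 K) Λ)) |
      ∃ v w : Λ, Submodule.Quotient.mk v = x.1 ∧ Submodule.Quotient.mk w = x.2 ∧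
        Gn l Λ (v : Fin 2 → K) (w : Fin 2 → K)} := by
    ext ⟨u, u'⟩
    constructor
    · intro hu
      obtain ⟨p, rfl⟩ := hρ u
      obtain ⟨r, rfl⟩ := hρ u'
      refine ⟨(Submodule.Quotient.mk p, Submodule.Quotient.mk r), ⟨p, r, rfl, rfl, ?_⟩, ?_⟩
      · exact (gn_red hL hB hcg p r).2 hu
      · simp only [he]
    · rintro ⟨⟨x, x'⟩, ⟨p, r, hx, hx', hg⟩, hxu⟩
      simp only at hx hx'
      subst hx
      subst hx'
      simp only [he, Prod.mk.injEq] at hxu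
      obtain ⟨rfl, rfl⟩ := hxu
      exact (gn_red hL hB hcg p r).1 hg
  rw [himg, Set.ncard_image_of_injective]
  rintro ⟨x, x'⟩ ⟨y, y'⟩ h
  simp only [Prod.mk.injEq, EmbeddingLike.apply_eq_iff_eq] at h
  rw [h.1, h.2]

end H77.MF
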