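import Pool.Agent.H77.MF.Idn

/-!
# MF-VA: valuations of `K` (row: SX MF VA)

`l.valuation K : Valuation K ℤᵐ⁰` (Mathlib, `HeightOneSpectrum`). Everything here is elementary; see `Pool/Agent/H63/MA/*` (`ord`, `rcm`, `B` ..)
for examples of the API.

Proofs. `val_int`: `HeightOneSpectrum.valuation_le_one`. `val_mem`: `valuation_lt_one_iff_mem`. `val_notmem`: from these two.
`val_pow_mem`: `intValuation_le_pow_iff_mem` with `valuation_of_algebraMap`. `val_frac`: `←`: `v(s) = 1`, `v(s x) ≤ 1`. `→`: Mathlib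
`HeightOneSpectrum.valuation_le_one_iff..` / `exists..`, or: `x = a/b`; the ideal `{s | s x ∈ 𝓞}` is not contained in `l`: write `(b) = l^e J`, `J` prime to
`l`, `a ∈ l^e` (because `v(a) ≤ v(b)`), take `s ∈ J` not in `l`: `s a ∈ J l^e = (b)` (`J ⊓ l^e = J l^e` for coprime ideals), so `s a = b c`,
`s x = c`. `val_exp`: a nonzero value is `exp n`. `unif`: `valuation_exists_uniformizer` gives an element of `K`; `intValuation_exists_uniformizer`
gives one of `𝓞 K`. `val_all`: Mathlib `HeightOneSpectrum.mem_integers_of_valuation_le_one`. `approx_S`: by `val_frac` `s_l f i = a_i` for every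
`l ∈ S`, `s_l` is invertible mod `l^k`: `t_l s_l = 1` mod `l^k`, `t_l a_i` is congruent to `f i` mod `l^k`; then the Chinese remainder theorem
(`IsDedekindDomain.exists_forall_sub_mem_ideal` or `Ideal.quotientInfRingEquivPiQuotient`) for the pairwise coprime ideals `l^k`, `l ∈ S`.
`bad_fin`: `x ≠ 0`: Mathlib `HeightOneSpectrum.Support.finite` / `Ideal.finite_factors`. `cut`: with `x = a/b`: `(b)` has finitely many prime
divisors; product of powers of the primes over `b` different from `l` with large exponent is an ideal prime to `l`: choose `s` in it, not in `l`.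
-/

set_option autoImplicit false

open scoped NumberField Classical
open IsDedekindDomain H38.ML H63.MA H67.SX

noncomputable section

namespace H77.MF

variable {K : Type} [Field K] [NumberField K] {l : Pl K}

theorem val_int (l : Pl K) (a : 𝓞 K) : l.valuation K (a : K) ≤ 1 := l.valuation_le_one a

theorem val_mem {s : 𝓞 K} : s ∈ l.asIdeal ↔ l.valuation K (s : K) < 1 :=
  (l.valuation_lt_one_iff_mem s).symm

theorem val_notmem {s : 𝓞 K} : s ∉ l.asIdeal ↔ l.valuation K (s : K) = 1 :=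
  (HeightOneSpectrum.valuation_eq_one_iff_notMem (K := K) (v := l)).symm

theorem val_pow_mem {s : 𝓞 K} {k : ℕ} :
    s ∈ l.asIdeal ^ k ↔ l.valuation K (s : K) ≤ WithZero.exp (-(k : ℤ)) := by
  rw [← l.intValuation_le_pow_iff_mem, ← HeightOneSpectrum.valuation_of_algebraMap (K := K)]

theorem val_frac {x : K} :
    l.valuation K x ≤ 1 ↔ ∃ s a : 𝓞 K, s ∉ l.asIdeal ∧ (s : K) * x = a := by
  constructor
  · intro h
    obtain ⟨n, d, hnd⟩ := HeightOneSpectrum.exists_primeCompl_mul_eq_of_integer l x h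
    refine ⟨(d : 𝓞 K), n, d.2, ?_⟩
    rw [mul_comm]
    exact hnd
  · rintro ⟨s, a, hs, hsx⟩
    have h1 := congrArg (l.valuation K) hsx
    rw [map_mul, val_notmem.1 hs, one_mul] at h1
    rw [h1]
    exact val_int l a

theorem val_exp {x : K} (hx : x ≠ 0) : ∃ n : ℤ, l.valuation K x = WithZero.exp n :=
  ⟨WithZero.log (l.valuation K x), (WithZero.exp_log ((Valuation.ne_zero_iff _).2 hx)).symm⟩

/-- the values are discrete -/
theorem val_lt {x : K} {n : ℤ} :
    l.valuation K x < WithZero.exp n ↔ l.valuation K x ≤ WithZero.exp (n - 1) := by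
  by_cases hx : x = 0
  · rw [hx, map_zero]
    exact iff_of_true (WithZero.exp_pos) zero_le
  · obtain ⟨m, hm⟩ := val_exp (l := l) hx
    rw [hm, WithZero.exp_lt_exp, WithZero.exp_le_exp]
    omega

theorem unif (l : Pl K) : ∃ π : 𝓞 K, l.valuation K (π : K) = WithZero.exp (-1 : ℤ) :=
  l.valuation_exists_uniformizer' K

theorem val_all {x : K} (h : ∀ l : Pl K, l.valuation K x ≤ 1) : ∃ a : 𝓞 K, (a : K) = x := by
  obtain ⟨a, ha⟩ := HeightOneSpectrum.mem_integers_of_valuation_le_one (R := 𝓞 K) K x h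
  exact ⟨a, ha⟩

private theorem approx1 (l : Pl K) {x : K} (hx : l.valuation K x ≤ 1) (k : ℕ) :
    ∃ a : 𝓞 K, l.valuation K (x - a) ≤ WithZero.exp (-(k : ℤ)) := by
  obtain ⟨a, ha⟩ := HeightOneSpectrum.exists_valuation_sub_lt_of_integer l hx
    (Units.mk0 (WithZero.exp (-(k : ℤ))) WithZero.exp_ne_zero)
  refine ⟨a, ?_⟩
  rw [Valuation.map_sub_swap]
  exact ha.le

private theorem pl_prime (l : Pl K) : Prime l.asIdeal := l.prime

private theorem pl_ne {l l' : Pl K} (h : l ≠ l') : l.asIdeal ≠ l'.asIdeal :=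
  fun h' => h (HeightOneSpectrum.ext h')

/-- simultaneous approximation -/
theorem approx_S {n : ℕ} (S : Finset (Pl K)) (k : Pl K → ℕ) {f : Pl K → Fin n → K}
    (hf : ∀ l ∈ S, In l (f l)) : ∃ g : Fin n → 𝓞 K, ∀ l ∈ S, Cg l (k l) (f l) (fun i => (g i : K)) := by
  have h1 : ∀ i : Fin n, ∃ y : 𝓞 K, ∀ l ∈ S, l.valuation K (f l i - y) ≤ WithZero.exp (-(k l : ℤ)) := by
    intro i
    choose b hb using fun l : S => approx1 (l : Pl K) (hf l l.2 i) (k l)
    obtain ⟨y, hy⟩ := IsDedekindDomain.exists_forall_sub_mem_ideal (s := S) (fun l : Pl K => l.asIdeal) k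
      (fun l _ => pl_prime l) (fun l _ l' _ h => pl_ne h) b
    refine ⟨y, fun l hl => ?_⟩
    have h2 := val_pow_mem.1 (hy l hl)
    have h3 := hb ⟨l, hl⟩
    have h4 : f l i - (y : K) = (f l i - (b ⟨l, hl⟩ : K)) - (((y - b ⟨l, hl⟩ : 𝓞 K)) : K) := by
      have h5 : (((y - b ⟨l, hl⟩ : 𝓞 K)) : K) = (y : K) - (b ⟨l, hl⟩ : K) := rfl
      rw [h5]
      ring
    rw [h4]
    exact (Valuation.map_sub _ _ _).trans (max_le h3 h2)
  choose g hg using h1
  exact ⟨g, fun l hl i => hg i l hl⟩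

theorem approx {n : ℕ} {f : Fin n → K} (hf : In l f) (k : ℕ) :
    ∃ g : Fin n → 𝓞 K, Cg l k f (fun i => (g i : K)) := by
  obtain ⟨g, hg⟩ := approx_S {l} (fun _ => k) (f := fun _ => f) (by
    intro l' h
    rw [Finset.mem_singleton] at h
    rw [h]
    exact hf)
  exact ⟨g, hg l (Finset.mem_singleton_self l)⟩

theorem bad_fin {x : K} (hx : x ≠ 0) : {l : Pl K | l.valuation K x ≠ 1}.Finite := by
  refine ((HeightOneSpectrum.Support.finite (𝓞 K) x).union
    (HeightOneSpectrum.Support.finite (𝓞 K) x⁻¹)).subset ?_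
  intro l hl
  have h0 : l.valuation K x ≠ 0 := (Valuation.ne_zero_iff _).2 hx
  rcases lt_or_gt_of_ne hl with h | h
  · right
    change 1 < l.valuation K x⁻¹
    rw [map_inv₀]
    exact (one_lt_inv₀ (zero_lt_iff.2 h0)).2 h
  · left
    exact h

/-- an element outside `l` which makes `x` integral at all other primes -/
theorem cut (l : Pl K) (x : K) : ∃ s : 𝓞 K, s ∉ l.asIdeal ∧ s ≠ 0 ∧
    ∀ l' : Pl K, l' ≠ l → l'.valuation K ((s : K) * x) ≤ 1 := by
  have hne : ∀ s : 𝓞 K, s ∉ l.asIdeal → s ≠ 0 := by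
    rintro s hs rfl
    exact hs (Submodule.zero_mem _)
  have h1 : ∀ l' : Pl K, ∃ n : ℕ, l'.valuation K x ≤ WithZero.exp (n : ℤ) := by
    intro l'
    by_cases hx : x = 0
    · exact ⟨0, by rw [hx, map_zero]; exact zero_le⟩
    · obtain ⟨m, hm⟩ := val_exp (l := l') hx
      refine ⟨m.toNat, ?_⟩
      rw [hm, WithZero.exp_le_exp]
      exact Int.self_le_toNat m
  choose n hn using h1
  obtain ⟨T, hT⟩ : ∃ T : Finset (Pl K), ∀ l' : Pl K, l' ∉ T → l'.valuation K x ≤ 1 := by
    refine ⟨(HeightOneSpectrum.Support.finite (𝓞 K) x).toFinset, fun l' hl' => ?_⟩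
    by_contra hcon
    exact hl' ((Set.Finite.mem_toFinset _).2 (not_le.1 hcon))
  obtain ⟨s, hs⟩ := IsDedekindDomain.exists_forall_sub_mem_ideal (s := insert l T)
    (fun l' : Pl K => l'.asIdeal) (fun l' => if l' = l then 1 else n l')
    (fun l' _ => pl_prime l') (fun l' _ l'' _ h => pl_ne h)
    (fun l' => if (l' : Pl K) = l then (1 : 𝓞 K) else 0)
  have hsl : s ∉ l.asIdeal := by
    intro h2
    have h3 := hs l (Finset.mem_insert_self l T)
    simp only [if_true, pow_one] at h3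
    have h4 : (1 : 𝓞 K) ∈ l.asIdeal := by
      have h5 := Ideal.sub_mem _ h2 h3
      rwa [sub_sub_cancel] at h5
    exact l.isPrime.ne_top ((Ideal.eq_top_iff_one _).2 h4)
  refine ⟨s, hsl, hne s hsl, fun l' hl' => ?_⟩
  rw [map_mul]
  by_cases hT' : l' ∈ T
  · have h3 := hs l' (Finset.mem_insert_of_mem hT')
    simp only [if_neg hl', sub_zero] at h3
    have h4 := val_pow_mem.1 h3
    calc l'.valuation K (s : K) * l'.valuation K x
        ≤ WithZero.exp (-(n l' : ℤ)) * WithZero.exp (n l' : ℤ) := mul_le_mul' h4 (hn l')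
      _ = 1 := by
          rw [← WithZero.exp_add, neg_add_cancel]
          rfl
  · exact mul_le_one' (val_int l' s) (hT l' hT')

/-- the same for a vector -/
theorem cut_vec {n : ℕ} (l : Pl K) (f : Fin n → K) : ∃ s : 𝓞 K, s ∉ l.asIdeal ∧ s ≠ 0 ∧
    ∀ l' : Pl K, l' ≠ l → In l' (s • f) := by
  choose s h1 h2 h3 using fun i : Fin n => cut l (f i)
  refine ⟨∏ i, s i, ?_, Finset.prod_ne_zero_iff.2 fun i _ => h2 i, fun l' hl' i => ?_⟩
  · intro h
    obtain ⟨i, -, hi⟩ := (Ideal.IsPrime.prod_mem_iff (hp := l.isPrime)).1 h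
    exact h1 i hi
  · rw [Pi.smul_apply, Algebra.smul_def, ← Finset.mul_prod_erase Finset.univ s (Finset.mem_univ i), mul_comm (s i)]
    have e : (algebraMap (𝓞 K) K) ((∏ x ∈ Finset.univ.erase i, s x) * s i) * f i =
        (((∏ x ∈ Finset.univ.erase i, s x : 𝓞 K)) : K) * ((s i : K) * f i) := by
      rw [map_mul, mul_assoc]
    rw [e, map_mul]
    exact mul_le_one' (val_int l' _) (h3 i l' hl')

/-! ### `Cg` and `In` -/

theorem cg_zero_k {n : ℕ} {f g : Fin n → K} (hf : In l f) (hg : In l g) : Cg l 0 f g := by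
  intro i
  have h : WithZero.exp (-((0 : ℕ) : ℤ)) = 1 := by
    rw [Nat.cast_zero, neg_zero]
    rfl
  rw [h]
  exact (Valuation.map_sub _ _ _).trans (max_le (hf i) (hg i))

theorem cg_symm {n k : ℕ} {f g : Fin n → K} (h : Cg l k f g) : Cg l k g f := by
  intro i
  rw [Valuation.map_sub_swap]
  exact h i

theorem cg_trans {n k : ℕ} {f g h : Fin n → K} (h₁ : Cg l k f g) (h₂ : Cg l k g h) :
    Cg l k f h := by
  intro i
  have e : f i - h i = (f i - g i) + (g i - h i) := by ring
  rw [e]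
  exact (Valuation.map_add _ _ _).trans (max_le (h₁ i) (h₂ i))

theorem cg_in {n k : ℕ} {f g : Fin n → K} (hf : In l f) (h : Cg l k g f) : In l g := by
  intro i
  have e : g i = (g i - f i) + f i := by ring
  rw [e]
  refine (Valuation.map_add _ _ _).trans (max_le ((h i).trans ?_) (hf i))
  rw [← WithZero.exp_zero, WithZero.exp_le_exp]
  omega

theorem cg_le {n k m : ℕ} (hk : m ≤ k) {f g : Fin n → K} (h : Cg l k f g) : Cg l m f g := by
  intro i
  refine (h i).trans ?_
  rw [WithZero.exp_le_exp]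
  omega

end H77.MF
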