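import Pool.Agent.H77.MF.Bs

/-!
# MF-VL: the lattice of forms, locally (row: SX MF VL)

`gf v w f = (dt v w)⁻¹ pull f v w`: the form in the basis `(v, w)`. Main statement: locally at `l`, `VL Λ` is `{f | gf v w f` is integral at `l}` for a
local basis `(v, w)` of `Λ`.

Proofs. `in_pull`: every coefficient is a polynomial with integral coefficients (`Valuation.map_add_le`, `map_mul`; `v(2), v(3) ≤ 1`).
`gf_gf`: `pull_pull`, `pull_smul_form`, `dt_cb`. `gf_inv` : `(x, y)` = coordinates of the standard basis. `vl_in`: there are `s, t ∉ l` with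
`s v, t w ∈ Λ`; `pull f (s v) (t w) i ∈ DL Λ` has value at most `v(dt v w)` (`bas_dl`, `lc_mem`), and by `pull_smul_vec` it is `pull f v w i` times a unit at `l`.
`vl_of_all`: let `p, q ∈ Λ`, `i`; by `lc_all` (in the module `K`) it suffices `Lc l (DL Λ) (pull f p q i)` for every `l`. Take the basis `(v, w)` at `l`:
`p = cb v w x`, `q = cb v w y`, `x, y` `In l`; `f = dt v w • gf`-part: `pull f v w = dt v w • g`, `g = gf v w f`; `pull f p q = pull (pull f v w) x y =
dt v w • pull g x y`, value at most `v(dt v w)`: `bas_dl`. `vl_lc`: `→`: `s f ∈ VL Λ`, `vl_in`, `gf v w (s f) = s gf v w f`, `v(s) = 1`. `←`: choose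
`N ≠ 0` in `𝓞 K` with `N • f ∈ VL Λ` (below); write `N` and take `s ∉ l`, `s ≠ 0`, with `s / N` integral at all `l' ≠ l` (`cut l (1/N)`). Then
`s • f ∈ VL Λ` by `vl_of_all`: at `l' ≠ l` take a basis (`bas_ex`): `gf v' w' (s f) = (s/N) gf v' w' (N f)`, integral; at `l`: `gf v w (s f) = s gf v w f`.
Existence of `N`: `Λ` is finitely generated, so there is `N₁ ≠ 0` with `N₁ Λ ≤ OO K 2`; there are `p, q ∈ Λ` with `δ = dt p q ≠ 0`; choose `N₂ ≠ 0` with
`N₂ f ∈ OO K 4` and `N₃ ≠ 0` with `N₃ / δ ∈ 𝓞 K`: for `v, w ∈ Λ`: `N₁³ N₂ pull f v w i = pull (N₂ f) (N₁ v) (N₁ w) i ∈ 𝓞 K`, times `N₃`: in `𝓞 K δ ≤ DL Λ`. So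
`N = N₁³ N₂ N₃`. (`den`: for a finite set of elements of `K` there is a common denominator.)
`vl_loceq`: by `bas_loc` the same basis works for `Λ` and `Λ'`.
-/

set_option autoImplicit false

open scoped NumberField Classical
open IsDedekindDomain H38.ML H63.MA H67.SX

noncomputable section

namespace H77.MF

variable {K : Type} [Field K] [NumberField K]

/-- the form in the basis `(v, w)` -/
def gf (v w : Fin 2 → K) (f : Fin 4 → K) : Fin 4 → K := (dt v w)⁻¹ • pull f v w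

variable {l : Pl K} {Λ Λ' : Submodule (𝓞 K) (Fin 2 → K)} {v w : Fin 2 → K} {f : Fin 4 → K}

/-! private lemmas -/

private theorem pull_map {R R' : Type} [CommRing R] [CommRing R'] (φ : R →+* R') (f : Fin 4 → R)
    (v w : Fin 2 → R) (i : Fin 4) :
    pull (fun i => φ (f i)) (fun i => φ (v i)) (fun i => φ (w i)) i = φ (pull f v w i) := by
  have h2 : φ 2 = 2 := map_ofNat φ 2
  have h3 : φ 3 = 3 := map_ofNat φ 3
  fin_cases i <;> simp [pull, ev, gr0, gr1, h2, h3]

private theorem vl_coe_smul {n : ℕ} (r : 𝓞 K) (f : Fin n → K) : r • f = (r : K) • f := by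
  rw [← algebraMap_smul K r f]

private theorem pull_cube (r : K) (f : Fin 4 → K) (v w : Fin 2 → K) (i : Fin 4) :
    pull f (r • v) (r • w) i = r ^ 3 * pull f v w i := by
  fin_cases i <;> simp [pull, ev, gr0, gr1] <;> ring

theorem in_pull (hf : In l f) (hv : In l v) (hw : In l w) : In l (pull f v w) := by
  intro i
  have h := pull_map ((l.valuation K).integer.subtype) (fun i => ⟨f i, hf i⟩) (fun i => ⟨v i, hv i⟩)
    (fun i => ⟨w i, hw i⟩) i
  have h2 : pull f v w i = ((l.valuation K).integer.subtype) (pull (fun i => ⟨f i, hf i⟩)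
    (fun i => ⟨v i, hv i⟩) (fun i => ⟨w i, hw i⟩) i) := by
    rw [← h]
    rfl
  rw [h2]
  exact (pull (R := (l.valuation K).integer) (fun i => ⟨f i, hf i⟩)
    (fun i => ⟨v i, hv i⟩) (fun i => ⟨w i, hw i⟩) i).2

theorem gf_smul (r : K) (f : Fin 4 → K) (v w : Fin 2 → K) : gf v w (r • f) = r • gf v w f := by
  rw [gf, gf, pull_smul_form, smul_comm]

theorem gf_osmul (r : 𝓞 K) (f : Fin 4 → K) (v w : Fin 2 → K) : gf v w (r • f) = r • gf v w f := by
  rw [vl_coe_smul, gf_smul, vl_coe_smul]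

theorem gf_add (f g : Fin 4 → K) (v w : Fin 2 → K) : gf v w (f + g) = gf v w f + gf v w g := by
  rw [gf, gf, gf, pull_add, smul_add]

theorem gf_gf (h : dt v w ≠ 0) (x y : Fin 2 → K) (f : Fin 4 → K) :
    gf (cb v w x) (cb v w y) f = gf x y (gf v w f) := by
  have _h := h
  rw [gf, gf, gf, pull_smul_form, pull_pull, dt_cb, smul_smul, mul_inv, mul_comm]

theorem gf_id (f : Fin 4 → K) : gf ![1, 0] ![0, 1] f = f := by
  have h : dt (![1, 0] : Fin 2 → K) ![0, 1] = 1 := by simp [dt]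
  rw [gf, pull_id, h, inv_one, one_smul]

/-- `gf` with coordinates in `In l` and a determinant of value 1 preserves integrality -/
theorem in_gf {x y : Fin 2 → K} (hx : In l x) (hy : In l y) (hd : l.valuation K (dt x y) = 1)
    (hf : In l f) : In l (gf x y f) := by
  intro i
  rw [gf, Pi.smul_apply, smul_eq_mul, map_mul, map_inv₀, hd, inv_one, one_mul]
  exact in_pull hf hx hy i

private theorem vl_pull_le (h : Bas l Λ v w) (hf : f ∈ VL Λ) (i : Fin 4) :
    l.valuation K (pull f v w i) ≤ l.valuation K (dt v w) := by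
  obtain ⟨s, hs, hsv⟩ := h.hv
  obtain ⟨t, ht, htw⟩ := h.hw
  have h1 := (bas_dl h _).1 (lc_mem (l := l) (hf _ hsv _ htw i))
  rw [vl_coe_smul s, vl_coe_smul t, pull_smul_vec] at h1
  have hs1 := val_notmem.1 hs
  have ht1 := val_notmem.1 ht
  fin_cases i <;> simpa [hs1, ht1] using h1

theorem vl_in (h : Bas l Λ v w) (hf : f ∈ VL Λ) : In l (gf v w f) := by
  intro i
  have h0 : 0 < l.valuation K (dt v w) := zero_lt_iff.2 ((Valuation.ne_zero_iff _).2 h.nz)
  rw [gf, Pi.smul_apply, smul_eq_mul, map_mul, map_inv₀]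
  rw [inv_mul_le_iff₀ h0, mul_one]
  exact vl_pull_le h hf i

theorem vl_of_all (h : ∀ l : Pl K, ∃ v w : Fin 2 → K, Bas l Λ v w ∧ In l (gf v w f)) :
    f ∈ VL Λ := by
  intro p hp q hq i
  refine lc_all fun l => ?_
  obtain ⟨v, w, hb, hg⟩ := h l
  rw [bas_dl hb]
  have hx := (bas_lc hb p).1 (lc_mem hp)
  have hy := (bas_lc hb q).1 (lc_mem hq)
  have e1 : pull f v w = dt v w • gf v w f := by
    rw [gf, smul_smul, mul_inv_cancel₀ hb.nz, one_smul]
  have e2 : pull f p q = dt v w • pull (gf v w f) (co v w p) (co v w q) := by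
    rw [← pull_smul_form, ← e1, pull_pull, cb_co hb.nz, cb_co hb.nz]
  rw [e2, Pi.smul_apply, smul_eq_mul, map_mul]
  exact mul_le_of_le_one_right' (in_pull hg hx hy i)

private theorem vl_den_set (s : Finset K) : ∃ N : 𝓞 K, N ≠ 0 ∧ ∀ x ∈ s, ∃ a : 𝓞 K, (a : K) = N * x := by
  obtain ⟨b, hb⟩ := IsLocalization.exist_integer_multiples_of_finset (nonZeroDivisors (𝓞 K)) s
  refine ⟨b, nonZeroDivisors.coe_ne_zero b, fun x hx => ?_⟩
  obtain ⟨a, ha⟩ := hb x hx
  refine ⟨a, ?_⟩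
  have h1 : (a : K) = (b : 𝓞 K) • x := ha
  rw [h1, Algebra.smul_def]

theorem vl_den (hL : Lt Λ) (f : Fin 4 → K) : ∃ N : 𝓞 K, N ≠ 0 ∧ N • f ∈ VL Λ := by
  obtain ⟨⟨G, hG⟩, p, hp, q, hq, hpq⟩ := hL
  obtain ⟨N₁, hN₁, h1⟩ := vl_den_set (K := K) (G.image (fun v => v 0) ∪ G.image (fun v => v 1))
  obtain ⟨N₂, hN₂, h2⟩ := vl_den_set (K := K) (Finset.univ.image f)
  obtain ⟨N₃, hN₃, h3⟩ := vl_den_set (K := K) {(dt p q)⁻¹}
  obtain ⟨c, hc⟩ := h3 _ (Finset.mem_singleton_self _)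
  have hf : ∃ f' : Fin 4 → 𝓞 K, ∀ i, (f' i : K) = N₂ * f i := by
    choose f' hf' using fun i : Fin 4 => h2 (f i) (Finset.mem_image_of_mem _ (Finset.mem_univ i))
    exact ⟨f', hf'⟩
  have hv : ∀ v ∈ Λ, ∃ v' : Fin 2 → 𝓞 K, ∀ i, (v' i : K) = N₁ * v i := by
    intro v hv
    rw [← hG] at hv
    induction hv using Submodule.span_induction with
    | mem x hx =>
      have e : ∀ i : Fin 2, ∃ a : 𝓞 K, (a : K) = N₁ * x i := by
        intro i
        apply h1
        rw [Finset.mem_union]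
        fin_cases i
        · exact Or.inl (Finset.mem_image_of_mem (fun v : Fin 2 → K => v 0) hx)
        · exact Or.inr (Finset.mem_image_of_mem (fun v : Fin 2 → K => v 1) hx)
      choose v' hv' using e
      exact ⟨v', hv'⟩
    | zero => exact ⟨0, fun i => by simp⟩
    | add x y _ _ hx hy =>
      obtain ⟨a, ha⟩ := hx
      obtain ⟨b, hb⟩ := hy
      refine ⟨a + b, fun i => ?_⟩
      rw [Pi.add_apply, Pi.add_apply, mul_add, ← ha, ← hb]
      rfl
    | smul r x _ hx =>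
      obtain ⟨a, ha⟩ := hx
      refine ⟨r • a, fun i => ?_⟩
      rw [vl_coe_smul, Pi.smul_apply, Pi.smul_apply, smul_eq_mul, smul_eq_mul, mul_left_comm, ← ha]
      rfl
  obtain ⟨f', hf'⟩ := hf
  refine ⟨N₃ * (N₁ ^ 3 * N₂), mul_ne_zero hN₃ (mul_ne_zero (pow_ne_zero _ hN₁) hN₂), ?_⟩
  intro v hvL w hwL i
  obtain ⟨v', hv'⟩ := hv v hvL
  obtain ⟨w', hw'⟩ := hv w hwL
  have e1 : pull ((N₂ : K) • f) ((N₁ : K) • v) ((N₁ : K) • w) i = (pull f' v' w' i : 𝓞 K) := by
    have h4 := pull_map (algebraMap (𝓞 K) K) f' v' w' i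
    have h5 : (fun i => algebraMap (𝓞 K) K (f' i)) = (N₂ : K) • f := funext fun i => hf' i
    have h6 : (fun i => algebraMap (𝓞 K) K (v' i)) = (N₁ : K) • v := funext fun i => hv' i
    have h7 : (fun i => algebraMap (𝓞 K) K (w' i)) = (N₁ : K) • w := funext fun i => hw' i
    rw [h5, h6, h7] at h4
    exact h4
  rw [pull_cube, pull_smul_form, Pi.smul_apply, smul_eq_mul] at e1
  have e2 : pull ((N₃ * (N₁ ^ 3 * N₂)) • f) v w i = (c * pull f' v' w' i) • dt p q := by
    rw [vl_coe_smul, pull_smul_form, Pi.smul_apply, smul_eq_mul, Algebra.smul_def]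
    have h8 : (algebraMap (𝓞 K) K (c * pull f' v' w' i)) = (c : K) * (pull f' v' w' i : 𝓞 K) :=
      map_mul _ _ _
    have h9 : ((N₃ * (N₁ ^ 3 * N₂) : 𝓞 K) : K) = (N₃ : K) * ((N₁ : K) ^ 3 * (N₂ : K)) := by
      simp
    rw [h8, h9, ← e1, hc]
    field_simp
  rw [e2]
  exact Submodule.smul_mem _ _ (Submodule.subset_span ⟨p, hp, q, hq, rfl⟩)

theorem vl_lc (hL : Lt Λ) (h : Bas l Λ v w) : Lc l (VL Λ) f ↔ In l (gf v w f) := by
  constructor
  · rintro ⟨s, hs, hsf⟩ i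
    have h1 := vl_in h hsf i
    rw [gf_osmul, vl_coe_smul, Pi.smul_apply, smul_eq_mul, map_mul, val_notmem.1 hs, one_mul] at h1
    exact h1
  · intro hg
    obtain ⟨N, hN, hNf⟩ := vl_den hL f
    obtain ⟨s, hs, -, hsl⟩ := cut l ((N : K)⁻¹)
    have hNK : (N : K) ≠ 0 := by
      intro h0
      exact hN (by exact_mod_cast h0)
    refine ⟨s, hs, vl_of_all fun l' => ?_⟩
    by_cases hl : l' = l
    · subst hl
      refine ⟨v, w, h, fun i => ?_⟩
      rw [gf_osmul, vl_coe_smul, Pi.smul_apply, smul_eq_mul, map_mul, val_notmem.1 hs, one_mul]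
      exact hg i
    · obtain ⟨v', -, w', -, hb⟩ := bas_ex hL l'
      refine ⟨v', w', hb, fun i => ?_⟩
      have h1 := vl_in hb hNf i
      have e : gf v' w' (s • f) = ((s : K) * (N : K)⁻¹) • gf v' w' (N • f) := by
        rw [gf_osmul, gf_osmul, vl_coe_smul, vl_coe_smul, smul_smul, mul_assoc,
          inv_mul_cancel₀ hNK, mul_one]
      rw [e, Pi.smul_apply, smul_eq_mul, map_mul]
      exact mul_le_one' (hsl l' hl) h1

theorem vl_loceq (hL : Lt Λ) (hL' : Lt Λ') (h : LocEq l Λ Λ') : LocEq l (VL Λ) (VL Λ') := by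
  obtain ⟨v, -, w, -, hb⟩ := bas_ex hL l
  have hb' := bas_loc hb h
  intro f
  rw [vl_lc hL hb, vl_lc hL' hb']

end H77.MF
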