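import Pool.Agent.H77.MF.Bs
import Pool.Agent.H77.MF.Cf
import Pool.Agent.H77.MF.Dc
import Pool.Agent.H77.MF.Defs
import Pool.Agent.H77.MF.Ds1
import Pool.Agent.H77.MF.Ds2
import Pool.Agent.H77.MF.Ds3
import Pool.Agent.H77.MF.FrA
import Pool.Agent.H77.MF.FrC
import Pool.Agent.H77.MF.Idn
import Pool.Agent.H77.MF.Kd
import Pool.Agent.H77.MF.Kr1
import Pool.Agent.H77.MF.Kr2
import Pool.Agent.H77.MF.Kr3
import Pool.Agent.H77.MF.Kr4
import Pool.Agent.H77.MF.Kr5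
import Pool.Agent.H77.MF.Lct
import Pool.Agent.H77.MF.Lf
import Pool.Agent.H77.MF.Lg
import Pool.Agent.H77.MF.Mn
import Pool.Agent.H77.MF.Mu1
import Pool.Agent.H77.MF.Mu2
import Pool.Agent.H77.MF.Mu3
import Pool.Agent.H77.MF.Mu4
import Pool.Agent.H77.MF.Mv
import Pool.Agent.H77.MF.Nm1
import Pool.Agent.H77.MF.Nm2
import Pool.Agent.H77.MF.Nm2b
import Pool.Agent.H77.MF.Nm3
import Pool.Agent.H77.MF.Nm3b
import Pool.Agent.H77.MF.Nm3c
import Pool.Agent.H77.MF.Or1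
import Pool.Agent.H77.MF.Or2
import Pool.Agent.H77.MF.Or3
import Pool.Agent.H77.MF.Rc
import Pool.Agent.H77.MF.Rt
import Pool.Agent.H77.MF.Sb1
import Pool.Agent.H77.MF.Sb2
import Pool.Agent.H77.MF.Sb3
import Pool.Agent.H77.MF.Va
import Pool.Agent.H77.MF.Vl
import Pool.Agent.H77.MF.Vm

/-!
# MF: exported statements

All statements of (F1)-(F8) (helper97's mail, SX, chapter M, large ball); the proofs are in the imported modules, namespace `H77.MF`: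
`Lg`: loc_all, lc_all, in_of_mem, cg_of_mem. `Vm`: vl_lo, vl_hi, vl_fg, vl_loc, loc_ix, ix_pos. `Lct`: lat_count. `Mn`, `Mv`: mean_mul, mean_lvl, mean_univ.
`Nm1`, `Nm3c`: nm_per, nm_dens, M0_bd. `Nm2b`, `Nm3`: nm_iff, nml_cg. `Mu1`, `Mu3`, `Mu4`: MU_cg, MU_bd, M1_bd, mu_eq. `Sb1`, `Sb2`, `Sb3`: gn_per, rix_mid, rix_inv, mid_card, sub_three, gn_card.
`FrA`, `FrC`: lv_ind, lv_ex, lv_uniq, lv_pull, lv_ev, lv_disc, lv_emb. `Or1`, `Or2`, `Or3`: lf_lt, lf_change, lf_vl, lf_max, gn_iff, nm_loc, lf_iff.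
`Ds3`: disc_ix. `Rc`: recov, recov_cu, base_ex. `Dc`: lmx_eq, lmx_iff, dcount. `Kr5`: krasner. `Lf`: lfin.
-/
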