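import Pool.Agent.H77.MF.Lg

/-!
# MF-BS: local bases of lattices of rank 2 (row: SX MF BS)

`Bas l Λ v w`: `(v, w)` is a basis of `Λ` over the local ring of `l`. `co v w p`: the coordinates of `p` (Cramer). `v(x)` is `l.valuation K x`.

Proofs. `cb_co`, `co_cb`: `cramer`, `field_simp`, `ring`. `bas_ex`: `Λ` is generated by a finite set `G`; `G ⊄ K v` (rank 2), so some
`dt g g' ≠ 0`, `g, g' ∈ G` (otherwise `dt v w = 0` on `Λ`, by bilinearity). Choose `(v, w) ∈ G × G` with `v(dt v w)` maximal. By bilinearity and the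
ultrametric inequality `v(dt p q) ≤ v(dt v w)` for all `p, q ∈ Λ` (`Submodule.span_induction` twice: scalars in `𝓞 K` have `v ≤ 1`).
`bas_lc`: `→`: `s p ∈ Λ`: `v(dt (s p) w) ≤ v(dt v w)`, `v(s) = 1`. `←`: `p = cb v w (co v w p) = x₀ v + x₁ w`, `lc_val`, `lc_add`.
`bas_dl`: `→`: `DL Λ` is generated by `dt p q`, `p = cb v w x`, `q = cb v w y`, `x, y` in `In l` (by `bas_lc`, `lc_mem`), `dt p q = dt v w · dt x y`
(`dt_cb`). `←`: there are `s, t ∉ l` with `s v, t w ∈ Λ`, `dt (s v) (t w) = s t dt v w ∈ DL Λ`; `x = (x / (s t dt v w)) · (s t dt v w)`, the first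
factor has `v ≤ 1`: `lc_val` (in `V = K`). `bas_change`: `Lc` of `cb v w x`: `lc_val`; `dt p (cb v w y) = dt v w · dt (co v w p) y`, `v ≤ v(dt v w)`.
`bas_eq`: `co` of `v'`, `w'` are `In l` by `bas_lc` (`h'.hv`); `dt v' w' = dt v w · dt (co v') (co w')`; by symmetry `v(dt v w) ≤ v(dt v' w')`, so the
determinant of the coordinates has value 1. `bas_loc`: `p ∈ Λ'`: `Lc l Λ p`, `bas_lc`. `bas_of_co`: `v(dt p w) = v(dt v w) v(co ..)`.
`loc_of_bas`: both sides are `In l (co v w p)`.
-/

set_option autoImplicit false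

open scoped NumberField Classical
open IsDedekindDomain H38.ML H63.MA H67.SX

noncomputable section

namespace H77.MF

variable {K : Type} [Field K] [NumberField K]

/-- a local basis -/
structure Bas (l : Pl K) (Λ : Submodule (𝓞 K) (Fin 2 → K)) (v w : Fin 2 → K) : Prop where
  hv : Lc l Λ v
  hw : Lc l Λ w
  nz : dt v w ≠ 0
  h1 : ∀ p ∈ Λ, l.valuation K (dt p w) ≤ l.valuation K (dt v w)
  h2 : ∀ p ∈ Λ, l.valuation K (dt v p) ≤ l.valuation K (dt v w)

/-- the coordinates -/
def co (v w p : Fin 2 → K) : Fin 2 → K := ![dt p w / dt v w, dt v p / dt v w]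

variable {l : Pl K} {Λ Λ' : Submodule (𝓞 K) (Fin 2 → K)} {v w v' w' : Fin 2 → K}

omit [NumberField K] in
theorem bs_smul (s : 𝓞 K) (p : Fin 2 → K) : s • p = (s : K) • p := by
  funext i
  rw [Pi.smul_apply, Pi.smul_apply, Algebra.smul_def]
  rfl

theorem bs_left (s : 𝓞 K) (p q : Fin 2 → K) : dt (s • p) q = (s : K) * dt p q := by
  rw [bs_smul, dt_smul_left]

theorem bs_right (s : 𝓞 K) (p q : Fin 2 → K) : dt p (s • q) = (s : K) * dt p q := by
  rw [bs_smul, dt_smul_right]

theorem bs_dt {x y : Fin 2 → K} (hx : In l x) (hy : In l y) : l.valuation K (dt x y) ≤ 1 := by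
  refine (Valuation.map_sub _ _ _).trans (max_le ?_ ?_)
  · rw [map_mul]
    exact mul_le_one' (hx 0) (hy 1)
  · rw [map_mul]
    exact mul_le_one' (hx 1) (hy 0)

theorem bs_h1 (h : Bas l Λ v w) {p : Fin 2 → K} (hp : Lc l Λ p) :
    l.valuation K (dt p w) ≤ l.valuation K (dt v w) := by
  obtain ⟨s, hs, hsp⟩ := hp
  have h1 := h.h1 _ hsp
  rw [bs_left, map_mul, val_notmem.1 hs, one_mul] at h1
  exact h1

theorem bs_h2 (h : Bas l Λ v w) {p : Fin 2 → K} (hp : Lc l Λ p) :
    l.valuation K (dt v p) ≤ l.valuation K (dt v w) := by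
  obtain ⟨s, hs, hsp⟩ := hp
  have h1 := h.h2 _ hsp
  rw [bs_right, map_mul, val_notmem.1 hs, one_mul] at h1
  exact h1

theorem bs_pos (h : dt v w ≠ 0) : 0 < l.valuation K (dt v w) := by
  rw [zero_lt_iff]
  exact (Valuation.ne_zero_iff _).2 h

omit [NumberField K] in
theorem cb_co (h : dt v w ≠ 0) (p : Fin 2 → K) : cb v w (co v w p) = p := by
  funext i
  have h1 := cramer v w p i
  show dt p w / dt v w * v i + dt v p / dt v w * w i = p i
  field_simp
  linear_combination -h1

omit [NumberField K] in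
theorem co_cb (h : dt v w ≠ 0) (x : Fin 2 → K) : co v w (cb v w x) = x := by
  have h0 : dt (cb v w x) w = x 0 * dt v w := by
    simp only [dt, cb]
    ring
  have h1 : dt v (cb v w x) = x 1 * dt v w := by
    simp only [dt, cb]
    ring
  funext i
  fin_cases i
  · show dt (cb v w x) w / dt v w = x 0
    rw [h0, mul_div_cancel_right₀ _ h]
  · show dt v (cb v w x) / dt v w = x 1
    rw [h1, mul_div_cancel_right₀ _ h]

theorem bas_ex (hL : Lt Λ) (l : Pl K) : ∃ v ∈ Λ, ∃ w ∈ Λ, Bas l Λ v w := by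
  obtain ⟨⟨S, hS⟩, v0, hv0, w0, hw0, hd0⟩ := hL
  have hne : S.Nonempty := by
    rw [Finset.nonempty_iff_ne_empty]
    rintro rfl
    rw [Finset.coe_empty, Submodule.span_empty] at hS
    rw [← hS, Submodule.mem_bot] at hv0
    apply hd0
    rw [hv0]
    simp [dt]
  obtain ⟨⟨v, w⟩, hvw, hmax⟩ := Finset.exists_max_image (S ×ˢ S) (fun x => l.valuation K (dt x.1 x.2))
    (hne.product hne)
  rw [Finset.mem_product] at hvw
  have hsub : ∀ x ∈ S, x ∈ Λ := fun x hx => by
    rw [← hS]
    exact Submodule.subset_span hx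
  have hA : ∀ p ∈ S, ∀ q ∈ Λ, l.valuation K (dt p q) ≤ l.valuation K (dt v w) := by
    intro p hp q hq
    rw [← hS] at hq
    induction hq using Submodule.span_induction with
    | mem x hx => exact hmax (p, x) (Finset.mem_product.2 ⟨hp, hx⟩)
    | zero =>
      have : dt p 0 = (0 : K) := by simp [dt]
      rw [this, map_zero]
      exact zero_le
    | add x y _ _ hx hy =>
      rw [dt_add_right]
      exact (Valuation.map_add _ _ _).trans (max_le hx hy)
    | smul a x _ hx =>
      rw [bs_right, map_mul]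
      exact (mul_le_mul_left (val_int l a) _).trans (by rw [one_mul]; exact hx)
  have hB : ∀ p ∈ Λ, ∀ q ∈ Λ, l.valuation K (dt p q) ≤ l.valuation K (dt v w) := by
    intro p hp q hq
    rw [← hS] at hp
    induction hp using Submodule.span_induction with
    | mem x hx => exact hA x hx q hq
    | zero =>
      have : dt 0 q = (0 : K) := by simp [dt]
      rw [this, map_zero]
      exact zero_le
    | add x y _ _ hx hy =>
      rw [dt_add_left]
      exact (Valuation.map_add _ _ _).trans (max_le hx hy)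
    | smul a x _ hx =>
      rw [bs_left, map_mul]
      exact (mul_le_mul_left (val_int l a) _).trans (by rw [one_mul]; exact hx)
  refine ⟨v, hsub v hvw.1, w, hsub w hvw.2, lc_mem (hsub v hvw.1), lc_mem (hsub w hvw.2), ?_,
    fun p hp => hB p hp w (hsub w hvw.2), fun p hp => hB v (hsub v hvw.1) p hp⟩
  intro h0
  have h1 := hB v0 hv0 w0 hw0
  rw [h0, map_zero] at h1
  exact hd0 ((Valuation.zero_iff _).1 (le_zero_iff.1 h1))

theorem bas_lc (h : Bas l Λ v w) (p : Fin 2 → K) : Lc l Λ p ↔ In l (co v w p) := by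
  constructor
  · intro hp i
    fin_cases i
    · show l.valuation K (dt p w / dt v w) ≤ 1
      rw [map_div₀, div_le_one₀ (bs_pos h.nz)]
      exact bs_h1 h hp
    · show l.valuation K (dt v p / dt v w) ≤ 1
      rw [map_div₀, div_le_one₀ (bs_pos h.nz)]
      exact bs_h2 h hp
  · intro hp
    have h1 : p = co v w p 0 • v + co v w p 1 • w := by
      conv_lhs => rw [← cb_co h.nz p]
      rfl
    rw [h1]
    exact lc_add (lc_val (hp 0) h.hv) (lc_val (hp 1) h.hw)

theorem bas_dl (h : Bas l Λ v w) (x : K) :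
    Lc l (DL Λ) x ↔ l.valuation K x ≤ l.valuation K (dt v w) := by
  constructor
  · rintro ⟨s, hs, hx⟩
    have h1 : ∀ y ∈ DL Λ, l.valuation K y ≤ l.valuation K (dt v w) := by
      intro y hy
      induction hy using Submodule.span_induction with
      | mem x hx =>
        obtain ⟨p, hp, q, hq, rfl⟩ := hx
        rw [← cb_co h.nz p, ← cb_co h.nz q, dt_cb, map_mul]
        have h2 := bs_dt ((bas_lc h p).1 (lc_mem hp)) ((bas_lc h q).1 (lc_mem hq))
        exact mul_le_of_le_one_right' h2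
      | zero =>
        rw [map_zero]
        exact zero_le
      | add x y _ _ hx hy => exact (Valuation.map_add _ _ _).trans (max_le hx hy)
      | smul a x _ hx =>
        have : a • x = (a : K) * x := Algebra.smul_def a x
        rw [this, map_mul]
        exact (mul_le_mul_left (val_int l a) _).trans (by rw [one_mul]; exact hx)
    have h2 := h1 _ hx
    have : s • x = (s : K) * x := Algebra.smul_def s x
    rw [this, map_mul, val_notmem.1 hs, one_mul] at h2
    exact h2
  · intro hx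
    obtain ⟨s, hs, hsv⟩ := h.hv
    obtain ⟨t, ht, htw⟩ := h.hw
    have h1 : Lc l (DL Λ) (dt v w) := by
      apply lc_cancel hs
      apply lc_cancel ht
      apply lc_mem
      apply Submodule.subset_span
      refine ⟨_, hsv, _, htw, ?_⟩
      rw [bs_left, bs_right, Algebra.smul_def, Algebra.smul_def]
      show (t : K) * ((s : K) * dt v w) = _
      ring
    have h2 : x = (x / dt v w) • dt v w := by
      rw [smul_eq_mul, div_mul_cancel₀ _ h.nz]
    rw [h2]
    apply lc_val _ h1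
    rw [map_div₀, div_le_one₀ (bs_pos h.nz)]
    exact hx

theorem bas_change (h : Bas l Λ v w) {x y : Fin 2 → K} (hx : In l x) (hy : In l y)
    (hd : l.valuation K (dt x y) = 1) : Bas l Λ (cb v w x) (cb v w y) := by
  have hd0 : dt x y ≠ 0 := by
    intro h0
    rw [h0, map_zero] at hd
    exact zero_ne_one hd
  refine ⟨?_, ?_, ?_, ?_, ?_⟩
  · rw [bas_lc h, co_cb h.nz]
    exact hx
  · rw [bas_lc h, co_cb h.nz]
    exact hy
  · rw [dt_cb]
    exact mul_ne_zero h.nz hd0
  · intro p hp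
    rw [dt_cb, map_mul, hd, mul_one]
    conv_lhs => rw [← cb_co h.nz p]
    rw [dt_cb, map_mul]
    exact mul_le_of_le_one_right' (bs_dt ((bas_lc h p).1 (lc_mem hp)) hy)
  · intro p hp
    rw [dt_cb, map_mul, hd, mul_one]
    conv_lhs => rw [← cb_co h.nz p]
    rw [dt_cb, map_mul]
    exact mul_le_of_le_one_right' (bs_dt hx ((bas_lc h p).1 (lc_mem hp)))

theorem bas_eq (h : Bas l Λ v w) (h' : Bas l Λ v' w') : In l (co v w v') ∧ In l (co v w w') ∧
    l.valuation K (dt (co v w v') (co v w w')) = 1 := by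
  refine ⟨(bas_lc h v').1 h'.hv, (bas_lc h w').1 h'.hw, ?_⟩
  have h1 : l.valuation K (dt v w) = l.valuation K (dt v' w') :=
    le_antisymm ((bas_dl h' _).1 ((bas_dl h _).2 le_rfl)) ((bas_dl h _).1 ((bas_dl h' _).2 le_rfl))
  have h2 : dt v' w' = dt v w * dt (co v w v') (co v w w') := by
    rw [← dt_cb, cb_co h.nz, cb_co h.nz]
  rw [h2, map_mul] at h1
  exact (mul_eq_left₀ (bs_pos h.nz).ne').1 h1.symm

theorem bas_loc (h : Bas l Λ v w) (e : LocEq l Λ Λ') : Bas l Λ' v w :=
  ⟨(e v).1 h.hv, (e w).1 h.hw, h.nz, fun p hp => bs_h1 h ((e p).2 (lc_mem hp)),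
    fun p hp => bs_h2 h ((e p).2 (lc_mem hp))⟩

theorem bas_of_co (hv : Lc l Λ v) (hw : Lc l Λ w) (nz : dt v w ≠ 0)
    (h : ∀ p ∈ Λ, In l (co v w p)) : Bas l Λ v w := by
  refine ⟨hv, hw, nz, fun p hp => ?_, fun p hp => ?_⟩
  · have h1 : l.valuation K (dt p w / dt v w) ≤ 1 := h p hp 0
    rw [map_div₀, div_le_one₀ (bs_pos nz)] at h1
    exact h1
  · have h1 : l.valuation K (dt v p / dt v w) ≤ 1 := h p hp 1
    rw [map_div₀, div_le_one₀ (bs_pos nz)] at h1
    exact h1

theorem loc_of_bas (h : Bas l Λ v w) (h' : Bas l Λ' v w) : LocEq l Λ Λ' :=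
  fun p => (bas_lc h p).trans (bas_lc h' p).symm

theorem bas_oo (l : Pl K) : Bas l (OO K 2) ![1, 0] ![0, 1] := by
  refine ⟨lc_mem ?_, lc_mem ?_, ?_, ?_, ?_⟩
  · intro i
    fin_cases i
    · exact ⟨1, by simp⟩
    · exact ⟨0, by simp⟩
  · intro i
    fin_cases i
    · exact ⟨0, by simp⟩
    · exact ⟨1, by simp⟩
  · simp [dt]
  · intro p hp
    obtain ⟨a, ha⟩ := hp 0
    simp only [dt, Matrix.cons_val_zero, Matrix.cons_val_one, mul_one, mul_zero, sub_zero, map_one]
    rw [← ha]
    exact val_int l a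
  · intro p hp
    obtain ⟨a, ha⟩ := hp 1
    simp only [dt, Matrix.cons_val_zero, Matrix.cons_val_one, mul_one, one_mul, zero_mul, sub_zero, map_one]
    rw [← ha]
    exact val_int l a

end H77.MF
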