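import Pool.Agent.H77.MF.Kr2
import Pool.Agent.H77.MF.Kr3
import Pool.Agent.H77.MF.Kr4
import Pool.Agent.H77.MF.Or3

/-!
# MF-KR5: Krasner's lemma for the local types (row: SX MF KR5)

`P = Q.P v`, `π` a uniformizer at `v` (`unif`), `B` from `disc_bd v`, `v(2) = exp(-e)` (`val_exp`). `m = B + 2e + 1`, `k = 3m`.
Let `Lv f w`, `Lv f' w'` (fields `F = c.F`, `F' = c'.F`) with `LF` locally `𝓞²` at `v`, `Cg v k f f'`. Then `In v f`, `¬ NML v f` and the same for `f'` (`lf_vl`, `vl_in`, `bas_oo`, `bas_loc`, `gf_id`; `nm_loc`, `nm_iff`, `loceq_refl`-type argument), so `v(disc f), v(disc f') ≥ exp(-B)`.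
Embeddings: `F →ₐ[K] QBar` has exactly 3 elements (`AlgHom.card`, `finrank = 3`), numbered by `τ : Fin 3 → _` (an equivalence, injective); the same `τ'` for `F'`. `τ_i (w j)` is `P`-integral: `Nr P π 0` (`lv_il` at `v`: `s w_j` integral with `s ∉ v`, so `s ∉ P`).
(1) EXISTENCE. For `ι' : F' →ₐ QBar` there is `i` with `Nr P π m (2 (ι'(w' j) - τ_i(w j)))` for `j = 0, 1` (write `Cl ι' i`). Take the four vectors `x = (1,0), (0,1), (1,1), (1,-1)`. Put `z' = ι'(lin w' x)`. `lin_cub` for `f'`: `z'³ - c1' z'² + c2' z' - c3' = 0`; `lin_prod` for `f`, `T = z'`: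
 `∏_i (z' - τ_i(lin w x)) = (z'³ - c1 z'² + c2 z' - c3) - 0 = -(c1 - c1') z'² + (c2 - c2') z' - (c3 - c3')`, and `v(c1 - c1'), v(c2 - c2'), v(c3 - c3') ≤ exp(-k)` (polynomials with integral coefficients in `f`, `x`; `In v`), so the product is `Nr (3m)` (`nr_K`, `nr_mul`, `nr_add`), and by `nr_prod` there is `i = i(x)` with
 `Nr m (z' - τ_i(lin w x))`. Four vectors, three indices: two of them, `x ≠ x̃`, have the same `i`. `ι'(lin w' x) - τ_i(lin w x) = x₀ D₀ + x₁ D₁`, `D_j = ι'(w' j) - τ_i(w j)`; the determinant of `x, x̃` is `±1` or `±2`, so `2 D_j` is an integral combination of the two: `Nr m (2 D_j)`.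
(2) UNIQUENESS. If `i₁ ≠ i₂` and `Nr m (2 (τ_{i₁}(w j) - τ_{i₂}(w j)))` for `j = 0, 1`: by `lv_emb` (third identity, after renumbering; it is symmetric: `disc f = D²`, `D` = the determinant of `(1, τ_i w₀, τ_i w₁)`, a combination of `τ_{i₂}(w j) - τ_{i₁}(w j)` with `P`-integral coefficients): `2 D` is `Nr m`, `4 disc f = (2D)²` is `Nr (2m)`, so
 (`nr_K`) `v(4 disc f) ≤ exp(-m)`, but `v(4 disc f) ≥ exp(-(2e + B)) > exp(-m)`. Contradiction. The same for `f'`.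
(3) So `Cl` defines a map `ψ : (F' →ₐ QBar) → (F →ₐ QBar)`; injective by (2) for `f'`; a bijection (3 elements on both sides). `e = ψ⁻¹`: for `ι : F →ₐ QBar`, `e ι = ι'` with `Cl ι' ι`. For `σ ∈ dec P`: `Cl ι' ι → Cl (σ∘ι') (σ∘ι)` (`nr_dec`, `σ 2 = 2`), so by uniqueness `e (σ∘ι) = σ∘(e ι)`. This is `LEq {v} Q c c'` (`v' ∈ {v}`).
Suggestion: state (1) and (2) as private lemmas for general `Cb`-type data (two cubic fields `F, F' : IntermediateField K QBar`), symmetric in `(f, f')`, with `ι, ι'` algebra homomorphisms: `ex_close : ∀ ι', ∃ ι, Close ι ι'`, `un_close : Close ι₁ ι' → Close ι₂ ι' → ι₁ = ι₂`.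
-/

set_option autoImplicit false

open scoped NumberField Classical
open IsDedekindDomain H38.ML H63.MA H67.SX

noncomputable section

namespace H77.MF

variable {K : IntermediateField ℚ QBar} [NumberField K]

/-- the embeddings are close at `P` -/
def Close (P : Ideal (𝓞 QBar)) (π : 𝓞 K) (m : ℕ) {F F' : IntermediateField K QBar}
    (w : Fin 2 → F) (w' : Fin 2 → F') (ι : F →ₐ[K] QBar) (ι' : F' →ₐ[K] QBar) : Prop :=
  ∀ j : Fin 2, Nr P π m (2 * (ι' (w' j) - ι (w j)))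

private def k5R (v : Pl K) (c : WithZero (Multiplicative ℤ)) (a b : K) : Prop :=
  v.valuation K a ≤ 1 ∧ v.valuation K b ≤ 1 ∧ v.valuation K (a - b) ≤ c

private theorem k5_add {v : Pl K} {c : WithZero (Multiplicative ℤ)} {a b a' b' : K}
    (h : k5R v c a b) (h' : k5R v c a' b') : k5R v c (a + a') (b + b') := by
  refine ⟨(Valuation.map_add _ _ _).trans (max_le h.1 h'.1),
    (Valuation.map_add _ _ _).trans (max_le h.2.1 h'.2.1), ?_⟩
  have e : a + a' - (b + b') = (a - b) + (a' - b') := by ring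
  rw [e]
  exact (Valuation.map_add _ _ _).trans (max_le h.2.2 h'.2.2)

private theorem k5_neg {v : Pl K} {c : WithZero (Multiplicative ℤ)} {a b : K}
    (h : k5R v c a b) : k5R v c (-a) (-b) := by
  refine ⟨by rw [Valuation.map_neg]; exact h.1, by rw [Valuation.map_neg]; exact h.2.1, ?_⟩
  have e : -a - -b = -(a - b) := by ring
  rw [e, Valuation.map_neg]
  exact h.2.2

private theorem k5_sub {v : Pl K} {c : WithZero (Multiplicative ℤ)} {a b a' b' : K}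
    (h : k5R v c a b) (h' : k5R v c a' b') : k5R v c (a - a') (b - b') := by
  rw [sub_eq_add_neg, sub_eq_add_neg]
  exact k5_add h (k5_neg h')

private theorem k5_mul {v : Pl K} {c : WithZero (Multiplicative ℤ)} {a b a' b' : K}
    (h : k5R v c a b) (h' : k5R v c a' b') : k5R v c (a * a') (b * b') := by
  refine ⟨by rw [map_mul]; exact mul_le_one' h.1 h'.1, by rw [map_mul]; exact mul_le_one' h.2.1 h'.2.1, ?_⟩
  have e : a * a' - b * b' = (a - b) * a' + b * (a' - b') := by ring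
  rw [e]
  refine (Valuation.map_add _ _ _).trans (max_le ?_ ?_)
  · rw [map_mul]
    exact (mul_le_mul' h.2.2 h'.1).trans (mul_one c).le
  · rw [map_mul]
    exact (mul_le_mul' h.2.1 h'.2.2).trans (one_mul c).le

private theorem k5_pow {v : Pl K} {c : WithZero (Multiplicative ℤ)} {a b : K}
    (h : k5R v c a b) (n : ℕ) : k5R v c (a ^ (n + 1)) (b ^ (n + 1)) := by
  induction n with
  | zero => simpa using h
  | succ n ih =>
    rw [pow_succ a, pow_succ b]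
    exact k5_mul ih h

private theorem k5_const {v : Pl K} {c : WithZero (Multiplicative ℤ)} {a : K}
    (h : v.valuation K a ≤ 1) : k5R v c a a := ⟨h, h, by rw [sub_self, map_zero]; exact zero_le⟩

private theorem k5_num {v : Pl K} (n : ℕ) : v.valuation K (n : K) ≤ 1 := by
  have h := val_int v (n : 𝓞 K)
  have e : ((n : 𝓞 K) : K) = n := map_natCast (algebraMap (𝓞 K) K) n
  rwa [e] at h

private theorem k5_notmem (Q : DP K QBar) (v : Pl K) {s : 𝓞 K} (hs : s ∉ v.asIdeal) :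
    algebraMap (𝓞 K) (𝓞 QBar) s ∉ Q.P v := by
  intro h
  apply hs
  rw [← Q.under v]
  exact h

private theorem k5_w (Q : DP K QBar) (v : Pl K) {π : 𝓞 K} {c : Cb K} {f : Fin 4 → K}
    {w : Fin 2 → c.F} (h : Lv f w) (hf : In v f) (ι : c.F →ₐ[K] QBar) (j : Fin 2) :
    Nr (Q.P v) π 0 (ι (w j)) := by
  obtain ⟨s, hs, hint⟩ := lv_il h hf j
  have h1 : IsIntegral ℤ (ι (algebraMap K c.F s * w j)) := hint.map (ι : c.F →+* QBar).toIntAlgHom
  refine ⟨algebraMap (𝓞 K) (𝓞 QBar) s, ⟨_, h1⟩, k5_notmem Q v hs, ?_⟩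
  rw [pow_zero, one_mul]
  change _ = ι (algebraMap K c.F s * w j)
  rw [map_mul, AlgHom.commutes]
  rfl

private theorem k5_K (Q : DP K QBar) (v : Pl K) {π : 𝓞 K}
    (hπ : v.valuation K (π : K) = WithZero.exp (-1 : ℤ)) {m : ℕ} {x : K}
    (hx : v.valuation K x ≤ WithZero.exp (-(m : ℤ))) : Nr (Q.P v) π m (algebraMap K QBar x) :=
  (nr_K (Q.prime v) (Q.under v) hπ x).2 hx

private theorem k5_K0 (Q : DP K QBar) (v : Pl K) {π : 𝓞 K}
    (hπ : v.valuation K (π : K) = WithZero.exp (-1 : ℤ)) {x : K}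
    (hx : v.valuation K x ≤ 1) : Nr (Q.P v) π 0 (algebraMap K QBar x) :=
  k5_K Q v hπ (by simpa using hx)

omit [NumberField K] in
private theorem k5_map_lin {c : Cb K} (ι : c.F →ₐ[K] QBar) (w : Fin 2 → c.F) (x : Fin 2 → K) :
    ι (lin w x) = algebraMap K QBar (x 0) * ι (w 0) + algebraMap K QBar (x 1) * ι (w 1) := by
  unfold lin
  rw [map_add, map_mul, map_mul, AlgHom.commutes, AlgHom.commutes]

omit [NumberField K] in
private theorem k5_card (c : Cb K) : Fintype.card (c.F →ₐ[K] QBar) = 3 := by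
  rw [AlgHom.card K c.F QBar, c.deg]

private theorem k5_c1 {v : Pl K} {m : ℕ} {f f' : Fin 4 → K} (hf : In v f) (hf' : In v f')
    (hc : Cg v m f f') {x : Fin 2 → K} (hx : In v x) :
    k5R v (WithZero.exp (-(m : ℤ))) (c1 f x) (c1 f' x) ∧
    k5R v (WithZero.exp (-(m : ℤ))) (c2 f x) (c2 f' x) ∧
    k5R v (WithZero.exp (-(m : ℤ))) (c3 f x) (c3 f' x) := by
  have hF : ∀ i, k5R v (WithZero.exp (-(m : ℤ))) (f i) (f' i) := fun i => ⟨hf i, hf' i, hc i⟩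
  have hX : ∀ i, k5R v (WithZero.exp (-(m : ℤ))) (x i) (x i) := fun i => k5_const (hx i)
  have h2 : k5R v (WithZero.exp (-(m : ℤ))) (2 : K) 2 := k5_const (k5_num 2)
  have h3 : k5R v (WithZero.exp (-(m : ℤ))) (3 : K) 3 := k5_const (k5_num 3)
  refine ⟨?_, ?_, ?_⟩
  · unfold c1
    exact k5_add (k5_mul (k5_neg (hF 1)) (hX 0)) (k5_mul (hF 2) (hX 1))
  · unfold c2
    exact k5_add (k5_add (k5_mul (k5_mul (hF 0) (hF 2)) (k5_pow (hX 0) 1))
      (k5_mul (k5_mul (k5_sub (k5_mul (k5_mul h3 (hF 0)) (hF 3)) (k5_mul (hF 1) (hF 2))) (hX 0)) (hX 1)))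
      (k5_mul (k5_mul (hF 1) (hF 3)) (k5_pow (hX 1) 1))
  · unfold c3
    refine k5_add (k5_sub (k5_add ?_ ?_) ?_) ?_
    · exact k5_mul (k5_mul (k5_neg (k5_pow (hF 0) 1)) (hF 3)) (k5_pow (hX 0) 2)
    · exact k5_mul (k5_mul (k5_mul (hF 0) (k5_sub (k5_pow (hF 2) 1)
        (k5_mul (k5_mul h2 (hF 1)) (hF 3)))) (k5_pow (hX 0) 1)) (hX 1)
    · exact k5_mul (k5_mul (k5_mul (hF 3) (k5_sub (k5_pow (hF 1) 1)
        (k5_mul (k5_mul h2 (hF 0)) (hF 2)))) (hX 0)) (k5_pow (hX 1) 1)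
    · exact k5_mul (k5_mul (hF 0) (k5_pow (hF 3) 1)) (k5_pow (hX 1) 2)

/-- one vector -/
private theorem k5_one (Q : DP K QBar) (v : Pl K) {π : 𝓞 K}
    (hπ : v.valuation K (π : K) = WithZero.exp (-1 : ℤ)) (m : ℕ) (c c' : Cb K)
    {f f' : Fin 4 → K} {w : Fin 2 → c.F} {w' : Fin 2 → c'.F} (h : Lv f w) (h' : Lv f' w')
    (hf : In v f) (hf' : In v f') (hc : Cg v (3 * m) f f') (ι' : c'.F →ₐ[K] QBar)
    {τ : Fin 3 → (c.F →ₐ[K] QBar)} (hτ : Function.Injective τ) {x : Fin 2 → K} (hx : In v x) :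
    ∃ i : Fin 3, Nr (Q.P v) π m (ι' (lin w' x) - τ i (lin w x)) := by
  obtain ⟨T, hT⟩ : ∃ T : QBar, T = ι' (lin w' x) := ⟨_, rfl⟩
  have hP := Q.prime v
  have hprod := lin_prod c.deg h hτ x T
  have hcub : T ^ 3 - algebraMap K QBar (c1 f' x) * T ^ 2 + algebraMap K QBar (c2 f' x) * T -
      algebraMap K QBar (c3 f' x) = 0 := by
    have h1 := congrArg ι' (lin_cub h' x)
    simpa only [map_sub, map_add, map_mul, map_pow, AlgHom.commutes, map_zero, ← hT] using h1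
  obtain ⟨hc1, hc2, hc3⟩ := k5_c1 hf hf' hc hx
  have hT0 : Nr (Q.P v) π 0 T := by
    rw [hT, k5_map_lin]
    exact nr_add hP (nr_mul hP (k5_K0 Q v hπ (hx 0)) (k5_w Q v h' hf' ι' 0))
      (nr_mul hP (k5_K0 Q v hπ (hx 1)) (k5_w Q v h' hf' ι' 1))
  have hT2 : Nr (Q.P v) π 0 (T ^ 2) := by
    rw [sq]
    exact nr_mul hP hT0 hT0
  have hval : (T - τ 0 (lin w x)) * (T - τ 1 (lin w x)) * (T - τ 2 (lin w x)) =
      algebraMap K QBar (c2 f x - c2 f' x) * T - algebraMap K QBar (c1 f x - c1 f' x) * T ^ 2 -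
        algebraMap K QBar (c3 f x - c3 f' x) := by
    rw [← hprod, map_sub, map_sub, map_sub]
    linear_combination hcub
  have hNr : Nr (Q.P v) π (3 * m) ((T - τ 0 (lin w x)) * (T - τ 1 (lin w x)) * (T - τ 2 (lin w x))) := by
    rw [hval]
    refine nr_sub hP (nr_sub hP ?_ ?_) ?_
    · exact nr_mul hP (k5_K Q v hπ hc2.2.2) hT0
    · exact nr_mul hP (k5_K Q v hπ hc1.2.2) hT2
    · exact k5_K Q v hπ hc3.2.2
  rw [← hT]
  rcases nr_prod hP (Q.under v) hπ hNr with h1 | h1 | h1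
  · exact ⟨0, h1⟩
  · exact ⟨1, h1⟩
  · exact ⟨2, h1⟩

private def k5X : Fin 4 → Fin 2 → ℤ := ![![1, 0], ![0, 1], ![1, 1], ![1, -1]]

private theorem k5X_dt : ∀ t t' : Fin 4, t ≠ t' → ∃ κ ∈ ({1, -1, 2, -2} : Finset ℤ),
    κ * (k5X t 0 * k5X t' 1 - k5X t 1 * k5X t' 0) = 2 := by
  decide

theorem ex_close (Q : DP K QBar) (v : Pl K) {π : 𝓞 K}
    (hπ : v.valuation K (π : K) = WithZero.exp (-1 : ℤ)) (m : ℕ) (c c' : Cb K)
    {f f' : Fin 4 → K} {w : Fin 2 → c.F} {w' : Fin 2 → c'.F} (h : Lv f w) (h' : Lv f' w')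
    (hf : In v f) (hf' : In v f') (hc : Cg v (3 * m) f f') (ι' : c'.F →ₐ[K] QBar) :
    ∃ ι : c.F →ₐ[K] QBar, Close (Q.P v) π m w w' ι ι' := by
  have hP := Q.prime v
  obtain ⟨τ⟩ : Nonempty (Fin 3 ≃ (c.F →ₐ[K] QBar)) :=
    ⟨(Fintype.equivFinOfCardEq (k5_card c)).symm⟩
  have hint : ∀ (n : ℤ), v.valuation K (n : K) ≤ 1 := by
    intro n
    have h1 := val_int v (n : 𝓞 K)
    have e : ((n : 𝓞 K) : K) = n := map_intCast (algebraMap (𝓞 K) K) n
    rwa [e] at h1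
  have hX : ∀ t : Fin 4, In v (fun j => (k5X t j : K)) := fun t j => hint _
  choose i hi using fun t : Fin 4 => k5_one Q v hπ m c c' h h' hf hf' hc ι' τ.injective (hX t)
  obtain ⟨t, t', htt', hii⟩ : ∃ t t' : Fin 4, t ≠ t' ∧ i t = i t' :=
    Fintype.exists_ne_map_eq_of_card_lt i (by simp)
  obtain ⟨κ, -, hκ⟩ := k5X_dt t t' htt'
  have h1 := hi t
  have h2 := hi t'
  rw [← hii] at h2
  rw [k5_map_lin, k5_map_lin] at h1 h2
  obtain ⟨D, hD⟩ : ∃ D : Fin 2 → QBar, ∀ j, D j = ι' (w' j) - τ (i t) (w j) := ⟨fun j => _, fun j => rfl⟩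
  have e1 : ∀ s : Fin 4, algebraMap K QBar (k5X s 0 : K) * ι' (w' 0) +
      algebraMap K QBar (k5X s 1 : K) * ι' (w' 1) -
      (algebraMap K QBar (k5X s 0 : K) * τ (i t) (w 0) + algebraMap K QBar (k5X s 1 : K) * τ (i t) (w 1)) =
      (k5X s 0 : QBar) * D 0 + (k5X s 1 : QBar) * D 1 := by
    intro s
    rw [hD, hD, map_intCast, map_intCast]
    ring
  have h1' : Nr (Q.P v) π m ((k5X t 0 : QBar) * D 0 + (k5X t 1 : QBar) * D 1) := by
    rw [← e1]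
    exact h1
  have h2' : Nr (Q.P v) π m ((k5X t' 0 : QBar) * D 0 + (k5X t' 1 : QBar) * D 1) := by
    rw [← e1]
    exact h2
  have hnr : ∀ n : ℤ, Nr (Q.P v) π 0 (n : QBar) := by
    intro n
    have h3 := k5_K0 Q v hπ (hint n)
    rwa [map_intCast] at h3
  have hκ' : (κ : QBar) * ((k5X t 0 : QBar) * (k5X t' 1 : QBar) - (k5X t 1 : QBar) * (k5X t' 0 : QBar)) = 2 := by
    exact_mod_cast hκ
  refine ⟨τ (i t), fun j => ?_⟩
  rw [← hD]
  have hmul : ∀ (a b : ℤ) (y z : QBar), Nr (Q.P v) π m y → Nr (Q.P v) π m z →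
      Nr (Q.P v) π m ((κ : QBar) * ((a : QBar) * y - (b : QBar) * z)) := by
    intro a b y z hy hz
    have h5 : Nr (Q.P v) π (0 + m) ((a : QBar) * y) := nr_mul hP (hnr a) hy
    have h6 : Nr (Q.P v) π (0 + m) ((b : QBar) * z) := nr_mul hP (hnr b) hz
    have h7 : Nr (Q.P v) π (0 + (0 + m)) ((κ : QBar) * ((a : QBar) * y - (b : QBar) * z)) :=
      nr_mul hP (hnr κ) (nr_sub hP h5 h6)
    simpa using h7
  fin_cases j
  · have h4 := hmul (k5X t' 1) (k5X t 1) _ _ h1' h2'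
    have e : (κ : QBar) * ((k5X t' 1 : QBar) * ((k5X t 0 : QBar) * D 0 + (k5X t 1 : QBar) * D 1) -
        (k5X t 1 : QBar) * ((k5X t' 0 : QBar) * D 0 + (k5X t' 1 : QBar) * D 1)) = 2 * D 0 := by
      linear_combination D 0 * hκ'
    rw [e] at h4
    exact h4
  · have h4 := hmul (k5X t 0) (k5X t' 0) _ _ h2' h1'
    have e : (κ : QBar) * ((k5X t 0 : QBar) * ((k5X t' 0 : QBar) * D 0 + (k5X t' 1 : QBar) * D 1) -
        (k5X t' 0 : QBar) * ((k5X t 0 : QBar) * D 0 + (k5X t 1 : QBar) * D 1)) = 2 * D 1 := by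
      linear_combination D 1 * hκ'
    rw [e] at h4
    exact h4

theorem un_close (Q : DP K QBar) (v : Pl K) {π : 𝓞 K}
    (hπ : v.valuation K (π : K) = WithZero.exp (-1 : ℤ)) {m B e : ℕ} (c : Cb K)
    {f : Fin 4 → K} {w : Fin 2 → c.F} (h : Lv f w) (hf : In v f)
    (hB : WithZero.exp (-(B : ℤ)) ≤ v.valuation K (disc f))
    (he : v.valuation K (2 : K) = WithZero.exp (-(e : ℤ))) (hm : B + 2 * e < m)
    {ι₁ ι₂ : c.F →ₐ[K] QBar}
    (hcl : ∀ j : Fin 2, Nr (Q.P v) π m (2 * (ι₁ (w j) - ι₂ (w j)))) : ι₁ = ι₂ := by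
  by_contra hne
  have hP := Q.prime v
  obtain ⟨ι₃, h3⟩ : ∃ ι₃ : c.F →ₐ[K] QBar, ι₃ ∉ ({ι₁, ι₂} : Finset (c.F →ₐ[K] QBar)) := by
    by_contra hcon
    push Not at hcon
    have h4 : Finset.univ ⊆ ({ι₁, ι₂} : Finset (c.F →ₐ[K] QBar)) := fun x _ => hcon x
    have h5 := Finset.card_le_card h4
    rw [Finset.card_univ, k5_card c] at h5
    have h6 : ({ι₁, ι₂} : Finset (c.F →ₐ[K] QBar)).card ≤ 2 := Finset.card_le_two
    omega
  rw [Finset.mem_insert, Finset.mem_singleton, not_or] at h3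
  have hτ : Function.Injective (![ι₁, ι₂, ι₃] : Fin 3 → (c.F →ₐ[K] QBar)) := by
    intro a b hab
    fin_cases a <;> fin_cases b <;> first
      | rfl
      | exact absurd hab hne
      | exact absurd hab.symm hne
      | exact absurd hab h3.1
      | exact absurd hab.symm h3.1
      | exact absurd hab h3.2
      | exact absurd hab.symm h3.2
  obtain ⟨-, -, hdisc, -⟩ := lv_emb c.deg h hτ
  change algebraMap K QBar (disc f) = ((ι₂ (w 0) - ι₁ (w 0)) * (ι₃ (w 1) - ι₁ (w 1)) -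
    (ι₃ (w 0) - ι₁ (w 0)) * (ι₂ (w 1) - ι₁ (w 1))) ^ 2 at hdisc
  have h0 : ∀ (ι : c.F →ₐ[K] QBar) (j : Fin 2), Nr (Q.P v) π 0 (ι (w j)) := fun ι j =>
    k5_w Q v h hf ι j
  have hD : Nr (Q.P v) π m (2 * ((ι₂ (w 0) - ι₁ (w 0)) * (ι₃ (w 1) - ι₁ (w 1)) -
      (ι₃ (w 0) - ι₁ (w 0)) * (ι₂ (w 1) - ι₁ (w 1)))) := by
    have e : 2 * ((ι₂ (w 0) - ι₁ (w 0)) * (ι₃ (w 1) - ι₁ (w 1)) -
        (ι₃ (w 0) - ι₁ (w 0)) * (ι₂ (w 1) - ι₁ (w 1))) =
        (2 * (ι₁ (w 1) - ι₂ (w 1))) * (ι₃ (w 0) - ι₁ (w 0)) -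
          (2 * (ι₁ (w 0) - ι₂ (w 0))) * (ι₃ (w 1) - ι₁ (w 1)) := by ring
    rw [e]
    refine nr_sub hP ?_ ?_
    · exact nr_mul hP (hcl 1) (nr_sub hP (h0 ι₃ 0) (h0 ι₁ 0))
    · exact nr_mul hP (hcl 0) (nr_sub hP (h0 ι₃ 1) (h0 ι₁ 1))
  have hD2 := nr_mul hP hD hD
  have e2 : (2 * ((ι₂ (w 0) - ι₁ (w 0)) * (ι₃ (w 1) - ι₁ (w 1)) -
      (ι₃ (w 0) - ι₁ (w 0)) * (ι₂ (w 1) - ι₁ (w 1)))) *
      (2 * ((ι₂ (w 0) - ι₁ (w 0)) * (ι₃ (w 1) - ι₁ (w 1)) -
      (ι₃ (w 0) - ι₁ (w 0)) * (ι₂ (w 1) - ι₁ (w 1)))) = algebraMap K QBar (2 * 2 * disc f) := by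
    rw [map_mul, hdisc, map_mul, map_ofNat]
    ring
  rw [e2, nr_K hP (Q.under v) hπ, map_mul, map_mul, he] at hD2
  have h7 : WithZero.exp (-(e : ℤ)) * WithZero.exp (-(e : ℤ)) * WithZero.exp (-(B : ℤ)) ≤
      WithZero.exp (-((m + m : ℕ) : ℤ)) := (mul_le_mul_right hB _).trans hD2
  rw [← WithZero.exp_add, ← WithZero.exp_add, WithZero.exp_le_exp] at h7
  push_cast at h7
  omega

private theorem k5_in (c : Cb K) (v : Pl K) {f : Fin 4 → K} {w : Fin 2 → c.F} (h : Lv f w)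
    (hl : LocEq v (LF w) (OO K 2)) : In v f ∧ ¬ NML v f := by
  have hL : Lt (LF (K := K) w) := lf_lt c.deg h
  have hV : f ∈ VL (LF w) := lf_vl c.deg h
  constructor
  · have h1 := vl_in (bas_loc (bas_oo v) (loceq_symm hl)) hV
    rwa [gf_id] at h1
  · intro hN
    exact (nm_loc c.deg h hL hV v).1 ((nm_iff hL hl hV).2 hN) (loceq_refl _)

theorem krasner (Q : DP K QBar) (v : Pl K) : ∃ k : ℕ, ∀ (c c' : Cu K) (f f' : Fin 4 → K)
    (w : Fin 2 → c.F) (w' : Fin 2 → c'.F), Lv f w → Lv f' w' → LocEq v (LF w) (OO K 2) →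
      LocEq v (LF w') (OO K 2) → Cg v k f f' → LEq {v} Q c c' := by
  obtain ⟨B, hB⟩ := disc_bd v
  obtain ⟨π, hπ⟩ := unif v
  obtain ⟨e, he⟩ : ∃ e : ℕ, v.valuation K (2 : K) = WithZero.exp (-(e : ℤ)) := by
    obtain ⟨n, hn⟩ := val_exp (l := v) (x := (2 : K)) two_ne_zero
    have h1 : v.valuation K ((2 : ℕ) : K) ≤ 1 := k5_num 2
    have h2 : WithZero.exp n ≤ WithZero.exp (0 : ℤ) := by
      rw [← hn]
      exact_mod_cast h1
    rw [WithZero.exp_le_exp] at h2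
    refine ⟨n.natAbs, ?_⟩
    rw [hn]
    congr 1
    omega
  refine ⟨3 * (B + 2 * e + 1), ?_⟩
  intro c c' f f' w w' h h' hl hl' hc v' hv'
  rw [Finset.mem_singleton] at hv'
  subst hv'
  obtain ⟨m, hm⟩ : ∃ m : ℕ, m = B + 2 * e + 1 := ⟨_, rfl⟩
  rw [← hm] at hc
  obtain ⟨hf, hN⟩ := k5_in (toCb c) v' (w := w) h hl
  obtain ⟨hf', hN'⟩ := k5_in (toCb c') v' (w := w') h' hl'
  have hBf := hB f hf hN
  have hBf' := hB f' hf' hN'
  have hex : ∀ ι' : c'.F →ₐ[K] QBar, ∃ ι : c.F →ₐ[K] QBar, Close (Q.P v') π m w w' ι ι' :=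
    fun ι' => ex_close Q v' hπ m (toCb c) (toCb c') h h' hf hf' hc ι'
  have hun : ∀ (ι₁ ι₂ : c.F →ₐ[K] QBar) (ι' : c'.F →ₐ[K] QBar), Close (Q.P v') π m w w' ι₁ ι' →
      Close (Q.P v') π m w w' ι₂ ι' → ι₁ = ι₂ := by
    intro ι₁ ι₂ ι' h1 h2
    have h4 : ∀ j : Fin 2, Nr (Q.P v') π m (2 * (ι₁ (w j) - ι₂ (w j))) := by
      intro j
      have e3 : 2 * (ι₁ (w j) - ι₂ (w j)) = 2 * (ι' (w' j) - ι₂ (w j)) - 2 * (ι' (w' j) - ι₁ (w j)) := by
        ring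
      rw [e3]
      exact nr_sub (Q.prime v') (h2 j) (h1 j)
    exact un_close Q v' hπ (m := m) (B := B) (e := e) (toCb c) h hf hBf he (by omega) h4
  have hun' : ∀ (ι'₁ ι'₂ : c'.F →ₐ[K] QBar) (ι : c.F →ₐ[K] QBar), Close (Q.P v') π m w w' ι ι'₁ →
      Close (Q.P v') π m w w' ι ι'₂ → ι'₁ = ι'₂ := by
    intro ι'₁ ι'₂ ι h1 h2
    have h4 : ∀ j : Fin 2, Nr (Q.P v') π m (2 * (ι'₁ (w' j) - ι'₂ (w' j))) := by
      intro j
      have e3 : 2 * (ι'₁ (w' j) - ι'₂ (w' j)) = 2 * (ι'₁ (w' j) - ι (w j)) - 2 * (ι'₂ (w' j) - ι (w j)) := by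
        ring
      rw [e3]
      exact nr_sub (Q.prime v') (h1 j) (h2 j)
    exact un_close Q v' hπ (m := m) (B := B) (e := e) (toCb c') h' hf' hBf' he (by omega) h4
  choose ψ hψ using hex
  have hinj : Function.Injective ψ := by
    intro a b hab
    have h1 := hψ b
    rw [← hab] at h1
    exact hun' a b (ψ a) (hψ a) h1
  have hbij : Function.Bijective ψ := by
    rw [Fintype.bijective_iff_injective_and_card]
    exact ⟨hinj, (k5_card (toCb c')).trans (k5_card (toCb c)).symm⟩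
  refine ⟨(Equiv.ofBijective ψ hbij).symm, fun σ hσ ι => ?_⟩
  rw [Equiv.symm_apply_eq]
  change (σ : QBar →ₐ[K] QBar).comp ι = ψ ((σ : QBar →ₐ[K] QBar).comp ((Equiv.ofBijective ψ hbij).symm ι))
  obtain ⟨ι', hι'⟩ : ∃ ι' : c'.F →ₐ[K] QBar, ι' = (Equiv.ofBijective ψ hbij).symm ι := ⟨_, rfl⟩
  have h5 : ψ ι' = ι := by
    rw [hι']
    exact (Equiv.ofBijective ψ hbij).apply_symm_apply ι
  rw [← hι']
  refine hun _ _ ((σ : QBar →ₐ[K] QBar).comp ι') ?_ (hψ _)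
  intro j
  have h6 := nr_dec hσ (hψ ι' j)
  rw [h5] at h6
  have e4 : σ (2 * (ι' (w' j) - ι (w j))) = 2 * (((σ : QBar →ₐ[K] QBar).comp ι') (w' j) -
      ((σ : QBar →ₐ[K] QBar).comp ι) (w j)) := by
    rw [map_mul, map_sub, map_ofNat]
    rfl
  rwa [e4] at h6

end H77.MF
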